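import Mathlib

/-! The cut and choose game for the bounded ideal, and generic measurability. -/

set_option autoImplicit false

namespace Pool.Agent.H341Q.BD

open Cardinal

universe u v

/-- `Choose` wins the game `U(κ, bd_κ, <γ)`.

In round `α < γ` the current set is `⋂_{β<α} C β` (a subset of `κ`), Cut splits it into two
disjoint sets `A α` and `B α`, and Choose answers with `C α`.  A strategy `σ` of Choose gives an
answer for each round `α` and each sequence of moves `(A β, B β)_{β ≤ α}` of Cut.  It is winning if,
for all moves of Cut which follow the rules, its answers follow the rules and are unbounded. -/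
def ChooseWinsBd (κ γ : Cardinal.{u}) : Prop :=
  ∃ σ : (α : Ordinal.{u}) → (Set.Iic α → Set κ.ord.ToType × Set κ.ord.ToType) →
      Set κ.ord.ToType,
    ∀ A B C : Ordinal.{u} → Set κ.ord.ToType,
      (∀ α < γ.ord, A α ∪ B α = {x | ∀ β < α, x ∈ C β} ∧ Disjoint (A α) (B α)) →
      (∀ α < γ.ord, C α = σ α (fun β => (A β, B β))) →
      ∀ α < γ.ord, (C α = A α ∨ C α = B α) ∧ ¬ BddAbove (C α)

/-- A notion of forcing is `<γ`-closed if every decreasing sequence of conditions of length less
than `γ` has a lower bound. -/
def Closed (P : Type v) [Preorder P] (γ : Cardinal.{u}) : Prop :=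
  ∀ δ < γ.ord, ∀ s : Ordinal.{u} → P, (∀ α β, α < β → β < δ → s β ≤ s α) →
    ∃ q, ∀ α < δ, q ≤ s α

/-- A `P`-name for a uniform `V`-normal `V`-ultrafilter on the well-order `K` (for example a
cardinal `κ`).  It is given by the relation `R p X`, which says that `p` forces `X` to be a member
of the ultrafilter, for conditions `p` and subsets `X` of `K` in the ground model. -/
structure GenericMeasure (P : Type v) [Preorder P] (K : Type u) [LinearOrder K] where
  /-- `p` forces that `X` is in the ultrafilter -/
  R : P → Set K → Prop
  /-- what is forced by `p` is forced by all extensions -/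
  mono : ∀ p q X, q ≤ p → R p X → R q X
  /-- what is forced by a dense set of extensions of `p` is forced by `p` -/
  regular : ∀ p X, (∀ q ≤ p, ∃ r ≤ q, R r X) → R p X
  /-- closure under supersets -/
  superset : ∀ p X Y, X ⊆ Y → R p X → R p Y
  /-- closure under intersections -/
  inter : ∀ p X Y, R p X → R p Y → R p (X ∩ Y)
  /-- it is forced that `X` or its complement is in the ultrafilter -/
  ultra : ∀ p X, ∃ q ≤ p, R q X ∨ R q Xᶜ
  /-- bounded sets are not in the ultrafilter -/
  uniform : ∀ p X, BddAbove X → ¬ R p X
  /-- if `f` is regressive on a set in the ultrafilter, then it is constant on a set in the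
  ultrafilter -/
  normal : ∀ p X (f : K → K), R p X → (∀ x ∈ X, f x < x) →
    ∃ q ≤ p, ∃ c, R q {x | x ∈ X ∧ f x = c}

/-- `κ` is generically measurable as witnessed by `P`. -/
def GenericallyMeasurable (P : Type v) [Preorder P] (κ : Cardinal.{u}) : Prop :=
  Nonempty (GenericMeasure P κ.ord.ToType)

/-- `κ` is strongly compact: it is uncountable, and every `κ`-complete proper filter extends to a
`κ`-complete ultrafilter. -/
def StronglyCompact (κ : Cardinal.{u}) : Prop :=
  ℵ₀ < κ ∧ ∀ (X : Type u) (F : Filter X), F.NeBot → CardinalInterFilter F κ →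
    ∃ U : Ultrafilter X, (U : Filter X) ≤ F ∧ CardinalInterFilter (U : Filter X) κ

end Pool.Agent.H341Q.BD
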