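import Mathlib
import Pool.Agent.H341Q.BDDefs

/-! Choose may win the bounded-ideal game although `κ` is not generically measurable. -/

set_option autoImplicit false
set_option linter.all false

namespace Pool.Agent.H341Q.BD

open Cardinal Order Set

universe u v

lemma exists_bd {K : Type u} [LinearOrder K] [NoMaxOrder K] {s : Set K} (h : #s < cof K) :
    ∃ b, ∀ x ∈ s, x < b := by
  have hb : BddAbove s := BddAbove.of_not_isCofinal fun hc => (cof_le hc).not_gt h
  obtain ⟨b, hb⟩ := hb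
  obtain ⟨c, hc⟩ := exists_gt b
  exact ⟨c, fun x hx => (hb hx).trans_lt hc⟩

section Gen

variable {P : Type v} [Preorder P] {K : Type u} [LinearOrder K]

lemma forces_compl (G : GenericMeasure P K) (p : P) (X : Set K) (hX : BddAbove X) :
    G.R p Xᶜ := by
  refine G.regular p _ fun q hq => ?_
  obtain ⟨r, hr, h | h⟩ := G.ultra q X
  · exact absurd h (G.uniform r X hX)
  · exact ⟨r, hr, h⟩

/-- a partition into few pieces is decided -/
lemma decide_piece [NoMaxOrder K] [Nonempty K] (G : GenericMeasure P K) {M : Type u}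
    (hM : #M < cof K) (hM' : #M ≤ #K) (g : K → M) (p : P) :
    ∃ q ≤ p, ∃ m, G.R q {x | g x = m} := by
  obtain ⟨e⟩ : Nonempty (M ↪ K) := hM'
  obtain ⟨b, hb⟩ := exists_bd (s := range e) (mk_range_le.trans_lt hM)
  have h1 : G.R p (Iio b)ᶜ := forces_compl G p _ ⟨b, fun x hx => (le_of_lt hx)⟩
  obtain ⟨q, hq, c, hc⟩ := G.normal p (Iio b)ᶜ (fun x => e (g x)) h1 (by
    intro x hx
    exact (hb _ ⟨g x, rfl⟩).trans_le (not_lt.1 hx))
  have h2 : {x | x ∈ (Iio b)ᶜ ∧ e (g x) = c}.Nonempty := by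
    by_contra hcon
    rw [not_nonempty_iff_eq_empty] at hcon
    rw [hcon] at hc
    exact G.uniform q ∅ bddAbove_empty hc
  obtain ⟨x, _, hx⟩ := h2
  refine ⟨q, hq, g x, G.superset q _ _ ?_ hc⟩
  rintro y ⟨_, hy⟩
  exact e.injective (hy.trans hx.symm)

theorem not_generic [NoMaxOrder K] [Nonempty K] [Nonempty P] {γ θ μ : Cardinal.{u}} (hK : cof K = #K)
    (hθγ : θ < γ) (hγK : γ ≤ #K) (hμK : μ < #K) (hK0 : 1 < #K) (hpow : #K ≤ μ ^ θ)
    (hP : Closed P γ) (G : GenericMeasure P K) : False := by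
  classical
  obtain ⟨f⟩ : Nonempty (K ↪ (θ.ord.ToType → μ.ord.ToType)) := by
    have h1 : #(θ.ord.ToType → μ.ord.ToType) = μ ^ θ := by
      rw [← power_def, mk_ord_toType, mk_ord_toType]
    rw [← h1] at hpow
    exact hpow
  have hdec : ∀ (i : θ.ord.ToType) (p : P), ∃ q ≤ p, ∃ m, G.R q {x | f x i = m} := by
    intro i p
    refine decide_piece G ?_ ?_ (fun x => f x i) p
    · rw [hK, mk_ord_toType]; exact hμK
    · rw [mk_ord_toType]; exact hμK.le
  have p₀ : P := Classical.arbitrary P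
  -- the decreasing sequence
  let Good : (α : Ordinal.{u}) → (hα : α < θ.ord) → ((β : Ordinal.{u}) → β < α → P) → P → Prop :=
    fun α hα r q => (∀ β (h : β < α), q ≤ r β h) ∧
      ∃ m, G.R q {x | f x (Ordinal.ToType.mk ⟨α, hα⟩) = m}
  let s : Ordinal.{u} → P := (wellFounded_lt (α := Ordinal.{u})).fix fun α r =>
    if h : ∃ hα : α < θ.ord, ∃ q, Good α hα r q then Classical.choose h.2 else p₀
  have hs : ∀ α (hα : α < θ.ord), (∃ q, Good α hα (fun β _ => s β) q) →
      Good α hα (fun β _ => s β) (s α) := by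
    intro α hα hex
    have h : ∃ hα : α < θ.ord, ∃ q, Good α hα (fun β _ => s β) q := ⟨hα, hex⟩
    have h1 : s α = Classical.choose h.2 := by
      show WellFounded.fix _ _ α = _
      rw [WellFounded.fix_eq]
      exact dif_pos h
    rw [h1]
    exact Classical.choose_spec h.2
  have hlt : θ.ord < γ.ord := ord_lt_ord.2 hθγ
  have main : ∀ α (hα : α < θ.ord), Good α hα (fun β _ => s β) (s α) := by
    intro α
    induction α using WellFoundedLT.induction with
    | ind α IH =>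
    intro hα
    apply hs α hα
    obtain ⟨q, hq⟩ := hP α (hα.trans hlt) s (fun β β' h1 h2 =>
      (IH β' h2 (h2.trans hα)).1 β h1)
    obtain ⟨r, hr, hm⟩ := hdec (Ordinal.ToType.mk ⟨α, hα⟩) q
    exact ⟨r, fun β hβ => hr.trans (hq β hβ), hm⟩
  obtain ⟨q, hq⟩ := hP θ.ord hlt s (fun α β h1 h2 => (main β h2).1 α h1)
  have hm : ∀ i : θ.ord.ToType, ∃ m, G.R q {x | f x i = m} := by
    intro i
    obtain ⟨m, hm⟩ := (main (Ordinal.ToType.toOrd i).1 (Ordinal.ToType.toOrd i).2).2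
    have hlt' : (Ordinal.ToType.toOrd i).1 < θ.ord := (Ordinal.ToType.toOrd i).2
    refine ⟨m, G.mono _ _ _ (hq _ hlt') ?_⟩
    have h1 : (Ordinal.ToType.mk ⟨(Ordinal.ToType.toOrd i).1, (Ordinal.ToType.toOrd i).2⟩ :
      θ.ord.ToType) = i := OrderIso.apply_symm_apply _ i
    rw [h1] at hm
    exact hm
  choose m hm using hm
  -- the points with the decided values
  have hsub : {x | ∀ i, f x i = m i}.Subsingleton := by
    intro x hx y hy
    apply f.injective
    funext i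
    rw [hx i, hy i]
  have hbdd : BddAbove {x | ∀ i, f x i = m i} := hsub.finite.bddAbove
  have h1 : G.R q {x | ∀ i, f x i = m i}ᶜ := forces_compl G q _ hbdd
  have hne : Nonempty θ.ord.ToType := by
    by_contra hcon
    rw [not_nonempty_iff] at hcon
    have h2 : Subsingleton K := ⟨fun x y => f.injective (Subsingleton.elim _ _)⟩
    have h3 := Cardinal.le_one_iff_subsingleton.2 h2
    exact absurd hK0 (not_lt.2 h3)
  let j : K → θ.ord.ToType := fun x =>
    if h : ∃ i, f x i ≠ m i then Classical.choose h else Classical.arbitrary _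
  have hj : ∀ x ∈ ({x | ∀ i, f x i = m i}ᶜ : Set K), f x (j x) ≠ m (j x) := by
    intro x hx
    have h : ∃ i, f x i ≠ m i := by
      simpa using hx
    have h2 : j x = Classical.choose h := dif_pos h
    rw [h2]
    exact Classical.choose_spec h
  obtain ⟨r, hr, i, hi⟩ := decide_piece G (M := θ.ord.ToType) (by
    rw [hK, mk_ord_toType]; exact hθγ.trans_le hγK) (by
    rw [mk_ord_toType]; exact (hθγ.trans_le hγK).le) j q
  have h2 := G.inter r _ _ hi (G.inter r _ _ (G.mono _ _ _ hr h1) (G.mono _ _ _ hr (hm i)))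
  have h3 : ({x | j x = i} ∩ ({x | ∀ i, f x i = m i}ᶜ ∩ {x | f x i = m i}) : Set K) = ∅ := by
    rw [eq_empty_iff_forall_notMem]
    rintro x ⟨h4, h5, h6⟩
    have h7 := hj x h5
    have h4' : j x = i := h4
    rw [h4'] at h7
    exact h7 h6
  rw [h3] at h2
  exact G.uniform r ∅ bddAbove_empty h2

end Gen

section Win

theorem chooseWins {κ γ : Cardinal.{u}} (U : Ultrafilter κ.ord.ToType)
    (hU : CardinalInterFilter (U : Filter κ.ord.ToType) γ) (hunb : ∀ A ∈ U, ¬ BddAbove A) :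
    ChooseWinsBd κ γ := by
  classical
  refine ⟨fun α h => if (h ⟨α, mem_Iic.2 le_rfl⟩).1 ∈ U then (h ⟨α, mem_Iic.2 le_rfl⟩).1
    else (h ⟨α, mem_Iic.2 le_rfl⟩).2, ?_⟩
  intro A B C hAB hC
  have hmem : ∀ α < γ.ord, C α ∈ U := by
    intro α
    induction α using WellFoundedLT.induction with
    | ind α IH =>
    intro hα
    have hD : {x | ∀ β < α, x ∈ C β} ∈ U := by
      have h1 : {x | ∀ β < α, x ∈ C β} = ⋂ i : α.ToType, C (Ordinal.ToType.toOrd i).1 := by
        ext x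
        simp only [mem_setOf_eq, mem_iInter]
        constructor
        · intro h i
          exact h _ (Ordinal.ToType.toOrd i).2
        · intro h β hβ
          have := h (Ordinal.ToType.mk ⟨β, hβ⟩)
          simpa using this
      rw [h1]
      refine (Filter.cardinal_iInter_mem (c := γ) (l := (U : Filter κ.ord.ToType)) ?_).2
        fun i => IH _ (Ordinal.ToType.toOrd i).2 ((Ordinal.ToType.toOrd i).2.trans hα)
      rw [mk_toType]
      exact lt_ord.1 hα
    rw [hC α hα]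
    show (if A α ∈ U then A α else B α) ∈ U
    by_cases h : A α ∈ U
    · rw [if_pos h]; exact h
    · rw [if_neg h]
      rw [← (hAB α hα).1] at hD
      exact (Ultrafilter.union_mem_iff.1 hD).resolve_left h
  intro α hα
  refine ⟨?_, hunb _ (hmem α hα)⟩
  rw [hC α hα]
  show (if A α ∈ U then A α else B α) = A α ∨ (if A α ∈ U then A α else B α) = B α
  by_cases h : A α ∈ U
  · rw [if_pos h]; exact Or.inl rfl
  · rw [if_neg h]; exact Or.inr rfl

lemma cof_eq {κ : Cardinal.{u}} (hκ : κ.IsRegular) : cof κ.ord.ToType = κ := by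
  rw [Ordinal.cof_toType, hκ.cof_ord]

lemma nonempty_K {κ : Cardinal.{u}} (hκ : κ.IsRegular) : Nonempty κ.ord.ToType := by
  rw [Ordinal.nonempty_toType_iff]
  exact hκ.ord_pos.ne'

lemma noMax_K {κ : Cardinal.{u}} (hκ : κ.IsRegular) : NoMaxOrder κ.ord.ToType := by
  have := nonempty_K hκ
  rw [← noTopOrder_iff_noMaxOrder, ← one_lt_cof_iff, cof_eq hκ]
  exact one_lt_aleph0.trans_le hκ.aleph0_le

theorem criterion {κ γ μ θ : Cardinal.{u}} (hκ : κ.IsRegular) (hγκ : γ < κ) (hθγ : θ < γ)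
    (hμκ : μ < κ) (hpow : κ ≤ μ ^ θ)
    (hU : ∃ U : Ultrafilter κ.ord.ToType, CardinalInterFilter (U : Filter κ.ord.ToType) γ ∧
      ∀ A ∈ U, ¬ BddAbove A) :
    ChooseWinsBd κ γ ∧ ∀ (P : Type v) [Preorder P], Nonempty P → Closed P γ →
      ¬ GenericallyMeasurable P κ := by
  obtain ⟨U, h1, h2⟩ := hU
  refine ⟨chooseWins U h1 h2, ?_⟩
  intro P _ hne hcl hG
  obtain ⟨G⟩ := hG
  have := nonempty_K hκ
  have := noMax_K hκ
  refine not_generic (γ := γ) (θ := θ) (μ := μ) ?_ hθγ ?_ ?_ ?_ ?_ hcl G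
  · rw [cof_eq hκ, mk_ord_toType]
  · rw [mk_ord_toType]; exact hγκ.le
  · rw [mk_ord_toType]; exact hμκ
  · rw [mk_ord_toType]; exact one_lt_aleph0.trans_le hκ.aleph0_le
  · rw [mk_ord_toType]; exact hpow

/-- uniform ultrafilters from strong compactness -/
lemma exists_uniform {κ' κ : Cardinal.{u}} (h : StronglyCompact κ') (hκ : κ.IsRegular)
    (hle : κ' ≤ κ) : ∃ U : Ultrafilter κ.ord.ToType,
      CardinalInterFilter (U : Filter κ.ord.ToType) κ' ∧ ∀ A ∈ U, ¬ BddAbove A := by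
  have := nonempty_K hκ
  have := noMax_K hκ
  obtain ⟨U, hU, hUc⟩ := h.2 κ.ord.ToType Filter.atTop inferInstance ⟨by
    intro S hS hmem
    choose! b hb using fun s hs => Filter.mem_atTop_sets.1 (hmem s hs)
    obtain ⟨c, hc⟩ := exists_bd (K := κ.ord.ToType) (s := b '' S) (by
      rw [cof_eq hκ]
      exact (mk_image_le.trans_lt hS).trans_le hle)
    rw [Filter.mem_atTop_sets]
    refine ⟨c, fun x hx s hs => hb s hs x ((hc _ ⟨s, hs, rfl⟩).le.trans hx)⟩⟩
  refine ⟨U, hUc, fun A hA hbd => ?_⟩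
  obtain ⟨b, hb⟩ := hbd
  obtain ⟨c, hc⟩ := exists_gt b
  have h1 : Ici c ∈ (U : Filter κ.ord.ToType) := hU (Filter.mem_atTop c)
  have h2 : (A ∩ Ici c) ∈ (U : Filter κ.ord.ToType) := Filter.inter_mem hA h1
  obtain ⟨x, hx1, hx2⟩ := U.nonempty_of_mem h2
  exact absurd ((hb hx1).trans_lt hc) (not_lt.2 hx2)

theorem from_compact {κ' γ μ : Cardinal.{u}} (h : StronglyCompact κ') (hγ : γ ≤ κ') (hμ : κ' ≤ μ)
    (hcof : μ.ord.cof < γ) :
    ChooseWinsBd (succ μ) γ ∧ ∀ (P : Type v) [Preorder P], Nonempty P → Closed P γ →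
      ¬ GenericallyMeasurable P (succ μ) := by
  have hμ0 : ℵ₀ ≤ μ := h.1.le.trans hμ
  have hreg : (succ μ).IsRegular := isRegular_succ hμ0
  obtain ⟨U, hU, hU'⟩ := exists_uniform h hreg (hμ.trans (le_succ μ))
  refine criterion hreg ((hγ.trans hμ).trans_lt (lt_succ μ)) hcof (lt_succ μ)
    (succ_le_of_lt (lt_power_cof_ord hμ0)) ⟨U, ?_, hU'⟩
  exact CardinalInterFilter.of_cardinalInterFilter_of_le _ hγ

theorem main :
    (∀ κ γ μ θ : Cardinal.{u}, κ.IsRegular → γ.IsRegular → γ < κ → θ < γ → μ < κ → κ ≤ μ ^ θ →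
      (∃ U : Ultrafilter κ.ord.ToType, CardinalInterFilter (U : Filter κ.ord.ToType) γ ∧
        ∀ A ∈ U, ¬ BddAbove A) →
      ChooseWinsBd κ γ ∧ ∀ (P : Type v) [Preorder P], Nonempty P → Closed P γ →
        ¬ GenericallyMeasurable P κ) ∧
    ∀ κ' γ ν : Cardinal.{u}, StronglyCompact κ' → γ.IsRegular → ℵ₀ < γ → γ ≤ κ' →
      ∃ κ : Cardinal.{u}, κ.IsRegular ∧ ν < κ ∧ γ < κ ∧ ChooseWinsBd κ γ ∧
        ∀ (P : Type v) [Preorder P], Nonempty P → Closed P γ → ¬ GenericallyMeasurable P κ := by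
  refine ⟨fun κ γ μ θ h1 _ h2 h3 h4 h5 h6 => criterion h1 h2 h3 h4 h5 h6, ?_⟩
  intro κ' γ ν h hγ hγ0 hγκ
  let o : Ordinal.{u} := (max ν κ').ord
  let μ : Cardinal.{u} := ℵ_ (o + Ordinal.omega0)
  have hle : max ν κ' ≤ μ := by
    have h1 : o ≤ o + Ordinal.omega0 := le_self_add
    have h2 : (o + Ordinal.omega0) ≤ (ℵ_ (o + Ordinal.omega0)).ord := by
      rw [ord_aleph]
      exact Ordinal.isNormal_omega.strictMono.le_apply
    exact ord_le_ord.1 (h1.trans h2)
  have hcof : μ.ord.cof = ℵ₀ := by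
    show (ℵ_ (o + Ordinal.omega0)).ord.cof = ℵ₀
    rw [ord_aleph, Ordinal.cof_omega, Ordinal.cof_add _ Ordinal.omega0_ne_zero, Ordinal.cof_omega0]
    exact Ordinal.isSuccLimit_add _ Ordinal.isSuccLimit_omega0
  have hμ0 : ℵ₀ ≤ μ := aleph0_le_aleph _
  obtain ⟨h1, h2⟩ := from_compact.{u, v} (μ := μ) h hγκ ((le_max_right _ _).trans hle)
    (by rw [hcof]; exact hγ0)
  exact ⟨succ μ, isRegular_succ hμ0, ((le_max_left _ _).trans hle).trans_lt (lt_succ μ),
    (hγκ.trans ((le_max_right _ _).trans hle)).trans_lt (lt_succ μ), h1, h2⟩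

end Win

end Pool.Agent.H341Q.BD
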