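import Pool.Agent.H341Q.BHDigits

/-! Choosing the digits of a branch, level by level. -/

set_option autoImplicit false

namespace Pool.Agent.H341Q.BH

open Filter

lemma base_unique (b : ℕ) : ∀ (N : ℕ) (f : ℕ → ℤ), (∀ c, |f c| < b) →
    ∑ c ∈ Finset.range N, f c * (b : ℤ) ^ c = 0 → ∀ c < N, f c = 0 := by
  intro N
  induction N with
  | zero => intro f _ _ c hc; exact absurd hc (Nat.not_lt_zero c)
  | succ N ih =>
    intro f hf h
    rw [Finset.sum_range_succ'] at h
    have h1 : ∑ k ∈ Finset.range N, f (k + 1) * (b : ℤ) ^ (k + 1) =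
        b * ∑ k ∈ Finset.range N, f (k + 1) * (b : ℤ) ^ k := by
      rw [Finset.mul_sum]
      apply Finset.sum_congr rfl
      intro k _
      ring
    rw [h1, pow_zero, mul_one] at h
    have h2 : (b : ℤ) ∣ f 0 := ⟨-∑ k ∈ Finset.range N, f (k + 1) * (b : ℤ) ^ k, by linarith⟩
    have h3 : f 0 = 0 := Int.eq_zero_of_abs_lt_dvd h2 (hf 0)
    have hb : (0 : ℤ) < b := lt_of_le_of_lt (abs_nonneg _) (hf 0)
    rw [h3, add_zero] at h
    have h4 : ∑ k ∈ Finset.range N, f (k + 1) * (b : ℤ) ^ k = 0 := by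
      rcases mul_eq_zero.1 h with h5 | h5
      · exact absurd h5 hb.ne'
      · exact h5
    have h5 := ih (fun k => f (k + 1)) (fun c => hf (c + 1)) h4
    intro c hc
    cases c with
    | zero => exact h3
    | succ c => exact h5 c (by omega)

lemma abs_mapDomain_le (g : Br → ℕ) (κ : Br →₀ ℤ) (c : ℕ) :
    |Finsupp.mapDomain g κ c| ≤ wt κ := by
  unfold Finsupp.mapDomain wt
  rw [Finsupp.sum_apply]
  unfold Finsupp.sum
  refine (Finset.abs_sum_le_sum_abs _ _).trans (Finset.sum_le_sum fun a _ => ?_)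
  simp only [Finsupp.single_apply]
  split_ifs
  · exact le_rfl
  · simp

lemma exists_of_mapDomain_ne {g : Br → ℕ} {κ : Br →₀ ℤ} {c : ℕ}
    (h : Finsupp.mapDomain g κ c ≠ 0) : ∃ a ∈ κ.support, g a = c := by
  by_contra hc
  push Not at hc
  apply h
  unfold Finsupp.mapDomain
  rw [Finsupp.sum_apply]
  apply Finset.sum_eq_zero
  intro a ha
  simp only [Finsupp.single_apply]
  rw [if_neg (hc a ha)]

lemma E_eq_mapDomain (n : ℕ) (κ : Br →₀ ℤ) :
    E n κ = (Finsupp.mapDomain (idx n) κ).sum (fun c k => k * (B n : ℤ) ^ c) := by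
  rw [Finsupp.sum_mapDomain_index]
  · unfold E e
    push_cast
    rfl
  · intro c; ring
  · intro c k k'; ring

lemma mapDomain_eq_zero (n : ℕ) (κ : Br →₀ ℤ) (hw : wt κ < B n) (h : E n κ = 0) :
    Finsupp.mapDomain (idx n) κ = 0 := by
  rw [E_eq_mapDomain] at h
  set μ := Finsupp.mapDomain (idx n) κ with hμ
  obtain ⟨N, hN⟩ : ∃ N, μ.support ⊆ Finset.range N := by
    refine ⟨μ.support.sup id + 1, fun c hc => ?_⟩
    rw [Finset.mem_range]
    have := Finset.le_sup (f := id) hc
    simp only [id] at this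
    exact Nat.lt_succ_of_le this
  rw [Finsupp.sum_of_support_subset μ hN _ (by intro c _; ring)] at h
  have h1 := base_unique (B n) N μ
    (fun c => lt_of_le_of_lt (abs_mapDomain_le (idx n) κ c) hw) h
  ext c
  by_cases hc : c ∈ μ.support
  · exact h1 c (Finset.mem_range.1 (hN hc))
  · exact Finsupp.notMem_support_iff.1 hc

lemma E_add (n : ℕ) (κ κ' : Br →₀ ℤ) : E n (κ + κ') = E n κ + E n κ' := by
  unfold E
  exact Finsupp.sum_add_index' (fun a => by ring) (fun a k k' => by ring)

lemma E_neg (n : ℕ) (κ : Br →₀ ℤ) : E n (-κ) = - E n κ := by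
  have := E_add n κ (-κ)
  rw [add_neg_cancel] at this
  have h0 : E n (0 : Br →₀ ℤ) = 0 := by unfold E; exact Finsupp.sum_zero_index
  rw [h0] at this
  linarith

lemma E_single (n : ℕ) (a : Br) : E n (Finsupp.single a 1) = e n a := by
  unfold E
  rw [Finsupp.sum_single_index (by ring)]
  ring

lemma wt_add (κ κ' : Br →₀ ℤ) : wt (κ + κ') ≤ wt κ + wt κ' := by
  classical
  have h1 : wt (κ + κ') = ∑ a ∈ κ.support ∪ κ'.support, |(κ + κ') a| :=
    Finsupp.sum_of_support_subset _ Finsupp.support_add _ (by intros; simp)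
  have h2 : wt κ = ∑ a ∈ κ.support ∪ κ'.support, |κ a| :=
    Finsupp.sum_of_support_subset _ Finset.subset_union_left _ (by intros; simp)
  have h3 : wt κ' = ∑ a ∈ κ.support ∪ κ'.support, |κ' a| :=
    Finsupp.sum_of_support_subset _ Finset.subset_union_right _ (by intros; simp)
  rw [h1, h2, h3, ← Finset.sum_add_distrib]
  apply Finset.sum_le_sum
  intro a _
  rw [Finsupp.add_apply]
  exact abs_add_le _ _

lemma wt_neg (κ : Br →₀ ℤ) : wt (-κ) = wt κ := by
  unfold wt Finsupp.sum
  rw [Finsupp.support_neg]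
  apply Finset.sum_congr rfl
  intro a _
  simp only [Finsupp.neg_apply, abs_neg]

lemma wt_single (a : Br) : wt (Finsupp.single a 1) = 1 := by
  unfold wt
  rw [Finsupp.sum_single_index (by simp)]
  simp

lemma card_le_wt (κ : Br →₀ ℤ) : (κ.support.card : ℤ) ≤ wt κ := by
  unfold wt Finsupp.sum
  have : ∑ a ∈ κ.support, (1 : ℤ) ≤ ∑ a ∈ κ.support, |κ a| := by
    apply Finset.sum_le_sum
    intro a ha
    exact Int.one_le_abs (Finsupp.mem_support_iff.1 ha)
  simpa using this

/-- the digit of `y` at level `n`, corrected by `a`, is that of `κ` -/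
def Dg (n : ℕ) (y : ℝ) (a : Br) (κ : Br →₀ ℤ) : Prop :=
  ∃ k : ℤ, |(q n : ℝ) * y + ((e n a : ℝ) - (E n κ : ℝ)) / Q n - k| < 1 / (2 * Q n)

lemma Dg_eq {n : ℕ} {y : ℝ} {a b : Br} {κ μ : Br →₀ ℤ} (h1 : Dg n y a κ) (h2 : Dg n y b μ)
    (hκ : wt κ ≤ n) (hμ : wt μ ≤ n) : (e n a : ℤ) - E n κ - e n b + E n μ = 0 := by
  obtain ⟨k, hk⟩ := h1
  obtain ⟨l, hl⟩ := h2
  have hQ : (0 : ℝ) < Q n := by exact_mod_cast Q_pos n
  set X : ℤ := (e n a : ℤ) - E n κ - e n b + E n μ with hX
  have h3 : |(X : ℝ) / Q n - (k - l : ℤ)| < 1 / Q n := by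
    have h4 : (X : ℝ) / Q n - (k - l : ℤ) =
        ((q n : ℝ) * y + ((e n a : ℝ) - (E n κ : ℝ)) / Q n - k) -
        ((q n : ℝ) * y + ((e n b : ℝ) - (E n μ : ℝ)) / Q n - l) := by
      rw [hX]; push_cast; ring
    rw [h4]
    refine (abs_sub _ _).trans_lt ?_
    have : (1 : ℝ) / Q n = 1 / (2 * Q n) + 1 / (2 * Q n) := by field_simp; ring
    rw [this]
    exact add_lt_add hk hl
  have h5 : |(X : ℝ) - (k - l : ℤ) * Q n| < 1 := by
    have h6 : (X : ℝ) - (k - l : ℤ) * Q n = ((X : ℝ) / Q n - (k - l : ℤ)) * Q n := by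
      field_simp
    rw [h6, abs_mul, abs_of_pos hQ]
    calc _ < 1 / (Q n : ℝ) * Q n := mul_lt_mul_of_pos_right h3 hQ
      _ = 1 := by field_simp
  have h7 : X - (k - l) * Q n = 0 := by
    have h8 : |X - (k - l) * (Q n : ℤ)| < 1 := by exact_mod_cast h5
    exact Int.abs_lt_one_iff.1 h8
  have hD : (1 : ℤ) ≤ D n := by exact_mod_cast D_pos n
  have h9 : |X| < Q n := by
    have e1 := abs_E_le n κ
    have e2 := abs_E_le n μ
    have e3 : wt κ * D n ≤ n * D n := mul_le_mul_of_nonneg_right hκ (by omega)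
    have e4 : wt μ * D n ≤ n * D n := mul_le_mul_of_nonneg_right hμ (by omega)
    have e5 : (e n a : ℤ) ≤ D n := by exact_mod_cast e_le n a
    have e6 : (e n b : ℤ) ≤ D n := by exact_mod_cast e_le n b
    have e7 : (0 : ℤ) ≤ e n a := by positivity
    have e8 : (0 : ℤ) ≤ e n b := by positivity
    rw [abs_le] at e1 e2
    have hQ2 : (Q n : ℤ) = 20000 * (n + 3) * D n := by
      unfold Q Cc; push_cast; ring
    rw [abs_lt, hQ2]
    constructor <;> nlinarith
  have h10 : k - l = 0 := by
    by_contra hne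
    have h11 : 1 ≤ |k - l| := Int.one_le_abs hne
    have h12 : |X| = |k - l| * Q n := by
      have : X = (k - l) * Q n := by linarith
      rw [this, abs_mul]
      simp
    have hQ3 : (0 : ℤ) < Q n := by exact_mod_cast Q_pos n
    nlinarith
  rw [h10] at h7
  linarith

/-- the choice of one coordinate -/
lemma choice_one (n : ℕ) (y : ℝ) (b : Br) : ∃ c : Fin (n + 2), ∀ κ : Br →₀ ℤ, wt κ ≤ n →
    Dg n y (Function.update b n c) κ → ∃ a ∈ κ.support, idx n a = idx n (Function.update b n c) := by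
  classical
  by_contra hcon
  push Not at hcon
  choose κ hw hD hne using hcon
  have key : ∀ c : Fin (n + 2), c ≠ 0 →
      ∃ a ∈ (κ 0).support, idx n a = idx n (Function.update b n c) := by
    intro c hc
    have h1 := Dg_eq (hD c) (hD 0) (hw c) (hw 0)
    set bc : Br := Function.update b n c with hbc
    set b0 : Br := Function.update b n 0 with hb0
    have hb : idx n b0 ≠ idx n bc := by
      intro h
      have := idx_inj h n le_rfl
      rw [hbc, hb0, Function.update_self, Function.update_self] at this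
      exact hc this.symm
    set μ : Br →₀ ℤ := (Finsupp.single bc 1 + -(κ c)) + (-(Finsupp.single b0 1) + κ 0) with hμ
    have h2 : E n μ = 0 := by
      rw [hμ, E_add, E_add, E_add, E_neg, E_neg, E_single, E_single]
      linarith
    have h3 : wt μ < B n := by
      have e1 := wt_add (Finsupp.single bc 1 + -(κ c)) (-(Finsupp.single b0 1) + κ 0)
      have e2 := wt_add (Finsupp.single bc 1) (-(κ c))
      have e3 := wt_add (-(Finsupp.single b0 (1 : ℤ))) (κ 0)
      rw [wt_neg, wt_single] at e2 e3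
      have e4 := hw c
      have e5 := hw 0
      unfold B
      push_cast
      linarith
    have h4 := mapDomain_eq_zero n μ h3 h2
    have h5 : Finsupp.mapDomain (idx n) μ (idx n bc) = 0 := by rw [h4]; rfl
    have h6 : Finsupp.mapDomain (idx n) (κ c) (idx n bc) = 0 := by
      by_contra h7
      obtain ⟨a, ha1, ha2⟩ := exists_of_mapDomain_ne h7
      exact hne c a ha1 ha2
    have h8 : Finsupp.mapDomain (idx n) (κ 0) (idx n bc) = -1 := by
      rw [hμ, Finsupp.mapDomain_add, Finsupp.mapDomain_add, Finsupp.mapDomain_add] at h5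
      simp only [Finsupp.add_apply] at h5
      have n1 : Finsupp.mapDomain (idx n) (-(κ c)) (idx n bc) =
          - Finsupp.mapDomain (idx n) (κ c) (idx n bc) := by
        have := congrArg (fun g => g (idx n bc))
          (Finsupp.mapDomain_add (f := idx n) (v₁ := κ c) (v₂ := -(κ c)))
        simp only [add_neg_cancel, Finsupp.mapDomain_zero, Finsupp.add_apply,
          Finsupp.coe_zero, Pi.zero_apply] at this
        linarith
      have n2 : Finsupp.mapDomain (idx n) (-(Finsupp.single b0 (1 : ℤ))) (idx n bc) =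
          - Finsupp.mapDomain (idx n) (Finsupp.single b0 (1 : ℤ)) (idx n bc) := by
        have := congrArg (fun g => g (idx n bc)) (Finsupp.mapDomain_add (f := idx n)
          (v₁ := Finsupp.single b0 (1 : ℤ)) (v₂ := -(Finsupp.single b0 (1 : ℤ))))
        simp only [add_neg_cancel, Finsupp.mapDomain_zero, Finsupp.add_apply,
          Finsupp.coe_zero, Pi.zero_apply] at this
        linarith
      rw [n1, n2, h6, Finsupp.mapDomain_single, Finsupp.mapDomain_single,
        Finsupp.single_eq_same, Finsupp.single_apply, if_neg hb] at h5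
      linarith
    exact exists_of_mapDomain_ne (by rw [h8]; norm_num)
  choose! A hA1 hA2 using key
  have hcard : (Finset.univ.filter (fun c : Fin (n + 2) => c ≠ 0)).card ≤ (κ 0).support.card := by
    apply Finset.card_le_card_of_injOn A
    · intro c hc
      simp only [Finset.coe_filter, Finset.mem_univ, true_and, Set.mem_ofPred_eq] at hc
      exact hA1 c hc
    · intro c hc c' hc' h
      simp only [Finset.coe_filter, Finset.mem_univ, true_and, Set.mem_ofPred_eq] at hc hc'
      have h1 := hA2 c hc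
      rw [h, hA2 c' hc'] at h1
      have := idx_inj h1 n le_rfl
      rw [Function.update_self, Function.update_self] at this
      exact this.symm
  have h1 : (Finset.univ.filter (fun c : Fin (n + 2) => c ≠ 0)).card = n + 1 := by
    rw [Finset.filter_ne' Finset.univ (0 : Fin (n + 2)), Finset.card_erase_of_mem (Finset.mem_univ _),
      Finset.card_univ, Fintype.card_fin]
    rfl
  have h2 := card_le_wt (κ 0)
  have h3 := hw 0
  omega

/-- the choice of all coordinates in an interval -/
lemma choice_all (y : ℝ) (b : Br) (m : ℕ) : ∀ m', m ≤ m' → ∃ a' : Br, (∀ k < m, a' k = b k) ∧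
    ∀ n, m ≤ n → n < m' → ∀ κ : Br →₀ ℤ, wt κ ≤ n → Dg n y a' κ →
      ∃ a ∈ κ.support, idx n a = idx n a' := by
  intro m' hm
  induction m', hm using Nat.le_induction with
  | base => exact ⟨b, fun _ _ => rfl, fun n h1 h2 => by omega⟩
  | succ m' hm ih =>
    obtain ⟨a', h1, h2⟩ := ih
    obtain ⟨c, hc⟩ := choice_one m' y a'
    refine ⟨Function.update a' m' c, fun k hk => ?_, fun n hn1 hn2 κ hκ hD => ?_⟩
    · rw [Function.update_of_ne (by omega)]
      exact h1 k hk
    · rcases Nat.lt_succ_iff_lt_or_eq.1 hn2 with h3 | rfl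
      · have h4 : idx n (Function.update a' m' c) = idx n a' :=
          idx_congr (fun k hk => Function.update_of_ne (by omega) _ _)
        rw [h4]
        apply h2 n hn1 h3 κ hκ
        unfold Dg e at hD ⊢
        rw [h4] at hD
        exact hD
      · exact hc κ hκ hD

end Pool.Agent.H341Q.BH
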