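import Mathlib

/-! Digit expansions with very fast growing bases, and the group generated by a perfect set. -/

set_option autoImplicit false

namespace Pool.Agent.H341Q.BH

open Filter

/-- branches of the finitely branching tree -/
abbrev Br : Type := (k : ℕ) → Fin (k + 2)

/-- code of the node of `a` at level `n` -/
def idx : ℕ → Br → ℕ
  | 0, a => (a 0).val
  | n + 1, a => idx n a * (n + 3) + (a (n + 1)).val

lemma idx_lt (n : ℕ) (a : Br) : idx n a < (n + 2).factorial := by
  induction n with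
  | zero => exact (a 0).isLt
  | succ n ih =>
    have h1 := (a (n + 1)).isLt
    have h2 : (n + 1 + 2).factorial = (n + 3) * (n + 2).factorial := Nat.factorial_succ (n + 2)
    rw [h2]
    simp only [idx]
    have h3 : (idx n a + 1) * (n + 3) ≤ (n + 2).factorial * (n + 3) :=
      Nat.mul_le_mul_right _ ih
    nlinarith

lemma idx_congr {n : ℕ} {a b : Br} (h : ∀ k ≤ n, a k = b k) : idx n a = idx n b := by
  induction n with
  | zero => simp only [idx]; rw [h 0 le_rfl]
  | succ n ih =>
    simp only [idx]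
    rw [ih (fun k hk => h k (by omega)), h (n + 1) le_rfl]

lemma idx_inj {n : ℕ} {a b : Br} (h : idx n a = idx n b) : ∀ k ≤ n, a k = b k := by
  induction n with
  | zero =>
    intro k hk
    obtain rfl : k = 0 := by omega
    exact Fin.ext h
  | succ n ih =>
    have ha := (a (n + 1)).isLt
    have hb := (b (n + 1)).isLt
    simp only [idx] at h
    have h1 : idx n a = idx n b := by
      have h2 : (idx n a * (n + 3) + (a (n + 1)).val) / (n + 3) = idx n a := by
        rw [mul_comm, Nat.mul_add_div (by omega), Nat.div_eq_of_lt (by omega), add_zero]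
      have h3 : (idx n b * (n + 3) + (b (n + 1)).val) / (n + 3) = idx n b := by
        rw [mul_comm, Nat.mul_add_div (by omega), Nat.div_eq_of_lt (by omega), add_zero]
      rw [← h2, h, h3]
    rw [h1] at h
    intro k hk
    rcases Nat.lt_or_ge k (n + 1) with h4 | h4
    · exact ih h1 k (by omega)
    · obtain rfl : k = n + 1 := by omega
      exact Fin.ext (by omega)

/-- the base of the digits at level `n` -/
def B (n : ℕ) : ℕ := 2 * n + 5

/-- the digit of `a` at level `n` -/
def e (n : ℕ) (a : Br) : ℕ := B n ^ idx n a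

/-- bound of the digits -/
def D (n : ℕ) : ℕ := B n ^ (n + 2).factorial

def Cc (n : ℕ) : ℕ := 10000 * (n + 3)

def Q (n : ℕ) : ℕ := 2 * Cc n * D n

def q : ℕ → ℕ
  | 0 => 1
  | n + 1 => q n * Q n

lemma B_pos (n : ℕ) : 0 < B n := by unfold B; omega
lemma D_pos (n : ℕ) : 0 < D n := Nat.pow_pos (B_pos n)
lemma Cc_pos (n : ℕ) : 0 < Cc n := by unfold Cc; omega
lemma Q_pos (n : ℕ) : 0 < Q n := Nat.mul_pos (Nat.mul_pos (by norm_num) (Cc_pos n)) (D_pos n)
lemma q_pos (n : ℕ) : 0 < q n := by
  induction n with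
  | zero => exact Nat.one_pos
  | succ n ih => exact Nat.mul_pos ih (Q_pos n)

lemma e_le (n : ℕ) (a : Br) : e n a ≤ D n :=
  Nat.pow_le_pow_right (B_pos n) (idx_lt n a).le

lemma q_dvd {k n : ℕ} (h : k ≤ n) : q k ∣ q n := by
  induction n, h using Nat.le_induction with
  | base => exact dvd_rfl
  | succ n _ ih => exact ih.trans (Dvd.intro _ rfl)

/-- `δ n` bounds the part of a branch beyond level `n` -/
noncomputable def dl (n : ℕ) : ℝ := 1 / ((q n : ℝ) * Cc n)

noncomputable def S (n : ℕ) (a : Br) : ℝ := ∑ k ∈ Finset.range n, (e k a : ℝ) / q (k + 1)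

lemma dl_pos (n : ℕ) : 0 < dl n := by
  have := q_pos n; have := Cc_pos n
  unfold dl; positivity

lemma Cc_mono (n : ℕ) : (Cc n : ℝ) ≤ Cc (n + 1) := by
  exact_mod_cast (by unfold Cc; omega : Cc n ≤ Cc (n + 1))

lemma step_le (n : ℕ) (a : Br) : (e n a : ℝ) / q (n + 1) + dl (n + 1) ≤ dl n := by
  have h1 : (0 : ℝ) < q n := by exact_mod_cast q_pos n
  have h2 : (0 : ℝ) < Cc n := by exact_mod_cast Cc_pos n
  have h3 : (1 : ℝ) ≤ D n := by exact_mod_cast D_pos n
  have h4 : (e n a : ℝ) ≤ D n := by exact_mod_cast e_le n a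
  have h5 := Cc_mono n
  have h6 : (q (n + 1) : ℝ) = q n * (2 * Cc n * D n) := by
    simp only [q, Q]; push_cast; ring
  have h7 : (e n a : ℝ) / q (n + 1) ≤ 1 / (2 * (q n * Cc n)) := by
    rw [h6, div_le_div_iff₀ (by positivity) (by positivity)]
    nlinarith [mul_pos h1 h2]
  have h8 : dl (n + 1) ≤ 1 / (2 * (q n * Cc n)) := by
    unfold dl
    rw [h6]
    apply one_div_le_one_div_of_le (by positivity)
    have h9 : (1 : ℝ) ≤ Cc n := by exact_mod_cast Cc_pos n
    have h10 : (1 : ℝ) ≤ Cc (n + 1) := by exact_mod_cast Cc_pos (n + 1)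
    have : q n * Cc n * 2 * 1 ≤ q n * Cc n * 2 * (D n * Cc (n + 1) : ℝ) := by
      apply mul_le_mul_of_nonneg_left _ (by positivity)
      nlinarith
    linarith
  have h9 : dl n = 1 / (2 * (q n * Cc n)) + 1 / (2 * (q n * Cc n)) := by
    unfold dl; field_simp; ring
  linarith

lemma S_succ (n : ℕ) (a : Br) : S (n + 1) a = S n a + (e n a : ℝ) / q (n + 1) := by
  unfold S; rw [Finset.sum_range_succ]

lemma S_mono (a : Br) : Monotone (fun n => S n a) := by
  apply monotone_nat_of_le_succ
  intro n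
  rw [S_succ]
  have : (0 : ℝ) ≤ (e n a : ℝ) / q (n + 1) := by positivity
  linarith

lemma S_anti (a : Br) : Antitone (fun n => S n a + dl n) := by
  apply antitone_nat_of_succ_le
  intro n
  simp only [S_succ]
  have := step_le n a
  linarith

/-- the real number given by a branch -/
noncomputable def p (a : Br) : ℝ := ⨆ n, S n a

lemma S_le_S (a : Br) (m n : ℕ) : S m a ≤ S n a + dl n := by
  rcases le_total m n with h | h
  · have := S_mono a h; have := dl_pos n; simp only at *; linarith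
  · have := S_anti a h; have := dl_pos m; simp only at *; linarith

lemma bdd (a : Br) : BddAbove (Set.range (fun n => S n a)) :=
  ⟨S 0 a + dl 0, by rintro _ ⟨n, rfl⟩; exact S_le_S a n 0⟩

lemma S_le_p (n : ℕ) (a : Br) : S n a ≤ p a := le_ciSup (bdd a) n

lemma p_le (n : ℕ) (a : Br) : p a ≤ S n a + dl n := ciSup_le (fun m => S_le_S a m n)

lemma S_congr {n : ℕ} {a b : Br} (h : ∀ k < n, a k = b k) : S n a = S n b := by
  unfold S
  apply Finset.sum_congr rfl
  intro k hk
  rw [Finset.mem_range] at hk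
  have : e k a = e k b := by
    unfold e; rw [idx_congr (fun j hj => h j (by omega))]
  rw [this]

lemma S_int (n : ℕ) (a : Br) : ∃ z : ℤ, (q n : ℝ) * S n a = z := by
  unfold S
  rw [Finset.mul_sum]
  have h : ∀ k ∈ Finset.range n, (q n : ℝ) * ((e k a : ℝ) / q (k + 1)) =
      (((q n / q (k + 1)) * e k a : ℕ) : ℝ) := by
    intro k hk
    rw [Finset.mem_range] at hk
    have h1 : q (k + 1) ∣ q n := q_dvd hk
    have h2 : (q (k + 1) : ℝ) ≠ 0 := by exact_mod_cast (q_pos (k + 1)).ne'
    rw [Nat.cast_mul, Nat.cast_div h1 h2]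
    field_simp
  rw [Finset.sum_congr rfl h]
  exact ⟨((∑ k ∈ Finset.range n, (q n / q (k + 1)) * e k a : ℕ) : ℤ), by push_cast; rfl⟩

/-- the weight of an integer combination -/
def wt (κ : Br →₀ ℤ) : ℤ := κ.sum (fun _ k => |k|)

/-- the value of an integer combination -/
noncomputable def hs (κ : Br →₀ ℤ) : ℝ := κ.sum (fun a k => (k : ℝ) * p a)

/-- the digit of an integer combination at level `n` -/
def E (n : ℕ) (κ : Br →₀ ℤ) : ℤ := κ.sum (fun a k => k * (e n a : ℤ))

lemma abs_E_le (n : ℕ) (κ : Br →₀ ℤ) : |E n κ| ≤ wt κ * D n := by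
  unfold E wt Finsupp.sum
  rw [Finset.sum_mul]
  refine (Finset.abs_sum_le_sum_abs _ _).trans (Finset.sum_le_sum fun a _ => ?_)
  rw [abs_mul]
  apply mul_le_mul_of_nonneg_left _ (abs_nonneg _)
  rw [abs_of_nonneg (by positivity)]
  exact_mod_cast e_le n a

lemma hs_digit (n : ℕ) (κ : Br →₀ ℤ) : ∃ z : ℤ,
    |(q n : ℝ) * hs κ - z - (E n κ : ℝ) / Q n| ≤ wt κ * (q n * dl (n + 1)) := by
  choose Z hZ using S_int n
  refine ⟨κ.sum (fun a k => k * Z a), ?_⟩
  have h1 : (q n : ℝ) * hs κ - (κ.sum (fun a k => k * Z a) : ℤ) - (E n κ : ℝ) / Q n =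
      ∑ a ∈ κ.support, (κ a : ℝ) * (q n * (p a - S (n + 1) a)) := by
    unfold hs E Finsupp.sum
    push_cast
    rw [Finset.mul_sum, Finset.sum_div, ← Finset.sum_sub_distrib, ← Finset.sum_sub_distrib]
    apply Finset.sum_congr rfl
    intro a _
    rw [S_succ, ← hZ a]
    have h2 : (q n : ℝ) ≠ 0 := by exact_mod_cast (q_pos n).ne'
    have h3 : (Q n : ℝ) ≠ 0 := by exact_mod_cast (Q_pos n).ne'
    simp only [q]
    push_cast
    field_simp
    ring
  rw [h1]
  refine (Finset.abs_sum_le_sum_abs _ _).trans ?_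
  unfold wt Finsupp.sum
  push_cast
  rw [Finset.sum_mul]
  apply Finset.sum_le_sum
  intro a _
  rw [abs_mul]
  apply mul_le_mul_of_nonneg_left _ (abs_nonneg _)
  have h4 := S_le_p (n + 1) a
  have h5 := p_le (n + 1) a
  have h6 : (0 : ℝ) < q n := by exact_mod_cast q_pos n
  rw [abs_of_nonneg (mul_nonneg h6.le (by linarith))]
  apply mul_le_mul_of_nonneg_left _ h6.le
  linarith

end Pool.Agent.H341Q.BH
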