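import Pool.Agent.H341Q.BHStage

/-! A null nonmeagre subgroup of the reals (Roslanowski and Shelah), by means of an ultrafilter. -/

set_option autoImplicit false

namespace Pool.Agent.H341Q.BH

open Filter MeasureTheory Metric

/-- the points near the lattice of level `n` -/
def V (C n : ℕ) : Set ℝ := {x | ∃ k : ℤ, |(q n : ℝ) * x - k| ≤ C / Q n}

/-- the subgroup -/
noncomputable def HN : AddSubgroup ℝ where
  carrier := {x | ∃ C : ℕ, ∀ᶠ n in (hyperfilter ℕ : Filter ℕ), x ∈ V C n}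
  add_mem' := by
    rintro x y ⟨C, hx⟩ ⟨C', hy⟩
    refine ⟨C + C', ?_⟩
    filter_upwards [hx, hy] with n h1 h2
    obtain ⟨k, hk⟩ := h1
    obtain ⟨l, hl⟩ := h2
    refine ⟨k + l, ?_⟩
    have h3 : (q n : ℝ) * (x + y) - ((k + l : ℤ) : ℝ) =
        ((q n : ℝ) * x - k) + ((q n : ℝ) * y - l) := by push_cast; ring
    rw [h3]
    refine (abs_add_le _ _).trans ?_
    push_cast
    rw [add_div]
    exact add_le_add hk hl
  zero_mem' := ⟨0, Filter.Eventually.of_forall fun n => ⟨0, by simp⟩⟩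
  neg_mem' := by
    rintro x ⟨C, hx⟩
    refine ⟨C, ?_⟩
    filter_upwards [hx] with n h1
    obtain ⟨k, hk⟩ := h1
    refine ⟨-k, ?_⟩
    have h3 : (q n : ℝ) * (-x) - ((-k : ℤ) : ℝ) = -((q n : ℝ) * x - k) := by push_cast; ring
    rw [h3, abs_neg]
    exact hk

lemma mem_HN {x : ℝ} : x ∈ HN ↔ ∃ C : ℕ, ∀ᶠ n in (hyperfilter ℕ : Filter ℕ), x ∈ V C n := Iff.rfl

lemma Q_pow (n : ℕ) : (2 : ℝ) ^ n ≤ Q n := by
  have h1 : 2 ^ n ≤ D n := by
    unfold D
    calc 2 ^ n ≤ (B n) ^ n := Nat.pow_le_pow_left (by unfold B; omega) n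
      _ ≤ (B n) ^ (n + 2).factorial := Nat.pow_le_pow_right (B_pos n) (by
          have := Nat.self_le_factorial (n + 2); omega)
  have h2 : D n ≤ Q n := by
    unfold Q
    have := Cc_pos n
    nlinarith [D_pos n]
  exact_mod_cast h1.trans h2

lemma volume_V (C M n : ℕ) : volume (V C n ∩ Set.Icc (-(M : ℝ)) M) ≤
    ENNReal.ofReal ((2 * M + 2 * C + 1) * (2 * C) * (1 / 2) ^ n) := by
  have hq : (0 : ℝ) < q n := by exact_mod_cast q_pos n
  have hq1 : (1 : ℝ) ≤ q n := by exact_mod_cast q_pos n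
  have hQ : (0 : ℝ) < Q n := by exact_mod_cast Q_pos n
  have hQ1 : (1 : ℝ) ≤ Q n := by exact_mod_cast Q_pos n
  set K : ℕ := M * q n + C with hK
  have hsub : V C n ∩ Set.Icc (-(M : ℝ)) M ⊆
      ⋃ k ∈ Finset.Icc (-(K : ℤ)) K, closedBall ((k : ℝ) / q n) (C / (q n * Q n)) := by
    rintro x ⟨⟨k, hk⟩, hx1, hx2⟩
    rw [Set.mem_iUnion₂]
    have hCQ : (C : ℝ) / Q n ≤ C := by
      rw [div_le_iff₀ hQ]
      have : (0 : ℝ) ≤ C := Nat.cast_nonneg C
      nlinarith
    have hk2 := abs_le.1 hk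
    refine ⟨k, ?_, ?_⟩
    · rw [Finset.mem_Icc]
      have h1 : -(K : ℝ) ≤ k := by rw [hK]; push_cast; nlinarith [hk2.1, hk2.2]
      have h2 : (k : ℝ) ≤ K := by rw [hK]; push_cast; nlinarith [hk2.1, hk2.2]
      constructor
      · exact_mod_cast h1
      · exact_mod_cast h2
    · rw [mem_closedBall, Real.dist_eq]
      have h1 : x - (k : ℝ) / q n = (q n * x - k) / q n := by field_simp
      rw [h1, abs_div, abs_of_pos hq, div_le_iff₀ hq]
      have h2 : (C : ℝ) / (q n * Q n) * q n = C / Q n := by field_simp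
      rw [h2]; exact hk
  refine (measure_mono hsub).trans ((measure_biUnion_finset_le _ _).trans ?_)
  simp only [Real.volume_closedBall]
  rw [Finset.sum_const, nsmul_eq_mul, ← ENNReal.ofReal_natCast, ← ENNReal.ofReal_mul (by positivity)]
  apply ENNReal.ofReal_le_ofReal
  have hcard : ((Finset.Icc (-(K : ℤ)) K).card : ℝ) = 2 * K + 1 := by
    rw [Int.card_Icc]
    have : ((K : ℤ) + 1 - -(K : ℤ)).toNat = 2 * K + 1 := by omega
    rw [this]; push_cast; ring
  rw [hcard]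
  have h3 : (2 * (K : ℝ) + 1) ≤ (2 * M + 2 * C + 1) * q n := by
    rw [hK]; push_cast
    have : (0 : ℝ) ≤ C := Nat.cast_nonneg C
    nlinarith
  have h4 : (1 : ℝ) / Q n ≤ (1 / 2) ^ n := by
    rw [one_div_pow]
    exact one_div_le_one_div_of_le (by positivity) (Q_pow n)
  calc (2 * (K : ℝ) + 1) * (2 * (C / (q n * Q n))) ≤
        ((2 * M + 2 * C + 1) * q n) * (2 * (C / (q n * Q n))) :=
        mul_le_mul_of_nonneg_right h3 (by positivity)
    _ = (2 * M + 2 * C + 1) * (2 * C) * (1 / Q n) := by field_simp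
    _ ≤ _ := mul_le_mul_of_nonneg_left h4 (by positivity)

theorem HN_null : volume (HN : Set ℝ) = 0 := by
  have h1 : (HN : Set ℝ) ⊆ ⋃ C : ℕ, ⋃ M : ℕ,
      ({x | ∃ᶠ n in atTop, x ∈ V C n} ∩ Set.Icc (-(M : ℝ)) M) := by
    intro x hx
    obtain ⟨C, hC⟩ := mem_HN.1 hx
    obtain ⟨M, hM⟩ := exists_nat_ge |x|
    rw [Set.mem_iUnion]
    refine ⟨C, Set.mem_iUnion.2 ⟨M, ?_, ?_⟩⟩
    · exact hC.frequently.filter_mono Nat.hyperfilter_le_atTop
    · exact abs_le.1 hM
  refine measure_mono_null h1 ?_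
  rw [measure_iUnion_null_iff]
  intro C
  rw [measure_iUnion_null_iff]
  intro M
  rw [← Measure.restrict_apply' measurableSet_Icc]
  apply measure_setOfPred_frequently_eq_zero
  have h2 : ∀ n, (volume.restrict (Set.Icc (-(M : ℝ)) M)) {x | x ∈ V C n} ≤
      ENNReal.ofReal ((2 * M + 2 * C + 1) * (2 * C) * (1 / 2) ^ n) := by
    intro n
    rw [Measure.restrict_apply' measurableSet_Icc]
    exact volume_V C M n
  refine ne_top_of_le_ne_top ?_ (ENNReal.tsum_le_tsum h2)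
  apply Summable.tsum_ofReal_ne_top
  exact (summable_geometric_of_lt_one (by norm_num) (by norm_num)).mul_left _

lemma nstep (m : ℕ) (u : ℝ) (U : Set ℝ) (hU : IsOpen U) (hd : Dense U) :
    ∃ (m' : ℕ) (u' : ℝ), m < m' ∧ (∃ z : ℤ, (q m' : ℝ) * u' = z) ∧
      (∀ x, |x - u'| ≤ 1 / q m' → x ∈ U) ∧ (∀ x, |x - u'| ≤ 1 / q m' → |x - u| ≤ 1 / q m) := by
  have hq : (0 : ℝ) < q m := by exact_mod_cast q_pos m
  obtain ⟨y, hyU, hy⟩ := hd.exists_dist_lt u (by positivity : (0 : ℝ) < 1 / (2 * q m))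
  rw [dist_comm, Real.dist_eq] at hy
  obtain ⟨r, hr, hball⟩ := Metric.isOpen_iff.1 hU y hyU
  obtain ⟨m', hm', hm2⟩ : ∃ m', m < m' ∧ (2 : ℝ) / q m' < min r (1 / (2 * q m)) := by
    have hmin : 0 < min r (1 / (2 * (q m : ℝ))) := lt_min hr (by positivity)
    obtain ⟨N, hN⟩ := exists_nat_gt (2 / min r (1 / (2 * (q m : ℝ))))
    refine ⟨max N (m + 1), by omega, ?_⟩
    have h1 := q_ge (max N (m + 1))
    have h2 : (N : ℝ) ≤ (max N (m + 1) : ℕ) := by exact_mod_cast le_max_left _ _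
    have h3 : (0 : ℝ) < q (max N (m + 1)) := by exact_mod_cast q_pos _
    rw [div_lt_iff₀ h3]
    rw [div_lt_iff₀ hmin] at hN
    nlinarith
  have hqm : (0 : ℝ) < q m' := by exact_mod_cast q_pos m'
  have h1 : |y - (round ((q m' : ℝ) * y) : ℝ) / q m'| ≤ 1 / q m' / 2 := by
    have h2 : y - (round ((q m' : ℝ) * y) : ℝ) / q m' =
        ((q m' : ℝ) * y - round ((q m' : ℝ) * y)) / q m' := by field_simp
    rw [h2, abs_div, abs_of_pos hqm, div_le_iff₀ hqm]
    have h3 := abs_sub_round ((q m' : ℝ) * y)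
    have h4 : 1 / (q m' : ℝ) / 2 * q m' = 1 / 2 := by field_simp
    rw [h4]; exact h3
  have hr' : (2 : ℝ) / q m' = 1 / q m' + 1 / q m' := by ring
  rw [hr'] at hm2
  have hm3 := lt_min_iff.1 hm2
  have hpos : 0 < 1 / (q m' : ℝ) := by positivity
  refine ⟨m', (round ((q m' : ℝ) * y) : ℝ) / q m', hm', ⟨round ((q m' : ℝ) * y), by field_simp⟩,
    fun x hx => ?_, fun x hx => ?_⟩
  · apply hball
    rw [mem_ball, Real.dist_eq]
    rw [abs_le] at hx h1
    rw [abs_lt]
    constructor <;> linarith [hx.1, hx.2, h1.1, h1.2, hm3.1]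
  · have h5 : (1 : ℝ) / q m = 1 / (2 * q m) + 1 / (2 * q m) := by field_simp; ring
    rw [h5]
    rw [abs_le] at hx h1 ⊢
    rw [abs_lt] at hy
    constructor <;> linarith [hx.1, hx.2, h1.1, h1.2, hm3.2, hy.1, hy.2]

/-- the recursive construction of two points -/
lemma two_tracks (U : ℕ → Set ℝ) (hU : ∀ j, IsOpen (U j)) (hd : ∀ j, Dense (U j)) :
    ∃ (m : ℕ → ℕ) (w : ℕ → ℝ), StrictMono m ∧
      (∀ k, ∃ z : ℤ, (q (m (k + 1)) : ℝ) * w (k + 2) = z) ∧
      (∀ k x, |x - w (k + 2)| ≤ 1 / q (m (k + 1)) → x ∈ U k) ∧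
      (∀ k x, |x - w (k + 2)| ≤ 1 / q (m (k + 1)) → |x - w k| ≤ 1 / q (m k)) := by
  choose M Y h1 h2 h3 h4 using nstep
  let st : ℕ → ℕ × ℝ × ℝ := fun k => Nat.rec (0, 0, 0)
    (fun k s => (M s.1 s.2.1 (U k) (hU k) (hd k), s.2.2, Y s.1 s.2.1 (U k) (hU k) (hd k))) k
  have hst : ∀ k, st (k + 1) = (M (st k).1 (st k).2.1 (U k) (hU k) (hd k), (st k).2.2,
    Y (st k).1 (st k).2.1 (U k) (hU k) (hd k)) := fun k => rfl
  have hm : ∀ k, (st (k + 1)).1 = M (st k).1 (st k).2.1 (U k) (hU k) (hd k) := fun k => rfl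
  have hw : ∀ k, (st (k + 2)).2.1 = Y (st k).1 (st k).2.1 (U k) (hU k) (hd k) := fun k => rfl
  refine ⟨fun k => (st k).1, fun k => (st k).2.1, ?_, ?_, ?_, ?_⟩
  · apply strictMono_nat_of_lt_succ
    intro k
    rw [hm k]
    exact h1 _ _ _ _ _
  · intro k
    have := h2 (st k).1 (st k).2.1 (U k) (hU k) (hd k)
    rw [← hm k, ← hw k] at this
    exact this
  · intro k x hx
    have := h3 (st k).1 (st k).2.1 (U k) (hU k) (hd k) x
    rw [← hm k, ← hw k] at this
    exact this hx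
  · intro k x hx
    have := h4 (st k).1 (st k).2.1 (U k) (hU k) (hd k) x
    rw [← hm k, ← hw k] at this
    exact this hx

theorem HN_nonmeagre : ¬ IsMeagre (HN : Set ℝ) := by
  intro hm
  obtain ⟨T, hT1, hT2, hT3⟩ : ∃ T ⊆ ((HN : Set ℝ)ᶜ), IsGδ T ∧ Dense T := by
    rw [← mem_residual]; exact hm
  obtain ⟨f, hf1, hf2⟩ := isGδ_iff_eq_iInter_nat.1 hT2
  set U : ℕ → Set ℝ := fun j => ⋂ i ∈ Finset.range (j + 1), f i with hUdef
  have hU : ∀ j, IsOpen (U j) := fun j => isOpen_biInter_finset fun i _ => hf1 i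
  have hd : ∀ j, Dense (U j) := fun j => hT3.mono (by
    intro x hx
    rw [hf2, Set.mem_iInter] at hx
    exact Set.mem_iInter₂.2 fun i _ => hx i)
  obtain ⟨m, w, hmono, hz, hin, hnest⟩ := two_tracks U hU hd
  have hlim : ∀ i : ℕ, ∃ x : ℝ, ∀ k, |x - w (i + 2 * k)| ≤ 1 / q (m (i + 2 * k)) := by
    intro i
    obtain ⟨x, hx⟩ : (⋂ k, closedBall (w (i + 2 * k)) (1 / (q (m (i + 2 * k)) : ℝ))).Nonempty := by
      apply IsCompact.nonempty_iInter_of_sequence_nonempty_isCompact_isClosed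
      · intro k x hx
        rw [mem_closedBall, Real.dist_eq] at hx ⊢
        apply hnest
        refine (hx.trans ?_)
        have h1 : (q (m (i + 2 * k + 1)) : ℝ) ≤ q (m (i + 2 * (k + 1))) :=
          q_mono (hmono.monotone (by omega))
        have h2 : (0 : ℝ) < q (m (i + 2 * k + 1)) := by exact_mod_cast q_pos _
        exact one_div_le_one_div_of_le h2 h1
      · intro k; exact ⟨_, mem_closedBall_self (by positivity)⟩
      · exact isCompact_closedBall _ _
      · intro k; exact isClosed_closedBall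
    refine ⟨x, fun k => ?_⟩
    have := Set.mem_iInter.1 hx k
    rwa [mem_closedBall, Real.dist_eq] at this
  choose x hx using hlim
  have hnot : ∀ i, x i ∉ HN := by
    intro i
    apply hT1
    rw [hf2, Set.mem_iInter]
    intro j
    have h1 : x i ∈ U (i + 2 * j) := by
      apply hin
      refine (hx i (j + 1)).trans ?_
      have h1 : (q (m (i + 2 * j + 1)) : ℝ) ≤ q (m (i + 2 * (j + 1))) :=
        q_mono (hmono.monotone (by omega))
      have h2 : (0 : ℝ) < q (m (i + 2 * j + 1)) := by exact_mod_cast q_pos _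
      exact one_div_le_one_div_of_le h2 h1
    exact Set.mem_iInter₂.1 h1 j (Finset.mem_range.2 (by omega))
  have hlev : ∀ i k n, m (i + 2 * k + 1) ≤ n → n < m (i + 2 * k + 2) → x i ∈ V 1 n := by
    intro i k n h1 h2
    obtain ⟨z, hz⟩ := hz (i + 2 * k)
    have h3 := hx i (k + 1)
    have hqn : (0 : ℝ) < q n := by exact_mod_cast q_pos n
    have hQn : (0 : ℝ) < Q n := by exact_mod_cast Q_pos n
    obtain ⟨c, hc⟩ := q_dvd h1
    refine ⟨c * z, ?_⟩
    have h4 : (q n : ℝ) * w (i + 2 * k + 2) = c * z := by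
      rw [hc]; push_cast; rw [← hz]; ring
    have h5 : (q n : ℝ) * x i - ((c * z : ℤ) : ℝ) = q n * (x i - w (i + 2 * k + 2)) := by
      push_cast; rw [← h4]; ring
    rw [h5, abs_mul, abs_of_pos hqn]
    have h6 : |x i - w (i + 2 * k + 2)| ≤ 1 / (q n * Q n) := by
      refine h3.trans ?_
      have h7 : (q (n + 1) : ℝ) ≤ q (m (i + 2 * (k + 1))) := q_mono h2
      have h8 : (q (n + 1) : ℝ) = q n * Q n := by simp only [q]; push_cast; rfl
      rw [← h8]
      exact one_div_le_one_div_of_le (by exact_mod_cast q_pos (n + 1)) h7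
    calc (q n : ℝ) * |x i - w (i + 2 * k + 2)| ≤ q n * (1 / (q n * Q n)) :=
          mul_le_mul_of_nonneg_left h6 hqn.le
      _ = ((1 : ℕ) : ℝ) / Q n := by push_cast; field_simp
  have hcover : ∀ᶠ n in (hyperfilter ℕ : Filter ℕ), x 0 ∈ V 1 n ∨ x 1 ∈ V 1 n := by
    apply Nat.hyperfilter_le_atTop
    filter_upwards [eventually_ge_atTop (m 1)] with n hn
    have hex : ∃ k, n < m (k + 1) := ⟨n, by have := hmono.id_le (n + 1); simp only [id] at this; omega⟩
    classical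
    set k := Nat.find hex with hk
    have hk1 : n < m (k + 1) := Nat.find_spec hex
    have hk0 : 0 < k := by
      rcases Nat.eq_zero_or_pos k with h | h
      · rw [h, Nat.zero_add] at hk1; omega
      · exact h
    have hk2 : m k ≤ n := by
      have := Nat.find_min hex (Nat.sub_lt hk0 Nat.one_pos)
      rw [Nat.sub_add_cancel hk0] at this
      omega
    rcases Nat.even_or_odd k with ⟨j, hj⟩ | ⟨j, hj⟩
    · right
      refine hlev 1 (j - 1) n ?_ ?_
      · have : 1 + 2 * (j - 1) + 1 = k := by omega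
        rw [this]; exact hk2
      · have : 1 + 2 * (j - 1) + 2 = k + 1 := by omega
        rw [this]; exact hk1
    · left
      refine hlev 0 j n ?_ ?_
      · have : 0 + 2 * j + 1 = k := by omega
        rw [this]; exact hk2
      · have : 0 + 2 * j + 2 = k + 1 := by omega
        rw [this]; exact hk1
  rw [Ultrafilter.eventually_or] at hcover
  rcases hcover with h | h
  · exact hnot 0 ⟨1, h⟩
  · exact hnot 1 ⟨1, h⟩

theorem HN_dense : Dense (HN : Set ℝ) := by
  apply AddSubgroup.dense_of_not_isolated_zero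
  intro ε hε
  obtain ⟨N, hN⟩ := exists_nat_gt (1 / ε)
  have h1 := q_ge N
  have h2 : (0 : ℝ) < q N := by exact_mod_cast q_pos N
  refine ⟨1 / q N, ?_, by positivity, ?_⟩
  · refine ⟨0, Nat.hyperfilter_le_atTop ?_⟩
    filter_upwards [eventually_ge_atTop N] with n hn
    obtain ⟨c, hc⟩ := q_dvd hn
    refine ⟨c, ?_⟩
    rw [hc]
    push_cast
    have : (q N : ℝ) * c * (1 / q N) - c = 0 := by field_simp; ring
    rw [this]; simp
  · rw [div_lt_iff₀ h2]
    rw [div_lt_iff₀ hε] at hN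
    nlinarith

end Pool.Agent.H341Q.BH
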