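import Pool.Agent.H341Q.BHMain
import Pool.Agent.H341Q.BHNull

/-! No translation-invariant Borel hull on the null ideal of `ℝⁿ`. -/

set_option autoImplicit false

namespace Pool.Agent.H341Q.BH

open Filter MeasureTheory

/-- a countable dense subset of the group -/
def HD : Set ℝ := Set.range (fun z : ℤ × ℕ => (z.1 : ℝ) / q z.2)

lemma HD_countable : HD.Countable := Set.countable_range _

lemma HD_sub : HD ⊆ (HN : Set ℝ) := by
  rintro _ ⟨⟨z, N⟩, rfl⟩
  refine ⟨0, Nat.hyperfilter_le_atTop ?_⟩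
  filter_upwards [eventually_ge_atTop N] with n hn
  obtain ⟨c, hc⟩ := q_dvd hn
  have h2 : (0 : ℝ) < q N := by exact_mod_cast q_pos N
  refine ⟨c * z, ?_⟩
  rw [hc]
  push_cast
  have : (q N : ℝ) * c * (z / q N) - c * z = 0 := by field_simp; ring
  rw [this]; simp

lemma HD_dense : Dense HD := by
  rw [Metric.dense_iff]
  intro x r hr
  obtain ⟨n, hN⟩ := exists_nat_gt (1 / r)
  have hq : (0 : ℝ) < q n := by exact_mod_cast q_pos n
  have h1 := q_ge n
  have h3 : 1 < r * q n := by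
    rw [div_lt_iff₀ hr] at hN
    nlinarith
  refine ⟨(round ((q n : ℝ) * x) : ℝ) / q n, ?_, ⟨(round ((q n : ℝ) * x), n), rfl⟩⟩
  rw [Metric.mem_ball, Real.dist_eq]
  have h4 : (round ((q n : ℝ) * x) : ℝ) / q n - x =
    -((q n : ℝ) * x - round ((q n : ℝ) * x)) / q n := by field_simp; ring
  rw [h4, abs_div, abs_neg, abs_of_pos hq, div_lt_iff₀ hq]
  have := abs_sub_round ((q n : ℝ) * x)
  linarith

/-- A Borel null subset of the line that contains the subgroup `HN` is not invariant under it. -/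
theorem core_null (B : Set ℝ) (hB : MeasurableSet B) (hne : Bᶜ.Nonempty)
    (hH : (HN : Set ℝ) ⊆ B) : ∃ x ∈ B, ∃ h ∈ HN, x + h ∉ B := by
  by_contra hcon
  push Not at hcon
  obtain ⟨O, hO1, hO2⟩ := hB.residualEq_isOpen
  have hOne : O.Nonempty := by
    rw [Set.nonempty_iff_ne_empty]
    intro hemp
    rw [hemp] at hO2
    apply HN_nonmeagre
    have h1 : ∀ᶠ t in residual ℝ, t ∉ (HN : Set ℝ) := by
      filter_upwards [hO2] with t ht hc
      have h2 : (t ∈ B) = (t ∈ (∅ : Set ℝ)) := ht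
      exact Set.notMem_empty t (h2 ▸ hH hc)
    exact h1
  -- the complement is meagre
  have hmeag : ∀ᶠ t in residual ℝ, t ∈ B := by
    obtain ⟨o, ho⟩ := hOne
    obtain ⟨D, hD1, hD2, hD3⟩ : ∃ D : Set ℝ, D.Countable ∧ D ⊆ (HN : Set ℝ) ∧ Dense D :=
      ⟨HD, HD_countable, HD_sub, HD_dense⟩
    have h1 : ∀ d ∈ D, ∀ᶠ t in residual ℝ, t + d ∈ B ↔ t + d ∈ O := by
      intro d _
      have h2 : ∀ᶠ t in residual ℝ, t ∈ B ↔ t ∈ O := by
        filter_upwards [hO2] with t ht
        exact iff_of_eq ht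
      exact (tendsto_residual_of_isOpenMap (continuous_add_const d)
        (isOpenMap_add_right d)).eventually h2
    have h3 : ∀ᶠ t in residual ℝ, ∀ d ∈ D, (t + d ∈ B ↔ t + d ∈ O) :=
      (eventually_countable_ball hD1).2 h1
    filter_upwards [h3] with t ht
    obtain ⟨d, hd1, hd2⟩ : ∃ d ∈ D, t + d ∈ O := by
      have hop : IsOpen ((fun d => t + d) ⁻¹' O) := hO1.preimage (continuous_const_add t)
      obtain ⟨d, hd1, hd2⟩ := hD3.inter_open_nonempty _ hop ⟨o - t, by simp [ho]⟩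
      exact ⟨d, hd2, hd1⟩
    have h4 : t + d ∈ B := (ht d hd1).2 hd2
    have h5 := hcon _ h4 (-d) (HN.neg_mem (hD2 hd1))
    rwa [add_neg_cancel_right] at h5
  obtain ⟨y, hy⟩ := hne
  apply HN_nonmeagre
  have h6 : ∀ᶠ t in residual ℝ, t + y ∈ B :=
    (tendsto_residual_of_isOpenMap (continuous_add_const y) (isOpenMap_add_right y)).eventually hmeag
  have h7 : ∀ᶠ t in residual ℝ, t ∉ (HN : Set ℝ) := by
    filter_upwards [h6] with t ht hc
    apply hy
    have h8 := hcon _ ht (-t) (HN.neg_mem hc)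
    have h9 : t + y + -t = y := by ring
    rwa [h9] at h8
  exact h7

/-- There is no translation-invariant Borel hull on the null ideal of `ℝⁿ`. -/
theorem no_hull_null (n : ℕ) (hn : 1 ≤ n)
    (ψ : Set (EuclideanSpace ℝ (Fin n)) → Set (EuclideanSpace ℝ (Fin n)))
    (h1 : ∀ A, volume A = 0 → volume (ψ A) = 0 ∧
      MeasurableSet[borel (EuclideanSpace ℝ (Fin n))] (ψ A) ∧ A ⊆ ψ A)
    (h2 : ∀ A : Set (EuclideanSpace ℝ (Fin n)), volume A = 0 → ∀ x,
      ψ ((fun y => y + x) '' A) = (fun y => y + x) '' ψ A) :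
    False := by
  set i0 : Fin n := ⟨0, hn⟩
  set π : EuclideanSpace ℝ (Fin n) →L[ℝ] ℝ := EuclideanSpace.proj i0 with hπ
  set ι : ℝ →L[ℝ] EuclideanSpace ℝ (Fin n) :=
    ContinuousLinearMap.toSpanSingleton ℝ (EuclideanSpace.single i0 (1 : ℝ)) with hι
  have hπι : ∀ t, π (ι t) = t := by
    intro t
    simp [hπ, hι]
  set A : Set (EuclideanSpace ℝ (Fin n)) := π ⁻¹' (HN : Set ℝ) with hA
  have hAm : volume A = 0 := by
    have e1 : A = (MeasurableEquiv.toLp 2 (Fin n → ℝ)).symm ⁻¹'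
        (Function.eval i0 ⁻¹' (HN : Set ℝ)) := rfl
    have e2 : volume (Function.eval i0 ⁻¹' (HN : Set ℝ) : Set (Fin n → ℝ)) = 0 :=
      (Measure.quasiMeasurePreserving_eval (fun _ : Fin n => (volume : Measure ℝ)) i0).preimage_null
        HN_null
    rw [e1]
    exact (PiLp.volume_preserving_ofLp (Fin n)).quasiMeasurePreserving.preimage_null e2
  obtain ⟨hB1, hB2, hB3⟩ := h1 A hAm
  set B := ψ A with hB
  rw [← BorelSpace.measurable_eq (α := EuclideanSpace ℝ (Fin n))] at hB2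
  -- invariance
  have htr : ∀ v : EuclideanSpace ℝ (Fin n), π v ∈ HN → ∀ x, x ∈ B → x + v ∈ B := by
    rintro v hv x hx
    have hAv : (fun y => y + v) '' A = A := by
      ext y
      rw [Set.mem_image]
      constructor
      · rintro ⟨y', hy', rfl⟩
        rw [hA, Set.mem_preimage, map_add]
        exact HN.add_mem hy' hv
      · intro hy
        refine ⟨y - v, ?_, sub_add_cancel y v⟩
        rw [hA, Set.mem_preimage, map_sub]
        exact HN.sub_mem hy hv
    have h3 := h2 A hAm v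
    rw [hAv] at h3
    rw [hB, h3]
    exact ⟨x, hx, rfl⟩
  have hker : ∀ v, π v = 0 → ∀ x, x ∈ B → x + v ∈ B := fun v hv =>
    htr v (by rw [hv]; exact HN.zero_mem)
  set B1 : Set ℝ := ι ⁻¹' B with hB1def
  have hB1m : MeasurableSet B1 := ι.continuous.measurable hB2
  have hBB : ∀ x, π x ∈ B1 → x ∈ B := by
    intro x h
    have h3 := hker (x - ι (π x)) (by rw [map_sub, hπι, sub_self]) _ h
    rwa [add_sub_cancel] at h3
  have hBc : B1ᶜ.Nonempty := by
    rw [Set.nonempty_compl]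
    intro hu
    have h3 : B = Set.univ := by
      rw [Set.eq_univ_iff_forall]
      intro x
      apply hBB
      rw [hu]; exact Set.mem_univ _
    rw [h3] at hB1
    exact (NeZero.ne (volume (Set.univ : Set (EuclideanSpace ℝ (Fin n))))) hB1
  have hHB : (HN : Set ℝ) ⊆ B1 := by
    intro t ht
    rw [hB1def, Set.mem_preimage]
    apply hB3
    rw [hA, Set.mem_preimage, hπι]
    exact ht
  obtain ⟨x, hx, h, hh, hxh⟩ := core_null B1 hB1m hBc hHB
  apply hxh
  rw [hB1def, Set.mem_preimage, map_add]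
  exact htr _ (by rw [hπι]; exact hh) _ hx

end Pool.Agent.H341Q.BH
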