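import Pool.Agent.H341Q.BHRun

/-! The meagre set without an invariant Borel meagre hull. -/

set_option autoImplicit false

namespace Pool.Agent.H341Q.BH

open Filter MeasureTheory

/-- the meagre set -/
def Cset : Set ℝ := {x | ∀ κ : Br →₀ ℤ, ¬ ∃ᶠ n in atTop, x - hs κ ∈ W n}

lemma isOpen_W (n : ℕ) : IsOpen (W n) := by
  have h : W n = ⋃ k : ℤ, {x : ℝ | |(q n : ℝ) * x - k| < 1 / (3 * Q n)} := by
    ext x; simp [W]
  rw [h]
  refine isOpen_iUnion fun k => isOpen_lt ?_ continuous_const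
  fun_prop

lemma dense_W (m : ℕ) : Dense (⋃ n ≥ m, W n) := by
  rw [Metric.dense_iff]
  intro x r hr
  obtain ⟨N, hN⟩ := exists_nat_gt (1 / r)
  set n := max N m with hn
  have hq : (0 : ℝ) < q n := by exact_mod_cast q_pos n
  have hQ : (0 : ℝ) < Q n := by exact_mod_cast Q_pos n
  have h1 := q_ge n
  have h2 : (N : ℝ) ≤ n := by exact_mod_cast le_max_left _ _
  have h3 : 1 < r * q n := by
    rw [div_lt_iff₀ hr] at hN
    nlinarith
  refine ⟨(round ((q n : ℝ) * x) : ℝ) / q n, ?_, ?_⟩
  · rw [Metric.mem_ball, Real.dist_eq]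
    have h4 : (round ((q n : ℝ) * x) : ℝ) / q n - x =
      -((q n : ℝ) * x - round ((q n : ℝ) * x)) / q n := by field_simp; ring
    rw [h4, abs_div, abs_neg, abs_of_pos hq, div_lt_iff₀ hq]
    have := abs_sub_round ((q n : ℝ) * x)
    linarith
  · rw [Set.mem_iUnion₂]
    refine ⟨n, le_max_right _ _, round ((q n : ℝ) * x), ?_⟩
    have h5 : (q n : ℝ) * ((round ((q n : ℝ) * x) : ℝ) / q n) - round ((q n : ℝ) * x) = 0 := by
      field_simp; ring
    rw [h5, abs_zero]
    positivity

lemma hs_zero : hs 0 = 0 := by unfold hs; exact Finsupp.sum_zero_index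

lemma hs_add (κ μ : Br →₀ ℤ) : hs (κ + μ) = hs κ + hs μ := by
  unfold hs
  exact Finsupp.sum_add_index' (fun a => by simp) (fun a k k' => by push_cast; ring)

lemma hs_single (a : Br) : hs (Finsupp.single a 1) = p a := by
  unfold hs
  rw [Finsupp.sum_single_index (by simp)]
  simp

lemma meagre_C : IsMeagre Cset := by
  have h1 : (⋂ m : ℕ, ⋃ n ≥ m, W n) ∈ residual ℝ := by
    rw [countable_iInter_mem]
    intro m
    exact residual_of_dense_open (isOpen_biUnion fun n _ => isOpen_W n) (dense_W m)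
  refine Filter.mem_of_superset h1 ?_
  intro x hx hC
  apply hC 0
  rw [Filter.frequently_atTop]
  intro m
  rw [Set.mem_iInter] at hx
  have := hx m
  rw [Set.mem_iUnion₂] at this
  obtain ⟨n, hn, hW⟩ := this
  exact ⟨n, hn, by rw [hs_zero, sub_zero]; exact hW⟩

lemma C_inv {x : ℝ} (hx : x ∈ Cset) (μ : Br →₀ ℤ) : x + hs μ ∈ Cset := by
  intro κ
  have h1 := hx (κ + -μ)
  have h2 : hs (κ + -μ) = hs κ - hs μ := by
    have h3 := hs_add (κ + -μ) μ
    rw [neg_add_cancel_right] at h3
    linarith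
  rw [h2] at h1
  have h3 : x + hs μ - hs κ = x - (hs κ - hs μ) := by ring
  rw [h3]
  exact h1

instance : PolishSpace (ℕ → Bool) := { }

/-- Every Borel comeagre set that is invariant under the group meets the meagre set `Cset`. -/
theorem core (G : Set ℝ) (hG : MeasurableSet G) (hm : IsMeagre Gᶜ)
    (hinv : ∀ x ∈ G, ∀ a : Br, x + p a ∈ G) : (G ∩ Cset).Nonempty := by
  by_contra hcon
  rw [Set.not_nonempty_iff_eq_empty] at hcon
  obtain ⟨T, hT1, hT2, hT3⟩ : ∃ T ⊆ G, IsGδ T ∧ Dense T := by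
    rw [← mem_residual]
    rw [IsMeagre, compl_compl] at hm
    exact hm
  obtain ⟨f, hf1, hf2⟩ := isGδ_iff_eq_iInter_nat.1 hT2
  set U : ℕ → Set ℝ := fun j => ⋂ i ∈ Finset.range (j + 1), f i with hUdef
  have hU : ∀ j, IsOpen (U j) := fun j => isOpen_biInter_finset fun i _ => hf1 i
  have hTU : ∀ j, T ⊆ U j := by
    intro j x hx
    rw [hf2, Set.mem_iInter] at hx
    exact Set.mem_iInter₂.2 fun i _ => hx i
  have hd : ∀ j, Dense (U j) := fun j => hT3.mono (hTU j)
  have hanti : Antitone U := by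
    intro j j' h x hx
    rw [Set.mem_iInter₂] at hx ⊢
    intro i hi
    rw [Finset.mem_range] at hi
    exact hx i (Finset.mem_range.2 (by omega))
  have hUG : (⋂ j, U j) ⊆ G := by
    intro x hx
    apply hT1
    rw [hf2, Set.mem_iInter]
    intro i
    rw [Set.mem_iInter] at hx
    exact Set.mem_iInter₂.1 (hx i) i (Finset.mem_range.2 (Nat.lt_succ_self i))
  obtain ⟨Zf, hZ1, hZ2⟩ := exists_run U hU hd
  have hmeas : Measurable (fun y : ℕ → Bool => Zf (tt y)) := by
    apply measurable_of_tendsto_metrizable (f := fun j y => (sl U hU hd (bl (tt y) j)).z)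
    · intro j A hA
      have h : (fun y : ℕ → Bool => (sl U hU hd (bl (tt y) j)).z) ⁻¹' A =
          ⋃ L ∈ {L : List Bool | (sl U hU hd L).z ∈ A}, {y | bl (tt y) j = L} := by
        ext y
        simp
      rw [h]
      exact MeasurableSet.biUnion (Set.to_countable _)
        (fun L _ => measurable_bl tt measurable_tt j L)
    · rw [tendsto_pi_nhds]
      intro y
      exact hZ1 (tt y)
  have hset : {y : ℕ → Bool | ¬ IllF y} = ((fun y : ℕ → Bool => Zf (tt y)) ⁻¹' G)ᶜ := by
    ext y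
    rw [Set.mem_compl_iff, Set.mem_preimage]
    obtain ⟨m, a, R⟩ := hZ2 (tt y)
    constructor
    · intro h hG'
      have h1 : Zf (tt y) ∈ Cset := fun κ => R.wf h κ
      have h2 : Zf (tt y) ∈ G ∩ Cset := ⟨hG', h1⟩
      rw [hcon] at h2
      exact h2
    · intro h hI
      apply h
      obtain ⟨c, hc⟩ := R.ill hanti hI
      have h1 : Zf (tt y) - p c ∈ G := hUG (Set.mem_iInter.2 hc)
      have h2 := hinv _ h1 c
      rwa [sub_add_cancel] at h2
  apply not_analytic
  rw [hset]
  exact ((hmeas hG).compl).analyticSet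

/-- There is no translation-invariant Borel hull on the meagre ideal of `ℝⁿ`. -/
theorem no_hull (n : ℕ) (hn : 1 ≤ n)
    (ψ : Set (EuclideanSpace ℝ (Fin n)) → Set (EuclideanSpace ℝ (Fin n)))
    (h1 : ∀ A, IsMeagre A → IsMeagre (ψ A) ∧
      MeasurableSet[borel (EuclideanSpace ℝ (Fin n))] (ψ A) ∧ A ⊆ ψ A)
    (h2 : ∀ A, IsMeagre A → ∀ x, ψ ((fun y => y + x) '' A) = (fun y => y + x) '' ψ A) :
    False := by
  set i0 : Fin n := ⟨0, hn⟩
  set π : EuclideanSpace ℝ (Fin n) →L[ℝ] ℝ := EuclideanSpace.proj i0 with hπ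
  set ι : ℝ →L[ℝ] EuclideanSpace ℝ (Fin n) :=
    ContinuousLinearMap.toSpanSingleton ℝ (EuclideanSpace.single i0 (1 : ℝ)) with hι
  have hπι : ∀ t, π (ι t) = t := by
    intro t
    simp [hπ, hι]
  have hsurj : Function.Surjective π := fun t => ⟨ι t, hπι t⟩
  have hopen : IsOpenMap π := π.isOpenMap hsurj
  set A : Set (EuclideanSpace ℝ (Fin n)) := π ⁻¹' Cset with hA
  have hAm : IsMeagre A := IsMeagre.preimage_of_isOpenMap π.continuous hopen meagre_C
  obtain ⟨hB1, hB2, hB3⟩ := h1 A hAm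
  set B := ψ A with hB
  rw [← BorelSpace.measurable_eq (α := EuclideanSpace ℝ (Fin n))] at hB2
  -- invariance
  have htr : ∀ v : EuclideanSpace ℝ (Fin n), (∃ μ : Br →₀ ℤ, π v = hs μ) →
      ∀ x, x ∈ B → x + v ∈ B := by
    rintro v ⟨μ, hμ⟩ x hx
    have hAv : (fun y => y + v) '' A = A := by
      ext y
      rw [Set.mem_image]
      constructor
      · rintro ⟨y', hy', rfl⟩
        rw [hA, Set.mem_preimage, map_add, hμ]
        exact C_inv hy' μ
      · intro hy
        refine ⟨y - v, ?_, sub_add_cancel y v⟩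
        rw [hA, Set.mem_preimage, map_sub, hμ]
        have h3 := C_inv hy (-μ)
        have h4 : hs (-μ) = - hs μ := by
          have := hs_add (-μ) μ
          rw [neg_add_cancel, hs_zero] at this
          linarith
        rw [h4] at h3
        exact h3
    have h3 := h2 A hAm v
    rw [hAv] at h3
    rw [hB, h3]
    exact ⟨x, hx, rfl⟩
  have hker : ∀ v, π v = 0 → ∀ x, x ∈ B → x + v ∈ B := fun v hv =>
    htr v ⟨0, by rw [hv, hs_zero]⟩
  set B1 : Set ℝ := ι ⁻¹' B with hB1def
  have hB1m : MeasurableSet B1 := ι.continuous.measurable hB2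
  have hBB : π ⁻¹' B1 = B := by
    ext x
    rw [Set.mem_preimage, hB1def, Set.mem_preimage]
    constructor
    · intro h
      have h3 := hker (x - ι (π x)) (by rw [map_sub, hπι, sub_self]) _ h
      rwa [add_sub_cancel] at h3
    · intro h
      have h3 := hker (ι (π x) - x) (by rw [map_sub, hπι, sub_self]) _ h
      rwa [add_sub_cancel] at h3
  have hmB1 : IsMeagre B1 := by
    obtain ⟨O, hO1, hO2⟩ := hB1m.residualEq_isOpen
    have hempty : O = ∅ := by
      by_contra hne
      have hne' : (π ⁻¹' O).Nonempty := (Set.nonempty_iff_ne_empty.2 hne).preimage hsurj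
      have h3 : ∀ᶠ x in residual (EuclideanSpace ℝ (Fin n)), π x ∈ B1 ↔ π x ∈ O := by
        have h4 : ∀ᶠ t in residual ℝ, t ∈ B1 ↔ t ∈ O := by
          filter_upwards [hO2] with t ht
          exact iff_of_eq ht
        exact (tendsto_residual_of_isOpenMap π.continuous hopen).eventually h4
      have h4 : ∀ᶠ x in residual (EuclideanSpace ℝ (Fin n)), x ∉ B := hB1
      have h5 : ∀ᶠ x in residual (EuclideanSpace ℝ (Fin n)), x ∉ π ⁻¹' O := by
        filter_upwards [h3, h4] with x hx1 hx2 hx3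
        exact hx2 (by rw [← hBB]; exact hx1.2 hx3)
      have h6 : Dense {x | x ∉ π ⁻¹' O} := dense_of_mem_residual h5
      obtain ⟨x, hx1, hx2⟩ := h6.inter_open_nonempty _ (hO1.preimage π.continuous) hne'
      exact hx2 hx1
    rw [hempty] at hO2
    have h7 : ∀ᶠ t in residual ℝ, t ∉ B1 := by
      filter_upwards [hO2] with t ht
      have h8 : (t ∈ B1) = (t ∈ (∅ : Set ℝ)) := ht
      rw [h8]
      exact Set.notMem_empty t
    exact h7
  obtain ⟨x, hx1, hx2⟩ := core B1ᶜ hB1m.compl (by rw [compl_compl]; exact hmB1) (by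
    intro t ht a hta
    apply ht
    rw [hB1def, Set.mem_preimage] at hta ⊢
    have h3 := htr (-(ι (p a))) ⟨-(Finsupp.single a 1), by
      rw [map_neg, hπι]
      have := hs_add (-(Finsupp.single a 1)) (Finsupp.single a 1)
      rw [neg_add_cancel, hs_zero, hs_single] at this
      linarith⟩ _ hta
    rwa [map_add, add_neg_cancel_right] at h3)
  apply hx1
  rw [hB1def, Set.mem_preimage]
  apply hB3
  rw [hA, Set.mem_preimage, hπι]
  exact hx2

end Pool.Agent.H341Q.BH
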