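import Mathlib

/-! The tree of finite sequences of natural numbers, and the diagonal argument: the codes without
an infinite branch do not form an analytic set. -/

set_option autoImplicit false

namespace Pool.Agent.H341Q.BH

open Filter MeasureTheory

/-- the parent of the node `i` -/
def par (i : ℕ) : ℕ := (Nat.unpair (i - 1)).2

/-- the `k`-th child of the node `j` -/
def chd (k j : ℕ) : ℕ := Nat.pair k j + 1

lemma par_chd (k j : ℕ) : par (chd k j) = j := by simp [par, chd]

lemma lt_chd (k j : ℕ) : j < chd k j := by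
  have := Nat.right_le_pair k j
  unfold chd; omega

lemma par_zero : par 0 = 0 := by simp [par]

lemma par_lt {i : ℕ} (h : 0 < i) : par i < i := by
  have := Nat.unpair_right_le (i - 1)
  unfold par; omega

lemma chd_par {i : ℕ} (h : 0 < i) : chd (Nat.unpair (i - 1)).1 (par i) = i := by
  unfold chd par
  rw [Nat.pair_unpair]; omega

/-- the nodes along the branch `w` -/
def nd (w : ℕ → ℕ) : ℕ → ℕ
  | 0 => 0
  | n + 1 => chd (w n) (nd w n)

lemma le_nd (w : ℕ → ℕ) (n : ℕ) : n ≤ nd w n := by
  induction n with
  | zero => exact Nat.zero_le _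
  | succ n ih => have := lt_chd (w n) (nd w n); simp only [nd]; omega

lemma nd_strictMono (w : ℕ → ℕ) : StrictMono (nd w) :=
  strictMono_nat_of_lt_succ (fun n => lt_chd (w n) (nd w n))

lemma chd_inj {k j k' j' : ℕ} (h : chd k j = chd k' j') : k = k' ∧ j = j' := by
  unfold chd at h
  have h1 : Nat.pair k j = Nat.pair k' j' := by omega
  exact Nat.pair_eq_pair.1 h1

lemma nd_inj (w w' : ℕ → ℕ) : ∀ n n' : ℕ, nd w n = nd w' n' → n = n' ∧ ∀ k < n, w k = w' k := by
  intro n
  induction n with
  | zero =>
    intro n' h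
    cases n' with
    | zero => exact ⟨rfl, fun k hk => absurd hk (Nat.not_lt_zero k)⟩
    | succ n' => simp [nd, chd] at h
  | succ n ih =>
    intro n' h
    cases n' with
    | zero => simp [nd, chd] at h
    | succ n' =>
      obtain ⟨h1, h2⟩ := chd_inj (h : chd (w n) (nd w n) = chd (w' n') (nd w' n'))
      obtain ⟨rfl, h3⟩ := ih n' h2
      refine ⟨rfl, fun k hk => ?_⟩
      rcases Nat.lt_succ_iff_lt_or_eq.1 hk with h4 | rfl
      · exact h3 k h4
      · exact h1

lemma nd_congr {w w' : ℕ → ℕ} {n : ℕ} (h : ∀ k < n, w k = w' k) : nd w n = nd w' n := by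
  induction n with
  | zero => rfl
  | succ n ih =>
    simp only [nd]
    rw [ih (fun k hk => h k (by omega)), h n (by omega)]

lemma exists_nd (j : ℕ) : ∃ (w : ℕ → ℕ) (n : ℕ), nd w n = j := by
  induction j using Nat.strong_induction_on with
  | _ j ih =>
    rcases Nat.eq_zero_or_pos j with rfl | hj
    · exact ⟨fun _ => 0, 0, rfl⟩
    · obtain ⟨w, n, h⟩ := ih (par j) (par_lt hj)
      refine ⟨Function.update w n (Nat.unpair (j - 1)).1, n + 1, ?_⟩
      simp only [nd, Function.update_self]
      rw [nd_congr (w' := w) (fun k hk => by rw [Function.update_of_ne (by omega)]), h]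
      exact chd_par hj

lemma par_nd (w : ℕ → ℕ) (n : ℕ) : par (nd w n) = nd w (n - 1) := by
  cases n with
  | zero => simp [nd, par_zero]
  | succ n => simp [nd, par_chd]

lemma iter_par_nd (w : ℕ → ℕ) (n k : ℕ) : par^[k] (nd w n) = nd w (n - k) := by
  induction k with
  | zero => rfl
  | succ k ih => rw [Function.iterate_succ_apply', ih, par_nd]; congr 1

/-- an infinite chain of nodes lies on a branch -/
lemma chain_branch (I : Set ℕ) (hI : I.Infinite)
    (hc : ∀ i ∈ I, ∀ j ∈ I, i < j → ∃ k, par^[k] j = i) :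
    ∃ w : ℕ → ℕ, ∃ᶠ n in atTop, nd w n ∈ I := by
  choose W N hW using exists_nd
  have hcmp : ∀ i ∈ I, ∀ j ∈ I, i < j → N i < N j ∧ ∀ k < N i, W i k = W j k := by
    intro i hi j hj hij
    obtain ⟨k, hk⟩ := hc i hi j hj hij
    rw [← hW j, iter_par_nd, ← hW i] at hk
    obtain ⟨h1, h2⟩ := nd_inj _ _ _ _ hk.symm
    refine ⟨?_, h2⟩
    rcases Nat.eq_zero_or_pos k with h0 | h0
    · exfalso
      subst h0
      rw [Nat.sub_zero] at hk
      rw [hW, hW] at hk; omega
    · rcases Nat.eq_zero_or_pos (N j) with h3 | h3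
      · exfalso
        have h4 : N i = N j := by omega
        rw [h3] at hk
        have h5 : i = nd (W j) (0 - k) := by rw [← hW i]; exact hk.symm
        have h6 : j = nd (W j) 0 := by rw [← h3, hW]
        have h7 : (0 : ℕ) - k = 0 := by omega
        rw [h7] at h5
        omega
      · omega
  have hbig : ∀ n, ∃ j ∈ I, n < N j := by
    intro n
    induction n with
    | zero =>
      obtain ⟨i, hi⟩ := hI.nonempty
      obtain ⟨j, hj, hij⟩ := hI.exists_gt i
      exact ⟨j, hj, lt_of_le_of_lt (Nat.zero_le _) (hcmp i hi j hj hij).1⟩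
    | succ n ih =>
      obtain ⟨i, hi, h⟩ := ih
      obtain ⟨j, hj, hij⟩ := hI.exists_gt i
      exact ⟨j, hj, by have := (hcmp i hi j hj hij).1; omega⟩
  choose J hJ hJN using hbig
  refine ⟨fun k => W (J k) k, ?_⟩
  have hall : ∀ j ∈ I, nd (fun k => W (J k) k) (N j) = j := by
    intro j hj
    have : nd (fun k => W (J k) k) (N j) = nd (W j) (N j) := by
      apply nd_congr
      intro k hk
      rcases lt_trichotomy (J k) j with h | h | h
      · exact (hcmp _ (hJ k) _ hj h).2 k (hJN k)
      · rw [h]
      · exact ((hcmp _ hj _ (hJ k) h).2 k hk).symm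
    rw [this, hW]
  rw [Filter.frequently_atTop]
  intro n
  refine ⟨N (J n), (hJN n).le, ?_⟩
  rw [hall _ (hJ n)]
  exact hJ n

/-- the first `n` values, in reverse order -/
def bl (t : ℕ → Bool) : ℕ → List Bool
  | 0 => []
  | n + 1 => t n :: bl t n

lemma bl_inj {t t' : ℕ → Bool} : ∀ {n : ℕ}, bl t n = bl t' n → ∀ k < n, t k = t' k := by
  intro n
  induction n with
  | zero => intro _ k hk; exact absurd hk (Nat.not_lt_zero k)
  | succ n ih =>
    intro h k hk
    simp only [bl, List.cons.injEq] at h
    rcases Nat.lt_succ_iff_lt_or_eq.1 hk with h4 | rfl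
    · exact ih h.2 k h4
    · exact h.1

/-- the node `i` is accepted by the code `y` -/
def tt (y : ℕ → Bool) (i : ℕ) : Bool := y (Nat.pair i (Encodable.encode (bl y i)))

/-- some branch has infinitely many accepted nodes -/
def IllF (y : ℕ → Bool) : Prop := ∃ w : ℕ → ℕ, ∃ᶠ n in atTop, tt y (nd w n) = true

theorem not_analytic : ¬ AnalyticSet {y : ℕ → Bool | ¬ IllF y} := by
  classical
  intro h
  rw [AnalyticSet] at h
  rcases h with h | ⟨f, hf, hr⟩
  · have h1 : (fun _ => false : ℕ → Bool) ∈ {y : ℕ → Bool | ¬ IllF y} := by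
      rintro ⟨w, hw⟩
      obtain ⟨n, hn⟩ := hw.exists
      simp [tt] at hn
    rw [h] at h1
    exact h1
  · let y0 : ℕ → Bool := fun m => decide (∃ (w : ℕ → ℕ) (n : ℕ),
      m = Nat.pair (nd w n) (Encodable.encode (bl (f w) (nd w n))))
    have hy0 : ∀ m, y0 m = true ↔ ∃ (w : ℕ → ℕ) (n : ℕ),
      m = Nat.pair (nd w n) (Encodable.encode (bl (f w) (nd w n))) := fun m => by
        simp only [y0, decide_eq_true_eq]
    have key : IllF y0 ↔ y0 ∈ Set.range f := by
      constructor
      · rintro ⟨w, hw⟩
        rw [Filter.frequently_atTop] at hw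
        choose φ hφ1 hφ2 using hw
        have h1 : ∀ n, ∃ w' : ℕ → ℕ, (∀ k < n, w k = w' k) ∧ ∀ k < n, y0 k = f w' k := by
          intro n
          have h2 := hφ2 n
          rw [tt, hy0] at h2
          obtain ⟨w', n', h3⟩ := h2
          obtain ⟨h4, h5⟩ := Nat.pair_eq_pair.1 h3
          obtain ⟨h6, h7⟩ := nd_inj _ _ _ _ h4
          rw [← h4] at h5
          have h8 := bl_inj (Encodable.encode_injective h5)
          refine ⟨w', fun k hk => h7 k (lt_of_lt_of_le hk (hφ1 n)), fun k hk => h8 k ?_⟩
          exact lt_of_lt_of_le hk ((hφ1 n).trans (le_nd _ _))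
        choose w' hw1 hw2 using h1
        have h2 : Tendsto w' atTop (nhds w) := by
          rw [tendsto_pi_nhds]
          intro k
          apply tendsto_const_nhds.congr'
          filter_upwards [eventually_gt_atTop k] with n hn
          exact hw1 n k hn
        have h3 : Tendsto (fun n => f (w' n)) atTop (nhds (f w)) := (hf.tendsto w).comp h2
        have h4 : Tendsto (fun n => f (w' n)) atTop (nhds y0) := by
          rw [tendsto_pi_nhds]
          intro k
          apply tendsto_const_nhds.congr'
          filter_upwards [eventually_gt_atTop k] with n hn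
          exact hw2 n k hn
        exact ⟨w, tendsto_nhds_unique h3 h4⟩
      · rintro ⟨w, hw⟩
        refine ⟨w, Filter.Eventually.frequently (Filter.Eventually.of_forall fun n => ?_)⟩
        rw [tt, hy0]
        exact ⟨w, n, by rw [hw]⟩
    rw [hr] at key
    exact iff_not_self key

lemma measurable_bl {Y : Type} [MeasurableSpace Y] (u : Y → ℕ → Bool)
    (hu : ∀ i, Measurable (fun y => u y i)) :
    ∀ (j : ℕ) (L : List Bool), MeasurableSet {y | bl (u y) j = L} := by
  intro j
  induction j with
  | zero => intro L; simp only [bl]; exact MeasurableSet.const _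
  | succ j ih =>
    intro L
    cases L with
    | nil => simp only [bl, reduceCtorEq]; exact MeasurableSet.const _
    | cons b L =>
      simp only [bl, List.cons.injEq]
      exact ((hu j) (measurableSet_singleton b)).inter (ih L)

lemma measurable_tt (i : ℕ) : Measurable (fun y : ℕ → Bool => tt y i) := by
  apply measurable_to_countable'
  intro b
  have h : (fun y : ℕ → Bool => tt y i) ⁻¹' {b} = ⋃ L : List Bool,
      ({y | bl y i = L} ∩ {y | y (Nat.pair i (Encodable.encode L)) = b}) := by
    ext y
    simp [tt]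
  rw [h]
  refine MeasurableSet.iUnion fun L => (measurable_bl id (fun i => measurable_pi_apply i) i L).inter ?_
  have h2 : Measurable (fun y : ℕ → Bool => y (Nat.pair i (Encodable.encode L))) :=
    measurable_pi_apply _
  exact h2 (measurableSet_singleton b)

end Pool.Agent.H341Q.BH
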