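import Pool.Agent.H341Q.BHStage
import Pool.Agent.H341Q.BHTree

/-! The construction, for all codes at the same time. -/

set_option autoImplicit false

namespace Pool.Agent.H341Q.BH

open Filter

/-- the properties of a run of the construction -/
structure Run (U : ℕ → Set ℝ) (t : ℕ → Bool) (m : ℕ → ℕ) (Z : ℝ) (a : ℕ → Br) : Prop where
  mlt : ∀ j, m j < m (j + 1)
  tf : ∀ j, t j = false → m (j + 1) = m j + 1
  mark : ∀ j, (a j (m j)).val = j + 1
  pr : ∀ j, 0 < j → ∀ k < m (par j + 1), a j k = a (par j) k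
  fill : ∀ j, 0 < j → ∀ k, m (par j + 1) ≤ k → k < m j → (a j k).val = 0
  safe : ∀ j κ, wt κ ≤ m j → Z - hs κ ∉ W (m j)
  adv : ∀ j n, m j < n → n < m (j + 1) → ∀ κ : Br →₀ ℤ, wt κ ≤ n → Z - hs κ ∈ W n →
    ∃ c ∈ κ.support, ∀ k ≤ n, c k = a j k
  hit : ∀ j, t j = true → ∀ c : Br, (∀ k < m (j + 1), c k = a j k) → Z - p c ∈ U j

namespace Run

variable {U : ℕ → Set ℝ} {t : ℕ → Bool} {m : ℕ → ℕ} {Z : ℝ} {a : ℕ → Br}

lemma m_strictMono (R : Run U t m Z a) : StrictMono m := strictMono_nat_of_lt_succ R.mlt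

lemma le_m (R : Run U t m Z a) (j : ℕ) : j ≤ m j := R.m_strictMono.id_le j

lemma anc (R : Run U t m Z a) : ∀ j i, i < j → (a j (m i)).val = i + 1 → ∃ k, par^[k] j = i := by
  intro j
  induction j using Nat.strong_induction_on with
  | _ j ih =>
    intro i hij h
    have hj : 0 < j := by omega
    have hp := par_lt hj
    rcases Nat.lt_or_ge (m i) (m (par j + 1)) with h1 | h1
    · have h2 : i < par j + 1 := R.m_strictMono.lt_iff_lt.1 h1
      rcases Nat.lt_succ_iff_lt_or_eq.1 h2 with h3 | h3
      · rw [R.pr j hj _ h1] at h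
        obtain ⟨k, hk⟩ := ih (par j) hp i h3 h
        exact ⟨k + 1, by rw [Function.iterate_succ_apply]; exact hk⟩
      · exact ⟨1, h3.symm⟩
    · have := R.fill j hj _ h1 (R.m_strictMono hij)
      omega

/-- the case without an infinite branch -/
theorem wf (R : Run U t m Z a) (h : ¬ ∃ w : ℕ → ℕ, ∃ᶠ n in atTop, t (nd w n) = true)
    (κ : Br →₀ ℤ) : ¬ ∃ᶠ n in atTop, Z - hs κ ∈ W n := by
  intro hf
  apply h
  have hw0 : 0 ≤ wt κ := by unfold wt Finsupp.sum; positivity
  -- infinitely many stages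
  have h1 : ∀ N : ℕ, ∃ j, N ≤ j ∧ t j = true ∧ ∃ c ∈ κ.support, ∀ k ≤ m j, c k = a j k := by
    intro N
    rw [Filter.frequently_atTop] at hf
    obtain ⟨n, hn, hW⟩ := hf (max (m N) (wt κ).toNat)
    have hn1 : m N ≤ n := (le_max_left _ _).trans hn
    have hn2 : wt κ ≤ n := by
      have : (wt κ).toNat ≤ n := (le_max_right _ _).trans hn
      omega
    obtain ⟨j, hj1, hj2⟩ : ∃ j, m j ≤ n ∧ n < m (j + 1) := by
      have hex : ∃ j, n < m (j + 1) := ⟨n, by have := R.le_m (n + 1); omega⟩
      classical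
      refine ⟨Nat.find hex, ?_, Nat.find_spec hex⟩
      rcases Nat.eq_zero_or_pos (Nat.find hex) with h0 | h0
      · rw [h0]
        exact (R.m_strictMono.monotone (Nat.zero_le N)).trans hn1
      · have := Nat.find_min hex (Nat.sub_lt h0 Nat.one_pos)
        rw [Nat.sub_add_cancel h0] at this
        omega
    have hjn : m j < n := by
      rcases Nat.lt_or_ge (m j) n with h2 | h2
      · exact h2
      · exfalso
        obtain rfl : n = m j := by omega
        exact R.safe j κ hn2 hW
    obtain ⟨c, hc1, hc2⟩ := R.adv j n hjn hj2 κ hn2 hW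
    refine ⟨j, ?_, ?_, c, hc1, fun k hk => hc2 k (by omega)⟩
    · by_contra hlt
      have : m (j + 1) ≤ m N := R.m_strictMono.monotone (by omega)
      omega
    · by_contra htf
      have := R.tf j (by simpa using htf)
      omega
  -- pigeonhole
  have h2 : ∃ c ∈ κ.support, {j | t j = true ∧ ∀ k ≤ m j, c k = a j k}.Infinite := by
    by_contra hc
    push Not at hc
    have h3 : (⋃ c ∈ κ.support, {j | t j = true ∧ ∀ k ≤ m j, c k = a j k}).Finite :=
      Set.Finite.biUnion κ.support.finite_toSet hc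
    obtain ⟨N, hN⟩ := h3.bddAbove
    obtain ⟨j, hj1, hj2, c, hc1, hc2⟩ := h1 (N + 1)
    have : j ≤ N := hN (Set.mem_biUnion (Finset.mem_coe.2 hc1) ⟨hj2, hc2⟩)
    omega
  obtain ⟨c, -, hc⟩ := h2
  obtain ⟨w, hw⟩ := chain_branch _ hc (by
    rintro i ⟨hi1, hi2⟩ j ⟨hj1, hj2⟩ hij
    apply R.anc j i hij
    rw [← hj2 (m i) (R.m_strictMono hij).le, hi2 (m i) le_rfl, R.mark i])
  exact ⟨w, hw.mono (fun n hn => hn.1)⟩

/-- the case with an infinite branch -/
theorem ill (R : Run U t m Z a) (hU : Antitone U)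
    (h : ∃ w : ℕ → ℕ, ∃ᶠ n in atTop, t (nd w n) = true) : ∃ c : Br, ∀ j, Z - p c ∈ U j := by
  obtain ⟨w, hw⟩ := h
  have hstep : ∀ n k, k < m (nd w n + 1) → a (nd w (n + 1)) k = a (nd w n) k := by
    intro n k hk
    have h1 : par (nd w (n + 1)) = nd w n := par_chd _ _
    have h2 := R.pr (nd w (n + 1)) (by have := le_nd w (n + 1); omega) k
    rw [h1] at h2
    exact h2 hk
  have hst : ∀ n n', n ≤ n' → ∀ k, k < m (nd w n + 1) → a (nd w n') k = a (nd w n) k := by
    intro n n' hn
    induction n', hn using Nat.le_induction with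
    | base => intro k _; rfl
    | succ n' hn ih =>
      intro k hk
      rw [hstep n' k, ih k hk]
      refine lt_of_lt_of_le hk (R.m_strictMono.monotone ?_)
      have := (nd_strictMono w).monotone hn
      omega
  let c : Br := fun k => a (nd w (k + 1)) k
  have hc : ∀ n k, k < m (nd w n + 1) → c k = a (nd w n) k := by
    intro n k hk
    change a (nd w (k + 1)) k = _
    rcases Nat.le_total n (k + 1) with h1 | h1
    · exact hst n (k + 1) h1 k hk
    · refine (hst (k + 1) n h1 k ?_).symm
      have h2 := R.le_m (nd w (k + 1) + 1)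
      have h3 := le_nd w (k + 1)
      omega
  refine ⟨c, fun j => ?_⟩
  rw [Filter.frequently_atTop] at hw
  obtain ⟨n, hn, ht⟩ := hw j
  exact hU (hn.trans (le_nd w n)) (R.hit (nd w n) ht c (hc n))

end Run

/-- extending a branch by a mark -/
def mkb (b : Br) (l m j : ℕ) : Br := fun k =>
  if k < l then b k else if k = m then (if h : j + 1 < k + 2 then ⟨j + 1, h⟩ else 0) else 0

noncomputable def sM (m : ℕ) (z : ℝ) (b : Br) (U : Set ℝ) (hU : IsOpen U) (hd : Dense U)
    (t : Bool) : ℕ := (stage m z b U hU hd t).choose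

noncomputable def sZ (m : ℕ) (z : ℝ) (b : Br) (U : Set ℝ) (hU : IsOpen U) (hd : Dense U)
    (t : Bool) : ℝ := (stage m z b U hU hd t).choose_spec.choose

noncomputable def sA (m : ℕ) (z : ℝ) (b : Br) (U : Set ℝ) (hU : IsOpen U) (hd : Dense U)
    (t : Bool) : Br := (stage m z b U hU hd t).choose_spec.choose_spec.choose

theorem stage_spec (m : ℕ) (z : ℝ) (b : Br) (U : Set ℝ) (hU : IsOpen U) (hd : Dense U)
    (t : Bool) : m < sM m z b U hU hd t ∧ (t = false → sM m z b U hU hd t = m + 1) ∧
      (∀ k ≤ m, sA m z b U hU hd t k = b k) ∧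
      (∀ x, |x - sZ m z b U hU hd t| ≤ rd (sM m z b U hU hd t) → |x - z| ≤ rd m) ∧
      (∀ x, |x - sZ m z b U hU hd t| ≤ rd (sM m z b U hU hd t) →
        ∀ κ : Br →₀ ℤ, wt κ ≤ m → x - hs κ ∉ W m) ∧
      (∀ x, |x - sZ m z b U hU hd t| ≤ rd (sM m z b U hU hd t) →
        ∀ n, m < n → n < sM m z b U hU hd t → ∀ κ : Br →₀ ℤ, wt κ ≤ n →
        x - hs κ ∈ W n → ∃ a ∈ κ.support, ∀ k ≤ n, a k = sA m z b U hU hd t k) ∧
      (t = true → ∀ x, |x - sZ m z b U hU hd t| ≤ rd (sM m z b U hU hd t) → ∀ c : Br,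
        (∀ k < sM m z b U hU hd t, c k = sA m z b U hU hd t k) → x - p c ∈ U) :=
  (stage m z b U hU hd t).choose_spec.choose_spec.choose_spec

/-- the state of the construction -/
structure St where
  m : ℕ
  z : ℝ
  A : ℕ → Br
  L : ℕ → ℕ

/-- the branch prefix used at the next stage -/
def St.b (s : St) (j : ℕ) : Br := mkb (s.A (par j)) (s.L (par j)) s.m j

section
variable (U : ℕ → Set ℝ) (hU : ∀ j, IsOpen (U j)) (hd : ∀ j, Dense (U j))

noncomputable def stp (j : ℕ) (t : Bool) (s : St) : St :=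
  ⟨sM s.m s.z (s.b j) (U j) (hU j) (hd j) t, sZ s.m s.z (s.b j) (U j) (hU j) (hd j) t,
    Function.update s.A j (sA s.m s.z (s.b j) (U j) (hU j) (hd j) t),
    Function.update s.L j (sM s.m s.z (s.b j) (U j) (hU j) (hd j) t)⟩

noncomputable def sl : List Bool → St
  | [] => ⟨0, 0, fun _ _ => 0, fun _ => 0⟩
  | t :: l => stp U hU hd l.length t (sl l)

lemma length_bl (t : ℕ → Bool) (j : ℕ) : (bl t j).length = j := by
  induction j with
  | zero => rfl
  | succ j ih => simp [bl, ih]

theorem exists_run : ∃ Zf : (ℕ → Bool) → ℝ,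
    (∀ t, Tendsto (fun j => (sl U hU hd (bl t j)).z) atTop (nhds (Zf t))) ∧
    ∀ t, ∃ (m : ℕ → ℕ) (a : ℕ → Br), Run U t m (Zf t) a := by
  have hmain : ∀ t : ℕ → Bool, ∃ Z : ℝ,
      Tendsto (fun j => (sl U hU hd (bl t j)).z) atTop (nhds Z) ∧
      ∃ (m : ℕ → ℕ) (a : ℕ → Br), Run U t m Z a := by
    intro t
    set s : ℕ → St := fun j => sl U hU hd (bl t j) with hs'
    set m : ℕ → ℕ := fun j => (s j).m with hm
    set z : ℕ → ℝ := fun j => (s j).z with hz
    set a : ℕ → Br := fun j => (s (j + 1)).A j with ha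
    have hss : ∀ j, s (j + 1) = stp U hU hd j (t j) (s j) := by
      intro j
      simp only [hs', bl, sl, length_bl]
    have hsM : ∀ j, m (j + 1) = sM (m j) (z j) ((s j).b j) (U j) (hU j) (hd j) (t j) := by
      intro j
      change (s (j + 1)).m = _
      rw [hss]; rfl
    have hsZ : ∀ j, z (j + 1) = sZ (m j) (z j) ((s j).b j) (U j) (hU j) (hd j) (t j) := by
      intro j
      change (s (j + 1)).z = _
      rw [hss]; rfl
    have hsA : ∀ j, (s (j + 1)).A = Function.update (s j).A j
        (sA (m j) (z j) ((s j).b j) (U j) (hU j) (hd j) (t j)) := by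
      intro j
      rw [hss]; rfl
    have hsL : ∀ j, (s (j + 1)).L = Function.update (s j).L j (m (j + 1)) := by
      intro j
      rw [hsM, hss]; rfl
    have hsa : ∀ j, a j = sA (m j) (z j) ((s j).b j) (U j) (hU j) (hd j) (t j) := by
      intro j
      simp only [ha, hsA, Function.update_self]
    have hA : ∀ j i, i < j → (s j).A i = a i := by
      intro j
      induction j with
      | zero => intro i hi; exact absurd hi (Nat.not_lt_zero i)
      | succ j ih =>
        intro i hi
        rcases Nat.lt_succ_iff_lt_or_eq.1 hi with h | rfl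
        · rw [hsA, Function.update_of_ne (by omega)]
          exact ih i h
        · rfl
    have hL : ∀ j i, i < j → (s j).L i = m (i + 1) := by
      intro j
      induction j with
      | zero => intro i hi; exact absurd hi (Nat.not_lt_zero i)
      | succ j ih =>
        intro i hi
        rw [hsL]
        rcases Nat.lt_succ_iff_lt_or_eq.1 hi with h | rfl
        · rw [Function.update_of_ne (by omega)]
          exact ih i h
        · rw [Function.update_self]
    have spec := fun j => stage_spec (m j) (z j) ((s j).b j) (U j) (hU j) (hd j) (t j)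
    simp only [← hsM, ← hsZ, ← hsa] at spec
    have hmlt : ∀ j, m j < m (j + 1) := fun j => (spec j).1
    have hmono : StrictMono m := strictMono_nat_of_lt_succ hmlt
    have hlm : ∀ j, j ≤ m j := fun j => hmono.id_le j
    have hL0 : (s 0).L (par 0) = 0 := rfl
    have hLle : ∀ j, (s j).L (par j) ≤ m j := by
      intro j
      rcases Nat.eq_zero_or_pos j with rfl | hj
      · rw [hL0]; exact Nat.zero_le _
      · rw [hL j _ (par_lt hj)]
        exact hmono.monotone (par_lt hj)
    have hab : ∀ j k, k ≤ m j → a j k = (s j).b j k := fun j k hk => (spec j).2.2.1 k hk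
    -- the limit
    have hnest : ∀ j, Metric.closedBall (z (j + 1)) (rd (m (j + 1))) ⊆
        Metric.closedBall (z j) (rd (m j)) := by
      intro j x hx
      rw [Metric.mem_closedBall, Real.dist_eq] at hx ⊢
      exact (spec j).2.2.2.1 x hx
    have hrd : ∀ j, 0 ≤ rd j := by
      intro j
      have := q_pos j
      unfold rd; positivity
    obtain ⟨Z, hZ⟩ : (⋂ j, Metric.closedBall (z j) (rd (m j))).Nonempty := by
      apply IsCompact.nonempty_iInter_of_sequence_nonempty_isCompact_isClosed
      · exact hnest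
      · intro j; exact ⟨z j, Metric.mem_closedBall_self (hrd _)⟩
      · exact isCompact_closedBall _ _
      · intro j; exact Metric.isClosed_closedBall
    rw [Set.mem_iInter] at hZ
    have hZ' : ∀ j, |Z - z j| ≤ rd (m j) := by
      intro j
      have := hZ j
      rwa [Metric.mem_closedBall, Real.dist_eq] at this
    refine ⟨Z, ?_, m, a, ?_⟩
    · rw [tendsto_iff_dist_tendsto_zero]
      have h1 : Tendsto (fun j : ℕ => 1 / ((j : ℝ) + 1)) atTop (nhds 0) :=
        tendsto_one_div_add_atTop_nhds_zero_nat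
      refine squeeze_zero (fun _ => dist_nonneg) (fun j => ?_) h1
      rw [dist_comm, Real.dist_eq]
      refine (hZ' j).trans ?_
      unfold rd
      apply one_div_le_one_div_of_le (by positivity)
      have h2 := q_ge (m j)
      have h3 : (j : ℝ) ≤ m j := by exact_mod_cast hlm j
      linarith
    · constructor
      · exact hmlt
      · exact fun j => (spec j).2.1
      · intro j
        rw [hab j (m j) le_rfl]
        have h1 := hLle j
        have h2 := hlm j
        unfold St.b mkb
        rw [if_neg (by omega), if_pos rfl, dif_pos (by omega)]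
      · intro j hj k hk
        have h1 : m (par j + 1) ≤ m j := hmono.monotone (par_lt hj)
        rw [hab j k (by omega)]
        unfold St.b mkb
        rw [hL j _ (par_lt hj), if_pos hk, hA j _ (par_lt hj)]
      · intro j hj k hk1 hk2
        rw [hab j k hk2.le]
        unfold St.b mkb
        rw [hL j _ (par_lt hj), if_neg (by omega), if_neg (by
          have : k ≠ m j := by omega
          exact this)]
        rfl
      · intro j κ hκ
        exact (spec j).2.2.2.2.1 Z (hZ' (j + 1)) κ hκ
      · intro j n h1 h2 κ hκ hW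
        exact (spec j).2.2.2.2.2.1 Z (hZ' (j + 1)) n h1 h2 κ hκ hW
      · intro j ht c hc
        exact (spec j).2.2.2.2.2.2 ht Z (hZ' (j + 1)) c hc
  choose Zf h1 h2 using hmain
  exact ⟨Zf, h1, h2⟩

end

end Pool.Agent.H341Q.BH
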