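import Pool.Agent.H341Q.BHChoice

/-! One stage of the construction. -/

set_option autoImplicit false

namespace Pool.Agent.H341Q.BH

open Filter

/-- the open set of level `n` -/
def W (n : ℕ) : Set ℝ := {x | ∃ k : ℤ, |(q n : ℝ) * x - k| < 1 / (3 * Q n)}

lemma q_dl (n : ℕ) : (q n : ℝ) * dl (n + 1) = 1 / (Q n * Cc (n + 1)) := by
  have h1 : (q n : ℝ) ≠ 0 := by exact_mod_cast (q_pos n).ne'
  have h2 : (Q n : ℝ) ≠ 0 := by exact_mod_cast (Q_pos n).ne'
  have h3 : (Cc (n + 1) : ℝ) ≠ 0 := by exact_mod_cast (Cc_pos (n + 1)).ne'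
  unfold dl
  simp only [q]
  push_cast
  field_simp

lemma err_le {n : ℕ} {κ : Br →₀ ℤ} (h : wt κ ≤ n) :
    (wt κ : ℝ) * (q n * dl (n + 1)) ≤ 1 / (10000 * Q n) := by
  rw [q_dl]
  have hQ : (0 : ℝ) < Q n := by exact_mod_cast Q_pos n
  have h1 : (wt κ : ℝ) ≤ n := by exact_mod_cast h
  have h2 : (Cc (n + 1) : ℝ) = 10000 * (n + 4) := by unfold Cc; push_cast; ring
  rw [h2]
  have h3 : (wt κ : ℝ) * (1 / (Q n * (10000 * (n + 4)))) ≤
      (n : ℝ) * (1 / (Q n * (10000 * (n + 4)))) := by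
    apply mul_le_mul_of_nonneg_right h1; positivity
  refine h3.trans ?_
  rw [mul_one_div, div_le_div_iff₀ (by positivity) (by positivity)]
  have hn : (0 : ℝ) ≤ n := Nat.cast_nonneg n
  nlinarith

lemma adv_W {n : ℕ} {x y : ℝ} {a' : Br} {κ : Br →₀ ℤ} (hw : wt κ ≤ n)
    (hx : |x - (y + S (n + 1) a')| ≤ 2 / (100 * q (n + 1))) (hW : x - hs κ ∈ W n) :
    Dg n y a' κ := by
  obtain ⟨k, hk⟩ := hW
  obtain ⟨z, hz⟩ := hs_digit n κ
  obtain ⟨z', hz'⟩ := S_int n a'
  have hQ : (0 : ℝ) < Q n := by exact_mod_cast Q_pos n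
  have hq : (0 : ℝ) < q n := by exact_mod_cast q_pos n
  refine ⟨k + z - z', ?_⟩
  have h1 : |(q n : ℝ) * x - q n * y - z' - (e n a' : ℝ) / Q n| ≤ 2 / (100 * Q n) := by
    have h2 : (q n : ℝ) * x - q n * y - z' - (e n a' : ℝ) / Q n =
        q n * (x - (y + S (n + 1) a')) := by
      rw [S_succ, ← hz']
      simp only [q]
      push_cast
      field_simp
      ring
    rw [h2, abs_mul, abs_of_pos hq]
    calc (q n : ℝ) * |x - (y + S (n + 1) a')| ≤ q n * (2 / (100 * q (n + 1))) :=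
          mul_le_mul_of_nonneg_left hx hq.le
      _ = 2 / (100 * Q n) := by simp only [q]; push_cast; field_simp
  have h3 := hz.trans (err_le hw)
  have h4 : (q n : ℝ) * y + ((e n a' : ℝ) - (E n κ : ℝ)) / Q n - ((k + z - z' : ℤ) : ℝ) =
      -(q n * x - q n * y - z' - (e n a' : ℝ) / Q n) + (q n * (x - hs κ) - k) +
      (q n * hs κ - z - (E n κ : ℝ) / Q n) := by
    push_cast; ring
  rw [h4]
  refine (abs_add_three _ _ _).trans_lt ?_
  rw [abs_neg]
  have h5 : (2 : ℝ) / (100 * Q n) + 1 / (3 * Q n) + 1 / (10000 * Q n) < 1 / (2 * Q n) := by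
    have h6 : (2 : ℝ) / (100 * Q n) + 1 / (3 * Q n) + 1 / (10000 * Q n) =
        (2 / 100 + 1 / 3 + 1 / 10000) * (1 / Q n) := by field_simp
    have h7 : (1 : ℝ) / (2 * Q n) = (1 / 2) * (1 / Q n) := by field_simp
    rw [h6, h7]
    apply mul_lt_mul_of_pos_right (by norm_num) (by positivity)
  linarith

lemma Q_ge (n : ℕ) : (20000 : ℝ) ≤ Q n := by
  have h1 : (1 : ℝ) ≤ D n := by exact_mod_cast D_pos n
  have h2 : (Q n : ℝ) = 20000 * (n + 3) * D n := by unfold Q Cc; push_cast; ring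
  have hn : (0 : ℝ) ≤ n := Nat.cast_nonneg n
  rw [h2]
  nlinarith

lemma safe (z : ℝ) (n : ℕ) : ∃ z' : ℝ, |z' - z| ≤ 1 / (200 * q n) ∧
    ∀ x, |x - z'| ≤ 1 / (1000 * q n) → ∀ κ : Br →₀ ℤ, wt κ ≤ n → x - hs κ ∉ W n := by
  have hq : (0 : ℝ) < q n := by exact_mod_cast q_pos n
  have hQ : (0 : ℝ) < Q n := by exact_mod_cast Q_pos n
  have h1 : ∃ u : ℝ, |u - q n * z| ≤ 1 / 200 ∧ ∀ k : ℤ, 1 / 400 ≤ |u - k| := by
    set v : ℝ := q n * z
    set k0 : ℤ := round v
    have hk0 : |v - k0| ≤ 1 / 2 := abs_sub_round v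
    have hgen : ∀ u : ℝ, 1 / 400 ≤ |u - k0| → |u - k0| ≤ 1 / 2 → ∀ k : ℤ, 1 / 400 ≤ |u - k| := by
      intro u h1 h2 k
      by_cases hk : k = k0
      · rw [hk]; exact h1
      · have h3 : (1 : ℝ) ≤ |(k0 : ℝ) - k| := by
          have : 1 ≤ |k0 - k| := Int.one_le_abs (sub_ne_zero.2 (Ne.symm hk))
          exact_mod_cast this
        have h4 : |(k0 : ℝ) - k| ≤ |u - k0| + |u - k| := by
          have : (k0 : ℝ) - k = -(u - k0) + (u - k) := by ring
          rw [this]
          refine (abs_add_le _ _).trans ?_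
          rw [abs_neg]
        linarith
    by_cases h2 : 1 / 400 ≤ |v - k0|
    · exact ⟨v, by simp, hgen v h2 hk0⟩
    · push Not at h2
      refine ⟨k0 + 1 / 400, ?_, hgen _ ?_ ?_⟩
      · have h3 : (k0 : ℝ) + 1 / 400 - v = -(v - k0) + 1 / 400 := by ring
        rw [h3]
        refine (abs_add_le _ _).trans ?_
        rw [abs_neg, abs_of_pos (by norm_num : (0 : ℝ) < 1 / 400)]
        linarith
      · rw [add_sub_cancel_left, abs_of_pos (by norm_num : (0 : ℝ) < 1 / 400)]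
      · rw [add_sub_cancel_left, abs_of_pos (by norm_num : (0 : ℝ) < 1 / 400)]; norm_num
  obtain ⟨u, hu1, hu2⟩ := h1
  refine ⟨u / q n, ?_, ?_⟩
  · have h2 : u / q n - z = (u - q n * z) / q n := by field_simp
    rw [h2, abs_div, abs_of_pos hq, div_le_div_iff₀ hq (by positivity)]
    nlinarith
  · intro x hx κ hκ ⟨k, hk⟩
    obtain ⟨z0, hz0⟩ := hs_digit n κ
    have h3 := hz0.trans (err_le hκ)
    have hQ2 := Q_ge n
    have h4 : |(E n κ : ℝ) / Q n| ≤ 1 / 20000 := by
      rw [abs_div, abs_of_pos hQ, div_le_div_iff₀ hQ (by norm_num)]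
      have h5 := abs_E_le n κ
      have h6 : wt κ * D n ≤ n * D n := mul_le_mul_of_nonneg_right hκ (by positivity)
      have h7 : (|(E n κ : ℝ)|) ≤ n * D n := by exact_mod_cast h5.trans h6
      have h8 : (Q n : ℝ) = 20000 * (n + 3) * D n := by unfold Q Cc; push_cast; ring
      rw [h8]
      have : (0 : ℝ) ≤ D n := Nat.cast_nonneg _
      nlinarith
    have h9 : |(q n : ℝ) * x - u| ≤ 1 / 1000 := by
      have h10 : (q n : ℝ) * x - u = q n * (x - u / q n) := by field_simp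
      rw [h10, abs_mul, abs_of_pos hq]
      calc (q n : ℝ) * |x - u / q n| ≤ q n * (1 / (1000 * q n)) :=
            mul_le_mul_of_nonneg_left hx hq.le
        _ = 1 / 1000 := by field_simp
    have h11 := hu2 (k + z0)
    have h12 : u - ((k + z0 : ℤ) : ℝ) = -(q n * x - u) + (q n * (x - hs κ) - k) +
        ((q n * hs κ - z0 - (E n κ : ℝ) / Q n) + (E n κ : ℝ) / Q n) := by
      push_cast; ring
    rw [h12] at h11
    have h13 := abs_add_three (-((q n : ℝ) * x - u)) (q n * (x - hs κ) - k)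
      ((q n * hs κ - z0 - (E n κ : ℝ) / Q n) + (E n κ : ℝ) / Q n)
    have h14 := abs_add_le (q n * hs κ - z0 - (E n κ : ℝ) / Q n) ((E n κ : ℝ) / Q n)
    rw [abs_neg] at h13
    have h15 : (1 : ℝ) / (3 * Q n) ≤ 1 / 60000 := by
      apply one_div_le_one_div_of_le (by norm_num); linarith
    have h16 : (1 : ℝ) / (10000 * Q n) ≤ 1 / 60000 := by
      apply one_div_le_one_div_of_le (by norm_num); linarith
    linarith

/-- radius of the balls -/
noncomputable def rd (m : ℕ) : ℝ := 1 / (100 * q m)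

lemma q_mono {m n : ℕ} (h : m ≤ n) : (q m : ℝ) ≤ q n := by
  exact_mod_cast Nat.le_of_dvd (q_pos n) (q_dvd h)

lemma rd_succ_le {m n : ℕ} (h : m < n) : rd n ≤ 1 / (10 ^ 6 * q m) := by
  unfold rd
  have h1 : (0 : ℝ) < q m := by exact_mod_cast q_pos m
  have h2 : (q (m + 1) : ℝ) ≤ q n := q_mono h
  have h3 : (q (m + 1) : ℝ) = q m * Q m := by simp only [q]; push_cast; rfl
  have h4 := Q_ge m
  apply one_div_le_one_div_of_le (by positivity)
  nlinarith

lemma dl_succ_le (m : ℕ) : dl (m + 1) ≤ 1 / (10 ^ 6 * q m) := by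
  unfold dl
  have h1 : (0 : ℝ) < q m := by exact_mod_cast q_pos m
  have h3 : (q (m + 1) : ℝ) = q m * Q m := by simp only [q]; push_cast; rfl
  have h4 := Q_ge m
  have h5 : (10000 : ℝ) ≤ Cc (m + 1) := by exact_mod_cast (by unfold Cc; omega : 10000 ≤ Cc (m + 1))
  rw [h3]
  apply one_div_le_one_div_of_le (by positivity)
  have h6 : (20000 : ℝ) * 10000 ≤ Q m * Cc (m + 1) := by
    apply mul_le_mul h4 h5 (by norm_num) (by linarith)
  nlinarith

lemma q_ge (n : ℕ) : (n : ℝ) + 1 ≤ q n := by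
  induction n with
  | zero => simp [q]
  | succ n ih =>
    have h3 : (q (n + 1) : ℝ) = q n * Q n := by simp only [q]; push_cast; rfl
    have h4 := Q_ge n
    rw [h3]; push_cast
    have hn : (0 : ℝ) ≤ n := Nat.cast_nonneg n
    nlinarith

/-- One stage. -/
theorem stage (m : ℕ) (z : ℝ) (b : Br) (U : Set ℝ) (hU : IsOpen U) (hd : Dense U) (t : Bool) :
    ∃ (m' : ℕ) (z' : ℝ) (a' : Br), m < m' ∧ (t = false → m' = m + 1) ∧
      (∀ k ≤ m, a' k = b k) ∧
      (∀ x, |x - z'| ≤ rd m' → |x - z| ≤ rd m) ∧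
      (∀ x, |x - z'| ≤ rd m' → ∀ κ : Br →₀ ℤ, wt κ ≤ m → x - hs κ ∉ W m) ∧
      (∀ x, |x - z'| ≤ rd m' → ∀ n, m < n → n < m' → ∀ κ : Br →₀ ℤ, wt κ ≤ n →
        x - hs κ ∈ W n → ∃ a ∈ κ.support, ∀ k ≤ n, a k = a' k) ∧
      (t = true → ∀ x, |x - z'| ≤ rd m' → ∀ c : Br, (∀ k < m', c k = a' k) → x - p c ∈ U) := by
  have hq : (0 : ℝ) < q m := by exact_mod_cast q_pos m
  obtain ⟨z1, hz1, hz2⟩ := safe z m
  have hsmall : ∀ z2 : ℝ, |z2 - z1| ≤ 1 / (10000 * q m) → ∀ m', m < m' → ∀ x, |x - z2| ≤ rd m' →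
      |x - z1| ≤ 1 / (1000 * q m) := by
    intro z2 h1 m' hm x hx
    have h2 := rd_succ_le hm
    have h3 : |x - z1| ≤ |x - z2| + |z2 - z1| := abs_sub_le x z2 z1
    have h4 : (1 : ℝ) / (10000 * q m) + 1 / (10 ^ 6 * q m) ≤ 1 / (1000 * q m) := by
      have e1 : (1 : ℝ) / (10000 * q m) + 1 / (10 ^ 6 * q m) =
        (1 / 10000 + 1 / 10 ^ 6) * (1 / q m) := by field_simp
      have e2 : (1 : ℝ) / (1000 * q m) = (1 / 1000) * (1 / q m) := by field_simp
      rw [e1, e2]
      apply mul_le_mul_of_nonneg_right (by norm_num) (by positivity)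
    linarith
  have hz : ∀ x, |x - z1| ≤ 1 / (1000 * q m) → |x - z| ≤ rd m := by
    intro x hx
    have h3 : |x - z| ≤ |x - z1| + |z1 - z| := abs_sub_le x z1 z
    have h4 : (1 : ℝ) / (1000 * q m) + 1 / (200 * q m) ≤ rd m := by
      unfold rd
      have e1 : (1 : ℝ) / (1000 * q m) + 1 / (200 * q m) =
        (1 / 1000 + 1 / 200) * (1 / q m) := by field_simp
      have e2 : (1 : ℝ) / (100 * q m) = (1 / 100) * (1 / q m) := by field_simp
      rw [e1, e2]
      apply mul_le_mul_of_nonneg_right (by norm_num) (by positivity)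
    linarith
  cases t with
  | false =>
    have h0 : |z1 - z1| ≤ 1 / (10000 * (q m : ℝ)) := by simp
    refine ⟨m + 1, z1, b, Nat.lt_succ_self m, fun _ => rfl, fun _ _ => rfl, ?_, ?_, ?_, ?_⟩
    · intro x hx
      exact hz x (hsmall z1 h0 (m + 1) (Nat.lt_succ_self m) x hx)
    · intro x hx
      exact hz2 x (hsmall z1 h0 (m + 1) (Nat.lt_succ_self m) x hx)
    · intro x hx n h1 h2; omega
    · intro h; cases h
  | true =>
    obtain ⟨y, hyU, hy⟩ : ∃ y ∈ U, |y - (z1 - S (m + 1) b)| < 1 / (10 ^ 5 * q m) := by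
      obtain ⟨y, h1, h2⟩ := hd.exists_dist_lt (z1 - S (m + 1) b)
        (by positivity : (0 : ℝ) < 1 / (10 ^ 5 * q m))
      refine ⟨y, h1, ?_⟩
      rw [dist_comm, Real.dist_eq] at h2
      exact h2
    obtain ⟨r, hr, hball⟩ := Metric.isOpen_iff.1 hU y hyU
    obtain ⟨m', hm', hm2⟩ : ∃ m', m < m' ∧ (2 : ℝ) / q m' < r := by
      obtain ⟨N, hN⟩ := exists_nat_gt (2 / r)
      refine ⟨max N (m + 1), by omega, ?_⟩
      have h1 := q_ge (max N (m + 1))
      have h2 : (N : ℝ) ≤ (max N (m + 1) : ℕ) := by exact_mod_cast le_max_left _ _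
      have h3 : (0 : ℝ) < q (max N (m + 1)) := by exact_mod_cast q_pos _
      rw [div_lt_iff₀ h3]
      rw [div_lt_iff₀ hr] at hN
      nlinarith
    obtain ⟨a', ha1, ha2⟩ := choice_all y b (m + 1) m' hm'
    have hSb : S (m + 1) a' = S (m + 1) b := S_congr ha1
    have hz' : |y + S m' a' - z1| ≤ 1 / (10000 * q m) := by
      have h1 : S (m + 1) a' ≤ S m' a' := S_mono a' hm'
      have h2 : S m' a' ≤ S (m + 1) a' + dl (m + 1) := S_le_S a' m' (m + 1)
      have h3 := dl_succ_le m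
      rw [hSb] at h1 h2
      have h4 : (1 : ℝ) / (10 ^ 5 * q m) + 1 / (10 ^ 6 * q m) ≤ 1 / (10000 * q m) := by
        have e1 : (1 : ℝ) / (10 ^ 5 * q m) + 1 / (10 ^ 6 * q m) =
          (1 / 10 ^ 5 + 1 / 10 ^ 6) * (1 / q m) := by field_simp
        have e2 : (1 : ℝ) / (10000 * q m) = (1 / 10000) * (1 / q m) := by field_simp
        rw [e1, e2]
        apply mul_le_mul_of_nonneg_right (by norm_num) (by positivity)
      rw [abs_lt] at hy
      rw [abs_le]
      constructor <;> linarith [hy.1, hy.2]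
    refine ⟨m', y + S m' a', a', hm', (fun h => by cases h), fun k hk => ha1 k (by omega),
      ?_, ?_, ?_, ?_⟩
    · intro x hx
      exact hz x (hsmall _ hz' m' hm' x hx)
    · intro x hx
      exact hz2 x (hsmall _ hz' m' hm' x hx)
    · intro x hx n hn1 hn2 κ hκ hW
      have h1 : Dg n y a' κ := by
        apply adv_W hκ _ hW
        have h2 : S (n + 1) a' ≤ S m' a' := S_mono a' hn2
        have h3 : S m' a' ≤ S (n + 1) a' + dl (n + 1) := S_le_S a' m' (n + 1)
        have hqn : (0 : ℝ) < q (n + 1) := by exact_mod_cast q_pos (n + 1)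
        have h4 : dl (n + 1) ≤ 1 / (100 * q (n + 1)) := by
          unfold dl
          apply one_div_le_one_div_of_le (by positivity)
          have h5 : (100 : ℝ) ≤ Cc (n + 1) := by
            exact_mod_cast (by unfold Cc; omega : 100 ≤ Cc (n + 1))
          nlinarith
        have h5 : rd m' ≤ 1 / (100 * q (n + 1)) := by
          unfold rd
          apply one_div_le_one_div_of_le (by positivity)
          have := q_mono (m := n + 1) (n := m') hn2
          linarith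
        have h6 : (2 : ℝ) / (100 * q (n + 1)) = 1 / (100 * q (n + 1)) + 1 / (100 * q (n + 1)) := by
          ring
        rw [h6]
        rw [abs_le] at hx ⊢
        constructor <;> linarith [hx.1, hx.2]
      obtain ⟨a, ha, hidx⟩ := ha2 n hn1 hn2 κ hκ h1
      exact ⟨a, ha, idx_inj hidx⟩
    · intro _ x hx c hc
      apply hball
      rw [Metric.mem_ball, Real.dist_eq]
      have h1 : S m' c = S m' a' := S_congr hc
      have h2 := S_le_p m' c
      have h3 := p_le m' c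
      have hqn : (0 : ℝ) < q m' := by exact_mod_cast q_pos m'
      have h4 : dl m' ≤ 1 / q m' := by
        unfold dl
        apply one_div_le_one_div_of_le hqn
        have h5 : (1 : ℝ) ≤ Cc m' := by exact_mod_cast Cc_pos m'
        nlinarith
      have h5 : rd m' < 1 / q m' := by
        unfold rd
        apply one_div_lt_one_div_of_lt hqn
        linarith
      have h6 : (2 : ℝ) / q m' = 1 / q m' + 1 / q m' := by ring
      rw [h1] at h2 h3
      rw [h6] at hm2
      rw [abs_le] at hx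
      rw [abs_lt]
      constructor <;> linarith [hx.1, hx.2]

end Pool.Agent.H341Q.BH
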