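import Mathlib

/-! The weak cut and choose game. -/

set_option autoImplicit false

namespace Pool.Agent.H341Q.CC

universe u

/-- `Choose` wins the game `U(κ, ≤γ)`, played on a set `X` (of cardinality `κ`).

In round `α < γ` the current set is `⋂_{β<α} C β`, Cut splits it into two disjoint sets `A α` and
`B α`, and Choose answers with `C α`.  A strategy `σ` of Choose gives an answer for each round `α`
and each sequence of moves `(A β, B β)_{β ≤ α}` of Cut.  It is winning if, for all moves of Cut
which follow the rules, its answers follow the rules and are not singletons, and the sets `C α`,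
`α < γ`, have a common element. -/
def ChooseWins (X : Type u) (γ : Cardinal.{u}) : Prop :=
  ∃ σ : (α : Ordinal.{u}) → (Set.Iic α → Set X × Set X) → Set X,
    ∀ A B C : Ordinal.{u} → Set X,
      (∀ α < γ.ord, A α ∪ B α = {x | ∀ β < α, x ∈ C β} ∧ Disjoint (A α) (B α)) →
      (∀ α < γ.ord, C α = σ α (fun β => (A β, B β))) →
      (∀ α < γ.ord, (C α = A α ∨ C α = B α) ∧ ∀ x, C α ≠ {x}) ∧ ∃ x, ∀ α < γ.ord, x ∈ C α

end Pool.Agent.H341Q.CC
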