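import Mathlib
import Pool.Agent.H341Q.CCDefs

/-! Runs of the weak cut and choose game and the splitting lemma. -/

set_option autoImplicit false
set_option linter.all false

namespace Pool.Agent.H341Q.CC

open Cardinal Order Set

universe u

variable {X : Type u}

/-- the run in which Cut cuts with the sets `s α` and Choose plays by `σ` -/
noncomputable def run (σ : (α : Ordinal.{u}) → (Set.Iic α → Set X × Set X) → Set X)
    (s : Ordinal.{u} → Set X) : Ordinal.{u} → Set X :=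
  (wellFounded_lt (α := Ordinal.{u})).fix fun α r =>
    σ α (fun β => ({x | ∀ β' (h : β' < β.1), x ∈ r β' (h.trans_le β.2)} ∩ s β,
      {x | ∀ β' (h : β' < β.1), x ∈ r β' (h.trans_le β.2)} \ s β))

/-- the current set -/
def cur (C : Ordinal.{u} → Set X) (α : Ordinal.{u}) : Set X := {x | ∀ β < α, x ∈ C β}

lemma run_eq (σ : (α : Ordinal.{u}) → (Set.Iic α → Set X × Set X) → Set X)
    (s : Ordinal.{u} → Set X) (α : Ordinal.{u}) :
    run σ s α = σ α (fun β => (cur (run σ s) β ∩ s β, cur (run σ s) β \ s β)) := by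
  conv_lhs => unfold run
  rw [WellFounded.fix_eq]
  rfl

lemma run_congr (σ : (α : Ordinal.{u}) → (Set.Iic α → Set X × Set X) → Set X)
    {s s' : Ordinal.{u} → Set X} (α : Ordinal.{u}) (h : ∀ β ≤ α, s β = s' β) :
    run σ s α = run σ s' α := by
  induction α using WellFoundedLT.induction with
  | ind α IH =>
  rw [run_eq, run_eq]
  congr 1
  funext β
  have hc : cur (run σ s) β = cur (run σ s') β := by
    ext x
    unfold cur
    simp only [mem_setOf_eq]
    have hβ : β.1 ≤ α := β.2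
    refine forall₂_congr fun β' hβ' => ?_
    rw [IH β' (hβ'.trans_le hβ) (fun γ hγ => h γ (hγ.trans (hβ'.le.trans hβ)))]
  rw [hc, h β.1 β.2]

lemma cur_congr (σ : (α : Ordinal.{u}) → (Set.Iic α → Set X × Set X) → Set X)
    {s s' : Ordinal.{u} → Set X} (δ : Ordinal.{u}) (h : ∀ β < δ, s β = s' β) :
    cur (run σ s) δ = cur (run σ s') δ := by
  ext x
  unfold cur
  simp only [mem_setOf_eq]
  refine forall₂_congr fun β hβ => ?_
  rw [run_congr σ β (fun γ hγ => h γ (hγ.trans_lt hβ))]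

/-- the winning condition in terms of runs -/
structure Win (σ : (α : Ordinal.{u}) → (Set.Iic α → Set X × Set X) → Set X)
    (γ : Cardinal.{u}) : Prop where
  move : ∀ s, ∀ α < γ.ord, run σ s α = cur (run σ s) α ∩ s α ∨ run σ s α = cur (run σ s) α \ s α
  nosing : ∀ s, ∀ α < γ.ord, ∀ x, run σ s α ≠ {x}
  ne : ∀ s, ∃ x, ∀ α < γ.ord, x ∈ run σ s α

lemma ChooseWins.win {γ : Cardinal.{u}} (h : ChooseWins X γ) : ∃ σ, Win (X := X) σ γ := by
  obtain ⟨σ, hσ⟩ := h
  refine ⟨σ, ?_⟩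
  have key : ∀ s : Ordinal.{u} → Set X, _ := fun s =>
    hσ (fun α => cur (run σ s) α ∩ s α) (fun α => cur (run σ s) α \ s α) (run σ s)
    (fun α _ => ⟨inter_union_diff _ _, disjoint_sdiff_inter.symm⟩) (fun α _ => run_eq σ s α)
  exact ⟨fun s α hα => ((key s).1 α hα).1, fun s α hα => ((key s).1 α hα).2,
    fun s => (key s).2⟩

lemma cur_anti (C : Ordinal.{u} → Set X) {α β : Ordinal.{u}} (h : α ≤ β) :
    cur C β ⊆ cur C α := fun x hx γ hγ => hx γ (hγ.trans_le h)

/-- a position -/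
@[ext]
structure Pos (X : Type u) : Type (u + 1) where
  δ : Ordinal.{u}
  s : Ordinal.{u} → Set X

/-- initial segment of a position -/
def Pos.le (p q : Pos X) : Prop := p.δ ≤ q.δ ∧ ∀ ξ < p.δ, p.s ξ = q.s ξ

lemma Pos.le_rfl' (p : Pos X) : p.le p := ⟨le_rfl, fun _ _ => rfl⟩

lemma Pos.le.trans' {p q r : Pos X} (h : p.le q) (h' : q.le r) : p.le r :=
  ⟨h.1.trans h'.1, fun ξ hξ => (h.2 ξ hξ).trans (h'.2 ξ (hξ.trans_le h.1))⟩

/-- the current set of a position -/
def N (σ : (α : Ordinal.{u}) → (Set.Iic α → Set X × Set X) → Set X) (p : Pos X) : Set X :=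
  cur (run σ p.s) p.δ

lemma N_anti (σ : (α : Ordinal.{u}) → (Set.Iic α → Set X × Set X) → Set X) {p q : Pos X}
    (h : p.le q) : N σ q ⊆ N σ p := by
  unfold N
  rw [cur_congr σ p.δ h.2]
  exact cur_anti _ h.1

variable {σ : (α : Ordinal.{u}) → (Set.Iic α → Set X × Set X) → Set X} {γ : Cardinal.{u}}

/-- digits separate the points of `X` -/
def Sep (dig : X → Ordinal.{u} → Bool) (γ : Cardinal.{u}) : Prop :=
  ∀ x y, x ≠ y → ∃ α < γ.ord, dig x α ≠ dig y α

/-- cutting with a digit -/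
lemma cut_digit (hw : Win σ γ) (dig : X → Ordinal.{u} → Bool) (s : Ordinal.{u} → Set X)
    (δ : Ordinal.{u}) (hδ : δ < γ.ord) (α : Ordinal.{u}) (hs : s δ = {x | dig x α = true})
    {x : X} (hx : x ∈ cur (run σ s) (δ + 1)) :
    ∀ y ∈ cur (run σ s) (δ + 1), dig y α = dig x α := by
  have hx' : x ∈ run σ s δ := hx δ (Order.lt_add_one_iff.2 le_rfl)
  intro y hy
  have hy' : y ∈ run σ s δ := hy δ (Order.lt_add_one_iff.2 le_rfl)
  rcases hw.move s δ hδ with h | h
  · rw [h, hs] at hx' hy'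
    rw [hx'.2, hy'.2]
  · rw [h, hs] at hx' hy'
    have h1 : dig x α = false := Bool.eq_false_of_not_eq_true hx'.2
    have h2 : dig y α = false := Bool.eq_false_of_not_eq_true hy'.2
    rw [h1, h2]

/-- extend a position by cutting with the digits, starting with a cut by `E` -/
noncomputable def ext1 (dig : X → Ordinal.{u} → Bool) (p : Pos X) (E : Set X) :
    Ordinal.{u} → Set X :=
  open Classical in
  fun β => if β < p.δ then p.s β else if β = p.δ then E
    else {x | dig x (β - (p.δ + 1)) = true}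

lemma ext1_lt (dig : X → Ordinal.{u} → Bool) (p : Pos X) (E : Set X) {β : Ordinal.{u}}
    (h : β < p.δ) : ext1 dig p E β = p.s β := by
  unfold ext1
  rw [if_pos h]

lemma ext1_eq (dig : X → Ordinal.{u} → Bool) (p : Pos X) (E : Set X) :
    ext1 dig p E p.δ = E := by
  unfold ext1
  rw [if_neg (lt_irrefl _), if_pos rfl]

lemma ext1_gt (dig : X → Ordinal.{u} → Bool) (p : Pos X) (E : Set X) (α : Ordinal.{u}) :
    ext1 dig p E (p.δ + 1 + α) = {x | dig x α = true} := by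
  unfold ext1
  have h1 : p.δ < p.δ + 1 + α := (Order.lt_add_one_iff.2 le_rfl).trans_le le_self_add
  rw [if_neg (not_lt.2 h1.le), if_neg h1.ne', Ordinal.add_sub_cancel]

/-- the splitting lemma -/
lemma split (hγ : ℵ₀ ≤ γ) (hw : Win σ γ) (dig : X → Ordinal.{u} → Bool) (hdig : Sep dig γ)
    (p : Pos X) (hp : p.δ < γ.ord) :
    ∃ q r : Pos X, p.le q ∧ p.le r ∧ q.δ < γ.ord ∧ r.δ < γ.ord ∧ Disjoint (N σ q) (N σ r) := by
  have hprin := Ordinal.isPrincipal_add_ord hγ
  have hlim : ∀ α < γ.ord, α + 1 < γ.ord := fun α hα =>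
    (isSuccLimit_ord hγ).succ_lt hα
  obtain ⟨x₀, hx₀⟩ := hw.ne (ext1 dig p univ)
  obtain ⟨x₁, hx₁⟩ := hw.ne (ext1 dig p {x₀})
  have hne : x₁ ≠ x₀ := by
    rintro rfl
    have h1 := hx₁ p.δ hp
    have h2 : x₁ ∈ cur (run σ (ext1 dig p {x₁})) p.δ := by
      intro β hβ
      exact hx₁ β (hβ.trans hp)
    rcases hw.move (ext1 dig p {x₁}) p.δ hp with h | h
    · apply hw.nosing (ext1 dig p {x₁}) p.δ hp x₁
      rw [h, ext1_eq]
      ext y
      simp only [mem_inter_iff, mem_singleton_iff, and_iff_right_iff_imp]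
      rintro rfl
      exact h2
    · rw [h, ext1_eq] at h1
      exact h1.2 rfl
  obtain ⟨α, hα, hd⟩ := hdig _ _ hne
  have hlt : p.δ + 1 + α < γ.ord := hprin (hlim _ hp) hα
  have hlt' : p.δ + 1 + α + 1 < γ.ord := hlim _ hlt
  have hle : p.δ ≤ p.δ + 1 + α + 1 :=
    ((Order.lt_add_one_iff.2 le_rfl).le.trans le_self_add).trans (Order.lt_add_one_iff.2 le_rfl).le
  refine ⟨⟨p.δ + 1 + α + 1, ext1 dig p univ⟩, ⟨p.δ + 1 + α + 1, ext1 dig p {x₀}⟩,
    ⟨hle, fun ξ hξ => (ext1_lt _ _ _ hξ).symm⟩, ⟨hle, fun ξ hξ => (ext1_lt _ _ _ hξ).symm⟩,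
    hlt', hlt', ?_⟩
  rw [Set.disjoint_left]
  intro y hy0 hy1
  apply hd
  have h0 := cut_digit hw dig _ _ hlt α (ext1_gt dig p univ α)
    (x := x₀) (fun β hβ => hx₀ β (hβ.trans hlt')) y hy0
  have h1 := cut_digit hw dig _ _ hlt α (ext1_gt dig p {x₀} α)
    (x := x₁) (fun β hβ => hx₁ β (hβ.trans hlt')) y hy1
  rw [← h0, ← h1]

/-- the step of the tree construction -/
lemma exists_step (hγ : ℵ₀ ≤ γ) (hw : Win σ γ) (dig : X → Ordinal.{u} → Bool)
    (hdig : Sep dig γ) (p : Pos X) (hp : p.δ < γ.ord) (α : Ordinal.{u}) :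
    ∃ (q : Bool → Pos X) (t : Bool), (∀ b, p.le (q b) ∧ (q b).δ < γ.ord ∧
      ∀ x ∈ N σ (q b), dig x α = t) ∧ Disjoint (N σ (q true)) (N σ (q false)) := by
  classical
  have hlim : ∀ α < γ.ord, α + 1 < γ.ord := fun α hα =>
    (isSuccLimit_ord hγ).succ_lt hα
  let p' : Pos X := ⟨p.δ + 1, fun β => if β < p.δ then p.s β else {x | dig x α = true}⟩
  have hpp' : p.le p' := by
    refine ⟨(Order.lt_add_one_iff.2 le_rfl).le, fun ξ hξ => ?_⟩
    simp only [p', hξ, if_true]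
  obtain ⟨x, hx⟩ := hw.ne p'.s
  have hxN : x ∈ cur (run σ p'.s) (p.δ + 1) := fun β hβ => hx β (hβ.trans (hlim _ hp))
  have hcut := cut_digit hw dig p'.s p.δ hp α (by simp [p']) hxN
  obtain ⟨q, r, hq, hr, hqδ, hrδ, hdis⟩ := split hγ hw dig hdig p' (hlim _ hp)
  refine ⟨fun b => if b then q else r, dig x α, ?_, by simpa using hdis⟩
  intro b
  cases b with
  | false =>
    simp only [Bool.false_eq_true, if_false]
    exact ⟨hpp'.trans' hr, hrδ, fun y hy => hcut y (N_anti σ hr hy)⟩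
  | true =>
    simp only [if_true]
    exact ⟨hpp'.trans' hq, hqδ, fun y hy => hcut y (N_anti σ hq hy)⟩

end Pool.Agent.H341Q.CC
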