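import Mathlib
import Pool.Agent.H341Q.CCRun

/-! A winning strategy of Choose gives a tree of `2 ^ γ` runs. -/

set_option autoImplicit false
set_option linter.all false

namespace Pool.Agent.H341Q.CC

open Cardinal Order Set

universe u

variable {X : Type u}

open Classical in
/-- least upper bound of a chain of positions -/
noncomputable def lubPos (A : Set (Pos X)) : Pos X :=
  ⟨sSup (Pos.δ '' A), fun ξ => if h : ∃ p ∈ A, ξ < p.δ then (Classical.choose h).s ξ else ∅⟩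

open Classical in
lemma le_lubPos {A : Set (Pos X)} (hA : ∀ p ∈ A, ∀ q ∈ A, ∀ ξ, ξ < p.δ → ξ < q.δ → p.s ξ = q.s ξ)
    (hb : BddAbove (Pos.δ '' A)) {p : Pos X} (hp : p ∈ A) : p.le (lubPos A) := by
  refine ⟨le_csSup hb ⟨p, hp, rfl⟩, fun ξ hξ => ?_⟩
  have h : ∃ p ∈ A, ξ < p.δ := ⟨p, hp, hξ⟩
  show p.s ξ = if h : ∃ p ∈ A, ξ < p.δ then (Classical.choose h).s ξ else ∅
  rw [dif_pos h]
  exact hA p hp _ (Classical.choose_spec h).1 ξ hξ (Classical.choose_spec h).2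

section

variable (stp : Pos X → Ordinal.{u} → Bool → Pos X) (p₀ : Pos X)

/-- positions of the tree -/
noncomputable def pos (y : Ordinal.{u} → Bool) : Ordinal.{u} → Pos X :=
  (wellFounded_lt (α := Ordinal.{u})).fix fun β r =>
    lubPos {p | p = p₀ ∨ ∃ (β' : Ordinal.{u}) (h : β' < β), p = stp (r β' h) β' (y β')}

/-- extended positions -/
noncomputable def E (y : Ordinal.{u} → Bool) (β : Ordinal.{u}) : Pos X :=
  stp (pos stp p₀ y β) β (y β)

/-- the set of which `pos` is the upper bound -/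
def ASet (y : Ordinal.{u} → Bool) (β : Ordinal.{u}) : Set (Pos X) :=
  {p | p = p₀ ∨ ∃ (β' : Ordinal.{u}) (h : β' < β), p = E stp p₀ y β'}

lemma pos_eq (y : Ordinal.{u} → Bool) (β : Ordinal.{u}) :
    pos stp p₀ y β = lubPos (ASet stp p₀ y β) := by
  conv_lhs => unfold pos
  rw [WellFounded.fix_eq]
  rfl

lemma pos_congr {y y' : Ordinal.{u} → Bool} (β : Ordinal.{u}) (h : ∀ ξ < β, y ξ = y' ξ) :
    pos stp p₀ y β = pos stp p₀ y' β := by
  induction β using WellFoundedLT.induction with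
  | ind β IH =>
  rw [pos_eq, pos_eq]
  congr 1
  ext p
  simp only [ASet, mem_setOf_eq]
  refine or_congr_right (exists_congr fun β' => exists_congr fun hβ' => ?_)
  unfold E
  rw [IH β' hβ' (fun ξ hξ => h ξ (hξ.trans hβ')), h β' hβ']

variable {γ : Cardinal.{u}}

lemma pos_inv (hγ : γ.IsRegular) (h₀ : p₀.δ < γ.ord)
    (hstp : ∀ p : Pos X, p.δ < γ.ord → ∀ α b, p.le (stp p α b) ∧ (stp p α b).δ < γ.ord)
    (y : Ordinal.{u} → Bool) :
    ∀ β ≤ γ.ord, (β < γ.ord → (pos stp p₀ y β).δ < γ.ord) ∧ p₀.le (pos stp p₀ y β) ∧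
      ∀ β' < β, (E stp p₀ y β').le (pos stp p₀ y β) := by
  intro β
  induction β using WellFoundedLT.induction with
  | ind β IH =>
  intro hβ
  have IH' : ∀ β' < β, (pos stp p₀ y β').δ < γ.ord ∧ p₀.le (pos stp p₀ y β') ∧
      ∀ β'' < β', (E stp p₀ y β'').le (pos stp p₀ y β') := fun β' hβ' => by
    obtain ⟨h1, h2, h3⟩ := IH β' hβ' (hβ'.le.trans hβ)
    exact ⟨h1 (hβ'.trans_le hβ), h2, h3⟩
  have hEδ : ∀ β' < β, (E stp p₀ y β').δ < γ.ord := fun β' hβ' =>
    (hstp _ (IH' β' hβ').1 _ _).2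
  have hpE : ∀ β' < β, (pos stp p₀ y β').le (E stp p₀ y β') := fun β' hβ' =>
    (hstp _ (IH' β' hβ').1 _ _).1
  have hEE : ∀ β' β'', β' < β'' → β'' < β → (E stp p₀ y β').le (E stp p₀ y β'') :=
    fun β' β'' h1 h2 => ((IH' β'' h2).2.2 β' h1).trans' (hpE β'' h2)
  have hchain : ∀ p ∈ ASet stp p₀ y β, ∀ q ∈ ASet stp p₀ y β, ∀ ξ, ξ < p.δ → ξ < q.δ →
      p.s ξ = q.s ξ := by
    have hcmp : ∀ p ∈ ASet stp p₀ y β, ∀ q ∈ ASet stp p₀ y β, p.le q ∨ q.le p := by
      rintro p (rfl | ⟨β', hβ', rfl⟩) q (rfl | ⟨β'', hβ'', rfl⟩)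
      · exact Or.inl (Pos.le_rfl' _)
      · exact Or.inl ((IH' β'' hβ'').2.1.trans' (hpE _ hβ''))
      · exact Or.inr ((IH' β' hβ').2.1.trans' (hpE _ hβ'))
      · rcases lt_trichotomy β' β'' with h | h | h
        · exact Or.inl (hEE _ _ h hβ'')
        · rw [h]
          exact Or.inl (Pos.le_rfl' _)
        · exact Or.inr (hEE _ _ h hβ')
    intro p hp q hq ξ hξp hξq
    rcases hcmp p hp q hq with h | h
    · exact h.2 ξ hξp
    · exact (h.2 ξ hξq).symm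
  have hAlt : ∀ p ∈ ASet stp p₀ y β, p.δ < γ.ord := by
    rintro p (rfl | ⟨β', hβ', rfl⟩)
    · exact h₀
    · exact hEδ β' hβ'
  have hbdd : BddAbove (Pos.δ '' ASet stp p₀ y β) := by
    refine ⟨γ.ord, ?_⟩
    rintro _ ⟨p, hp, rfl⟩
    exact (hAlt p hp).le
  rw [pos_eq]
  refine ⟨fun hβγ => ?_, le_lubPos hchain hbdd (Or.inl rfl), fun β' hβ' =>
    le_lubPos hchain hbdd (Or.inr ⟨β', hβ', rfl⟩)⟩
  -- the length is less than `γ`
  have h1 : (⨆ i : β.ToType, (E stp p₀ y (Ordinal.ToType.toOrd i).1).δ) < γ.ord := by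
    refine Ordinal.iSup_lt_of_lt_cof ?_ ?_
    · rw [hγ.cof_ord, mk_toType]
      exact lt_ord.1 hβγ
    · intro i
      exact hEδ _ (Ordinal.ToType.toOrd i).2
  refine (csSup_le' (a := max p₀.δ (⨆ i : β.ToType, (E stp p₀ y (Ordinal.ToType.toOrd i).1).δ))
    ?_).trans_lt (max_lt h₀ h1)
  rintro _ ⟨p, hp, rfl⟩
  rcases hp with rfl | ⟨β', hβ', rfl⟩
  · exact le_max_left _ _
  · refine le_trans ?_ (le_max_right _ _)
    have h2 := Ordinal.le_iSup (fun i : β.ToType => (E stp p₀ y (Ordinal.ToType.toOrd i).1).δ)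
      (Ordinal.ToType.mk ⟨β', hβ'⟩)
    simpa using h2

end

variable {σ : (α : Ordinal.{u}) → (Set.Iic α → Set X × Set X) → Set X} {γ : Cardinal.{u}}

/-- the tree of runs -/
theorem tree (hγ : γ.IsRegular) (hw : Win σ γ) (dig : X → Ordinal.{u} → Bool)
    (hdig : Sep dig γ) (p₀ : Pos X) (h₀ : p₀.δ < γ.ord) :
    ∃ (f : (Ordinal.{u} → Bool) → X) (t : Ordinal.{u} → (Ordinal.{u} → Bool) → Bool),
      (∀ y, f y ∈ N σ p₀) ∧
      (∀ y y', ∀ β < γ.ord, (∀ ξ < β, y ξ = y' ξ) → y β ≠ y' β → f y ≠ f y') ∧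
      (∀ y y' β, (∀ ξ < β, y ξ = y' ξ) → t β y = t β y') ∧
      ∀ y, ∀ β < γ.ord, dig (f y) β = t β y := by
  classical
  have hex := fun (p : Pos X) (hp : p.δ < γ.ord) (α : Ordinal.{u}) =>
    exists_step hγ.aleph0_le hw dig hdig p hp α
  let stp : Pos X → Ordinal.{u} → Bool → Pos X := fun p α b =>
    if hp : p.δ < γ.ord then Classical.choose (hex p hp α) b else p
  have hstp0 : ∀ (p : Pos X) (hp : p.δ < γ.ord) α b,
      stp p α b = Classical.choose (hex p hp α) b := fun p hp α b => dif_pos hp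
  have hspec : ∀ (p : Pos X), p.δ < γ.ord → ∀ α, ∃ t : Bool, (∀ b, p.le (stp p α b) ∧
      (stp p α b).δ < γ.ord ∧ ∀ x ∈ N σ (stp p α b), dig x α = t) ∧
      Disjoint (N σ (stp p α true)) (N σ (stp p α false)) := by
    intro p hp α
    obtain ⟨t, h1, h2⟩ := Classical.choose_spec (hex p hp α)
    refine ⟨t, fun b => ?_, ?_⟩
    · rw [hstp0 p hp]
      exact h1 b
    · rw [hstp0 p hp, hstp0 p hp]
      exact h2
  let dg : Pos X → Ordinal.{u} → Bool := fun p α =>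
    if hp : p.δ < γ.ord then Classical.choose (hspec p hp α) else false
  have hdg : ∀ (p : Pos X), p.δ < γ.ord → ∀ α b, ∀ x ∈ N σ (stp p α b), dig x α = dg p α := by
    intro p hp α b x hx
    have h1 := Classical.choose_spec (hspec p hp α)
    have h2 : dg p α = Classical.choose (hspec p hp α) := dif_pos hp
    rw [h2]
    exact (h1.1 b).2.2 x hx
  have hdis : ∀ (p : Pos X), p.δ < γ.ord → ∀ α b b', b ≠ b' →
      Disjoint (N σ (stp p α b)) (N σ (stp p α b')) := by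
    intro p hp α b b' hb
    obtain ⟨_, _, h2⟩ := hspec p hp α
    cases b <;> cases b'
    · exact absurd rfl hb
    · exact h2.symm
    · exact h2
    · exact absurd rfl hb
  have hinv := fun y => pos_inv stp p₀ hγ h₀
    (fun p hp α b => by
      obtain ⟨_, h1, _⟩ := hspec p hp α
      exact ⟨(h1 b).1, (h1 b).2.1⟩) y
  have hf : ∀ y, ∃ x, ∀ α < γ.ord, x ∈ run σ (pos stp p₀ y γ.ord).s α := fun y => hw.ne _
  choose f hf using hf
  have hfN : ∀ y (p : Pos X), p.δ < γ.ord → p.le (pos stp p₀ y γ.ord) → f y ∈ N σ p := by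
    intro y p hp hle
    unfold N
    rw [cur_congr σ p.δ hle.2]
    intro β hβ
    exact hf y β (hβ.trans hp)
  have hfE : ∀ y, ∀ β < γ.ord, f y ∈ N σ (E stp p₀ y β) := by
    intro y β hβ
    have h1 : (pos stp p₀ y β).δ < γ.ord := (hinv y β hβ.le).1 hβ
    obtain ⟨_, h2, _⟩ := hspec _ h1 β
    exact hfN y _ (h2 (y β)).2.1 ((hinv y γ.ord le_rfl).2.2 β hβ)
  refine ⟨f, fun β y => dg (pos stp p₀ y β) β, ?_, ?_, ?_, ?_⟩
  · intro y
    exact hfN y p₀ h₀ (hinv y γ.ord le_rfl).2.1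
  · intro y y' β hβ h1 h2 h3
    have h4 := hfE y β hβ
    have h5 := hfE y' β hβ
    unfold E at h4 h5
    rw [← pos_congr stp p₀ β h1, ← h3] at h5
    exact Set.disjoint_left.1 (hdis _ ((hinv y β hβ.le).1 hβ) β _ _ h2) h4 h5
  · intro y y' β h
    show dg (pos stp p₀ y β) β = dg (pos stp p₀ y' β) β
    rw [pos_congr stp p₀ β h]
  · intro y β hβ
    exact hdg _ ((hinv y β hβ.le).1 hβ) β (y β) (f y) (hfE y β hβ)

end Pool.Agent.H341Q.CC
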