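import Mathlib
import Pool.Agent.H341Q.CCTree

/-! Choose does not win the weak cut and choose game on small sets. -/

set_option autoImplicit false
set_option linter.all false

namespace Pool.Agent.H341Q.CC

open Cardinal Order Set

universe u

/-- a set which splits all large members of a small family -/
lemma bernstein {X T : Type u} (hX : ℵ₀ ≤ #X) (hT : #T ≤ #X) (O : T → Set X)
    (hO : ∀ t, #X ≤ #(O t)) : ∃ B : Set X, ∀ t, ¬ O t ⊆ B ∧ ¬ O t ⊆ Bᶜ := by
  classical
  have hne : Nonempty X := by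
    rw [← mk_ne_zero_iff]
    exact (aleph0_pos.trans_le hX).ne'
  have hemb : Nonempty (T ↪ (#X).ord.ToType) := by
    rw [← mk_ord_toType (#X)] at hT
    exact hT
  obtain ⟨e⟩ := hemb
  -- choose pairs recursively along the well-order of `T` given by `e`
  let lt : T → T → Prop := fun s t => e s < e t
  have hwf : WellFounded lt := InvImage.wf e wellFounded_lt
  have hstep : ∀ (t : T) (r : (s : T) → lt s t → X × X), ∃ p : X × X,
      p.1 ∈ O t ∧ p.2 ∈ O t ∧ p.1 ≠ p.2 ∧
      (∀ s (h : lt s t), p.1 ≠ (r s h).1 ∧ p.1 ≠ (r s h).2 ∧ p.2 ≠ (r s h).1 ∧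
        p.2 ≠ (r s h).2) := by
    intro t r
    let I : Type u := {s : T // lt s t}
    have hI : #I < #X := by
      have h1 : #I ≤ #(Iio (e t)) := by
        refine Cardinal.mk_le_of_injective (f := fun s : I => (⟨e s.1, s.2⟩ : Iio (e t))) ?_
        intro s s' h
        have h2 : e s.1 = e s'.1 := congrArg Subtype.val h
        exact Subtype.ext (e.injective h2)
      exact h1.trans_lt (mk_Iio_toType_ord_lt _)
    let U : Set X := range (fun s : I => (r s.1 s.2).1) ∪ range (fun s : I => (r s.1 s.2).2)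
    have hU : #U < #X := by
      refine (mk_union_le _ _).trans_lt (add_lt_of_lt hX ?_ ?_)
      · exact mk_range_le.trans_lt hI
      · exact mk_range_le.trans_lt hI
    have h3 : ∃ a ∈ O t, a ∉ U := by
      by_contra hcon
      push Not at hcon
      exact absurd ((hO t).trans (mk_le_mk_of_subset hcon)) (not_le.2 hU)
    obtain ⟨a, ha, haU⟩ := h3
    have hU' : #(U ∪ {a} : Set X) < #X := by
      refine (mk_union_le _ _).trans_lt (add_lt_of_lt hX hU ?_)
      rw [mk_singleton]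
      exact one_lt_aleph0.trans_le hX
    have h4 : ∃ b ∈ O t, b ∉ (U ∪ {a} : Set X) := by
      by_contra hcon
      push Not at hcon
      exact absurd ((hO t).trans (mk_le_mk_of_subset hcon)) (not_le.2 hU')
    obtain ⟨b, hb, hbU⟩ := h4
    refine ⟨(a, b), ha, hb, ?_, ?_⟩
    · intro hab
      have hab' : a = b := hab
      exact hbU (Or.inr hab'.symm)
    · intro s h
      refine ⟨?_, ?_, ?_, ?_⟩
      · intro h5
        exact haU (Or.inl ⟨⟨s, h⟩, h5.symm⟩)
      · intro h5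
        exact haU (Or.inr ⟨⟨s, h⟩, h5.symm⟩)
      · intro h5
        exact hbU (Or.inl (Or.inl ⟨⟨s, h⟩, h5.symm⟩))
      · intro h5
        exact hbU (Or.inl (Or.inr ⟨⟨s, h⟩, h5.symm⟩))
  let g : T → X × X := hwf.fix fun t r => Classical.choose (hstep t r)
  have hg : ∀ t, g t = Classical.choose (hstep t (fun s _ => g s)) := by
    intro t
    show hwf.fix _ t = _
    rw [WellFounded.fix_eq]
  have hspec : ∀ t, (g t).1 ∈ O t ∧ (g t).2 ∈ O t ∧ (g t).1 ≠ (g t).2 ∧
      (∀ s, lt s t → (g t).1 ≠ (g s).1 ∧ (g t).1 ≠ (g s).2 ∧ (g t).2 ≠ (g s).1 ∧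
        (g t).2 ≠ (g s).2) := by
    intro t
    have h := Classical.choose_spec (hstep t (fun s _ => g s))
    rw [← hg t] at h
    exact h
  refine ⟨{x | ∃ t, x = (g t).1}, fun t => ⟨?_, ?_⟩⟩
  · intro h
    obtain ⟨s, hs⟩ := h (hspec t).2.1
    rcases lt_trichotomy (e s) (e t) with h1 | h1 | h1
    · exact ((hspec t).2.2.2 s h1).2.2.1 hs
    · have h2 : s = t := e.injective h1
      rw [h2] at hs
      exact (hspec t).2.2.1 hs.symm
    · exact ((hspec s).2.2.2 t h1).2.1 hs.symm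
  · intro h
    exact h (hspec t).1 ⟨t, rfl⟩

variable {X : Type u} {γ : Cardinal.{u}}

lemma mk_toOrd (b : γ.ord.ToType) (h : (Ordinal.ToType.toOrd b).1 < γ.ord) :
    (Ordinal.ToType.mk ⟨(Ordinal.ToType.toOrd b).1, h⟩ : γ.ord.ToType) = b :=
  OrderIso.apply_symm_apply _ b

/-- digits from an embedding -/
noncomputable def digOf (φ : X → (γ.ord.ToType → Bool)) (x : X) (α : Ordinal.{u}) : Bool :=
  open Classical in
  if h : α < γ.ord then φ x (Ordinal.ToType.mk ⟨α, h⟩) else false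

lemma sep_digOf {φ : X → (γ.ord.ToType → Bool)} (hφ : Function.Injective φ) :
    Sep (digOf φ) γ := by
  intro x y hxy
  by_contra hcon
  push Not at hcon
  apply hxy
  apply hφ
  funext b
  have h1 := hcon (Ordinal.ToType.toOrd b).1 (Ordinal.ToType.toOrd b).2
  have h2 : (Ordinal.ToType.toOrd b).1 < γ.ord := (Ordinal.ToType.toOrd b).2
  unfold digOf at h1
  rw [dif_pos h2, dif_pos h2, mk_toOrd] at h1
  exact h1

/-- extension of a sequence of length `γ` -/
noncomputable def extY (y : γ.ord.ToType → Bool) (α : Ordinal.{u}) : Bool :=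
  open Classical in
  if h : α < γ.ord then y (Ordinal.ToType.mk ⟨α, h⟩) else false

lemma extY_toOrd (y : γ.ord.ToType → Bool) (b : γ.ord.ToType) :
    extY y (Ordinal.ToType.toOrd b).1 = y b := by
  have h2 : (Ordinal.ToType.toOrd b).1 < γ.ord := (Ordinal.ToType.toOrd b).2
  unfold extY
  rw [dif_pos h2, mk_toOrd]

lemma extY_ne {y y' : γ.ord.ToType → Bool} (h : y ≠ y') : ∃ β < γ.ord,
    (∀ ξ < β, extY y ξ = extY y' ξ) ∧ extY y β ≠ extY y' β := by
  have hex : ∃ β : Ordinal.{u}, extY y β ≠ extY y' β := by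
    by_contra hcon
    push Not at hcon
    apply h
    funext b
    rw [← extY_toOrd y b, ← extY_toOrd y' b]
    exact hcon _
  let β := wellFounded_lt.min {β : Ordinal.{u} | extY y β ≠ extY y' β} hex
  have hβ : extY y β ≠ extY y' β := wellFounded_lt.min_mem _ hex
  refine ⟨β, ?_, ?_, hβ⟩
  · by_contra hcon
    apply hβ
    unfold extY
    rw [dif_neg hcon, dif_neg hcon]
  · intro ξ hξ
    by_contra hcon
    exact wellFounded_lt.not_lt_min {β : Ordinal.{u} | extY y β ≠ extY y' β} hcon hξ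

lemma mk_fun_bool (Y : Type u) : #(Y → Bool) = 2 ^ #Y := by
  rw [mk_arrow]
  simp

lemma mk_fun : #(γ.ord.ToType → Bool) = 2 ^ γ := by
  rw [mk_fun_bool, mk_ord_toType]

/-- the embedding of `2 ^ γ` -/
lemma embed (hγ : γ.IsRegular) {σ : (α : Ordinal.{u}) → (Set.Iic α → Set X × Set X) → Set X}
    (hw : Win σ γ) (dig : X → Ordinal.{u} → Bool) (hdig : Sep dig γ) (p₀ : Pos X)
    (h₀ : p₀.δ < γ.ord) :
    ∃ (f : (γ.ord.ToType → Bool) → X) (t : Ordinal.{u} → (Ordinal.{u} → Bool) → Bool),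
      Function.Injective f ∧ (∀ y, f y ∈ N σ p₀) ∧
      (∀ y y' β, (∀ ξ < β, y ξ = y' ξ) → t β y = t β y') ∧
      ∀ y, ∀ β < γ.ord, dig (f y) β = t β (extY y) := by
  obtain ⟨f, t, h1, h2, h3, h4⟩ := tree hγ hw dig hdig p₀ h₀
  refine ⟨fun y => f (extY y), t, ?_, fun y => h1 _, h3, fun y β hβ => h4 _ β hβ⟩
  intro y y' hyy
  by_contra hne
  obtain ⟨β, hβ, h5, h6⟩ := extY_ne hne
  exact h2 _ _ β hβ h5 h6 hyy

theorem case_lt (hγ : γ.IsRegular) (h : #X < 2 ^ γ) : ¬ ChooseWins X γ := by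
  intro hwin
  obtain ⟨σ, hw⟩ := hwin.win
  have h1 : Nonempty (X ↪ (γ.ord.ToType → Bool)) := by
    have := h.le
    rw [← mk_fun (γ := γ)] at this
    exact this
  obtain ⟨φ⟩ := h1
  obtain ⟨f, _, hf, _⟩ := embed hγ hw (digOf φ) (sep_digOf φ.injective)
    ⟨0, fun _ => ∅⟩ hγ.ord_pos
  have h2 := Cardinal.mk_le_of_injective hf
  rw [mk_fun] at h2
  exact absurd h2 (not_le.2 h)

/-- codes for the sets of outcomes -/
abbrev Node (γ : Cardinal.{u}) : Type u := Σ b : γ.ord.ToType, (Iio b → Bool)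

lemma mk_node (hγ : ℵ₀ ≤ γ) : #(Node γ) ≤ 2 ^< γ := by
  have h1 : γ ≤ 2 ^< γ := by
    by_contra hcon
    rw [not_le] at hcon
    have h2 := le_powerlt 2 hcon
    exact absurd (cantor (2 ^< γ)) (not_lt.2 h2)
  have h2 : #(Node γ) ≤ #γ.ord.ToType * (2 ^< γ) := by
    rw [mk_sigma]
    refine (sum_le_sum _ (fun _ => 2 ^< γ) fun b => ?_).trans ?_
    · rw [mk_fun_bool]
      exact le_powerlt 2 (mk_Iio_toType_ord_lt b)
    · simp
  refine h2.trans ?_
  rw [mk_ord_toType]
  exact (mul_le_mul' h1 le_rfl).trans (mul_eq_self (hγ.trans h1)).le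

theorem case_eq (hγ : γ.IsRegular) (h : #X = 2 ^ γ) (h' : (2 : Cardinal.{u}) ^ (2 ^< γ) ≤ 2 ^ γ) :
    ¬ ChooseWins X γ := by
  classical
  intro hwin
  obtain ⟨σ, hw⟩ := hwin.win
  have hγ0 := hγ.aleph0_le
  have hX : ℵ₀ ≤ #X := by
    rw [h]
    exact hγ0.trans (cantor γ).le
  have h1 : Nonempty (X ≃ (γ.ord.ToType → Bool)) := by
    rw [← mk_fun (γ := γ)] at h
    exact Cardinal.eq.1 h
  obtain ⟨φ⟩ := h1
  -- the sets of outcomes
  let T : Type u := {t : Node γ → Bool // Function.Injective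
    (fun y : γ.ord.ToType → Bool => φ.symm (fun b => t ⟨b, fun c => y c⟩))}
  let O : T → Set X := fun t => range (fun y : γ.ord.ToType → Bool =>
    φ.symm (fun b => t.1 ⟨b, fun c => y c⟩))
  have hT : #T ≤ #X := by
    refine (mk_subtype_le _).trans ?_
    rw [mk_fun_bool, h]
    exact (power_le_power_left two_ne_zero (mk_node hγ0)).trans h'
  obtain ⟨B, hB⟩ := bernstein hX hT O (by
    intro t
    rw [h, ← mk_fun (γ := γ)]
    exact (mk_range_eq _ t.2).ge)
  -- the first cut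
  have hone : (1 : Ordinal.{u}) < γ.ord := by
    have := (isSuccLimit_ord hγ0).succ_lt hγ.ord_pos
    simpa using this
  obtain ⟨f, t, hf, hfN, ht, hft⟩ := embed hγ hw (digOf φ) (sep_digOf φ.injective)
    ⟨1, fun _ => B⟩ hone
  -- the code of the tree
  let code : Node γ → Bool := fun n =>
    t (Ordinal.ToType.toOrd n.1).1 (fun ξ => if hξ : ξ < (Ordinal.ToType.toOrd n.1).1 then
      n.2 ⟨Ordinal.ToType.mk ⟨ξ, hξ.trans (Ordinal.ToType.toOrd n.1).2⟩, by
        have h5 : (Ordinal.ToType.mk ⟨ξ, hξ.trans (Ordinal.ToType.toOrd n.1).2⟩ :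
          γ.ord.ToType) < Ordinal.ToType.mk (Ordinal.ToType.toOrd n.1) :=
          (OrderIso.lt_iff_lt _).2 hξ
        simpa using h5⟩ else false)
  have hcode : ∀ y, f y = φ.symm (fun b => code ⟨b, fun c => y c⟩) := by
    intro y
    rw [Equiv.eq_symm_apply]
    funext b
    have h5 := hft y (Ordinal.ToType.toOrd b).1 (Ordinal.ToType.toOrd b).2
    have h6 : (Ordinal.ToType.toOrd b).1 < γ.ord := (Ordinal.ToType.toOrd b).2
    unfold digOf at h5
    rw [dif_pos h6] at h5
    have h7 : φ (f y) b = t (Ordinal.ToType.toOrd b).1 (extY y) := by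
      rw [← h5, mk_toOrd]
    rw [h7]
    refine ht _ _ _ fun ξ hξ => ?_
    simp only [hξ, dif_pos]
    unfold extY
    rw [dif_pos (hξ.trans h6)]
  have hinj : Function.Injective
      (fun y : γ.ord.ToType → Bool => φ.symm (fun b => code ⟨b, fun c => y c⟩)) := by
    intro y y' hyy
    apply hf
    rw [hcode, hcode]
    exact hyy
  have hrange : O ⟨code, hinj⟩ = range f := by
    ext x
    constructor
    · rintro ⟨y, rfl⟩
      exact ⟨y, hcode y⟩
    · rintro ⟨y, rfl⟩
      exact ⟨y, (hcode y).symm⟩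
  have hBt := hB ⟨code, hinj⟩
  rw [hrange] at hBt
  have hfrun : ∀ y, f y ∈ run σ (fun _ => B) 0 := fun y => hfN y 0 (by simp)
  rcases hw.move (fun _ => B) 0 hγ.ord_pos with h8 | h8
  · apply hBt.1
    rintro _ ⟨y, rfl⟩
    have := hfrun y
    rw [h8] at this
    exact this.2
  · apply hBt.2
    rintro _ ⟨y, rfl⟩
    have := hfrun y
    rw [h8] at this
    exact this.2

theorem case_small {δ : Cardinal.{u}} (hδγ : δ < γ) (h : #X ≤ 2 ^ δ) : ¬ ChooseWins X γ := by
  classical
  intro hwin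
  obtain ⟨σ, hw⟩ := hwin.win
  have h1 : Nonempty (X ↪ (δ.ord.ToType → Bool)) := by
    rw [← mk_fun (γ := δ)] at h
    exact h
  obtain ⟨φ⟩ := h1
  have hlt : δ.ord < γ.ord := ord_lt_ord.2 hδγ
  let s : Ordinal.{u} → Set X := fun α =>
    if α < δ.ord then {x | digOf φ x α = true} else univ
  obtain ⟨x, hx⟩ := hw.ne s
  have hsub : ∀ y ∈ cur (run σ s) δ.ord, y = x := by
    intro y hy
    by_contra hne
    obtain ⟨α, hα, hd⟩ := sep_digOf φ.injective y x hne
    apply hd
    have hx' := hx α (hα.trans hlt)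
    have hy' := hy α hα
    rcases hw.move s α (hα.trans hlt) with h2 | h2
    · rw [h2] at hx' hy'
      have h3 : s α = {x | digOf φ x α = true} := if_pos hα
      rw [h3] at hx' hy'
      rw [hx'.2, hy'.2]
    · rw [h2] at hx' hy'
      have h3 : s α = {x | digOf φ x α = true} := if_pos hα
      rw [h3] at hx' hy'
      rw [Bool.eq_false_of_not_eq_true hx'.2, Bool.eq_false_of_not_eq_true hy'.2]
  apply hw.nosing s δ.ord hlt x
  have hxr := hx δ.ord hlt
  rcases hw.move s δ.ord hlt with h2 | h2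
  · apply Subset.antisymm
    · intro y hy
      rw [h2] at hy
      exact hsub y hy.1
    · rintro y rfl
      exact hxr
  · apply Subset.antisymm
    · intro y hy
      rw [h2] at hy
      exact hsub y hy.1
    · rintro y rfl
      exact hxr

theorem main (hγ : γ.IsRegular) (h : #X ≤ 2 ^ γ)
    (h' : #X < 2 ^ γ ∨ #X = succ γ ∨ (2 : Cardinal.{u}) ^ (2 ^< γ) ≤ 2 ^ γ) :
    ¬ ChooseWins X γ := by
  rcases h' with h' | h' | h'
  · exact case_lt hγ h'
  · rcases h.lt_or_eq with h1 | h1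
    · exact case_lt hγ h1
    by_cases h2 : ∃ δ < γ, γ < 2 ^ δ
    · obtain ⟨δ, hδ, h3⟩ := h2
      refine case_small hδ ?_
      rw [h']
      exact succ_le_of_lt h3
    · push Not at h2
      refine case_eq hγ h1 ?_
      exact power_le_power_left two_ne_zero (powerlt_le.2 h2)
  · rcases h.lt_or_eq with h1 | h1
    · exact case_lt hγ h1
    · exact case_eq hγ h1 h'

end Pool.Agent.H341Q.CC
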