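import Mathlib

/-! Clubs and stationary sets in a well-order of uncountable cofinality. -/

set_option autoImplicit false
set_option linter.all false

namespace Pool.Agent.H341Q

open Cardinal Order Set

universe u

section Basic

variable {W : Type u} [LinearOrder W] [WellFoundedLT W]

lemma exists_isLUB {s : Set W} (h : BddAbove s) : ∃ a, IsLUB s a := by
  classical
  have hn : (upperBounds s).Nonempty := h
  refine ⟨wellFounded_lt.min (upperBounds s) hn, wellFounded_lt.min_mem _ hn, ?_⟩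
  intro b hb
  exact not_lt.1 (wellFounded_lt.not_lt_min (upperBounds s) hb)

lemma exists_bound [NoMaxOrder W] {s : Set W} (h : #s < cof W) : ∃ b, ∀ x ∈ s, x < b := by
  have hb : BddAbove s := BddAbove.of_not_isCofinal fun hc => (cof_le hc).not_gt h
  obtain ⟨b, hb⟩ := hb
  obtain ⟨c, hc⟩ := exists_gt b
  exact ⟨c, fun x hx => (hb hx).trans_lt hc⟩

lemma exists_seq_lub [NoMaxOrder W] (hc : ℵ₀ < cof W) (s : ℕ → W) :
    ∃ a, IsLUB (range s) a := by
  refine exists_isLUB (BddAbove.of_not_isCofinal fun hh => (cof_le hh).not_gt ?_)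
  refine lt_of_le_of_lt ?_ hc
  simpa using mk_range_le_lift (f := s)

/-- points which are limits of strictly increasing `ω`-sequences -/
def LimOmega (W : Type u) [LinearOrder W] : Set W :=
  {δ | ∃ g : ℕ → W, StrictMono g ∧ IsLUB (range g) δ}

lemma lt_of_isLUB {g : ℕ → W} (hg : StrictMono g) {δ : W} (h : IsLUB (range g) δ) (n : ℕ) :
    g n < δ :=
  (hg (Nat.lt_succ_self n)).trans_le (h.1 ⟨n + 1, rfl⟩)

lemma exists_lt_of_isLUB {g : ℕ → W} {δ y : W} (h : IsLUB (range g) δ) (hy : y < δ) :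
    ∃ n, y < g n := by
  obtain ⟨_, ⟨n, rfl⟩, hn⟩ := (lt_isLUB_iff h).1 hy
  exact ⟨n, hn⟩

/-- closure points of a function form a club -/
lemma isClub_closure [NoMaxOrder W] [Nonempty W] (hc : ℵ₀ < cof W)
    (hseg : ∀ x : W, #(Iic x) < cof W) (g : W → W) :
    IsClub {x | ∀ y < x, g y < x} := by
  refine ⟨?_, ?_⟩
  · intro d hd hne _ a ha y hy
    obtain ⟨z, hz, hyz⟩ := (lt_isLUB_iff ha).1 hy
    exact (hd hz y hyz).trans_le (ha.1 hz)
  · intro a
    have hb : ∀ x : W, ∃ b, x < b ∧ ∀ y ≤ x, g y < b := by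
      intro x
      obtain ⟨b, hb⟩ := exists_bound (s := g '' (Iic x)) ((mk_image_le).trans_lt (hseg x))
      obtain ⟨c, hc⟩ := exists_gt (max b x)
      exact ⟨c, (le_max_right _ _).trans_lt hc, fun y hy =>
        (hb _ ⟨y, hy, rfl⟩).trans ((le_max_left _ _).trans_lt hc)⟩
    choose b hb1 hb2 using hb
    let s : ℕ → W := fun n => Nat.rec a (fun _ x => b x) n
    have hs : ∀ n, s (n + 1) = b (s n) := fun n => rfl
    obtain ⟨δ, hδ⟩ := exists_seq_lub hc s
    refine ⟨δ, ?_, hδ.1 ⟨0, rfl⟩⟩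
    intro y hy
    obtain ⟨n, hn⟩ := exists_lt_of_isLUB hδ hy
    refine (hb2 (s n) y hn.le).trans_le ?_
    rw [← hs]
    exact hδ.1 ⟨n + 1, rfl⟩

/-- the points of cofinality `ω` above a given point form a stationary set -/
lemma stationary_limOmega [NoMaxOrder W] [Nonempty W] (hc : ℵ₀ < cof W) (x : W) :
    IsStationary (LimOmega W ∩ Ioi x) := by
  intro C hC
  have hb : ∀ y : W, ∃ z ∈ C, y < z := by
    intro y
    obtain ⟨z, hz⟩ := exists_gt y
    obtain ⟨w, hw, hzw⟩ := hC.isCofinal z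
    exact ⟨w, hw, hz.trans_le hzw⟩
  choose b hb1 hb2 using hb
  let s : ℕ → W := fun n => Nat.rec (b x) (fun _ x => b x) n
  have hs : ∀ n, s (n + 1) = b (s n) := fun n => rfl
  have hmono : StrictMono s := strictMono_nat_of_lt_succ fun n => by rw [hs]; exact hb2 _
  obtain ⟨δ, hδ⟩ := exists_seq_lub hc s
  refine ⟨δ, ⟨⟨s, hmono, hδ⟩, ?_⟩, ?_⟩
  · exact (hb2 x).trans (lt_of_isLUB hmono hδ 0)
  · refine hC.isLUB_mem (t := range s) ?_ (range_nonempty _) hδ
    rintro _ ⟨n, rfl⟩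
    cases n with
    | zero => exact hb1 _
    | succ n => exact hb1 _

/-- a point of `LimOmega` is a limit: closed under taking larger elements strictly below -/
lemma limOmega_exists_between {δ y : W} (h : δ ∈ LimOmega W) (hy : y < δ) :
    ∃ z, y < z ∧ z < δ := by
  obtain ⟨g, hg, hδ⟩ := h
  obtain ⟨n, hn⟩ := exists_lt_of_isLUB hδ hy
  exact ⟨g n, hn, lt_of_isLUB hg hδ n⟩

end Basic

section Ulam

variable {W : Type u} [LinearOrder W] [WellFoundedLT W] [NoMaxOrder W] [Nonempty W]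

/-- Ulam: many disjoint stationary sets -/
lemma ulam {μ ν : Cardinal.{u}} (hμ : ℵ₀ ≤ μ) (hW : #W = succ μ) (hcof : μ < cof W)
    (hseg : ∀ x : W, #(Iio x) ≤ μ) (hν : ν ≤ μ) :
    ∃ (ι : Type u) (S : ι → Set W), #ι = ν ∧ (∀ i j, i ≠ j → Disjoint (S i) (S j)) ∧
      (∀ i, S i ⊆ LimOmega W) ∧ ∀ i, IsStationary (S i) := by
  classical
  have hc0 : ℵ₀ < cof W := hμ.trans_lt hcof
  let M : Type u := μ.out
  have hM : #M = μ := mk_out μ
  have hinj : ∀ δ : W, Nonempty (Iio δ ↪ M) := by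
    intro δ
    have := hseg δ
    rw [← hM] at this
    exact this
  let f : ∀ δ : W, Iio δ ↪ M := fun δ => (hinj δ).some
  let A : W → M → Set W := fun ξ η => {δ | δ ∈ LimOmega W ∧ ∃ h : ξ < δ, f δ ⟨ξ, h⟩ = η}
  have h1 : ∀ ξ, ∃ η, IsStationary (A ξ η) := by
    intro ξ
    have h2 : LimOmega W ∩ Ioi ξ = ⋃ η, A ξ η := by
      ext δ
      simp only [mem_inter_iff, mem_Ioi, mem_iUnion, A, mem_setOf_eq]
      constructor
      · rintro ⟨h3, h4⟩
        exact ⟨f δ ⟨ξ, h4⟩, h3, h4, rfl⟩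
      · rintro ⟨η, h3, h4, _⟩
        exact ⟨h3, h4⟩
    have h3 := stationary_limOmega hc0 ξ
    rw [h2, isStationary_iUnion_iff hc0.ne'] at h3
    · exact h3
    · simp only [hM, Cardinal.lift_id]
      exact hcof
  choose η hη using h1
  have h4 : ∃ m : M, ν ≤ #(η ⁻¹' {m}) := by
    obtain ⟨m, hm⟩ := infinite_pigeonhole_card (α := M) η (succ μ) hW.ge
      (hμ.trans (le_succ μ)) (by
        rw [hM, (isRegular_succ hμ).cof_ord]
        exact lt_succ μ)
    exact ⟨m, (hν.trans (le_succ μ)).trans hm⟩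
  obtain ⟨m, hm⟩ := h4
  obtain ⟨I, hI⟩ := (le_mk_iff_exists_set).1 hm
  refine ⟨I, fun i => A i.1.1 m, hI, ?_, ?_, ?_⟩
  · intro i j hij
    rw [Set.disjoint_left]
    rintro δ ⟨_, h5, h6⟩ ⟨_, h7, h8⟩
    apply hij
    have h9 := (f δ).injective (h6.trans h8.symm)
    have h10 : (i.1.1 : W) = j.1.1 := Subtype.mk.inj h9
    exact Subtype.ext (Subtype.ext h10)
  · rintro i δ ⟨h5, _⟩
    exact h5
  · intro i
    have h5 := hη i.1.1
    have h6 : η i.1.1 = m := i.1.2
    rw [h6] at h5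
    exact h5

end Ulam

section Fat

/-- one of many disjoint sets is avoided, inside every club, by a closed copy of `ρ` -/
lemma fat {μ : Cardinal.{u}} (hμ : ℵ₀ ≤ μ) {ι : Type u} {ρ : Cardinal.{u}} (hρ : ρ < #ι)
    (hι : #ι ≤ μ) (S : ι → Set (succ μ).ord.ToType)
    (hS : ∀ i j, i ≠ j → Disjoint (S i) (S j)) :
    ∃ i, ∀ E : Set (succ μ).ord.ToType, IsClub E → ∃ h : Ordinal.{u} → (succ μ).ord.ToType,
      (∀ α β, α < β → β < ρ.ord → h α < h β) ∧
      (∀ α < ρ.ord, IsSuccLimit α → ∀ y < h α, ∃ β < α, y < h β) ∧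
      (∀ α < ρ.ord, h α ∈ E) ∧ ∀ α < ρ.ord, h α ∉ S i := by
  classical
  have hreg : (succ μ).IsRegular := isRegular_succ hμ
  have hcof : cof (succ μ).ord.ToType = succ μ := by
    rw [Ordinal.cof_toType, hreg.cof_ord]
  have hc0 : ℵ₀ < cof (succ μ).ord.ToType := by
    rw [hcof]; exact hμ.trans_lt (lt_succ μ)
  have : IsRegularCardinalOrder (succ μ).ord.ToType := ⟨by
    rw [hcof, Ordinal.type_toType]⟩
  have hlt : ρ.ord < (succ μ).ord := ord_lt_ord.2 ((hρ.trans_le hι).trans (lt_succ μ))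
  by_contra hcon
  have hcon' : ∀ i, ∃ E : Set (succ μ).ord.ToType, IsClub E ∧
      ¬ ∃ h : Ordinal.{u} → (succ μ).ord.ToType,
      (∀ α β, α < β → β < ρ.ord → h α < h β) ∧
      (∀ α < ρ.ord, IsSuccLimit α → ∀ y < h α, ∃ β < α, y < h β) ∧
      (∀ α < ρ.ord, h α ∈ E) ∧ ∀ α < ρ.ord, h α ∉ S i := by
    intro i
    by_contra hi
    exact hcon ⟨i, fun E hE => by_contra fun hh => hi ⟨E, hE, hh⟩⟩
  choose E hE hh using hcon'
  have hEc : IsClub (⋂ i, E i) := by
    refine IsClub.iInter hc0.ne' ?_ hE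
    rw [hcof]
    simpa using hι.trans_lt (lt_succ μ)
  have hnorm := hEc.isNormal_enum
  set e : (succ μ).ord.ToType → (succ μ).ord.ToType :=
    Subtype.val ∘ enum (⋂ i, E i) hEc.isCofinal with he
  have heE : ∀ x i, e x ∈ E i := by
    intro x i
    have := (enum (⋂ i, E i) hEc.isCofinal x).2
    rw [mem_iInter] at this
    exact this i
  have hpos : (0 : Ordinal.{u}) < (succ μ).ord := hreg.ord_pos
  let k : Set.Iio (succ μ).ord → (succ μ).ord.ToType := fun x => e (Ordinal.ToType.mk x)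
  have hk : IsNormal k := hnorm.comp (OrderIso.isNormal _)
  let h : Ordinal.{u} → (succ μ).ord.ToType := fun α =>
    if hα : α < (succ μ).ord then k ⟨α, hα⟩ else k ⟨0, hpos⟩
  have hh' : ∀ α (hα : α < (succ μ).ord), h α = k ⟨α, hα⟩ := fun α hα => dif_pos hα
  have key : ∀ i, ∃ α < ρ.ord, h α ∈ S i := by
    intro i
    by_contra hn
    push Not at hn
    refine hh i ⟨h, ?_, ?_, ?_, hn⟩
    · intro α β hαβ hβ
      rw [hh' α (hαβ.trans (hβ.trans hlt)), hh' β (hβ.trans hlt)]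
      exact hk.strictMono hαβ
    · intro α hα hl y hy
      rw [hh' α (hα.trans hlt)] at hy
      have hl' : IsSuccLimit (⟨α, hα.trans hlt⟩ : Set.Iio (succ μ).ord) := by
        refine ⟨?_, ?_⟩
        · intro hmin
          have h1 : (0 : Ordinal.{u}) < α := hl.bot_lt
          have h2 := hmin (b := ⟨0, hpos⟩) h1.le
          exact absurd h1 (not_lt.2 h2)
        · intro b hb
          refine hl.2 b.1 ⟨hb.1, ?_⟩
          intro c hc1 hc2
          exact hb.2 (c := ⟨c, hc2.trans (hα.trans hlt)⟩) hc1 hc2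
      obtain ⟨z, hz, hyz⟩ := (hk.lt_iff_exists_lt hl').1 hy
      refine ⟨z.1, hz, ?_⟩
      rw [hh' z.1 z.2]
      exact hyz
    · intro α hα
      rw [hh' α (hα.trans hlt)]
      exact heE _ i
  choose α hα1 hα2 using key
  have hinj : Function.Injective (fun i => (⟨α i, hα1 i⟩ : Set.Iio ρ.ord)) := by
    intro i j hij
    by_contra hne
    have h1 : α i = α j := congrArg Subtype.val hij
    have h2 := hα2 i
    rw [h1] at h2
    exact Set.disjoint_left.1 (hS i j hne) h2 (hα2 j)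
  have h3 := Cardinal.mk_le_of_injective (α := ι) (β := ρ.ord.ToType)
    (f := fun i => Ordinal.ToType.mk (⟨α i, hα1 i⟩ : Set.Iio ρ.ord))
    ((Ordinal.ToType.mk (o := ρ.ord)).injective.comp hinj)
  rw [mk_ord_toType] at h3
  exact absurd hρ (not_lt.2 h3)

end Fat

end Pool.Agent.H341Q
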