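import Mathlib

/-! Strong distributivity and the completeness game. -/

set_option autoImplicit false

namespace Pool.Agent.H341Q.SD

universe u

/-- `D` is an open dense subset of the poset `P`. -/
def OpenDense (P : Type u) [PartialOrder P] (D : Set P) : Prop :=
  (∀ p ∈ D, ∀ q ≤ p, q ∈ D) ∧ ∀ p : P, ∃ q ≤ p, q ∈ D

/-- `P` is strongly `<κ`-distributive: for every sequence `(D α)_{α < κ}` of open dense sets and
every `p` there is a descending sequence `(s α)_{α < κ}` with `s 0 ≤ p` and `s α ∈ D α`. -/
def StronglyDistributive (P : Type u) [PartialOrder P] (κ : Cardinal.{u}) : Prop :=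
  ∀ D : Ordinal.{u} → Set P, (∀ α < κ.ord, OpenDense P (D α)) → ∀ p : P,
    ∃ s : Ordinal.{u} → P, s 0 ≤ p ∧ (∀ α < κ.ord, s α ∈ D α) ∧
      ∀ α β, α < β → β < κ.ord → s β ≤ s α

/-- The stages at which COM moves: the even ordinals (among them `0` and all limit ordinals). -/
def ComStage (α : Ordinal.{u}) : Prop := ∃ β, α = 2 * β

/-- COM has a winning strategy in the completeness game `G(P, δ)`: a strategy `σ`, which gives a
move for every stage and every sequence of earlier moves, such that at each stage `α < δ` at which
COM has to move, after any moves `(s β)_{β < α}` which follow the rules and in which COM has played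
by `σ`, the move given by `σ` follows the rules (it is the greatest element if `α = 0`, and it is a
lower bound of the earlier moves). -/
def ComWins (P : Type u) [PartialOrder P] [OrderTop P] (δ : Ordinal.{u}) : Prop :=
  ∃ σ : (α : Ordinal.{u}) → (Set.Iio α → P) → P,
    ∀ (s : Ordinal.{u} → P) (α : Ordinal.{u}), α < δ → ComStage α →
      (∀ β < α, ∀ γ < β, s β ≤ s γ) →
      (∀ β < α, ComStage β → s β = σ β (fun γ => s γ)) →
        (α = 0 → σ α (fun γ => s γ) = ⊤) ∧ ∀ β < α, σ α (fun γ => s γ) ≤ s β

end Pool.Agent.H341Q.SD
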