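import Mathlib
import Pool.Agent.H341Q.Club
import Pool.Agent.H341Q.SDDefs

/-! Club shooting with small closed conditions. -/

set_option autoImplicit false
set_option linter.all false

namespace Pool.Agent.H341Q.SD

open Cardinal Order Set Pool.Agent.H341Q

universe u

variable {W : Type u} [LinearOrder W]

/-- small closed sets disjoint from `S` -/
@[ext]
structure Cond (S : Set W) (ρ : Cardinal.{u}) : Type u where
  set : Set W
  closed : DirSupClosed set
  small : #(set) < ρ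
  disj : Disjoint set S

variable {S : Set W} {ρ : Cardinal.{u}}

instance : PartialOrder (Cond S ρ) where
  le q p := p.set ⊆ q.set ∧ ∀ x ∈ q.set, ∀ y ∈ p.set, x ≤ y → x ∈ p.set
  le_refl p := ⟨Subset.rfl, fun x hx _ _ _ => hx⟩
  le_trans r q p h1 h2 := ⟨h2.1.trans h1.1, fun x hx y hy hxy =>
    h2.2 x (h1.2 x hx y (h2.1 hy) hxy) y hy hxy⟩
  le_antisymm p q h1 h2 := by
    ext1
    exact Subset.antisymm h2.1 h1.1

lemma le_def (q p : Cond S ρ) :
    q ≤ p ↔ p.set ⊆ q.set ∧ ∀ x ∈ q.set, ∀ y ∈ p.set, x ≤ y → x ∈ p.set := Iff.rfl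

/-- the empty condition -/
def botC (hρ : 0 < ρ) : Cond S ρ where
  set := ∅
  closed := DirSupClosed.empty
  small := by simpa using hρ
  disj := empty_disjoint _

/-- the instance of the top element -/
@[reducible] def topI (hρ : 0 < ρ) : OrderTop (Cond S ρ) where
  top := botC hρ
  le_top p := ⟨empty_subset _, fun _ _ y hy => absurd hy (notMem_empty y)⟩

section Strong

variable [WellFoundedLT W] [NoMaxOrder W] [Nonempty W]

lemma isClub_Ioi (x : W) : IsClub (Ioi x) := by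
  refine ⟨?_, ?_⟩
  · intro d hd hne _ a ha
    obtain ⟨z, hz⟩ := hne
    exact (hd hz : x < z).trans_le (ha.1 hz)
  · intro a
    obtain ⟨b, hb⟩ := exists_gt (max a x)
    exact ⟨b, (le_max_right _ _).trans_lt hb, ((le_max_left _ _).trans_lt hb).le⟩

/-- the property of the set of recursively built conditions -/
def Good (S : Set W) (ρ : Cardinal.{u}) (Q : Set W) : Prop :=
  DirSupClosed Q ∧ #Q < ρ ∧ Disjoint Q S

open Classical in
/-- recursive step -/
noncomputable def stepR (p : Cond S ρ) (e : Cond S ρ → Ordinal.{u} → Cond S ρ)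
    (h : Ordinal.{u} → W) (α : Ordinal.{u}) (r : (β : Ordinal.{u}) → β < α → Cond S ρ) :
    Cond S ρ :=
  if hQ : Good S ρ (p.set ∪ {h α} ∪ ⋃ β, ⋃ hβ : β < α, (r β hβ).set) then
    e ⟨_, hQ.1, hQ.2.1, hQ.2.2⟩ α else p

/-- the recursively defined sequence -/
noncomputable def R (p : Cond S ρ) (e : Cond S ρ → Ordinal.{u} → Cond S ρ)
    (h : Ordinal.{u} → W) : Ordinal.{u} → Cond S ρ :=
  (wellFounded_lt (α := Ordinal.{u})).fix fun α r => stepR p e h α r

/-- the sets before extension -/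
def Q (p : Cond S ρ) (e : Cond S ρ → Ordinal.{u} → Cond S ρ)
    (h : Ordinal.{u} → W) (α : Ordinal.{u}) : Set W :=
  p.set ∪ {h α} ∪ ⋃ β, ⋃ hβ : β < α, (R p e h β).set

lemma R_eq (p : Cond S ρ) (e : Cond S ρ → Ordinal.{u} → Cond S ρ)
    (h : Ordinal.{u} → W) (α : Ordinal.{u}) (hQ : Good S ρ (Q p e h α)) :
    R p e h α = e ⟨Q p e h α, hQ.1, hQ.2.1, hQ.2.2⟩ α := by
  have h1 : R p e h α = stepR p e h α (fun β _ => R p e h β) := by
    unfold R
    rw [WellFounded.fix_eq]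
  rw [h1]
  exact dif_pos hQ

lemma mem_Q {p : Cond S ρ} {e : Cond S ρ → Ordinal.{u} → Cond S ρ}
    {h : Ordinal.{u} → W} {α : Ordinal.{u}} {z : W} :
    z ∈ Q p e h α ↔ z ∈ p.set ∨ z = h α ∨ ∃ β < α, z ∈ (R p e h β).set := by
  simp only [Q, mem_union, mem_singleton_iff, mem_iUnion, or_assoc, exists_prop]

/-- invariants of the construction -/
structure Inv (p : Cond S ρ) (e : Cond S ρ → Ordinal.{u} → Cond S ρ)
    (h : Ordinal.{u} → W) (α : Ordinal.{u}) : Prop where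
  good : Good S ρ (Q p e h α)
  le : ∀ z ∈ Q p e h α, z ≤ h α
  seg : ∀ β < α, ∀ y ∈ (R p e h β).set, ∀ z ∈ Q p e h α, z ≤ y → z ∈ (R p e h β).set
  segp : ∀ y ∈ p.set, ∀ z ∈ Q p e h α, z ≤ y → z ∈ p.set

lemma inv_all (hρ : ρ.IsRegular) (p : Cond S ρ) (e : Cond S ρ → Ordinal.{u} → Cond S ρ)
    (he : ∀ X, ∀ α < ρ.ord, e X α ≤ X) (h : Ordinal.{u} → W)
    (h1 : ∀ α β, α < β → β < ρ.ord → h α < h β)
    (h2 : ∀ α < ρ.ord, IsSuccLimit α → ∀ y < h α, ∃ β < α, y < h β)
    (h3 : ∀ α < ρ.ord, h α ∉ S)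
    (h4 : ∀ α < ρ.ord, ∀ z ∈ p.set, z < h α)
    (h5 : ∀ α β, α < β → β < ρ.ord → ∀ X : Cond S ρ, X.set ⊆ Iic (h α) →
      ∀ z ∈ (e X α).set, z < h β) :
    ∀ α < ρ.ord, Inv p e h α := by
  intro α
  induction α using WellFoundedLT.induction with
  | ind α IH =>
  intro hα
  have IH' : ∀ β < α, Inv p e h β := fun β hβ => IH β hβ (hβ.trans hα)
  have hR : ∀ β (hβ : β < α), R p e h β =
      e ⟨Q p e h β, (IH' β hβ).good.1, (IH' β hβ).good.2.1, (IH' β hβ).good.2.2⟩ β :=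
    fun β hβ => R_eq p e h β (IH' β hβ).good
  have hRle : ∀ β (hβ : β < α), R p e h β ≤
      ⟨Q p e h β, (IH' β hβ).good.1, (IH' β hβ).good.2.1, (IH' β hβ).good.2.2⟩ := by
    intro β hβ
    rw [hR β hβ]
    exact he _ β (hβ.trans hα)
  have hRlt : ∀ β (hβ : β < α), ∀ z ∈ (R p e h β).set, z < h α := by
    intro β hβ z hz
    rw [hR β hβ] at hz
    exact h5 β α hβ hα _ (fun w hw => (IH' β hβ).le w hw) z hz
  have hQR : ∀ β (hβ : β < α), Q p e h β ⊆ (R p e h β).set := fun β hβ => (hRle β hβ).1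
  have hQRseg : ∀ β (hβ : β < α), ∀ z ∈ (R p e h β).set, ∀ y ∈ Q p e h β, z ≤ y →
      z ∈ Q p e h β := fun β hβ => (hRle β hβ).2
  have hRR : ∀ γ β, γ < β → β < α → (R p e h γ).set ⊆ (R p e h β).set := by
    intro γ β hγ hβ z hz
    exact hQR β hβ (mem_Q.2 (Or.inr (Or.inr ⟨γ, hγ, hz⟩)))
  have hpR : ∀ β < α, p.set ⊆ (R p e h β).set := by
    intro β hβ z hz
    exact hQR β hβ (mem_Q.2 (Or.inl hz))
  have hle : ∀ z ∈ Q p e h α, z ≤ h α := by
    intro z hz
    rcases mem_Q.1 hz with hz | hz | ⟨β, hβ, hz⟩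
    · exact (h4 α hα z hz).le
    · exact hz.le
    · exact (hRlt β hβ z hz).le
  have hseg : ∀ β < α, ∀ y ∈ (R p e h β).set, ∀ z ∈ Q p e h α, z ≤ y →
      z ∈ (R p e h β).set := by
    intro β hβ y hy z hz hzy
    rcases mem_Q.1 hz with hz | hz | ⟨γ, hγ, hz⟩
    · exact hpR β hβ hz
    · rw [hz] at hzy
      exact absurd (hRlt β hβ y hy) (not_lt.2 hzy)
    · rcases lt_trichotomy γ β with hh | hh | hh
      · exact hRR γ β hh hβ hz
      · rw [← hh]; exact hz
      · have hyQ : y ∈ Q p e h γ := mem_Q.2 (Or.inr (Or.inr ⟨β, hh, hy⟩))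
        exact (IH' γ hγ).seg β hh y hy z (hQRseg γ hγ z hz y hyQ hzy) hzy
  have hsegp : ∀ y ∈ p.set, ∀ z ∈ Q p e h α, z ≤ y → z ∈ p.set := by
    intro y hy z hz hzy
    rcases mem_Q.1 hz with hz | hz | ⟨γ, hγ, hz⟩
    · exact hz
    · rw [hz] at hzy
      exact absurd (h4 α hα y hy) (not_lt.2 hzy)
    · have hyQ : y ∈ Q p e h γ := mem_Q.2 (Or.inl hy)
      exact (IH' γ hγ).segp y hy z (hQRseg γ hγ z hz y hyQ hzy) hzy
  refine ⟨⟨?_, ?_, ?_⟩, hle, hseg, hsegp⟩
  · intro d hd hne hdir a ha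
    by_cases hhα : h α ∈ d
    · have : a = h α := le_antisymm (ha.2 fun z hz => hle z (hd hz)) (ha.1 hhα)
      rw [this]
      exact mem_Q.2 (Or.inr (Or.inl rfl))
    rcases (ha.2 fun z hz => hle z (hd hz) : a ≤ h α).lt_or_eq with hlt | heq
    swap
    · rw [heq]
      exact mem_Q.2 (Or.inr (Or.inl rfl))
    have hd' : ∀ z ∈ d, z ∈ p.set ∨ ∃ β < α, z ∈ (R p e h β).set := by
      intro z hz
      rcases mem_Q.1 (hd hz) with h6 | h6 | h6
      · exact Or.inl h6
      · rw [h6] at hz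
        exact absurd hz hhα
      · exact Or.inr h6
    rcases Ordinal.zero_or_succ_or_isSuccLimit α with h0 | ⟨β, hβ⟩ | hlim
    · have : d ⊆ p.set := by
        intro z hz
        rcases hd' z hz with h6 | ⟨β, hβ, _⟩
        · exact h6
        · rw [h0] at hβ
          exact absurd hβ (not_lt.2 (zero_le))
      exact mem_Q.2 (Or.inl (p.closed this hne hdir ha))
    · have hβα : β < α := by rw [← hβ]; exact lt_succ β
      have : d ⊆ (R p e h β).set := by
        intro z hz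
        rcases hd' z hz with h6 | ⟨γ, hγ, h6⟩
        · exact hpR β hβα h6
        · rw [← hβ] at hγ
          rcases (lt_succ_iff.1 hγ).lt_or_eq with h7 | h7
          · exact hRR γ β h7 hβα h6
          · rw [← h7]; exact h6
      exact mem_Q.2 (Or.inr (Or.inr ⟨β, hβα, (R p e h β).closed this hne hdir ha⟩))
    · obtain ⟨β, hβα, hβ⟩ := h2 α hα hlim a hlt
      have hhβ : h β ∈ (R p e h β).set := hQR β hβα (mem_Q.2 (Or.inr (Or.inl rfl)))
      have : d ⊆ (R p e h β).set := by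
        intro z hz
        have hzβ : z ≤ h β := (ha.1 hz).trans hβ.le
        exact hseg β hβα (h β) hhβ z (hd hz) hzβ
      exact mem_Q.2 (Or.inr (Or.inr ⟨β, hβα, (R p e h β).closed this hne hdir ha⟩))
  · have hU : (⋃ β, ⋃ hβ : β < α, (R p e h β).set) =
        ⋃ i : α.ToType, (R p e h (Ordinal.ToType.toOrd i).1).set := by
      ext z
      simp only [mem_iUnion, exists_prop]
      constructor
      · rintro ⟨β, hβ, hz⟩
        refine ⟨Ordinal.ToType.mk ⟨β, hβ⟩, ?_⟩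
        simpa using hz
      · rintro ⟨i, hz⟩
        exact ⟨_, (Ordinal.ToType.toOrd i).2, hz⟩
    have hω := hρ.aleph0_le
    unfold Q
    refine (mk_union_le _ _).trans_lt (add_lt_of_lt hω ?_ ?_)
    · refine (mk_union_le _ _).trans_lt (add_lt_of_lt hω p.small ?_)
      rw [mk_singleton]
      exact one_lt_aleph0.trans_le hω
    · rw [hU, card_iUnion_lt_iff_forall_of_isRegular hρ]
      · intro i
        exact (R p e h _).small
      · rw [mk_toType]
        exact lt_ord.1 hα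
  · rw [Set.disjoint_left]
    intro z hz
    rcases mem_Q.1 hz with hz | hz | ⟨β, hβ, hz⟩
    · exact Set.disjoint_left.1 p.disj hz
    · rw [hz]; exact h3 α hα
    · exact Set.disjoint_left.1 (R p e h β).disj hz

end Strong

end Pool.Agent.H341Q.SD
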