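import Mathlib
import Pool.Agent.H341Q.Cond

/-! COM has no winning strategy in the game of length `ω + 1`. -/

set_option autoImplicit false
set_option linter.all false

namespace Pool.Agent.H341Q.SD

open Cardinal Order Set Pool.Agent.H341Q

universe u

/-- play of the game in which COM uses `σ` and INC uses `τ` -/
noncomputable def play {P : Type u} (σ τ : (α : Ordinal.{u}) → (Set.Iio α → P) → P) :
    Ordinal.{u} → P :=
  open Classical in
  (wellFounded_lt (α := Ordinal.{u})).fix fun α r =>
    if ComStage α then σ α (fun γ => r γ.1 γ.2) else τ α (fun γ => r γ.1 γ.2)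

lemma play_com {P : Type u} (σ τ : (α : Ordinal.{u}) → (Set.Iio α → P) → P) (α : Ordinal.{u})
    (h : ComStage α) : play σ τ α = σ α (fun γ => play σ τ γ) := by
  unfold play
  rw [WellFounded.fix_eq, if_pos h]

lemma play_inc {P : Type u} (σ τ : (α : Ordinal.{u}) → (Set.Iio α → P) → P) (α : Ordinal.{u})
    (h : ¬ ComStage α) : play σ τ α = τ α (fun γ => play σ τ γ) := by
  unfold play
  rw [WellFounded.fix_eq, if_neg h]

lemma comStage_nat (n : ℕ) : ComStage (n : Ordinal.{u}) ↔ Even n := by
  constructor
  · rintro ⟨β, hβ⟩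
    have h1 : β < Ordinal.omega0.{u} := by
      by_contra h
      have h2 : Ordinal.omega0.{u} ≤ β := not_lt.1 h
      have h3 : β ≤ 2 * β := Ordinal.le_mul_right β (by norm_num)
      have h4 := Ordinal.nat_lt_omega0.{u} n
      rw [hβ] at h4
      exact absurd (h2.trans h3) (not_le.2 h4)
    obtain ⟨m, rfl⟩ := Ordinal.lt_omega0.1 h1
    have h2 : n = 2 * m := by exact_mod_cast hβ
    exact ⟨m, by omega⟩
  · rintro ⟨m, hm⟩
    refine ⟨m, ?_⟩
    have : n = 2 * m := by omega
    rw [this]
    push_cast
    rfl

lemma comStage_omega : ComStage (Ordinal.omega0.{u}) := by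
  refine ⟨Ordinal.omega0, ?_⟩
  exact (Ordinal.natCast_mul_omega0 (n := 2) (by norm_num)).symm

variable {W : Type u} [LinearOrder W] [WellFoundedLT W] [NoMaxOrder W] [Nonempty W]

/-- the position given by a list -/
noncomputable def posL {P : Type u} [Inhabited P] (L : List P) : Ordinal.{u} → P :=
  fun γ => L.getD (Cardinal.toNat γ.card) default

theorem not_comWins {μ : Cardinal.{u}} {S : Set W} {ρ : Cardinal.{u}} (hρ : ℵ₀ ≤ ρ)
    (hμ : ℵ₀ ≤ μ) (hρμ : ρ ≤ μ) (hcof : μ < cof W) (hseg : ∀ x : W, #(Iic x) < cof W)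
    (hcount : ∀ x : W, #{X : Cond S ρ // X.set ⊆ Iic x} ≤ μ)
    (hS : S ⊆ LimOmega W) (hstat : IsStationary S) :
    ¬ @ComWins (Cond S ρ) _ (topI (aleph0_pos.trans_le hρ)) (Ordinal.omega0 + 1) := by
  classical
  letI := topI (S := S) (ρ := ρ) (aleph0_pos.trans_le hρ)
  letI : Inhabited (Cond S ρ) := ⟨⊤⟩
  rintro ⟨σ, hσ⟩
  have hc0 : ℵ₀ < cof W := hμ.trans_lt hcof
  -- bounds for the answers of the strategy
  have hb : ∀ L : List (Cond S ρ), ∃ b : W,
      ∀ z ∈ (σ (L.length : Ordinal.{u}) (fun γ => posL L γ)).set, z < b := by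
    intro L
    exact exists_bound (((σ _ _).small.le.trans hρμ).trans_lt hcof)
  choose b hb using hb
  have hg : ∀ x : W, ∃ g, ∀ L : List (Cond S ρ), (∀ X ∈ L, X.set ⊆ Iic x) → b L < g := by
    intro x
    obtain ⟨g, hg⟩ := exists_bound
      (s := range (fun L : List {X : Cond S ρ // X.set ⊆ Iic x} => b (L.map Subtype.val))) (by
        refine mk_range_le.trans_lt ?_
        refine lt_of_le_of_lt (mk_list_le_max _) (max_lt hc0 ((hcount x).trans_lt hcof)))
    refine ⟨g, fun L hL => hg _ ⟨L.pmap Subtype.mk hL, ?_⟩⟩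
    simp [List.map_pmap]
  choose g hg using hg
  obtain ⟨δ, hδS, hδ⟩ := hstat (isClub_closure hc0 hseg g)
  have hδ' : ∀ y < δ, g y < δ := hδ
  obtain ⟨d, hd, hdδ⟩ := hS hδS
  have hdlt : ∀ n, d n < δ := lt_of_isLUB hd hdδ
  have hbetween : ∀ y < δ, ∃ z, y < z ∧ z < δ := fun y hy => limOmega_exists_between (hS hδS) hy
  -- INC's strategy
  let good : (α : Ordinal.{u}) → (Set.Iio α → Cond S ρ) → Cond S ρ → Prop := fun α t q =>
    (∀ γ, q ≤ t γ) ∧ (∃ y ∈ q.set, d (Cardinal.toNat α.card) ≤ y ∧ y < δ) ∧
      ∃ z < δ, q.set ⊆ Iic z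
  let τ : (α : Ordinal.{u}) → (Set.Iio α → Cond S ρ) → Cond S ρ := fun α t =>
    if h : ∃ q, good α t q then Classical.choose h else ⊤
  let s := play σ τ
  have hscom : ∀ α, ComStage α → s α = σ α (fun γ => s γ) := fun α h => play_com σ τ α h
  have hsinc : ∀ α, ¬ ComStage α → s α = τ α (fun γ => s γ) := fun α h => play_inc σ τ α h
  have toNat_nat : ∀ n : ℕ, Cardinal.toNat (n : Ordinal.{u}).card = n := by
    intro n
    simp
  have main : ∀ n : ℕ, (∀ m < n, s (n : Ordinal.{u}) ≤ s (m : Ordinal.{u})) ∧
      (∃ z < δ, (s (n : Ordinal.{u})).set ⊆ Iic z) ∧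
      (¬ Even n → ∃ y ∈ (s (n : Ordinal.{u})).set, d n ≤ y ∧ y < δ) := by
    intro n
    induction n using Nat.strong_induction_on with
    | _ n IH =>
    have hlegal : ∀ β < (n : Ordinal.{u}), ∀ γ < β, s β ≤ s γ := by
      intro β hβ γ hγ
      obtain ⟨k, rfl⟩ := Ordinal.lt_omega0.1 (hβ.trans (Ordinal.nat_lt_omega0 n))
      obtain ⟨m, rfl⟩ := Ordinal.lt_omega0.1 (hγ.trans (Ordinal.nat_lt_omega0 k))
      have hk : k < n := by exact_mod_cast hβ
      have hm : m < k := by exact_mod_cast hγ
      exact (IH k hk).1 m hm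
    have hmax : ∃ z < δ, ∀ m < n, (s (m : Ordinal.{u})).set ⊆ Iic z := by
      have : ∀ k ≤ n, ∃ z < δ, ∀ m < k, (s (m : Ordinal.{u})).set ⊆ Iic z := by
        intro k
        induction k with
        | zero => exact fun _ => ⟨d 0, hdlt 0, fun m hm => absurd hm (Nat.not_lt_zero m)⟩
        | succ k ih =>
          intro hk
          obtain ⟨z, hz, h1⟩ := ih (by omega)
          obtain ⟨w, hw, h2⟩ := (IH k (by omega)).2.1
          refine ⟨max z w, max_lt hz hw, fun m hm => ?_⟩
          rcases Nat.lt_succ_iff_lt_or_eq.1 hm with h3 | h3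
          · exact (h1 m h3).trans (Iic_subset_Iic.2 (le_max_left _ _))
          · rw [h3]
            exact h2.trans (Iic_subset_Iic.2 (le_max_right _ _))
      exact this n le_rfl
    obtain ⟨z, hzδ, hz⟩ := hmax
    by_cases hn : Even n
    · have hst : ComStage (n : Ordinal.{u}) := (comStage_nat n).2 hn
      have h1 := hσ s (n : Ordinal.{u})
        ((Ordinal.nat_lt_omega0 n).trans (Order.lt_add_one_iff.2 le_rfl)) hst hlegal
        (fun β _ hβ => hscom β hβ)
      refine ⟨?_, ?_, fun h => absurd hn h⟩
      · intro m hm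
        rw [hscom _ hst]
        exact h1.2 m (by exact_mod_cast hm)
      · -- the answer is bounded
        let L : List (Cond S ρ) := List.ofFn (fun i : Fin n => s (i.1 : Ordinal.{u}))
        have hLlen : L.length = n := by simp [L]
        have hLz : ∀ X ∈ L, X.set ⊆ Iic z := by
          intro X hX
          simp only [L, List.mem_ofFn] at hX
          obtain ⟨i, rfl⟩ := hX
          exact hz i.1 i.2
        have hpos : ∀ γ < (n : Ordinal.{u}), posL L γ = s γ := by
          intro γ hγ
          obtain ⟨k, rfl⟩ := Ordinal.lt_omega0.1 (hγ.trans (Ordinal.nat_lt_omega0 n))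
          have hk : k < n := by exact_mod_cast hγ
          unfold posL
          rw [toNat_nat, List.getD_eq_getElem _ _ (by rw [hLlen]; exact hk)]
          simp [L]
        have h2 : s (n : Ordinal.{u}) = σ (L.length : Ordinal.{u}) (fun γ => posL L γ) := by
          rw [hscom _ hst]
          have : ∀ k : ℕ, k = n → σ (n : Ordinal.{u}) (fun γ => s γ) =
              σ (k : Ordinal.{u}) (fun γ => posL L γ) := by
            rintro k rfl
            congr 1
            funext γ
            exact (hpos γ.1 γ.2).symm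
          exact this _ hLlen
        refine ⟨g z, hδ' z hzδ, ?_⟩
        intro w hw
        rw [h2] at hw
        exact ((hb L w hw).trans (hg z L hLz)).le
    · have hst : ¬ ComStage (n : Ordinal.{u}) := fun h => hn ((comStage_nat n).1 h)
      have hn0 : n ≠ 0 := by
        rintro rfl
        exact hn (by simp)
      obtain ⟨m, rfl⟩ := Nat.exists_eq_succ_of_ne_zero hn0
      have hex : ∃ q, good ((m + 1 : ℕ) : Ordinal.{u}) (fun γ => s γ) q := by
        obtain ⟨y, hy1, hy2⟩ := hbetween (max z (d (m + 1))) (max_lt hzδ (hdlt _))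
        -- take a successor above `y`
        obtain ⟨y', hy'⟩ := exists_gt y
        let Y : W := wellFounded_lt.min {w | y < w} ⟨y', hy'⟩
        have hY1 : y < Y := wellFounded_lt.min_mem {w | y < w} ⟨y', hy'⟩
        have hY2 : ∀ w, y < w → Y ≤ w := fun w hw =>
          not_lt.1 (wellFounded_lt.not_lt_min {w | y < w} hw)
        have hYS : Y ∉ S := by
          intro h
          obtain ⟨v, hv1, hv2⟩ := limOmega_exists_between (hS h) hY1
          exact absurd hv2 (not_lt.2 (hY2 v hv1))
        have hYδ : Y < δ := by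
          obtain ⟨v, hv1, hv2⟩ := hbetween y hy2
          exact (hY2 v hv1).trans_lt hv2
        have hall : ∀ w ∈ (s (m : Ordinal.{u})).set, w < Y := fun w hw =>
          ((hz m (Nat.lt_succ_self m) hw : w ≤ z).trans (le_max_left _ _)).trans_lt
            (hy1.trans hY1)
        let q : Cond S ρ :=
          { set := insert Y (s (m : Ordinal.{u})).set
            closed := by
              intro c hc hne hdir a ha
              by_cases hYc : Y ∈ c
              · have : a = Y := by
                  refine le_antisymm (ha.2 fun w hw => ?_) (ha.1 hYc)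
                  rcases hc hw with h | h
                  · exact h.le
                  · exact (hall w h).le
                rw [this]
                exact mem_insert _ _
              · refine mem_insert_of_mem _ ((s (m : Ordinal.{u})).closed ?_ hne hdir ha)
                intro w hw
                rcases hc hw with h | h
                · rw [h] at hw
                  exact absurd hw hYc
                · exact h
            small := by
              refine (mk_insert_le).trans_lt (add_lt_of_lt hρ (s (m : Ordinal.{u})).small ?_)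
              exact one_lt_aleph0.trans_le hρ
            disj := by
              rw [Set.disjoint_left]
              intro w hw
              rcases hw with h | h
              · rw [h]; exact hYS
              · exact Set.disjoint_left.1 (s (m : Ordinal.{u})).disj h }
        have hqm : q ≤ s (m : Ordinal.{u}) := by
          refine ⟨subset_insert _ _, ?_⟩
          intro x hx w hw hxw
          rcases hx with h | h
          · rw [h] at hxw
            exact absurd (hall w hw) (not_lt.2 hxw)
          · exact h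
        refine ⟨q, ?_, ⟨Y, mem_insert _ _, ?_, hYδ⟩, Y, hYδ, ?_⟩
        · rintro ⟨γ, hγ⟩
          show q ≤ s γ
          have hγ' : γ < ((m + 1 : ℕ) : Ordinal.{u}) := hγ
          obtain ⟨k, rfl⟩ := Ordinal.lt_omega0.1 (hγ'.trans (Ordinal.nat_lt_omega0 (m + 1)))
          have hk : k < m + 1 := by exact_mod_cast hγ'
          rcases Nat.lt_succ_iff_lt_or_eq.1 hk with h | h
          · exact hqm.trans ((IH m (Nat.lt_succ_self m)).1 k h)
          · rw [h]
            exact hqm
        · rw [toNat_nat]
          exact ((le_max_right _ _).trans hy1.le).trans hY1.le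
        · intro w hw
          rcases hw with h | h
          · exact h.le
          · exact (hall w h).le
      have hs' : s ((m + 1 : ℕ) : Ordinal.{u}) = Classical.choose hex := by
        rw [hsinc _ hst]
        exact dif_pos hex
      have hspec := Classical.choose_spec hex
      rw [← hs'] at hspec
      obtain ⟨h1, h2, h3⟩ := hspec
      refine ⟨?_, h3, fun _ => ?_⟩
      · intro k hk
        have hk' : (k : Ordinal.{u}) < ((m + 1 : ℕ) : Ordinal.{u}) := by exact_mod_cast hk
        exact h1 ⟨(k : Ordinal.{u}), hk'⟩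
      · rw [toNat_nat] at h2
        exact h2
  -- stage ω
  have hlegal : ∀ β < Ordinal.omega0.{u}, ∀ γ < β, s β ≤ s γ := by
    intro β hβ γ hγ
    obtain ⟨k, rfl⟩ := Ordinal.lt_omega0.1 hβ
    obtain ⟨m, rfl⟩ := Ordinal.lt_omega0.1 (hγ.trans (Ordinal.nat_lt_omega0 k))
    have hm : m < k := by exact_mod_cast hγ
    exact (main k).1 m hm
  have hfin := hσ s Ordinal.omega0 (Order.lt_add_one_iff.2 le_rfl) comStage_omega hlegal
    (fun β _ hβ => hscom β hβ)
  set q := σ Ordinal.omega0 (fun γ => s γ) with hq
  have hqn : ∀ n : ℕ, q ≤ s (n : Ordinal.{u}) := fun n => hfin.2 _ (Ordinal.nat_lt_omega0 n)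
  choose y hy using fun n : ℕ => (main (2 * n + 1)).2.2 (by
    rw [Nat.not_even_iff_odd]
    exact ⟨n, rfl⟩)
  have hlub : IsLUB (range y) δ := by
    refine ⟨?_, ?_⟩
    · rintro _ ⟨n, rfl⟩
      exact (hy n).2.2.le
    · intro c hc
      refine hdδ.2 ?_
      rintro _ ⟨n, rfl⟩
      refine (hd.monotone (by omega : n ≤ 2 * n + 1)).trans ((hy n).2.1.trans (hc ⟨n, rfl⟩))
  have hmem : δ ∈ q.set := by
    refine q.closed (d := range y) ?_ (range_nonempty _) (.of_linearOrder _) hlub
    rintro _ ⟨n, rfl⟩
    exact (hqn (2 * n + 1)).1 (hy n).1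
  exact Set.disjoint_left.1 q.disj hmem hδS

end Pool.Agent.H341Q.SD
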