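import Mathlib

set_option autoImplicit false

/-! k-spaces of continuous functions with two values. -/

namespace Pool.Agent.H341Q.KSp

open Set Topology Cardinal

universe u

/-- the space of continuous maps `X → {0,1}` with the topology of pointwise convergence -/
abbrev Cp (X : Type u) [TopologicalSpace X] : Type u := {f : X → Bool // Continuous f}

/-- k-spaces -/
def IsKSpace (Z : Type u) [TopologicalSpace Z] : Prop :=
  ∀ A : Set Z, (∀ K : Set Z, IsCompact K → IsClosed ((fun x : K => (x : Z)) ⁻¹' A)) → IsClosed A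

section cl
variable {X : Type u} [TopologicalSpace X]

theorem mem_cl {s : Set (Cp X)} {g : Cp X} :
    g ∈ closure s ↔ ∀ F : Set X, F.Finite → ∃ f ∈ s, ∀ x ∈ F, f.1 x = g.1 x := by
  constructor
  · intro h F hF
    rw [mem_closure_iff] at h
    have ho : IsOpen {f : Cp X | ∀ x ∈ F, f.1 x = g.1 x} := by
      have e : {f : Cp X | ∀ x ∈ F, f.1 x = g.1 x} =
          ⋂ x ∈ F, (fun f : Cp X => f.1 x) ⁻¹' {g.1 x} := by
        ext f; simp
      rw [e]
      apply hF.isOpen_biInter
      intro x _
      apply IsOpen.preimage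
      · exact (continuous_apply x).comp continuous_subtype_val
      · exact isOpen_discrete _
    obtain ⟨f, hf1, hf2⟩ := h _ ho (fun x _ => rfl)
    exact ⟨f, hf2, hf1⟩
  · intro h
    rw [mem_closure_iff]
    intro o ho hgo
    rw [isOpen_induced_iff] at ho
    obtain ⟨o', ho', rfl⟩ := ho
    rw [isOpen_pi_iff] at ho'
    obtain ⟨I, u, hu, hsub⟩ := ho' g.1 hgo
    obtain ⟨f, hf, hfg⟩ := h I I.finite_toSet
    refine ⟨f, ?_, hf⟩
    apply hsub
    intro x hx
    rw [hfg x hx]
    exact (hu x hx).2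

/-- if all subsets of some uncountable set are clopen, then `C_p(X, {0,1})` is not a
Fréchet-Urysohn space -/
theorem not_fu {E : Set X} (hE : ¬ E.Countable) (hcl : ∀ A ⊆ E, IsClopen A) :
    ¬ FrechetUrysohnSpace (Cp X) := by
  classical
  intro h
  let χ : {A : Set X // A ⊆ E} → Cp X := fun A => ⟨fun x => decide (x ∈ A.1), by
    rw [continuous_discrete_rng]
    intro b
    cases b
    · have e : (fun x => decide (x ∈ A.1)) ⁻¹' {false} = A.1ᶜ := by ext x; simp
      rw [e]
      exact (hcl A.1 A.2).compl.isOpen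
    · have e : (fun x => decide (x ∈ A.1)) ⁻¹' {true} = A.1 := by ext x; simp
      rw [e]
      exact (hcl A.1 A.2).isOpen⟩
  have hg : χ ⟨E, subset_rfl⟩ ∈ closure {f : Cp X | {x | f.1 x = true}.Finite} := by
    rw [mem_cl]
    intro F hF
    refine ⟨χ ⟨E ∩ F, inter_subset_left⟩, ?_, ?_⟩
    · refine (hF.subset ?_)
      intro x hx
      simp only [χ, mem_ofPred_eq, decide_eq_true_eq] at hx
      exact hx.2
    · intro x hx
      simp [χ, hx]
  rw [mem_closure_iff_seq_limit] at hg
  obtain ⟨u, hu, hlim⟩ := hg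
  apply hE
  have hsub : E ⊆ ⋃ n, {x | (u n).1 x = true} := by
    intro x hx
    have h1 : Filter.Tendsto (fun n => (u n).1 x) Filter.atTop (𝓝 ((χ ⟨E, subset_rfl⟩).1 x)) :=
      (((continuous_apply x).comp continuous_subtype_val).tendsto _).comp hlim
    rw [nhds_discrete, Filter.tendsto_pure] at h1
    obtain ⟨n, hn⟩ := h1.exists
    rw [mem_iUnion]
    refine ⟨n, ?_⟩
    simp only [mem_ofPred_eq, hn]
    simp [χ, hx]
  exact (countable_iUnion fun n => (hu n).countable).mono hsub

end cl

/-! ### one point that is not isolated -/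

section pt

/-- the points of `T` are isolated, the neighbourhoods of the point `none` are the sets containing
it whose complements have size at most `c` -/
def P (T : Type u) (c : Cardinal.{u}) (_ : ℵ₀ ≤ c) : Type u := Option T

instance (T : Type u) (c : Cardinal.{u}) (hc : ℵ₀ ≤ c) : TopologicalSpace (P T c hc) where
  IsOpen U := (none : Option T) ∈ U → #(↥(Uᶜ)) ≤ c
  isOpen_univ := by
    intro _
    have e : #(↥((univ : Set (P T c hc))ᶜ)) = 0 := by
      rw [compl_univ]; exact mk_eq_zero _
    rw [e]; exact zero_le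
  isOpen_inter := by
    intro U V hU hV h
    rw [compl_inter]
    exact (mk_union_le _ _).trans ((add_le_add (hU h.1) (hV h.2)).trans
      (add_eq_self hc).le)
  isOpen_sUnion := by
    intro S hS h
    obtain ⟨U, hU, hn⟩ := h
    exact (mk_le_mk_of_subset (compl_subset_compl.2 (subset_sUnion_of_mem hU))).trans (hS U hU hn)

variable {T : Type u} {c : Cardinal.{u}} {hc : ℵ₀ ≤ c}

/-- the point that is not isolated -/
def pt (T : Type u) (c : Cardinal.{u}) (hc : ℵ₀ ≤ c) : P T c hc := (none : Option T)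

theorem open_iff (U : Set (P T c hc)) : IsOpen U ↔ (pt T c hc ∈ U → #(↥(Uᶜ)) ≤ c) := Iff.rfl

theorem open_of_notMem {U : Set (P T c hc)} (h : pt T c hc ∉ U) : IsOpen U :=
  (open_iff U).2 fun h' => absurd h' h

theorem clopen_of_small {U : Set (P T c hc)} (h : pt T c hc ∉ U) (hU : #(↥U) ≤ c) :
    IsClopen U := by
  refine ⟨⟨?_⟩, open_of_notMem h⟩
  rw [open_iff, compl_compl]
  exact fun _ => hU

theorem clopen_of_open {U : Set (P T c hc)} (h : pt T c hc ∈ U) (hU : IsOpen U) :
    IsClopen U :=
  ⟨⟨open_of_notMem fun h' => h' h⟩, hU⟩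

theorem clopen_single {x : P T c hc} (hx : x ≠ pt T c hc) : IsClopen {x} :=
  clopen_of_small (fun h => hx h.symm) (by
    rw [mk_singleton]
    exact one_le_aleph0.trans hc)

instance : T2Space (P T c hc) := by
  refine ⟨fun x y hxy => ?_⟩
  by_cases hx : x = pt T c hc
  · have hy : y ≠ pt T c hc := fun h => hxy (hx.trans h.symm)
    exact ⟨{y}ᶜ, {y}, (clopen_single hy).compl.isOpen, (clopen_single hy).isOpen, hxy, rfl,
      disjoint_compl_left⟩
  · exact ⟨{x}, {x}ᶜ, (clopen_single hx).isOpen, (clopen_single hx).compl.isOpen, rfl,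
      fun h => hxy h.symm, disjoint_compl_right⟩

theorem basis : TopologicalSpace.IsTopologicalBasis {U : Set (P T c hc) | IsClopen U} := by
  apply TopologicalSpace.isTopologicalBasis_of_isOpen_of_nhds
  · intro U hU
    exact hU.isOpen
  · intro x U hx hU
    by_cases h : x = pt T c hc
    · refine ⟨U, ?_, hx, subset_rfl⟩
      subst h
      exact clopen_of_open hx hU
    · exact ⟨{x}, clopen_single h, rfl, singleton_subset_iff.2 hx⟩

theorem not_isolated (hT : c < #T) : ¬ IsOpen {pt T c hc} := by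
  intro h
  have h1 := (open_iff _).1 h rfl
  have h2 : #T ≤ #(↥({pt T c hc}ᶜ : Set (P T c hc))) := by
    refine mk_le_of_injective (f := fun t : T => (⟨(some t : Option T), ?_⟩ :
      ↥({pt T c hc}ᶜ : Set (P T c hc)))) ?_
    · intro h'
      exact Option.some_ne_none t h'
    · intro a b hab
      have := congrArg Subtype.val hab
      exact Option.some_injective T this
  exact absurd (h2.trans h1) (not_le.2 hT)

/-- the values of a continuous function at all but `c` points are equal to the value at the point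
that is not isolated -/
theorem small_of_cont (f : Cp (P T c hc)) : #(↥{x | f.1 x ≠ f.1 (pt T c hc)}) ≤ c := by
  have h := (isOpen_discrete {f.1 (pt T c hc)}).preimage f.2
  have h1 := (open_iff _).1 h rfl
  exact h1

theorem cont_of_small {f : P T c hc → Bool} {g : Cp (P T c hc)} {W : Set (P T c hc)}
    (hW : #(↥W) ≤ c) (hn : pt T c hc ∉ W) (h : ∀ x ∉ W, f x = g.1 x) : Continuous f := by
  refine ⟨fun V _ => ?_⟩
  rw [open_iff]
  intro hp
  have hsub : (f ⁻¹' V)ᶜ ⊆ W ∪ {x | g.1 x ≠ g.1 (pt T c hc)} := by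
    intro x hx
    by_contra hcon
    rw [mem_union, not_or] at hcon
    apply hx
    have h1 : g.1 x = g.1 (pt T c hc) := by
      by_contra h2
      exact hcon.2 h2
    change f x ∈ V
    rw [h x hcon.1, h1, ← h _ hn]
    exact hp
  exact (mk_le_mk_of_subset hsub).trans ((mk_union_le _ _).trans
    ((add_le_add hW (small_of_cont g)).trans (add_eq_self hc).le))

/-- the closure of a set under a function with small values -/
def clo {X : Type u} (W : List X → Set X) : ℕ → Set X
  | 0 => ∅
  | n + 1 => clo W n ∪ ⋃ l : List (clo W n), W (l.map Subtype.val)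

theorem clo_small {X : Type u} (hc : ℵ₀ ≤ c) {W : List X → Set X} (hW : ∀ l, #(↥(W l)) ≤ c)
    (n : ℕ) : #(↥(clo W n)) ≤ c := by
  induction n with
  | zero => simp [clo]
  | succ n ih =>
    refine (mk_union_le _ _).trans ?_
    have h1 : #(↥(⋃ l : List (clo W n), W (l.map Subtype.val))) ≤ c := by
      refine (mk_iUnion_le_sum_mk).trans ?_
      refine (sum_le_sum _ (fun _ => c) fun l => hW _).trans ?_
      rw [sum_const']
      have h2 : #(List (clo W n)) ≤ c := (mk_list_le_max _).trans (max_le hc ih)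
      exact (mul_le_mul' h2 le_rfl).trans (mul_eq_self hc).le
    exact (add_le_add ih h1).trans (add_eq_self hc).le

theorem clo_mono {X : Type u} (W : List X → Set X) : Monotone (clo W) :=
  monotone_nat_of_le_succ fun _ => subset_union_left

theorem kspace : IsKSpace (Cp (P T c hc)) := by
  classical
  intro A hA
  rw [← closure_subset_iff_isClosed]
  intro g hg
  rw [mem_cl] at hg
  have hg' : ∀ l : List (P T c hc), ∃ f ∈ A, f.1 (pt T c hc) = g.1 (pt T c hc) ∧
      ∀ x ∈ l, f.1 x = g.1 x := by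
    intro l
    obtain ⟨f, hf, hfg⟩ := hg ({x | x ∈ l} ∪ {pt T c hc})
      ((List.finite_toSet l).union (finite_singleton _))
    exact ⟨f, hf, hfg _ (Or.inr rfl), fun x hx => hfg x (Or.inl hx)⟩
  choose Φ hΦA hΦn hΦ using hg'
  let W : List (P T c hc) → Set (P T c hc) := fun l => {x | (Φ l).1 x ≠ g.1 x}
  have hW : ∀ l, #(↥(W l)) ≤ c := by
    intro l
    have hsub : W l ⊆ {x | (Φ l).1 x ≠ (Φ l).1 (pt T c hc)} ∪ {x | g.1 x ≠ g.1 (pt T c hc)} := by
      intro x hx
      by_contra hcon
      rw [mem_union, not_or] at hcon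
      apply hx
      have h1 : (Φ l).1 x = (Φ l).1 (pt T c hc) := by
        by_contra h2; exact hcon.1 h2
      have h3 : g.1 x = g.1 (pt T c hc) := by
        by_contra h2; exact hcon.2 h2
      rw [h1, h3, hΦn]
    exact (mk_le_mk_of_subset hsub).trans ((mk_union_le _ _).trans
      ((add_le_add (small_of_cont _) (small_of_cont g)).trans (add_eq_self hc).le))
  let B : Set (P T c hc) := ⋃ n, clo W n
  have hB : #(↥B) ≤ c := by
    have e : B = ⋃ n : ULift.{u} ℕ, clo W n.down := by
      ext x
      simp only [B, mem_iUnion]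
      exact ⟨fun ⟨n, hn⟩ => ⟨⟨n⟩, hn⟩, fun ⟨n, hn⟩ => ⟨n.down, hn⟩⟩
    rw [e]
    refine (mk_iUnion_le_sum_mk).trans ?_
    refine (sum_le_sum _ (fun _ => c) fun n : ULift.{u} ℕ => clo_small hc hW n.down).trans ?_
    rw [sum_const', mk_uLift, mk_nat, lift_aleph0]
    exact (mul_le_mul' hc le_rfl).trans (mul_eq_self hc).le
  have hBn : pt T c hc ∉ B := by
    intro h
    obtain ⟨n, hn⟩ := mem_iUnion.1 h
    induction n with
    | zero => exact hn
    | succ n ih =>
      rcases hn with hn | hn
      · exact ih hn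
      · obtain ⟨l, hl⟩ := mem_iUnion.1 hn
        exact hl (hΦn _)
  let K : Set (Cp (P T c hc)) := {f | ∀ x ∉ B, f.1 x = g.1 x}
  have hK : IsCompact K := by
    rw [Subtype.isCompact_iff]
    have e : (Subtype.val '' K : Set (P T c hc → Bool)) = {f | ∀ x ∉ B, f x = g.1 x} := by
      ext f
      constructor
      · rintro ⟨f', hf', rfl⟩
        exact hf'
      · intro hf
        exact ⟨⟨f, cont_of_small hB hBn hf⟩, hf, rfl⟩
    rw [e]
    apply IsClosed.isCompact
    have e2 : {f : P T c hc → Bool | ∀ x ∉ B, f x = g.1 x} =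
        ⋂ x ∈ Bᶜ, (fun f : P T c hc → Bool => f x) ⁻¹' {g.1 x} := by
      ext f; simp
    rw [e2]
    exact isClosed_biInter fun x _ => (isClosed_discrete _).preimage (continuous_apply x)
  have hcl := hA K hK
  have hgK : g ∈ K := fun x _ => rfl
  rw [isClosed_induced_iff] at hcl
  obtain ⟨F0, hF0, hF0e⟩ := hcl
  have hmem : ∀ f ∈ K, (f ∈ F0 ↔ f ∈ A) := by
    intro f hf
    have := congrArg (fun s => (⟨f, hf⟩ : K) ∈ s) hF0e
    simpa using this
  rw [← hmem g hgK, ← hF0.closure_eq, mem_cl]
  intro F hF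
  have hFB : ∃ n, F ∩ B ⊆ clo W n := by
    have : (F ∩ B).Finite := hF.subset inter_subset_left
    have h2 : ∀ x ∈ F ∩ B, ∃ n, x ∈ clo W n := fun x hx => mem_iUnion.1 hx.2
    choose! m hm using h2
    obtain ⟨N, hN⟩ := (this.image m).bddAbove
    exact ⟨N, fun x hx => clo_mono W (hN (mem_image_of_mem m hx)) (hm x hx)⟩
  obtain ⟨n, hn⟩ := hFB
  have hfin : (F ∩ B).Finite := hF.subset inter_subset_left
  let l : List (clo W n) := (hfin.toFinset.attach.toList).map fun x =>
    ⟨x.1, hn (hfin.mem_toFinset.1 x.2)⟩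
  have hl : ∀ x ∈ F ∩ B, x ∈ l.map Subtype.val := by
    intro x hx
    simp only [l, List.map_map, List.mem_map, Finset.mem_toList, Finset.mem_attach, true_and]
    exact ⟨⟨x, hfin.mem_toFinset.2 hx⟩, rfl⟩
  have hWn : W (l.map Subtype.val) ⊆ B := by
    intro x hx
    exact mem_iUnion.2 ⟨n + 1, Or.inr (mem_iUnion.2 ⟨l, hx⟩)⟩
  have hfK : Φ (l.map Subtype.val) ∈ K := by
    intro x hx
    by_contra h
    exact hx (hWn h)
  refine ⟨Φ (l.map Subtype.val), (hmem _ hfK).2 (hΦA _), ?_⟩
  intro x hx
  by_cases hxB : x ∈ B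
  · exact hΦ _ x (hl x ⟨hx, hxB⟩)
  · exact hfK x hxB

end pt

end Pool.Agent.H341Q.KSp
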