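import Pool.Agent.H341Q.KSp
import Pool.Agent.Results.MP_110f0a_gt.SequentialFrechet

set_option autoImplicit false

/-! k-spaces of continuous functions with two values: the three parts of the answer. -/

namespace Pool.Agent.H341Q.KSp

open Set Topology Cardinal

universe u

section big
variable {T : Type u} {c : Cardinal.{u}} {hc : ℵ₀ ≤ c}

theorem exists_E (hT : c < #T) (D : Set (P T c hc)) (hD : #(↥D) ≤ c) :
    ∃ E ⊆ Dᶜ \ {pt T c hc}, #(↥E) = c := by
  apply le_mk_iff_exists_subset.1
  by_contra hcon
  rw [not_le] at hcon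
  have h2 : #T ≤ #(↥({pt T c hc}ᶜ : Set (P T c hc))) := by
    refine mk_le_of_injective (f := fun t : T => (⟨(some t : Option T), ?_⟩ :
      ↥({pt T c hc}ᶜ : Set (P T c hc)))) ?_
    · intro h'
      exact Option.some_ne_none t h'
    · intro a b hab
      have := congrArg Subtype.val hab
      exact Option.some_injective T this
  have h3 : ({pt T c hc}ᶜ : Set (P T c hc)) ⊆ D ∪ (Dᶜ \ {pt T c hc}) := by
    intro x hx
    by_cases h : x ∈ D
    · exact Or.inl h
    · exact Or.inr ⟨h, hx⟩
  have h4 : #T ≤ c := h2.trans ((mk_le_mk_of_subset h3).trans ((mk_union_le _ _).trans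
    ((add_le_add hD hcon.le).trans (add_eq_self hc).le)))
  exact absurd h4 (not_le.2 hT)

theorem not_fu_P (h0 : ℵ₀ < c) (hT : c < #T) : ¬ FrechetUrysohnSpace (Cp (P T c hc)) := by
  obtain ⟨E, hE, hEc⟩ := exists_E (hc := hc) hT ∅ (by rw [mk_eq_zero]; exact zero_le)
  apply not_fu (E := E)
  · intro h
    rw [← le_aleph0_iff_set_countable, hEc] at h
    exact absurd h (not_le.2 h0)
  · intro A hA
    exact clopen_of_small (fun h => (hE (hA h)).2 rfl) ((mk_le_mk_of_subset hA).trans hEc.le)

theorem not_fu_compl (h0 : ℵ₀ < c) (hT : c < #T) (D : Set (P T c hc)) (hD : IsClopen D)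
    (hD' : ∀ x ∈ D, IsOpen {x}) : ¬ FrechetUrysohnSpace (Cp (↥(Dᶜ))) := by
  have hp : pt T c hc ∉ D := fun h => not_isolated hT (hD' _ h)
  have hsm : #(↥D) ≤ c := by
    have := (open_iff _).1 hD.compl.isOpen hp
    rwa [compl_compl] at this
  obtain ⟨E, hE, hEc⟩ := exists_E (hc := hc) hT D hsm
  apply not_fu (E := Subtype.val ⁻¹' E)
  · intro h
    have h1 : (Subtype.val '' (Subtype.val ⁻¹' E : Set (↥(Dᶜ)))).Countable := h.image _
    have h2 : Subtype.val '' (Subtype.val ⁻¹' E : Set (↥(Dᶜ))) = E := by
      rw [Subtype.image_preimage_coe]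
      exact inter_eq_right.2 fun x hx => (hE hx).1
    rw [h2, ← le_aleph0_iff_set_countable, hEc] at h1
    exact absurd h1 (not_le.2 h0)
  · intro A hA
    have h1 : Subtype.val '' A ⊆ E := by
      rintro _ ⟨x, hx, rfl⟩
      exact hA hx
    have h2 : IsClopen (Subtype.val '' A : Set (P T c hc)) :=
      clopen_of_small (fun h => (hE (h1 h)).2 rfl) ((mk_le_mk_of_subset h1).trans hEc.le)
    have h3 : A = Subtype.val ⁻¹' (Subtype.val '' A : Set (P T c hc)) :=
      (preimage_image_eq A Subtype.val_injective).symm
    rw [h3]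
    exact h2.preimage continuous_subtype_val

end big

section discrete
variable (X : Type u) [TopologicalSpace X] [DiscreteTopology X]

theorem kspace_discrete : IsKSpace (Cp X) := by
  intro A hA
  have hK : IsCompact (Set.univ : Set (Cp X)) := by
    rw [Subtype.isCompact_iff]
    have e : (Subtype.val '' (Set.univ : Set (Cp X)) : Set (X → Bool)) = Set.univ := by
      ext f
      exact ⟨fun _ => trivial, fun _ => ⟨⟨f, continuous_of_discreteTopology⟩, trivial, rfl⟩⟩
    rw [e]
    exact isCompact_univ
  have h := hA Set.univ hK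
  have e : (fun x : (Set.univ : Set (Cp X)) => (x : Cp X)) ⁻¹' A =
      (Homeomorph.Set.univ (Cp X)) ⁻¹' A := rfl
  rw [e] at h
  exact (Homeomorph.isClosed_preimage _).1 h

theorem fu_discrete : FrechetUrysohnSpace (Cp X) ↔ Countable X := by
  constructor
  · intro h
    by_contra hX
    refine not_fu (E := (Set.univ : Set X)) ?_ (fun A _ => isClopen_discrete A) h
    rwa [countable_univ_iff]
  · intro h
    infer_instance

end discrete

theorem fu_of_seq (X : Type u) [TopologicalSpace X] (h : IsKSpace (Cp X))
    (hq : ∀ K : Set (Cp X), IsCompact K → SequentialSpace K) : FrechetUrysohnSpace (Cp X) := by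
  apply Pool.Agent.Results.MP_110f0a_gt.SequentialFrechet.result
  constructor
  intro s hs
  apply h
  intro K hK
  have := hq K hK
  apply IsSeqClosed.isClosed
  intro u x hu hlim
  exact hs hu ((continuous_subtype_val.tendsto x).comp hlim)

theorem seq_of_separable (X : Type u) [TopologicalSpace X] [TopologicalSpace.SeparableSpace X]
    (K : Set (Cp X)) (hK : IsCompact K) : SequentialSpace K := by
  obtain ⟨D, hDc, hDd⟩ := TopologicalSpace.exists_countable_dense X
  have : Countable D := hDc
  let r : K → (D → Bool) := fun f x => f.1.1 x.1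
  have hr : Continuous r := by
    apply continuous_pi
    intro x
    exact (continuous_apply x.1).comp (continuous_subtype_val.comp continuous_subtype_val)
  have hinj : Function.Injective r := by
    intro f g hfg
    apply Subtype.ext
    apply Subtype.ext
    apply Continuous.ext_on hDd f.1.2 g.1.2
    intro x hx
    exact congrFun hfg ⟨x, hx⟩
  have : CompactSpace K := isCompact_iff_compactSpace.1 hK
  have hemb := hr.isClosedEmbedding hinj
  have : SecondCountableTopology K := hemb.isEmbedding.secondCountableTopology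
  infer_instance

end Pool.Agent.H341Q.KSp
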