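import Mathlib

/-! Circuits, nondeterministic circuits, cliques and satisfiability of `d`-CNFs. -/

set_option autoImplicit false

namespace Pool.Agent.H341Q.MW

/-- Straight-line programs (circuits with fan-in two) with inputs `x i`, `i : ι`: the list of the
Boolean functions which are computed by the gates.  Each gate is an input, a constant, or the
negation, conjunction or disjunction of functions computed before. -/
inductive SLP {ι : Type} : List ((ι → Bool) → Bool) → Prop
  | nil : SLP []
  | input (L : List ((ι → Bool) → Bool)) (i : ι) : SLP L → SLP ((fun x => x i) :: L)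
  | const (L : List ((ι → Bool) → Bool)) (b : Bool) : SLP L → SLP ((fun _ => b) :: L)
  | not (L : List ((ι → Bool) → Bool)) (f : (ι → Bool) → Bool) : SLP L → f ∈ L →
      SLP ((fun x => !(f x)) :: L)
  | and (L : List ((ι → Bool) → Bool)) (f g : (ι → Bool) → Bool) : SLP L → f ∈ L → g ∈ L →
      SLP ((fun x => f x && g x) :: L)
  | or (L : List ((ι → Bool) → Bool)) (f g : (ι → Bool) → Bool) : SLP L → f ∈ L → g ∈ L →
      SLP ((fun x => f x || g x) :: L)

/-- `F` is computed by a circuit with at most `s` gates. -/
def Comp {ι κ : Type} (s : ℕ) (F : (ι → Bool) → (κ → Bool)) : Prop :=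
  ∃ L, SLP L ∧ L.length ≤ s ∧ ∀ j, (fun x => F x j) ∈ L

/-- `A` is decided by a nondeterministic circuit with at most `s` gates (and at most `s`
nondeterministic inputs). -/
def NComp {ι : Type} (s : ℕ) (A : (ι → Bool) → Prop) : Prop :=
  ∃ w ≤ s, ∃ g : (ι ⊕ Fin w → Bool) → Bool, (∃ L, SLP L ∧ L.length ≤ s ∧ g ∈ L) ∧
    ∀ x, A x ↔ ∃ y : Fin w → Bool, g (Sum.elim x y) = true

/-- The graph with vertices `V` and edges `{e | x e = true}` has a clique with `k` vertices. -/
def HasClique {V : Type} (k : ℕ) (x : Sym2 V → Bool) : Prop :=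
  ∃ S : Finset V, S.card = k ∧ ∀ a ∈ S, ∀ b ∈ S, a ≠ b → x s(a, b) = true

/-- Clauses: disjunctions of `d` literals (which may be equal), that is, of pairs of a variable and
a truth value. -/
abbrev Clause (d : ℕ) (V : Type) : Type := Fin d → V × Bool

/-- The formula with the set of clauses `{C | γ C = true}` is satisfiable. -/
def Sat {d : ℕ} {V : Type} (γ : Clause d V → Bool) : Prop :=
  ∃ α : V → Bool, ∀ C, γ C = true → ∃ i, α (C i).1 = (C i).2

/-- For each `k`, the question whether a graph with `n` vertices has a clique of size `k` is reduced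
to the satisfiability of formulas with clauses of width `d` and with at most `g * (log₂ n + 1)`
variables, by circuits of size at most `f * n ^ c`, where `f` and `g` depend only on `k`. -/
def CliqueReduces (c d : ℕ) : Prop :=
  ∀ k : ℕ, ∃ f g : ℕ, ∀ n : ℕ, 1 ≤ n → ∃ v ≤ g * (Nat.log 2 n + 1),
    ∃ R : (Sym2 (Fin n) → Bool) → (Clause d (Fin v) → Bool), Comp (f * n ^ c) R ∧
      ∀ x, HasClique k x ↔ Sat (R x)

end Pool.Agent.H341Q.MW
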