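import Mathlib
import Pool.Agent.H341Q.MWDefs

/-! Operations on circuits. -/

set_option autoImplicit false
set_option linter.all false

namespace Pool.Agent.H341Q.MW

variable {ι κ μ : Type}

lemma SLP.append {L M : List ((ι → Bool) → Bool)} (hL : SLP L) (hM : SLP M) : SLP (L ++ M) := by
  induction hL with
  | nil => exact hM
  | input L i _ ih => exact SLP.input _ i ih
  | const L b _ ih => exact SLP.const _ b ih
  | not L f _ hf ih => exact SLP.not _ f ih (List.mem_append_left _ hf)
  | and L f g _ hf hg ih =>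
    exact SLP.and _ f g ih (List.mem_append_left _ hf) (List.mem_append_left _ hg)
  | or L f g _ hf hg ih =>
    exact SLP.or _ f g ih (List.mem_append_left _ hf) (List.mem_append_left _ hg)

lemma SLP.copy {L : List ((ι → Bool) → Bool)} (hL : SLP L) {f : (ι → Bool) → Bool} (hf : f ∈ L) :
    SLP (f :: L) := by
  have h := SLP.and L f f hL hf hf
  have h2 : (fun x => f x && f x) = f := by
    funext x
    exact Bool.and_self _
  rw [h2] at h
  exact h

/-- composition -/
lemma SLP.subst {L : List ((κ → Bool) → Bool)} (hL : SLP L) (F : (ι → Bool) → (κ → Bool))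
    {M : List ((ι → Bool) → Bool)} (hM : SLP M) (hF : ∀ j, (fun x => F x j) ∈ M) :
    SLP (L.map (fun f x => f (F x)) ++ M) := by
  induction hL with
  | nil => exact hM
  | input L i _ ih =>
    exact SLP.copy ih (List.mem_append_right _ (hF i))
  | const L b _ ih => exact SLP.const _ b ih
  | not L f _ hf ih =>
    exact SLP.not _ (fun x => f (F x)) ih (List.mem_append_left _ (List.mem_map.2 ⟨f, hf, rfl⟩))
  | and L f g _ hf hg ih =>
    exact SLP.and _ (fun x => f (F x)) (fun x => g (F x)) ih
      (List.mem_append_left _ (List.mem_map.2 ⟨f, hf, rfl⟩))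
      (List.mem_append_left _ (List.mem_map.2 ⟨g, hg, rfl⟩))
  | or L f g _ hf hg ih =>
    exact SLP.or _ (fun x => f (F x)) (fun x => g (F x)) ih
      (List.mem_append_left _ (List.mem_map.2 ⟨f, hf, rfl⟩))
      (List.mem_append_left _ (List.mem_map.2 ⟨g, hg, rfl⟩))

/-- conjunction of a list of functions -/
lemma SLP.all {M : List ((ι → Bool) → Bool)} (hM : SLP M) (fs : List ((ι → Bool) → Bool))
    (h : ∀ f ∈ fs, f ∈ M) :
    ∃ N, SLP (N ++ M) ∧ N.length = fs.length + 1 ∧ (fun x => fs.all (fun f => f x)) ∈ N ++ M := by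
  induction fs with
  | nil =>
    refine ⟨[fun _ => true], SLP.const _ true hM, rfl, ?_⟩
    simp
  | cons f fs ih =>
    obtain ⟨N, h1, h2, h3⟩ := ih fun g hg => h g (List.mem_cons_of_mem _ hg)
    have h4 := SLP.and _ f _ h1 (List.mem_append_right N (h f List.mem_cons_self)) h3
    refine ⟨(fun x => f x && fs.all (fun f => f x)) :: N, h4, ?_, ?_⟩
    · simp [h2]
    · exact List.mem_cons_self

/-- disjunction of a list of functions -/
lemma SLP.any {M : List ((ι → Bool) → Bool)} (hM : SLP M) (fs : List ((ι → Bool) → Bool))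
    (h : ∀ f ∈ fs, f ∈ M) :
    ∃ N, SLP (N ++ M) ∧ N.length = fs.length + 1 ∧ (fun x => fs.any (fun f => f x)) ∈ N ++ M := by
  induction fs with
  | nil =>
    refine ⟨[fun _ => false], SLP.const _ false hM, rfl, ?_⟩
    simp
  | cons f fs ih =>
    obtain ⟨N, h1, h2, h3⟩ := ih fun g hg => h g (List.mem_cons_of_mem _ hg)
    have h4 := SLP.or _ f _ h1 (List.mem_append_right N (h f List.mem_cons_self)) h3
    refine ⟨(fun x => f x || fs.any (fun f => f x)) :: N, h4, ?_, ?_⟩
    · simp [h2]
    · exact List.mem_cons_self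

/-- literals: functions or their negations -/
lemma SLP.lits {M : List ((ι → Bool) → Bool)} (hM : SLP M)
    (fs : List (((ι → Bool) → Bool) × Bool)) (h : ∀ f ∈ fs, f.1 ∈ M) :
    ∃ N, SLP (N ++ M) ∧ N.length = fs.length ∧
      ∀ f ∈ fs, (fun x => f.1 x == f.2) ∈ N ++ M := by
  induction fs with
  | nil => exact ⟨[], hM, rfl, by simp⟩
  | cons f fs ih =>
    obtain ⟨N, h1, h2, h3⟩ := ih fun g hg => h g (List.mem_cons_of_mem _ hg)
    have hf : f.1 ∈ N ++ M := List.mem_append_right N (h f List.mem_cons_self)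
    refine ⟨(fun x => f.1 x == f.2) :: N, ?_, by simp [h2], ?_⟩
    · rcases f with ⟨f, b⟩
      cases b with
      | false =>
        have h4 := SLP.not _ f h1 hf
        have h5 : (fun x => f x == false) = fun x => !(f x) := by
          funext x
          cases f x <;> rfl
        show SLP ((fun x => f x == false) :: (N ++ M))
        rw [h5]
        exact h4
      | true =>
        have h5 : (fun x => f x == true) = f := by
          funext x
          cases f x <;> rfl
        show SLP ((fun x => f x == true) :: (N ++ M))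
        rw [h5]
        exact SLP.copy h1 hf
    · intro g hg
      rcases List.mem_cons.1 hg with rfl | hg
      · exact List.mem_cons_self
      · exact List.mem_cons_of_mem _ (h3 g hg)

/-- all inputs and the constant `false` -/
lemma SLP.inputs (l : List ι) : ∃ M : List ((ι → Bool) → Bool), SLP M ∧ M.length = l.length + 1 ∧
    (∀ i ∈ l, (fun x => x i) ∈ M) ∧ (fun _ => false) ∈ M := by
  induction l with
  | nil => exact ⟨[fun _ => false], SLP.const _ _ SLP.nil, rfl, by simp, by simp⟩
  | cons i l ih =>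
    obtain ⟨M, h1, h2, h3, h4⟩ := ih
    refine ⟨(fun x => x i) :: M, SLP.input _ i h1, by simp [h2], ?_, List.mem_cons_of_mem _ h4⟩
    intro j hj
    rcases List.mem_cons.1 hj with rfl | hj
    · exact List.mem_cons_self
    · exact List.mem_cons_of_mem _ (h3 j hj)

lemma Comp.mono {s s' : ℕ} (h : s ≤ s') {F : (ι → Bool) → (κ → Bool)} (hF : Comp s F) :
    Comp s' F := by
  obtain ⟨L, h1, h2, h3⟩ := hF
  exact ⟨L, h1, h2.trans h, h3⟩

lemma NComp.mono {s s' : ℕ} (h : s ≤ s') {A : (ι → Bool) → Prop} (hA : NComp s A) :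
    NComp s' A := by
  obtain ⟨w, hw, g, ⟨L, h1, h2, h3⟩, h4⟩ := hA
  exact ⟨w, hw.trans h, g, ⟨L, h1, h2.trans h, h3⟩, h4⟩

lemma NComp.congr {s : ℕ} {A B : (ι → Bool) → Prop} (hA : NComp s A) (h : ∀ x, A x ↔ B x) :
    NComp s B := by
  obtain ⟨w, hw, g, h1, h2⟩ := hA
  exact ⟨w, hw, g, h1, fun x => (h x).symm.trans (h2 x)⟩

/-- composition of a reduction and a nondeterministic circuit -/
lemma NComp.subst {s m : ℕ} {A : (κ → Bool) → Prop} (hA : NComp s A)
    {F : (ι → Bool) → (κ → Bool)} (hF : Comp m F) : NComp (2 * s + m + 1) (fun x => A (F x)) := by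
  obtain ⟨w, hw, g, ⟨L, h1, h2, h3⟩, h4⟩ := hA
  obtain ⟨M, h5, h6, h7⟩ := hF
  obtain ⟨I, h8, h9, h10, _⟩ := SLP.inputs (ι := ι ⊕ Fin w)
    ((List.finRange w).map Sum.inr)
  -- the circuit `M` on the larger set of inputs
  have hM : ∀ M : List ((ι → Bool) → Bool), SLP M →
      SLP (M.map (fun (f : (ι → Bool) → Bool) (z : ι ⊕ Fin w → Bool) =>
        f (fun i => z (Sum.inl i)))) := by
    intro M hM
    induction hM with
    | nil => exact SLP.nil
    | input L i _ ih => exact SLP.input _ (Sum.inl i) ih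
    | const L b _ ih => exact SLP.const _ b ih
    | not L f _ hf ih =>
      exact SLP.not _ (fun z : ι ⊕ Fin w → Bool => f (fun i => z (Sum.inl i))) ih
        (List.mem_map.2 ⟨f, hf, rfl⟩)
    | and L f g _ hf hg ih =>
      exact SLP.and _ (fun z : ι ⊕ Fin w → Bool => f (fun i => z (Sum.inl i)))
        (fun z : ι ⊕ Fin w → Bool => g (fun i => z (Sum.inl i))) ih
        (List.mem_map.2 ⟨f, hf, rfl⟩) (List.mem_map.2 ⟨g, hg, rfl⟩)
    | or L f g _ hf hg ih =>
      exact SLP.or _ (fun z : ι ⊕ Fin w → Bool => f (fun i => z (Sum.inl i)))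
        (fun z : ι ⊕ Fin w → Bool => g (fun i => z (Sum.inl i))) ih
        (List.mem_map.2 ⟨f, hf, rfl⟩) (List.mem_map.2 ⟨g, hg, rfl⟩)
  let F' : (ι ⊕ Fin w → Bool) → (κ ⊕ Fin w → Bool) := fun z =>
    Sum.elim (F (fun i => z (Sum.inl i))) (fun i => z (Sum.inr i))
  have h11 := SLP.subst h1 F' ((hM M h5).append h8) (by
    rintro (j | j)
    · exact List.mem_append_left _ (List.mem_map.2 ⟨_, h7 j, rfl⟩)
    · exact List.mem_append_right _ (h10 (Sum.inr j) (List.mem_map.2 ⟨j, List.mem_finRange j, rfl⟩)))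
  refine ⟨w, by omega, fun z => g (F' z), ⟨_, h11, ?_, ?_⟩, ?_⟩
  · simp only [List.length_append, List.length_map, h9, List.length_finRange]
    omega
  · exact List.mem_append_left _ (List.mem_map.2 ⟨g, h3, rfl⟩)
  · intro x
    exact h4 (F x)

end Pool.Agent.H341Q.MW
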