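import Mathlib
import Pool.Agent.H341Q.MWDefs

/-! The covering lemma (Fortnow and Santhanam) and disjoint unions of graphs. -/

set_option autoImplicit false
set_option linter.all false

namespace Pool.Agent.H341Q.MW

open Finset

lemma cover_step {X Z : Type} [DecidableEq X] [Fintype Z] [DecidableEq Z] (t : ℕ)
    (ht : Fintype.card Z ≤ 2 ^ t) (R : (Fin t → X) → Z) (U : Finset X) (hU : U.Nonempty)
    (ht0 : 0 < t) :
    ∃ (z : Z) (j : Fin t) (U' : Finset X), U' ⊆ U ∧ 2 * U'.card ≤ U.card ∧
      (∃ x : Fin t → X, (∀ i, x i ∈ U) ∧ R x = z) ∧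
      ∀ x ∈ U, x ∉ U' → ∃ y : Fin t → X, (∀ i, y i ∈ U) ∧ y j = x ∧ R y = z := by
  classical
  have hcard : (Fintype.piFinset (fun _ : Fin t => U)).card = U.card ^ t := by
    rw [Fintype.card_piFinset]
    simp
  have hUpos : 0 < U.card := hU.card_pos
  -- pigeonhole
  have h1 : ∃ z : Z, U.card ^ t ≤
      2 ^ t * ((Fintype.piFinset (fun _ : Fin t => U)).filter (fun x => R x = z)).card := by
    by_contra hcon
    push Not at hcon
    have h2 : (Fintype.piFinset (fun _ : Fin t => U)).card =
        ∑ z : Z, ((Fintype.piFinset (fun _ : Fin t => U)).filter (fun x => R x = z)).card :=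
      Finset.card_eq_sum_card_fiberwise (fun x _ => Finset.mem_univ _)
    have hZ : (Finset.univ : Finset Z).Nonempty := by
      obtain ⟨u, _⟩ := hU
      exact ⟨R (fun _ => u), Finset.mem_univ _⟩
    have h3 : 2 ^ t * U.card ^ t < (Fintype.card Z) * U.card ^ t := by
      rw [← hcard, h2, Finset.mul_sum]
      refine (Finset.sum_lt_sum_of_nonempty hZ (fun z _ => hcon z)).trans_le ?_
      rw [← hcard, ← h2]
      simp [Finset.card_univ]
    exact absurd h3 (not_lt.2 (Nat.mul_le_mul_right _ ht))
  obtain ⟨z, hz⟩ := h1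
  set S := (Fintype.piFinset (fun _ : Fin t => U)).filter (fun x => R x = z) with hS
  have h2 : S.card ≤ ∏ j : Fin t, (S.image (fun x => x j)).card := by
    rw [← Fintype.card_piFinset]
    refine Finset.card_le_card fun x hx => ?_
    rw [Fintype.mem_piFinset]
    exact fun j => Finset.mem_image_of_mem _ hx
  have h3 : ∃ j : Fin t, U.card ≤ 2 * (S.image (fun x => x j)).card := by
    by_contra hcon
    push Not at hcon
    have h4 : 2 ^ t * ∏ j : Fin t, (S.image (fun x => x j)).card < U.card ^ t := by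
      have h5 : 2 ^ t * ∏ j : Fin t, (S.image (fun x => x j)).card =
          ∏ j : Fin t, 2 * (S.image (fun x => x j)).card := by
        rw [Finset.prod_mul_distrib]
        simp
      have h6 : U.card ^ t = ∏ _j : Fin t, U.card := by simp
      rw [h5, h6]
      by_cases h7 : ∃ j : Fin t, (S.image (fun x => x j)).card = 0
      · obtain ⟨j, hj⟩ := h7
        rw [Finset.prod_eq_zero (Finset.mem_univ j) (by rw [hj, mul_zero])]
        exact Finset.prod_pos fun _ _ => hUpos
      · push Not at h7
        exact Finset.prod_lt_prod_of_nonempty (fun j _ => by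
          have := h7 j
          omega) (fun j _ => hcon j) ⟨⟨0, ht0⟩, Finset.mem_univ _⟩
    exact absurd (hz.trans (Nat.mul_le_mul_left (2 ^ t) h2)) (not_le.2 h4)
  obtain ⟨j, hj⟩ := h3
  have hSne : S.Nonempty := by
    by_contra hcon
    rw [Finset.not_nonempty_iff_eq_empty] at hcon
    rw [hcon, Finset.image_empty, Finset.card_empty, mul_zero] at hj
    exact absurd hUpos (not_lt.2 hj)
  refine ⟨z, j, U \ S.image (fun x => x j), Finset.sdiff_subset, ?_, ?_, ?_⟩
  · have h4 : S.image (fun x => x j) ⊆ U := by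
      intro a ha
      obtain ⟨x, hx, rfl⟩ := Finset.mem_image.1 ha
      exact (Fintype.mem_piFinset.1 (Finset.mem_filter.1 hx).1) j
    rw [Finset.card_sdiff_of_subset h4]
    omega
  · obtain ⟨x, hx⟩ := hSne
    exact ⟨x, fun i => (Fintype.mem_piFinset.1 (Finset.mem_filter.1 hx).1) i,
      (Finset.mem_filter.1 hx).2⟩
  · intro x hxU hx
    have h4 : x ∈ S.image (fun x => x j) := by
      by_contra hcon
      exact hx (Finset.mem_sdiff.2 ⟨hxU, hcon⟩)
    obtain ⟨y, hy, rfl⟩ := Finset.mem_image.1 h4
    exact ⟨y, fun i => (Fintype.mem_piFinset.1 (Finset.mem_filter.1 hy).1) i, rfl,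
      (Finset.mem_filter.1 hy).2⟩

/-- the covering lemma -/
lemma cover {X Z : Type} [DecidableEq X] [Fintype Z] [DecidableEq Z] (t : ℕ)
    (ht : Fintype.card Z ≤ 2 ^ t) (ht0 : 0 < t) (R : (Fin t → X) → Z) :
    ∀ (s : ℕ) (U : Finset X), U.card < 2 ^ s → ∃ l : List (Z × Fin t), l.length ≤ s ∧
      (∀ p ∈ l, ∃ x : Fin t → X, (∀ i, x i ∈ U) ∧ R x = p.1) ∧
      ∀ x ∈ U, ∃ p ∈ l, ∃ y : Fin t → X, (∀ i, y i ∈ U) ∧ y p.2 = x ∧ R y = p.1 := by
  intro s
  induction s with
  | zero =>
    intro U hU
    have : U = ∅ := by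
      rw [← Finset.card_eq_zero]
      simpa using hU
    subst this
    exact ⟨[], le_rfl, by simp, by simp⟩
  | succ s ih =>
    intro U hU
    by_cases hne : U.Nonempty
    · obtain ⟨z, j, U', h1, h2, h3, h4⟩ := cover_step t ht R U hne ht0
      obtain ⟨l, h5, h6, h7⟩ := ih U' (by rw [pow_succ] at hU; omega)
      refine ⟨(z, j) :: l, by simpa using h5, ?_, ?_⟩
      · intro p hp
        rcases List.mem_cons.1 hp with rfl | hp
        · exact h3
        · obtain ⟨x, hx, hx'⟩ := h6 p hp
          exact ⟨x, fun i => h1 (hx i), hx'⟩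
      · intro x hx
        by_cases hxU : x ∈ U'
        · obtain ⟨p, hp, y, hy, hy'⟩ := h7 x hxU
          exact ⟨p, List.mem_cons_of_mem _ hp, y, fun i => h1 (hy i), hy'⟩
        · obtain ⟨y, hy, hy'⟩ := h4 x hx hxU
          exact ⟨(z, j), List.mem_cons_self, y, hy, hy'⟩
    · rw [Finset.not_nonempty_iff_eq_empty] at hne
      subst hne
      exact ⟨[], Nat.zero_le _, by simp, by simp⟩

section Union

variable {t n : ℕ}

/-- the source of an edge of the disjoint union -/
noncomputable def src (e : Sym2 (Fin (t * n))) : Option (Fin t × Sym2 (Fin n)) :=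
  open Classical in
  if h : ∃ i : Fin t, ∀ p ∈ e, (finProdFinEquiv.symm p).1 = i then
    some (Classical.choose h, e.map (fun p => (finProdFinEquiv.symm p).2))
  else none

/-- the disjoint union of graphs -/
noncomputable def disjU (x : Fin t → (Sym2 (Fin n) → Bool)) (e : Sym2 (Fin (t * n))) : Bool :=
  match src e with
  | some p => x p.1 p.2
  | none => false

lemma disjU_same (x : Fin t → (Sym2 (Fin n) → Bool)) (i : Fin t) (a b : Fin n) :
    disjU x s(finProdFinEquiv (i, a), finProdFinEquiv (i, b)) = x i s(a, b) := by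
  classical
  have h : ∃ i' : Fin t, ∀ p ∈ s(finProdFinEquiv (i, a), finProdFinEquiv (i, b)),
      (finProdFinEquiv.symm p).1 = i' := by
    refine ⟨i, fun p hp => ?_⟩
    rcases Sym2.mem_iff.1 hp with rfl | rfl <;> simp
  have h2 : Classical.choose h = i := by
    have := Classical.choose_spec h (finProdFinEquiv (i, a)) (Sym2.mem_mk_left _ _)
    simpa using this.symm
  have h3 : src s(finProdFinEquiv (i, a), finProdFinEquiv (i, b)) = some (i, s(a, b)) := by
    unfold src
    rw [dif_pos h, h2]
    show some (i, s((finProdFinEquiv.symm (finProdFinEquiv (i, a))).2,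
      (finProdFinEquiv.symm (finProdFinEquiv (i, b))).2)) = _
    rw [Equiv.symm_apply_apply, Equiv.symm_apply_apply]
  unfold disjU
  rw [h3]

lemma disjU_ne (x : Fin t → (Sym2 (Fin n) → Bool)) (p q : Fin (t * n))
    (h : (finProdFinEquiv.symm p).1 ≠ (finProdFinEquiv.symm q).1) : disjU x s(p, q) = false := by
  classical
  have h1 : ¬ ∃ i' : Fin t, ∀ r ∈ s(p, q), (finProdFinEquiv.symm r).1 = i' := by
    rintro ⟨i, hi⟩
    exact h ((hi p (Sym2.mem_mk_left _ _)).trans (hi q (Sym2.mem_mk_right _ _)).symm)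
  unfold disjU src
  rw [dif_neg h1]

lemma hasClique_disjU {k : ℕ} (hk : 0 < k) (x : Fin t → (Sym2 (Fin n) → Bool)) :
    HasClique k (disjU x) ↔ ∃ i, HasClique k (x i) := by
  classical
  constructor
  · rintro ⟨S, hS, hc⟩
    have hne : S.Nonempty := by
      rw [← Finset.card_pos, hS]
      exact hk
    obtain ⟨p, hp⟩ := hne
    set i := (finProdFinEquiv.symm p).1 with hi
    have hall : ∀ q ∈ S, (finProdFinEquiv.symm q).1 = i := by
      intro q hq
      by_contra hne
      have hpq : q ≠ p := by
        rintro rfl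
        exact hne rfl
      have h1 := hc q hq p hp hpq
      rw [disjU_ne x q p (by rw [← hi]; exact hne)] at h1
      exact absurd h1 (by simp)
    have hrep : ∀ q ∈ S, q = finProdFinEquiv (i, (finProdFinEquiv.symm q).2) := by
      intro q hq
      conv_lhs => rw [← finProdFinEquiv.apply_symm_apply q]
      congr 1
      exact Prod.ext (hall q hq) rfl
    refine ⟨i, S.image (fun q => (finProdFinEquiv.symm q).2), ?_, ?_⟩
    · rw [Finset.card_image_of_injOn, hS]
      intro q hq q' hq' hqq
      rw [hrep q hq, hrep q' hq']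
      simp only at hqq
      rw [hqq]
    · intro a ha b hb hab
      obtain ⟨q, hq, rfl⟩ := Finset.mem_image.1 ha
      obtain ⟨q', hq', rfl⟩ := Finset.mem_image.1 hb
      have hqq : q ≠ q' := by
        rintro rfl
        exact hab rfl
      have h1 := hc q hq q' hq' hqq
      rw [hrep q hq, hrep q' hq', disjU_same] at h1
      exact h1
  · rintro ⟨i, S, hS, hc⟩
    refine ⟨S.image (fun a => finProdFinEquiv (i, a)), ?_, ?_⟩
    · rw [Finset.card_image_of_injective, hS]
      intro a b hab
      have := finProdFinEquiv.injective hab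
      exact (Prod.ext_iff.1 this).2
    · intro p hp q hq hpq
      obtain ⟨a, ha, rfl⟩ := Finset.mem_image.1 hp
      obtain ⟨b, hb, rfl⟩ := Finset.mem_image.1 hq
      rw [disjU_same]
      refine hc a ha b hb ?_
      rintro rfl
      exact hpq rfl

end Union

end Pool.Agent.H341Q.MW
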