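import Mathlib
import Pool.Agent.H341Q.MWDefs
import Pool.Agent.H341Q.MWCirc
import Pool.Agent.H341Q.MWCover

/-! Nondeterministic circuits for graphs without cliques. -/

set_option autoImplicit false
set_option linter.all false

namespace Pool.Agent.H341Q.MW

variable {ι κ μ : Type}

/-- several functions -/
lemma SLP.many (m : ℕ) (fs : List ((ι → Bool) → Bool))
    (h : ∀ f ∈ fs, ∃ N, SLP N ∧ N.length ≤ m ∧ f ∈ N) :
    ∃ N, SLP N ∧ N.length ≤ fs.length * m ∧ ∀ f ∈ fs, f ∈ N := by
  induction fs with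
  | nil => exact ⟨[], SLP.nil, by simp, by simp⟩
  | cons f fs ih =>
    obtain ⟨N, h1, h2, h3⟩ := ih fun g hg => h g (List.mem_cons_of_mem _ hg)
    obtain ⟨N', h4, h5, h6⟩ := h f List.mem_cons_self
    refine ⟨N' ++ N, h4.append h1, ?_, ?_⟩
    · rw [List.length_append, List.length_cons, Nat.add_mul, one_mul]
      omega
    · intro g hg
      rcases List.mem_cons.1 hg with rfl | hg
      · exact List.mem_append_left _ h6
      · exact List.mem_append_right _ (h3 g hg)

lemma exists_pow_le (A d : ℕ) : ∃ L0 : ℕ, ∀ L : ℕ, L0 ≤ L → (A * (L + 1)) ^ d ≤ 2 ^ L := by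
  have h := tendsto_pow_const_div_const_pow_of_one_lt d (r := (2 : ℝ)) (by norm_num)
  have h2 := h.eventually (gt_mem_nhds (show (0 : ℝ) < 1 / (2 * (A + 1) ^ d) by positivity))
  obtain ⟨L0, hL0⟩ := Filter.eventually_atTop.1 h2
  refine ⟨L0, fun L hL => ?_⟩
  have h3 := hL0 (L + 1) (by omega)
  rw [div_lt_div_iff₀ (by positivity) (by positivity)] at h3
  have h4 : ((A * (L + 1) : ℕ) : ℝ) ^ d ≤ 2 ^ L := by
    have h5 : ((A * (L + 1) : ℕ) : ℝ) ^ d ≤ (A + 1) ^ d * (L + 1) ^ d := by
      rw [← mul_pow]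
      apply pow_le_pow_left₀ (by positivity)
      push_cast
      have : (0 : ℝ) ≤ L := by positivity
      nlinarith
    have h6 : ((L + 1 : ℕ) : ℝ) = (L : ℝ) + 1 := by push_cast; ring
    rw [h6] at h3
    rw [pow_succ (2 : ℝ) L] at h3
    nlinarith
  exact_mod_cast h4

lemma card_sym2_le (n : ℕ) : Fintype.card (Sym2 (Fin n)) ≤ n ^ 2 := by
  rw [Sym2.card, Fintype.card_fin, Nat.choose_two_right]
  rcases Nat.eq_zero_or_pos n with rfl | hn
  · simp
  · have : (n + 1) * (n + 1 - 1) / 2 ≤ n ^ 2 := by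
      apply Nat.div_le_of_le_mul
      have h1 : n + 1 - 1 = n := by omega
      rw [h1]
      nlinarith
    exact this

lemma NComp.const (b : Bool) (s : ℕ) (hs : 1 ≤ s) :
    NComp s (fun _ : ι → Bool => b = true) := by
  refine ⟨0, Nat.zero_le _, fun _ => b, ⟨[fun _ => b], SLP.const _ b SLP.nil, by simpa using hs,
    by simp⟩, fun x => ?_⟩
  simp

/-- one value of `k` -/
lemma nonclique_aux (c d k : ℕ) (hk : 0 < k) (f g : ℕ)
    (h : ∀ n : ℕ, 1 ≤ n → ∃ v ≤ g * (Nat.log 2 n + 1),
      ∃ R : (Sym2 (Fin n) → Bool) → (Clause d (Fin v) → Bool), Comp (f * n ^ c) R ∧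
        ∀ x, HasClique k x ↔ Sat (R x)) :
    ∃ F : ℕ, ∀ n, NComp (F * (n + 1) ^ (2 * c + 5))
      (fun x : Sym2 (Fin n) → Bool => ¬ HasClique k x) := by
  classical
  obtain ⟨L0, hL0⟩ := exists_pow_le (4 * g) d
  set T := 2 ^ L0 with hT
  have hT0 : 0 < T := by positivity
  refine ⟨f * T ^ c + 3 * T + 5, fun n => ?_⟩
  rcases Nat.eq_zero_or_pos n with rfl | hn
  · have h1 : ∀ x : Sym2 (Fin 0) → Bool, (true = true) ↔ ¬ HasClique k x := by
      intro x
      refine ⟨fun _ => ?_, fun _ => rfl⟩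
      rintro ⟨S, hS, -⟩
      have : S = ∅ := Finset.eq_empty_of_isEmpty S
      rw [this, Finset.card_empty] at hS
      omega
    exact (NComp.const true _ (by simp)).congr h1
  set t := T * n with ht
  have ht0 : 0 < t := Nat.mul_pos hT0 hn
  obtain ⟨v, hv, R, hR, hRk⟩ := h (t * n) (Nat.mul_pos ht0 hn)
  -- the number of clauses
  have hcl : (v * 2) ^ d ≤ t := by
    have h1 : Nat.log 2 (t * n) < L0 + 2 * Nat.log 2 n + 2 := by
      apply Nat.log_lt_of_lt_pow (by positivity)
      have h2 : n < 2 ^ (Nat.log 2 n + 1) := Nat.lt_pow_succ_log_self (by norm_num) n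
      have h3 : 2 ^ (L0 + 2 * Nat.log 2 n + 2) = T * (2 ^ (Nat.log 2 n + 1) *
          2 ^ (Nat.log 2 n + 1)) := by
        rw [hT]
        ring
      rw [h3, ht, mul_assoc]
      exact Nat.mul_lt_mul_of_pos_left (Nat.mul_lt_mul'' h2 h2) hT0
    have h2 := hL0 (L0 + Nat.log 2 n) (by omega)
    have h3 : v * 2 ≤ 4 * g * (L0 + Nat.log 2 n + 1) := by
      have h4 : g * (Nat.log 2 (t * n) + 1) ≤ g * (2 * (L0 + Nat.log 2 n + 1)) :=
        Nat.mul_le_mul_left _ (by omega)
      calc v * 2 ≤ g * (2 * (L0 + Nat.log 2 n + 1)) * 2 := Nat.mul_le_mul_right _ (hv.trans h4)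
        _ = _ := by ring
    have h4 : 2 ^ (L0 + Nat.log 2 n) ≤ t := by
      rw [pow_add, ht]
      exact Nat.mul_le_mul_left _ (Nat.pow_log_le_self 2 hn.ne')
    exact ((Nat.pow_le_pow_left h3 d).trans h2).trans h4
  have hZ : Fintype.card (Clause d (Fin v) → Bool) ≤ 2 ^ t := by
    have h1 : Fintype.card (Clause d (Fin v)) = (v * 2) ^ d := by
      simp [Clause]
    rw [Fintype.card_fun, Fintype.card_bool, h1]
    exact Nat.pow_le_pow_right (by norm_num) hcl
  set U : Finset (Sym2 (Fin n) → Bool) := Finset.univ.filter (fun x => ¬ HasClique k x) with hU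
  have hUc : U.card < 2 ^ (n ^ 2 + 1) := by
    have h1 : U.card ≤ Fintype.card (Sym2 (Fin n) → Bool) := Finset.card_le_univ _
    rw [Fintype.card_fun, Fintype.card_bool] at h1
    calc U.card ≤ _ := h1
      _ ≤ 2 ^ (n ^ 2) := Nat.pow_le_pow_right (by norm_num) (card_sym2_le n)
      _ < _ := Nat.pow_lt_pow_right (by norm_num) (by omega)
  obtain ⟨l, hl1, hl2, hl3⟩ := cover t hZ ht0 (fun x => R (disjU x)) (n ^ 2 + 1) U hUc
  -- the nondeterministic inputs
  set E := Sym2 (Fin n) with hE
  set w := Fintype.card (Fin t × E) with hw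
  have hw2 : w ≤ t * n ^ 2 := by
    rw [hw, Fintype.card_prod, Fintype.card_fin]
    exact Nat.mul_le_mul_left _ (card_sym2_le n)
  let enc : Fin t × E ≃ Fin w := Fintype.equivFin _
  let place : Fin t → (E ⊕ Fin w → Bool) → (Fin t → (E → Bool)) := fun j z i e =>
    if i = j then z (Sum.inl e) else z (Sum.inr (enc (i, e)))
  let test : ((Clause d (Fin v) → Bool) × Fin t) → ((E ⊕ Fin w → Bool) → Bool) := fun p z =>
    (Finset.univ : Finset (Clause d (Fin v))).toList.all
      (fun C => R (disjU (place p.2 z)) C == p.1 C)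
  have htest : ∀ p z, test p z = true ↔ R (disjU (place p.2 z)) = p.1 := by
    intro p z
    simp only [test, List.all_eq_true, Finset.mem_toList, Finset.mem_univ, true_imp_iff,
      beq_iff_eq]
    constructor
    · intro h
      funext C
      exact h C
    · intro h C
      rw [h]
  obtain ⟨M0, hM0, hM0l, hM0i, hM0f⟩ := SLP.inputs (ι := E ⊕ Fin w) (Finset.univ.toList)
  have hM0l2 : M0.length ≤ n ^ 2 + t * n ^ 2 + 1 := by
    rw [hM0l, Finset.length_toList, Finset.card_univ, Fintype.card_sum, Fintype.card_fin]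
    have := card_sym2_le n
    have h3 : Fintype.card E ≤ n ^ 2 := this
    omega
  have hpl : ∀ j e, (fun z => disjU (place j z) e) ∈ M0 := by
    intro j e
    unfold disjU
    cases hsrc : src (t := t) (n := n) e with
    | none => exact hM0f
    | some p =>
      by_cases hp : p.1 = j
      · have h1 : (fun z : E ⊕ Fin w → Bool => place j z p.1 p.2) = fun z => z (Sum.inl p.2) := by
          funext z
          simp only [place, if_pos hp]
        simp only
        rw [h1]
        exact hM0i _ (Finset.mem_toList.2 (Finset.mem_univ _))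
      · have h1 : (fun z : E ⊕ Fin w → Bool => place j z p.1 p.2) =
            fun z => z (Sum.inr (enc (p.1, p.2))) := by
          funext z
          simp only [place, if_neg hp]
        simp only
        rw [h1]
        exact hM0i _ (Finset.mem_toList.2 (Finset.mem_univ _))
  obtain ⟨LR, hLR, hLRl, hLRm⟩ := hR
  have hcirc : ∀ fn ∈ l.map test, ∃ N, SLP N ∧
      N.length ≤ f * (t * n) ^ c + (n ^ 2 + t * n ^ 2 + 1) + 2 * t + 1 ∧ fn ∈ N := by
    intro fn hfn
    obtain ⟨p, hp, rfl⟩ := List.mem_map.1 hfn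
    have h1 := SLP.subst hLR (fun z => disjU (place p.2 z)) hM0 (hpl p.2)
    set M1 := LR.map (fun f (x : E ⊕ Fin w → Bool) => f (disjU (place p.2 x))) ++ M0 with hM1
    obtain ⟨N2, h2, h3, h4⟩ := SLP.lits h1
      ((Finset.univ : Finset (Clause d (Fin v))).toList.map
        (fun C => ((fun z => R (disjU (place p.2 z)) C), p.1 C))) (by
        intro q hq
        obtain ⟨C, _, rfl⟩ := List.mem_map.1 hq
        exact List.mem_append_left _ (List.mem_map.2 ⟨_, hLRm C, rfl⟩))
    obtain ⟨N3, h5, h6, h7⟩ := SLP.all h2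
      ((Finset.univ : Finset (Clause d (Fin v))).toList.map
        (fun C => (fun z => R (disjU (place p.2 z)) C == p.1 C))) (by
        intro q hq
        obtain ⟨C, hC, rfl⟩ := List.mem_map.1 hq
        exact h4 ((fun z => R (disjU (place p.2 z)) C), p.1 C) (List.mem_map.2 ⟨C, hC, rfl⟩))
    refine ⟨_, h5, ?_, ?_⟩
    · rw [List.length_append, List.length_append, h6, h3, hM1, List.length_append,
        List.length_map, List.length_map, List.length_map, Finset.length_toList, Finset.card_univ]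
      have h8 : Fintype.card (Clause d (Fin v)) ≤ t := by
        have h9 : Fintype.card (Clause d (Fin v)) = (v * 2) ^ d := by
          simp [Clause]
        rw [h9]
        exact hcl
      omega
    · have h8 : (fun x : E ⊕ Fin w → Bool => ((Finset.univ : Finset (Clause d (Fin v))).toList.map
          (fun C => (fun z => R (disjU (place p.2 z)) C == p.1 C))).all (fun f => f x)) =
          test p := by
        funext x
        simp only [test, List.all_map]
        rfl
      rw [h8] at h7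
      exact h7
  obtain ⟨N, hN1, hN2, hN3⟩ := SLP.many _ _ hcirc
  obtain ⟨N', hN4, hN5, hN6⟩ := SLP.any hN1 (l.map test) hN3
  -- size
  have hsize : (n ^ 2 + 1) * (f * (t * n) ^ c + (n ^ 2 + t * n ^ 2 + 1) + 2 * t + 1) +
      (n ^ 2 + 1) + 1 ≤ (f * T ^ c + 3 * T + 5) * (n + 1) ^ (2 * c + 5) := by
    set P := (n + 1) ^ (2 * c + 3) with hP
    have hP1 : (n + 1) ^ (2 * c + 5) = (n + 1) ^ 2 * P := by
      rw [hP]
      ring
    have a1 : (n + 1) ^ (2 * c) ≤ P := Nat.pow_le_pow_right (by omega) (by omega)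
    have a2 : (n + 1) ^ 2 ≤ P := Nat.pow_le_pow_right (by omega) (by omega)
    have a3 : (n + 1) ^ 3 ≤ P := Nat.pow_le_pow_right (by omega) (by omega)
    have a4 : (n + 1) ^ 1 ≤ P := Nat.pow_le_pow_right (by omega) (by omega)
    have a5 : 1 ≤ P := Nat.one_le_pow _ _ (by omega)
    have b1 : f * (t * n) ^ c ≤ f * T ^ c * P := by
      have : (t * n) ^ c = T ^ c * (n ^ 2) ^ c := by
        rw [ht]
        ring
      rw [this, ← mul_assoc]
      refine Nat.mul_le_mul_left _ ?_
      rw [← pow_mul]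
      exact (Nat.pow_le_pow_left (by omega) _).trans a1
    have b2 : n ^ 2 ≤ P := (Nat.pow_le_pow_left (by omega) _).trans a2
    have b3 : t * n ^ 2 ≤ T * P := by
      have : t * n ^ 2 = T * n ^ 3 := by
        rw [ht]
        ring
      rw [this]
      exact Nat.mul_le_mul_left _ ((Nat.pow_le_pow_left (by omega) _).trans a3)
    have b4 : t ≤ T * P := by
      rw [ht]
      refine Nat.mul_le_mul_left _ ?_
      rw [pow_one] at a4
      omega
    have b5 : n ^ 2 + 1 ≤ (n + 1) ^ 2 := by nlinarith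
    have b6 : f * (t * n) ^ c + (n ^ 2 + t * n ^ 2 + 1) + 2 * t + 1 ≤
        (f * T ^ c + 3 * T + 3) * P := by
      have : (f * T ^ c + 3 * T + 3) * P = f * T ^ c * P + 3 * (T * P) + 3 * P := by ring
      rw [this]
      omega
    calc _ ≤ (n + 1) ^ 2 * ((f * T ^ c + 3 * T + 3) * P) + (n + 1) ^ 2 + (n + 1) ^ 2 := by
          refine add_le_add (add_le_add (Nat.mul_le_mul b5 b6) b5) ?_
          exact Nat.one_le_pow _ _ (by omega)
      _ ≤ (n + 1) ^ 2 * ((f * T ^ c + 3 * T + 3) * P) + (n + 1) ^ 2 * P + (n + 1) ^ 2 * P := by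
          have : (n + 1) ^ 2 ≤ (n + 1) ^ 2 * P := Nat.le_mul_of_pos_right _ a5
          omega
      _ = _ := by
          rw [hP1]
          ring
  refine ⟨w, ?_, _, ⟨_, hN4, ?_, hN6⟩, ?_⟩
  · refine le_trans ?_ hsize
    have h1 : t * n ^ 2 ≤ f * (t * n) ^ c + (n ^ 2 + t * n ^ 2 + 1) + 2 * t + 1 := by omega
    have h2 : f * (t * n) ^ c + (n ^ 2 + t * n ^ 2 + 1) + 2 * t + 1 ≤
        (n ^ 2 + 1) * (f * (t * n) ^ c + (n ^ 2 + t * n ^ 2 + 1) + 2 * t + 1) :=
      Nat.le_mul_of_pos_left _ (by omega)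
    omega
  · refine le_trans ?_ hsize
    rw [List.length_append, hN5, List.length_map]
    rw [List.length_map] at hN2
    have h1 : N.length ≤ (n ^ 2 + 1) *
        (f * (t * n) ^ c + (n ^ 2 + t * n ^ 2 + 1) + 2 * t + 1) :=
      hN2.trans (Nat.mul_le_mul_right _ hl1)
    omega
  · intro x
    simp only [List.any_map, List.any_eq_true, Function.comp]
    constructor
    · intro hx
      obtain ⟨p, hp, y, hy1, hy2, hy3⟩ := hl3 x (Finset.mem_filter.2 ⟨Finset.mem_univ _, hx⟩)
      refine ⟨fun i => y (enc.symm i).1 (enc.symm i).2, p, hp, ?_⟩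
      rw [htest]
      have h1 : place p.2 (Sum.elim x (fun i => y (enc.symm i).1 (enc.symm i).2)) = y := by
        funext i e
        simp only [place, Sum.elim_inl, Sum.elim_inr, Equiv.symm_apply_apply]
        split_ifs with hi
        · rw [hi, hy2]
        · rfl
      rw [h1]
      exact hy3
    · rintro ⟨y, p, hp, hy⟩
      rw [htest] at hy
      obtain ⟨x', hx'1, hx'2⟩ := hl2 p hp
      have h1 : ¬ HasClique k (disjU x') := by
        rw [hasClique_disjU hk]
        rintro ⟨i, hi⟩
        exact (Finset.mem_filter.1 (hx'1 i)).2 hi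
      rw [hRk] at h1
      have h2 : ¬ HasClique k (disjU (place p.2 (Sum.elim x y))) := by
        rw [hRk, hy, ← hx'2]
        exact h1
      rw [hasClique_disjU hk] at h2
      intro h3
      refine h2 ⟨p.2, ?_⟩
      have h4 : place p.2 (Sum.elim x y) p.2 = x := by
        funext e
        simp only [place, if_pos rfl, Sum.elim_inl, if_true]
      rw [h4]
      exact h3

theorem nonclique (c d : ℕ) (h : CliqueReduces c d) (k : ℕ) :
    ∃ F : ℕ, ∀ n, NComp (F * (n + 1) ^ (2 * c + 5))
      (fun x : Sym2 (Fin n) → Bool => ¬ HasClique k x) := by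
  rcases Nat.eq_zero_or_pos k with rfl | hk
  · refine ⟨1, fun n => ?_⟩
    have h1 : ∀ x : Sym2 (Fin n) → Bool, (false = true) ↔ ¬ HasClique 0 x := by
      intro x
      refine ⟨fun h => absurd h (by simp), fun h => absurd ⟨∅, rfl, by simp⟩ h⟩
    refine (NComp.const false _ ?_).congr h1
    rw [one_mul]
    exact Nat.one_le_pow _ _ (by omega)
  · obtain ⟨f, g, hfg⟩ := h k
    exact nonclique_aux c d k hk f g hfg

end Pool.Agent.H341Q.MW
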