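import Mathlib
import Pool.Agent.H341Q.MWDefs
import Pool.Agent.H341Q.MWCirc
import Pool.Agent.H341Q.MWNon

/-! From satisfiability of `q`-CNFs to cliques. -/

set_option autoImplicit false
set_option linter.all false

namespace Pool.Agent.H341Q.MW

open Finset

variable {ι κ μ : Type}

/-- one layer of gates -/
lemma SLP.layer {M : List ((ι → Bool) → Bool)} (hM : SLP M) (fs : List ((ι → Bool) → Bool))
    (h : ∀ f ∈ fs, ∀ L, SLP L → M ⊆ L → SLP (f :: L)) :
    ∃ N, SLP (N ++ M) ∧ N.length = fs.length ∧ ∀ f ∈ fs, f ∈ N ++ M := by
  induction fs with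
  | nil => exact ⟨[], hM, rfl, by simp⟩
  | cons f fs ih =>
    obtain ⟨N, h1, h2, h3⟩ := ih fun g hg => h g (List.mem_cons_of_mem _ hg)
    refine ⟨f :: N, h f List.mem_cons_self _ h1 (List.subset_append_right _ _), by simp [h2], ?_⟩
    intro g hg
    rcases List.mem_cons.1 hg with rfl | hg
    · exact List.mem_cons_self
    · exact List.mem_cons_of_mem _ (h3 g hg)

lemma hasClique_equiv {V W : Type} (e : V ≃ W) (k : ℕ) (x : Sym2 V → Bool) :
    HasClique k (fun s : Sym2 W => x (s.map e.symm)) ↔ HasClique k x := by
  classical
  constructor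
  · rintro ⟨S, hS, hc⟩
    refine ⟨S.image e.symm, ?_, ?_⟩
    · rw [Finset.card_image_of_injective _ e.symm.injective, hS]
    · intro a ha b hb hab
      obtain ⟨a', ha', rfl⟩ := Finset.mem_image.1 ha
      obtain ⟨b', hb', rfl⟩ := Finset.mem_image.1 hb
      exact hc a' ha' b' hb' (fun h => hab (by rw [h]))
  · rintro ⟨S, hS, hc⟩
    refine ⟨S.image e, ?_, ?_⟩
    · rw [Finset.card_image_of_injective _ e.injective, hS]
    · intro a ha b hb hab
      obtain ⟨a', ha', rfl⟩ := Finset.mem_image.1 ha
      obtain ⟨b', hb', rfl⟩ := Finset.mem_image.1 hb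
      have := hc a' ha' b' hb' (fun h => hab (by rw [h]))
      show x s(e.symm (e a'), e.symm (e b')) = true
      rw [Equiv.symm_apply_apply, Equiv.symm_apply_apply]
      exact this

section Red

variable {q k b v : ℕ} (loc : Fin v → Fin k × Fin b)

/-- the vertices: `q` blocks of variables with truth values for the variables in these blocks -/
abbrev Vert (q k b : ℕ) : Type := (Fin q → Fin k) × (Fin q → Fin b → Bool)

def shape (u w : Vert q k b) : Prop := u.1 ≠ w.1 ∧ ∀ i j, u.1 i = w.1 j → u.2 i = w.2 j

lemma shape_symm {u w : Vert q k b} : shape u w ↔ shape w u :=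
  ⟨fun h => ⟨h.1.symm, fun i j hij => (h.2 j i hij.symm).symm⟩,
    fun h => ⟨h.1.symm, fun i j hij => (h.2 j i hij.symm).symm⟩⟩

def inner (u : Vert q k b) : Prop := ∀ i j, u.1 i = u.1 j → u.2 i = u.2 j

/-- the clause is made false by the vertex -/
def viol (u : Vert q k b) (C : Clause q (Fin v)) : Prop :=
  ∀ i, (loc (C i).1).1 = u.1 i ∧ (C i).2 = !(u.2 i (loc (C i).1).2)

open Classical in
noncomputable def good (γ : Clause q (Fin v) → Bool) (u : Vert q k b) : Bool :=
  ((Finset.univ.filter (viol loc u)).toList.map
    (fun C (γ : Clause q (Fin v) → Bool) => γ C == false)).all (fun f => f γ)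

lemma good_iff (γ : Clause q (Fin v) → Bool) (u : Vert q k b) :
    good loc γ u = true ↔ ∀ C, viol loc u C → γ C = false := by
  classical
  unfold good
  simp [List.all_eq_true]

open Classical in
noncomputable def edge (γ : Clause q (Fin v) → Bool) : Sym2 (Vert q k b) → Bool :=
  Sym2.lift ⟨fun u w => if shape u w ∧ inner u ∧ inner w then good loc γ u && good loc γ w
    else false, by
      intro u w
      have : (shape u w ∧ inner u ∧ inner w) ↔ (shape w u ∧ inner w ∧ inner u) := by
        rw [shape_symm, and_comm (a := inner u)]
      simp only [this, Bool.and_comm (good loc γ u)]⟩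

lemma edge_iff (γ : Clause q (Fin v) → Bool) (u w : Vert q k b) :
    edge loc γ s(u, w) = true ↔
      (shape u w ∧ inner u ∧ inner w) ∧ good loc γ u = true ∧ good loc γ w = true := by
  classical
  show (if shape u w ∧ inner u ∧ inner w then good loc γ u && good loc γ w else false) = true ↔ _
  split_ifs with h
  · simp [h]
  · simp [h]

lemma clique_iff_sat (hq : 0 < q) (hk : 2 ≤ k) (hloc : Function.Injective loc)
    (γ : Clause q (Fin v) → Bool) : HasClique (k ^ q) (edge (b := b) loc γ) ↔ Sat γ := by
  classical
  constructor
  · rintro ⟨S, hS, hc⟩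
    -- first coordinates are distinct
    have hinj : Set.InjOn Prod.fst (S : Set (Vert q k b)) := by
      intro u hu w hw huw
      by_contra hne
      exact ((edge_iff loc γ u w).1 (hc u hu w hw hne)).1.1.1 huw
    have himg : S.image Prod.fst = Finset.univ := by
      apply Finset.eq_univ_of_card
      rw [Finset.card_image_of_injOn hinj, hS]
      simp
    have hex : ∀ T : Fin q → Fin k, ∃ β : Fin q → Fin b → Bool, (T, β) ∈ S := by
      intro T
      have : T ∈ S.image Prod.fst := by rw [himg]; exact Finset.mem_univ _
      obtain ⟨⟨T', β⟩, h1, h2⟩ := Finset.mem_image.1 this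
      simp only at h2
      subst h2
      exact ⟨β, h1⟩
    choose β hβ using hex
    have hvalid : ∀ T, inner (T, β T) ∧ good loc γ (T, β T) = true := by
      intro T
      -- another vertex
      have : ∃ T' : Fin q → Fin k, T' ≠ T := by
        have : Nontrivial (Fin q → Fin k) := by
          haveI : Nontrivial (Fin k) := Fin.nontrivial_iff_two_le.2 hk
          haveI : Nonempty (Fin q) := ⟨⟨0, hq⟩⟩
          infer_instance
        exact exists_ne T
      obtain ⟨T', hT'⟩ := this
      have := (edge_iff loc γ (T, β T) (T', β T')).1 (hc _ (hβ T) _ (hβ T') (by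
        intro h
        exact hT' (Prod.ext_iff.1 h).1.symm))
      exact ⟨this.1.2.1, this.2.1⟩
    let z : Fin q := ⟨0, hq⟩
    let αb : Fin k → Fin b → Bool := fun a => β (fun _ => a) z
    have hagree : ∀ T i, β T i = αb (T i) := by
      intro T i
      by_cases hT : T = fun _ => T i
      · have h1 := (hvalid T).1 i z
        have h2 : T z = T i := by
          have := congrFun hT z
          exact this
        have h3 := h1 h2.symm
        simp only at h3
        rw [h3]
        show β T z = β (fun _ => T i) z
        rw [← hT]
      · have h1 := (edge_iff loc γ (T, β T) (fun _ => T i, β (fun _ => T i))).1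
          (hc _ (hβ T) _ (hβ _) (fun h => hT (Prod.ext_iff.1 h).1))
        exact h1.1.1.2 i z rfl
    refine ⟨fun x => αb (loc x).1 (loc x).2, fun C hC => ?_⟩
    by_contra hcon
    push Not at hcon
    have h1 := (good_iff loc γ _).1 (hvalid (fun i => (loc (C i).1).1)).2 C (by
      intro i
      refine ⟨rfl, ?_⟩
      have h2 := hcon i
      have h3 := congrFun (hagree (fun i => (loc (C i).1).1) i) (loc (C i).1).2
      simp only at h3 ⊢
      rw [h3]
      revert h2
      cases αb (loc (C i).1).1 (loc (C i).1).2 <;> cases (C i).2 <;> simp)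
    rw [hC] at h1
    exact absurd h1 (by simp)
  · rintro ⟨α, hα⟩
    let αb : Fin k → Fin b → Bool := fun a y => decide (∃ x, loc x = (a, y) ∧ α x = true)
    have hαb : ∀ x, αb (loc x).1 (loc x).2 = α x := by
      intro x
      simp only [αb]
      by_cases h : α x = true
      · rw [h, decide_eq_true_iff]
        exact ⟨x, rfl, h⟩
      · have h' : α x = false := by simpa using h
        rw [h', decide_eq_false_iff_not]
        rintro ⟨x', hx', hx''⟩
        have : x' = x := hloc hx'
        rw [this] at hx''
        exact h hx''
    let ver : (Fin q → Fin k) → Vert q k b := fun T => (T, fun i => αb (T i))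
    have hver : Function.Injective ver := fun T T' h => (Prod.ext_iff.1 h).1
    have hgood : ∀ T, good loc γ (ver T) = true := by
      intro T
      rw [good_iff]
      intro C hC
      by_contra hcon
      have hCt : γ C = true := by simpa using hcon
      obtain ⟨i, hi⟩ := hα C hCt
      have h1 := hC i
      have h2 : αb (T i) (loc (C i).1).2 = α (C i).1 := by
        have h4 : (loc (C i).1).1 = T i := h1.1
        rw [← h4]
        exact hαb _
      have h3 := h1.2
      simp only [ver] at h3
      rw [h2, hi] at h3
      revert h3
      cases (C i).2 <;> simp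
    have hinner : ∀ T, inner (ver T) := by
      intro T i j hij
      simp only [ver] at hij ⊢
      rw [hij]
    refine ⟨Finset.univ.image ver, ?_, ?_⟩
    · rw [Finset.card_image_of_injective _ hver]
      simp
    · intro u hu w hw huw
      obtain ⟨T, _, rfl⟩ := Finset.mem_image.1 hu
      obtain ⟨T', _, rfl⟩ := Finset.mem_image.1 hw
      rw [edge_iff]
      refine ⟨⟨⟨fun h => huw (by rw [hver.eq_iff]; exact h), ?_⟩, hinner T, hinner T'⟩,
        hgood T, hgood T'⟩
      intro i j hij
      simp only [ver] at hij ⊢
      rw [hij]

/-- the reduction, with its size -/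
lemma sat_reduces (hq : 0 < q) (hk : 2 ≤ k) (hloc : Function.Injective loc) :
    ∃ R : (Clause q (Fin v) → Bool) → (Sym2 (Fin (k ^ q * (2 ^ b) ^ q)) → Bool),
      Comp ((k ^ q * (2 ^ b) ^ q) ^ 2 + (k ^ q * (2 ^ b) ^ q) * (3 * (v * 2) ^ q + 2)) R ∧
      ∀ γ, HasClique (k ^ q) (R γ) ↔ Sat γ := by
  classical
  have hcard : Fintype.card (Vert q k b) = k ^ q * (2 ^ b) ^ q := by
    simp [Vert]
  rw [← hcard]
  set N := Fintype.card (Vert q k b) with hN
  let enc : Vert q k b ≃ Fin N := Fintype.equivFin _
  refine ⟨fun γ e => edge loc γ (e.map enc.symm), ?_, fun γ => ?_⟩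
  · have hcl : Fintype.card (Clause q (Fin v)) = (v * 2) ^ q := by
      simp [Clause]
    obtain ⟨M0, hM0, hM0l, hM0i, hM0f⟩ := SLP.inputs (ι := Clause q (Fin v)) (Finset.univ.toList)
    rw [Finset.length_toList, Finset.card_univ, hcl] at hM0l
    obtain ⟨M1, h1, h2, h3⟩ := SLP.lits hM0
      ((Finset.univ : Finset (Clause q (Fin v))).toList.map
        (fun C => ((fun γ : Clause q (Fin v) → Bool => γ C), false))) (by
        intro p hp
        obtain ⟨C, hC, rfl⟩ := List.mem_map.1 hp
        exact hM0i C hC)
    rw [List.length_map, Finset.length_toList, Finset.card_univ, hcl] at h2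
    obtain ⟨M2, h4, h5, h6⟩ := SLP.many (3 * (v * 2) ^ q + 2)
      ((Finset.univ : Finset (Vert q k b)).toList.map
        (fun u (γ : Clause q (Fin v) → Bool) => good loc γ u)) (by
        intro f hf
        obtain ⟨u, hu, rfl⟩ := List.mem_map.1 hf
        obtain ⟨N', h7, h8, h9⟩ := SLP.all h1 ((Finset.univ.filter (viol loc u)).toList.map
          (fun C (γ : Clause q (Fin v) → Bool) => γ C == false)) (by
            intro g hg
            obtain ⟨C, hC, rfl⟩ := List.mem_map.1 hg
            exact h3 ((fun γ : Clause q (Fin v) → Bool => γ C), false) (List.mem_map.2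
              ⟨C, Finset.mem_toList.2 (Finset.mem_univ _), rfl⟩))
        refine ⟨_, h7, ?_, ?_⟩
        · rw [List.length_append, List.length_append, h8, h2, hM0l, List.length_map,
            Finset.length_toList]
          have : (Finset.univ.filter (viol loc u)).card ≤ (v * 2) ^ q := by
            rw [← hcl]
            exact Finset.card_le_univ _
          omega
        · exact h9)
    rw [List.length_map, Finset.length_toList, Finset.card_univ] at h5
    obtain ⟨M3, h7, h8, h9⟩ := SLP.layer h4 ((Finset.univ : Finset (Sym2 (Fin N))).toList.map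
      (fun e (γ : Clause q (Fin v) → Bool) => edge loc γ (e.map enc.symm))) (by
        intro f hf L hL hML
        obtain ⟨e, he, rfl⟩ := List.mem_map.1 hf
        clear he hf
        induction e using Sym2.ind with
        | _ a c =>
          by_cases hsh : shape (enc.symm a) (enc.symm c) ∧ inner (enc.symm a) ∧
              inner (enc.symm c)
          · have h10 : (fun γ : Clause q (Fin v) → Bool =>
                edge loc γ (Sym2.map enc.symm s(a, c))) =
                fun γ => good loc γ (enc.symm a) && good loc γ (enc.symm c) := by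
              funext γ
              show (if shape (enc.symm a) (enc.symm c) ∧ inner (enc.symm a) ∧
                inner (enc.symm c) then good loc γ (enc.symm a) && good loc γ (enc.symm c)
                else false) = _
              rw [if_pos hsh]
            rw [h10]
            exact SLP.and _ _ _ hL
              (hML (h6 _ (List.mem_map.2 ⟨_, Finset.mem_toList.2 (Finset.mem_univ _), rfl⟩)))
              (hML (h6 _ (List.mem_map.2 ⟨_, Finset.mem_toList.2 (Finset.mem_univ _), rfl⟩)))
          · have h10 : (fun γ : Clause q (Fin v) → Bool =>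
                edge loc γ (Sym2.map enc.symm s(a, c))) = fun γ => false := by
              funext γ
              show (if shape (enc.symm a) (enc.symm c) ∧ inner (enc.symm a) ∧
                inner (enc.symm c) then good loc γ (enc.symm a) && good loc γ (enc.symm c)
                else false) = _
              rw [if_neg hsh]
            rw [h10]
            exact SLP.const _ _ hL)
    refine ⟨_, h7, ?_, fun e => ?_⟩
    · rw [List.length_append, h8, List.length_map, Finset.length_toList, Finset.card_univ]
      exact add_le_add (card_sym2_le N) h5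
    · exact h9 _ (List.mem_map.2 ⟨e, Finset.mem_toList.2 (Finset.mem_univ _), rfl⟩)
  · rw [hasClique_equiv enc]
    exact clique_iff_sat loc hq hk hloc γ

end Red

end Pool.Agent.H341Q.MW
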