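import Mathlib
import Pool.Agent.H341Q.MWDefs
import Pool.Agent.H341Q.MWCirc
import Pool.Agent.H341Q.MWCover
import Pool.Agent.H341Q.MWNon
import Pool.Agent.H341Q.MWSat

/-! The consequences for `q`-SAT. -/

set_option autoImplicit false
set_option linter.all false

namespace Pool.Agent.H341Q.MW

/-- the bound in natural numbers -/
lemma size_bound (q k b v e F X : ℕ) (he : 1 ≤ e) (hX : 1 ≤ X) (hk : 1 ≤ k) (hbX : b ≤ X)
    (hv : v ≤ k * b) :
    2 * (F * (k ^ q * X ^ q + 1) ^ e) +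
      ((k ^ q * X ^ q) ^ 2 + (k ^ q * X ^ q) * (3 * (v * 2) ^ q + 2)) + 1 ≤
    (2 * F * (2 * k ^ q) ^ e + (k ^ q) ^ 2 + k ^ q * (3 * (k * 2) ^ q) + 2 * k ^ q + 1) *
      X ^ (q * (e + 1)) := by
  set Y := X ^ q with hY
  have hY1 : 1 ≤ Y := Nat.one_le_pow _ _ hX
  have hk1 : 1 ≤ k ^ q := Nat.one_le_pow _ _ hk
  have h1 : X ^ (q * (e + 1)) = Y ^ (e + 1) := by rw [hY, pow_mul]
  rw [h1]
  have h2 : (k ^ q * Y + 1) ^ e ≤ (2 * k ^ q) ^ e * Y ^ (e + 1) := by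
    calc (k ^ q * Y + 1) ^ e ≤ (2 * k ^ q * Y) ^ e := by
          apply Nat.pow_le_pow_left
          have : 1 ≤ k ^ q * Y := Nat.one_le_iff_ne_zero.2 (by positivity)
          nlinarith
      _ = (2 * k ^ q) ^ e * Y ^ e := mul_pow _ _ _
      _ ≤ _ := Nat.mul_le_mul_left _ (Nat.pow_le_pow_right hY1 (by omega))
  have h3 : Y ^ 2 ≤ Y ^ (e + 1) := Nat.pow_le_pow_right hY1 (by omega)
  have h4 : (v * 2) ^ q ≤ (k * 2) ^ q * Y := by
    rw [hY, ← mul_pow]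
    apply Nat.pow_le_pow_left
    calc v * 2 ≤ k * b * 2 := Nat.mul_le_mul_right _ hv
      _ ≤ k * X * 2 := Nat.mul_le_mul_right _ (Nat.mul_le_mul_left _ hbX)
      _ = _ := by ring
  have h5 : Y ≤ Y ^ (e + 1) := by
    calc Y = Y ^ 1 := (pow_one _).symm
      _ ≤ _ := Nat.pow_le_pow_right hY1 (by omega)
  have h6 : 1 ≤ Y ^ (e + 1) := Nat.one_le_pow _ _ hY1
  have a1 : 2 * (F * (k ^ q * Y + 1) ^ e) ≤ 2 * F * (2 * k ^ q) ^ e * Y ^ (e + 1) := by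
    calc 2 * (F * (k ^ q * Y + 1) ^ e) ≤ 2 * (F * ((2 * k ^ q) ^ e * Y ^ (e + 1))) :=
          Nat.mul_le_mul_left _ (Nat.mul_le_mul_left _ h2)
      _ = _ := by ring
  have a2 : (k ^ q * Y) ^ 2 ≤ (k ^ q) ^ 2 * Y ^ (e + 1) := by
    rw [mul_pow]
    exact Nat.mul_le_mul_left _ h3
  have a3 : (k ^ q * Y) * (3 * (v * 2) ^ q) ≤ k ^ q * (3 * (k * 2) ^ q) * Y ^ (e + 1) := by
    calc (k ^ q * Y) * (3 * (v * 2) ^ q) ≤ (k ^ q * Y) * (3 * ((k * 2) ^ q * Y)) :=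
          Nat.mul_le_mul_left _ (Nat.mul_le_mul_left _ h4)
      _ = k ^ q * (3 * (k * 2) ^ q) * Y ^ 2 := by ring
      _ ≤ _ := Nat.mul_le_mul_left _ h3
  have a4 : (k ^ q * Y) * 2 ≤ 2 * k ^ q * Y ^ (e + 1) := by
    calc (k ^ q * Y) * 2 = 2 * k ^ q * Y := by ring
      _ ≤ _ := Nat.mul_le_mul_left _ h5
  calc _ = 2 * (F * (k ^ q * Y + 1) ^ e) + (k ^ q * Y) ^ 2 + (k ^ q * Y) * (3 * (v * 2) ^ q) +
        (k ^ q * Y) * 2 + 1 := by ring
    _ ≤ 2 * F * (2 * k ^ q) ^ e * Y ^ (e + 1) + (k ^ q) ^ 2 * Y ^ (e + 1) +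
        k ^ q * (3 * (k * 2) ^ q) * Y ^ (e + 1) + 2 * k ^ q * Y ^ (e + 1) + 1 * Y ^ (e + 1) := by
      rw [one_mul]
      exact add_le_add (add_le_add (add_le_add (add_le_add a1 a2) a3) a4) h6
    _ = _ := by ring

lemma unsat_zero (v : ℕ) : NComp 1 (fun γ : Clause 0 (Fin v) → Bool => ¬ Sat γ) := by
  let C0 : Clause 0 (Fin v) := fun i => i.elim0
  refine ⟨0, Nat.zero_le _, fun z => z (Sum.inl C0), ⟨[fun z => z (Sum.inl C0)],
    SLP.input _ _ SLP.nil, by simp, by simp⟩, fun γ => ?_⟩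
  constructor
  · intro h
    refine ⟨fun i => i.elim0, ?_⟩
    show γ C0 = true
    by_contra hcon
    apply h
    refine ⟨fun _ => false, fun C hC => ?_⟩
    have : C = C0 := funext fun i => i.elim0
    rw [this] at hC
    exact absurd hC hcon
  · rintro ⟨y, hy⟩ ⟨α, hα⟩
    obtain ⟨i, _⟩ := hα C0 hy
    exact i.elim0

theorem unsat (c d : ℕ) (h : CliqueReduces c d) (q : ℕ) (ε : ℝ) (hε : 0 < ε) :
    ∃ C : ℝ, ∀ v : ℕ, ∃ s : ℕ, (s : ℝ) ≤ C * 2 ^ (ε * v) ∧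
      NComp s (fun γ : Clause q (Fin v) → Bool => ¬ Sat γ) := by
  rcases Nat.eq_zero_or_pos q with rfl | hq
  · refine ⟨1, fun v => ⟨1, ?_, unsat_zero v⟩⟩
    rw [one_mul]
    push_cast
    exact Real.one_le_rpow (by norm_num) (by positivity)
  set e := 2 * c + 5 with he
  obtain ⟨k, hk⟩ := exists_nat_ge (max 2 ((q * (e + 1) : ℕ) / ε))
  have hk2 : 2 ≤ k := by
    have := (le_max_left _ _).trans hk
    exact_mod_cast this
  have hk3 : ((q * (e + 1) : ℕ) : ℝ) / k ≤ ε := by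
    have h1 := (le_max_right _ _).trans hk
    have hkpos : (0 : ℝ) < k := by
      have : (2 : ℝ) ≤ k := by exact_mod_cast hk2
      linarith
    rw [div_le_iff₀ hε] at h1
    rw [div_le_iff₀ hkpos]
    linarith
  obtain ⟨F, hF⟩ := nonclique c d h (k ^ q)
  set A := 2 * F * (2 * k ^ q) ^ e + (k ^ q) ^ 2 + k ^ q * (3 * (k * 2) ^ q) + 2 * k ^ q + 1
    with hA
  refine ⟨A * 2 ^ (q * (e + 1)), fun v => ?_⟩
  set b := v / k + 1 with hb
  have hvb : v ≤ k * b := by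
    rw [hb, mul_add, mul_one]
    have := Nat.div_add_mod v k
    have h2 := Nat.mod_lt v (show 0 < k by omega)
    omega
  let loc : Fin v → Fin k × Fin b := fun x => finProdFinEquiv.symm (Fin.castLE hvb x)
  have hloc : Function.Injective loc := by
    intro x y hxy
    have h1 := finProdFinEquiv.symm.injective hxy
    exact Fin.castLE_injective hvb h1
  obtain ⟨R, hR, hRs⟩ := sat_reduces loc hq hk2 hloc
  set N := k ^ q * (2 ^ b) ^ q with hN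
  have h1 := NComp.subst (hF N) hR
  refine ⟨_, ?_, h1.congr fun γ => not_congr (hRs γ)⟩
  have h2 := size_bound q k b v e F (2 ^ b) (by omega) (Nat.one_le_two_pow) (by omega)
    (Nat.lt_two_pow_self).le hvb
  rw [← hA, ← hN] at h2
  have h3 : ((2 * (F * (N + 1) ^ e) + (N ^ 2 + N * (3 * (v * 2) ^ q + 2)) + 1 : ℕ) : ℝ) ≤
      ((A * (2 ^ b) ^ (q * (e + 1)) : ℕ) : ℝ) := by
    exact_mod_cast h2
  refine h3.trans ?_
  push_cast
  rw [mul_assoc]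
  refine mul_le_mul_of_nonneg_left ?_ (by positivity)
  have h4 : ((2 : ℝ) ^ b) ^ (q * (e + 1)) = (2 : ℝ) ^ ((b * (q * (e + 1)) : ℕ) : ℝ) := by
    rw [Real.rpow_natCast, ← pow_mul]
  have h5 : (2 : ℝ) ^ (q * (e + 1)) * 2 ^ (ε * v) = (2 : ℝ) ^ (((q * (e + 1) : ℕ) : ℝ) + ε * v) := by
    rw [Real.rpow_add (by norm_num), Real.rpow_natCast]
  rw [h4, h5]
  apply Real.rpow_le_rpow_of_exponent_le (by norm_num)
  have hkpos : (0 : ℝ) < k := by
    have : (2 : ℝ) ≤ k := by exact_mod_cast hk2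
    linarith
  have h6 : ((b : ℕ) : ℝ) ≤ v / k + 1 := by
    rw [hb]
    push_cast
    have := @Nat.cast_div_le ℝ _ _ _ v k
    linarith
  have h7 : (((b * (q * (e + 1)) : ℕ)) : ℝ) = b * ((q * (e + 1) : ℕ) : ℝ) := by push_cast; ring
  rw [h7]
  calc (b : ℝ) * ((q * (e + 1) : ℕ) : ℝ) ≤ (v / k + 1) * ((q * (e + 1) : ℕ) : ℝ) :=
        mul_le_mul_of_nonneg_right h6 (by positivity)
    _ = ((q * (e + 1) : ℕ) : ℝ) + (((q * (e + 1) : ℕ) : ℝ) / k) * v := by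
        field_simp
        ring
    _ ≤ _ := by
        have : (((q * (e + 1) : ℕ) : ℝ) / k) * v ≤ ε * v :=
          mul_le_mul_of_nonneg_right hk3 (by positivity)
        linarith

end Pool.Agent.H341Q.MW
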