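import Mathlib

/-!
# Countably perfectly null, countably perfectly meager and universally null sets

Definitions, and the basic facts on the fair coin measure of the Cantor space.
-/

open MeasureTheory Filter Topology Set
open scoped ENNReal

namespace Pool.Agent.H341Q.PN

section defs

variable {X : Type*} [TopologicalSpace X]

/-- `F` is an `F_σ` set: a countable union of closed sets. -/
def IsFsig (F : Set X) : Prop :=
  ∃ C : ℕ → Set X, (∀ n, IsClosed (C n)) ∧ F = ⋃ n, C n

/-- `A` is countably perfectly meager: for every sequence of perfect subsets `P n` there is an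
`F_σ` set `F ⊇ A` such that `F ∩ P n` is meager in `P n` for every `n`. (The empty set is allowed
as a perfect set; this is harmless, since its only subset is meager in it.) -/
def CountablyPerfectlyMeager (A : Set X) : Prop :=
  ∀ P : ℕ → Set X, (∀ n, Perfect (P n)) →
    ∃ F : Set X, IsFsig F ∧ A ⊆ F ∧ ∀ n, IsMeagre ((Subtype.val : P n → X) ⁻¹' F)

/-- `A` is universally null: it has outer measure `0` for every finite non-atomic Borel measure. -/
def UniversallyNull [MeasurableSpace X] (A : Set X) : Prop :=
  ∀ μ : Measure X, IsFiniteMeasure μ → (∀ x, μ {x} = 0) → μ A = 0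

/-- `A` is countably perfectly null: for every finite non-atomic Borel measure there is a null
`F_σ` set containing `A`. -/
def CountablyPerfectlyNull [MeasurableSpace X] (A : Set X) : Prop :=
  ∀ μ : Measure X, IsFiniteMeasure μ → (∀ x, μ {x} = 0) →
    ∃ F : Set X, IsFsig F ∧ A ⊆ F ∧ μ F = 0

end defs

/-! ### The Cantor space -/

/-- the Cantor space -/
abbrev Cs := ℕ → Bool

/-- the fair coin -/
noncomputable def coin : Measure Bool :=
  (1 / 2 : ℝ≥0∞) • Measure.dirac true + (1 / 2 : ℝ≥0∞) • Measure.dirac false

instance : IsProbabilityMeasure coin := by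
  constructor
  simp [coin, ENNReal.inv_two_add_inv_two]

lemma coin_sing (b : Bool) : coin {b} = 1 / 2 := by
  cases b <;> simp [coin]

/-- the fair coin measure of the Cantor space -/
noncomputable def lam : Measure Cs := Measure.infinitePi (fun _ : ℕ => coin)

instance : IsProbabilityMeasure lam := by unfold lam; infer_instance

/-- basic open sets -/
def cyl (x : Cs) (b : ℕ) : Set Cs := {y | ∀ i < b, y i = x i}

lemma mem_cyl {x y : Cs} {b : ℕ} : y ∈ cyl x b ↔ ∀ i < b, y i = x i := Iff.rfl

lemma self_mem_cyl (x : Cs) (b : ℕ) : x ∈ cyl x b := fun _ _ => rfl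

lemma lam_cyl (x : Cs) (b : ℕ) : lam (cyl x b) = (1 / 2) ^ b := by
  have h : cyl x b = Set.pi (Finset.range b : Set ℕ) (fun i => {x i}) := by
    ext y; simp [cyl, Set.mem_pi]
  rw [h, lam, Measure.infinitePi_pi]
  · simp [coin_sing]
  · intro i _; exact MeasurableSet.singleton _

lemma isOpen_cyl (x : Cs) (b : ℕ) : IsOpen (cyl x b) := by
  have h : cyl x b = Set.pi (Finset.range b : Set ℕ) (fun i => {x i}) := by
    ext y; simp [cyl, Set.mem_pi]
  rw [h]
  exact isOpen_set_pi (Finset.finite_toSet _) (fun i _ => isOpen_discrete _)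

lemma exists_cyl {x : Cs} {U : Set Cs} (hU : U ∈ 𝓝 x) : ∃ n, cyl x n ⊆ U := by
  rw [nhds_pi, Filter.mem_pi'] at hU
  obtain ⟨I, t, ht, hsub⟩ := hU
  refine ⟨I.sup id + 1, fun y hy => hsub ?_⟩
  intro i hi
  have : y i = x i := hy i (Nat.lt_succ_of_le (Finset.le_sup (f := id) hi))
  rw [this]
  exact mem_of_mem_nhds (ht i)

/-- `Q` depends on the first `b` coordinates only -/
def Det (b : ℕ) (Q : Set Cs) : Prop := ∀ x ∈ Q, ∀ y, (∀ i < b, y i = x i) → y ∈ Q

lemma Det.compl {b : ℕ} {Q : Set Cs} (h : Det b Q) : Det b Qᶜ := by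
  intro x hx y hy hyQ
  exact hx (h y hyQ x (fun i hi => (hy i hi).symm))

lemma Det.mono {b c : ℕ} (hbc : b ≤ c) {Q : Set Cs} (h : Det b Q) : Det c Q :=
  fun x hx y hy => h x hx y (fun i hi => hy i (lt_of_lt_of_le hi hbc))

lemma Det.isOpen {b : ℕ} {Q : Set Cs} (h : Det b Q) : IsOpen Q := by
  rw [isOpen_iff_mem_nhds]
  intro x hx
  exact mem_of_superset ((isOpen_cyl x b).mem_nhds (self_mem_cyl x b)) (fun y hy => h x hx y hy)

lemma Det.isClosed {b : ℕ} {Q : Set Cs} (h : Det b Q) : IsClosed Q :=
  isOpen_compl_iff.mp h.compl.isOpen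

lemma det_cyl (x : Cs) (b : ℕ) : Det b (cyl x b) :=
  fun _ hy _ hz i hi => (hz i hi).trans (hy i hi)

/-- extension of a finite sequence by `false` -/
def ext0 (b : ℕ) (s : Fin b → Bool) : Cs := fun i => if h : i < b then s ⟨i, h⟩ else false

/-- comparison of two measures on the sets that depend on `b` coordinates -/
lemma det_le {μ ν : Measure Cs} {b : ℕ} (h : ∀ x, μ (cyl x b) ≤ ν (cyl x b)) {Q : Set Cs}
    (hQ : Det b Q) : μ Q ≤ ν Q := by
  classical
  set S : Finset (Fin b → Bool) := Finset.univ.filter (fun s => ext0 b s ∈ Q) with hS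
  have hQS : Q = ⋃ s ∈ S, cyl (ext0 b s) b := by
    ext x
    simp only [mem_iUnion, exists_prop, hS, Finset.mem_filter, Finset.mem_univ, true_and]
    constructor
    · intro hx
      refine ⟨fun i => x i, ?_, ?_⟩
      · apply hQ x hx
        intro i hi
        simp [ext0, hi]
      · intro i hi
        simp [ext0, hi]
    · rintro ⟨s, hs, hx⟩
      exact hQ _ hs x hx
  have hdisj : Set.PairwiseDisjoint (S : Set (Fin b → Bool)) (fun s => cyl (ext0 b s) b) := by
    intro s _ t _ hst
    rw [Function.onFun, Set.disjoint_left]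
    intro x hx hx'
    apply hst
    funext i
    have h1 := hx i i.2
    have h2 := hx' i i.2
    simp only [ext0, i.2, dif_pos, Fin.eta] at h1 h2
    rw [← h1, ← h2]
  rw [hQS, measure_biUnion_finset hdisj (fun s _ => (isOpen_cyl _ _).measurableSet),
    measure_biUnion_finset hdisj (fun s _ => (isOpen_cyl _ _).measurableSet)]
  exact Finset.sum_le_sum (fun s _ => h _)

/-! ### The guessing sets -/

/-- the finite sequence coded by the first `b` bits -/
def code (b : ℕ) (x : Cs) : List Bool := (List.range b).map x

lemma code_congr {b : ℕ} {x y : Cs} (h : ∀ i < b, y i = x i) : code b y = code b x := by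
  unfold code
  apply List.map_congr_left
  intro i hi
  exact h i (List.mem_range.mp hi)

/-- the set of all `y` whose block `[2n, 3n)` is the one guessed by `u n` from `y|2n` -/
def V (u : ℕ → List Bool → Cs) (n : ℕ) : Set Cs :=
  {y | ∀ i, 2 * n ≤ i → i < 3 * n → y i = u n (code (2 * n) y) i}

lemma det_V (u : ℕ → List Bool → Cs) (n : ℕ) : Det (3 * n) (V u n) := by
  intro x hx y hy i h1 h2
  rw [hy i h2, hx i h1 h2, code_congr (b := 2 * n) (fun i hi => hy i (by omega))]

lemma V_inter (u : ℕ → List Bool → Cs) (n : ℕ) (x : Cs) :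
    V u n ∩ cyl x (2 * n) =
      cyl (fun i => if i < 2 * n then x i else u n (code (2 * n) x) i) (3 * n) := by
  ext y
  constructor
  · rintro ⟨h1, h2⟩ i hi
    by_cases hc : i < 2 * n
    · simp only [hc, if_true]; exact h2 i hc
    · simp only [hc, if_false]
      rw [h1 i (by omega) hi, code_congr (b := 2 * n) h2]
  · intro h
    have h2 : y ∈ cyl x (2 * n) := by
      intro i hi
      have := h i (by omega)
      simpa [hi] using this
    refine ⟨?_, h2⟩
    intro i hi1 hi2
    have := h i hi2
    rw [code_congr (b := 2 * n) h2]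
    simpa [not_lt.mpr hi1] using this

lemma lam_V_inter (u : ℕ → List Bool → Cs) (n : ℕ) {Q : Set Cs} (hQ : Det (2 * n) Q) :
    (1 / 2) ^ n * lam Q ≤ lam (Q ∩ V u n) := by
  have h := det_le (μ := ((1 / 2 : ℝ≥0∞) ^ n) • lam) (ν := lam.restrict (V u n)) (b := 2 * n)
    (by
      intro x
      rw [Measure.smul_apply, Measure.restrict_apply (isOpen_cyl _ _).measurableSet,
        Set.inter_comm, V_inter, lam_cyl, lam_cyl, smul_eq_mul, ← pow_add]
      apply le_of_eq
      congr 1
      omega) hQ
  rw [Measure.smul_apply, Measure.restrict_apply hQ.isOpen.measurableSet, smul_eq_mul] at h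
  exact h

/-- splitting a basic open set -/
lemma exists_half (μ : Measure Cs) (x : Cs) (b : ℕ) :
    ∃ z : Cs, (∀ i < b, z i = x i) ∧ μ (cyl z (b + 1)) ≤ 1 / 2 * μ (cyl x b) := by
  have hx : ∀ t : Bool, cyl (fun i => if i < b then x i else t) (b + 1) =
      {y | y ∈ cyl x b ∧ y b = t} := by
    intro t
    ext y
    constructor
    · intro h
      refine ⟨fun i hi => ?_, ?_⟩
      · have := h i (by omega)
        simpa [hi] using this
      · simpa using h b (by omega)
    · rintro ⟨h1, h2⟩ i hi
      rcases Nat.lt_succ_iff_lt_or_eq.mp hi with hc | rfl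
      · simp only [hc, if_true]; exact h1 i hc
      · simpa using h2
  have hunion : cyl x b = cyl (fun i => if i < b then x i else true) (b + 1) ∪
      cyl (fun i => if i < b then x i else false) (b + 1) := by
    rw [hx, hx]
    ext y
    simp only [mem_union, Set.mem_ofPred_eq]
    cases y b <;> simp
  have hdisj : Disjoint (cyl (fun i => if i < b then x i else true) (b + 1))
      (cyl (fun i => if i < b then x i else false) (b + 1)) := by
    rw [hx, hx, Set.disjoint_left]
    rintro y ⟨-, h1⟩ ⟨-, h2⟩
    rw [h1] at h2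
    exact absurd h2 (by simp)
  have hsum : μ (cyl x b) = μ (cyl (fun i => if i < b then x i else true) (b + 1)) +
      μ (cyl (fun i => if i < b then x i else false) (b + 1)) := by
    conv_lhs => rw [hunion]
    exact measure_union hdisj (isOpen_cyl _ _).measurableSet
  rcases le_total (μ (cyl (fun i => if i < b then x i else true) (b + 1)))
    (μ (cyl (fun i => if i < b then x i else false) (b + 1))) with hle | hle
  · refine ⟨fun i => if i < b then x i else true, fun i hi => by simp [hi], ?_⟩
    rw [hsum]
    calc _ = 1 / 2 * (μ (cyl (fun i => if i < b then x i else true) (b + 1)) +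
          μ (cyl (fun i => if i < b then x i else true) (b + 1))) := by
          rw [← two_mul, ← mul_assoc, one_div, ENNReal.inv_mul_cancel (by norm_num) (by norm_num),
            one_mul]
      _ ≤ _ := by gcongr
  · refine ⟨fun i => if i < b then x i else false, fun i hi => by simp [hi], ?_⟩
    rw [hsum]
    calc _ = 1 / 2 * (μ (cyl (fun i => if i < b then x i else false) (b + 1)) +
          μ (cyl (fun i => if i < b then x i else false) (b + 1))) := by
          rw [← two_mul, ← mul_assoc, one_div, ENNReal.inv_mul_cancel (by norm_num) (by norm_num),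
            one_mul]
      _ ≤ _ := by gcongr

lemma exists_small (μ : Measure Cs) (x : Cs) (b n : ℕ) :
    ∃ z : Cs, (∀ i < b, z i = x i) ∧ μ (cyl z (b + n)) ≤ (1 / 2) ^ n * μ (cyl x b) := by
  induction n with
  | zero => exact ⟨x, fun _ _ => rfl, by simp⟩
  | succ n ih =>
    obtain ⟨z, hz, h⟩ := ih
    obtain ⟨z', hz', h'⟩ := exists_half μ z (b + n)
    refine ⟨z', fun i hi => (hz' i (by omega)).trans (hz i hi), ?_⟩
    calc μ (cyl z' (b + (n + 1))) ≤ 1 / 2 * μ (cyl z (b + n)) := h'
      _ ≤ 1 / 2 * ((1 / 2) ^ n * μ (cyl x b)) := by gcongr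
      _ = (1 / 2) ^ (n + 1) * μ (cyl x b) := by rw [pow_succ', mul_assoc]

lemma code_getD {b : ℕ} {x : Cs} {i : ℕ} (hi : i < b) :
    (code b x).getD i false = x i := by
  unfold code
  simp [List.getD, hi]

/-- for every finite measure there is a guessing function whose guessing sets are small -/
lemma exists_guess (μ : Measure Cs) :
    ∃ u : ℕ → List Bool → Cs, ∀ n, μ (V u n) ≤ (1 / 2) ^ n * μ univ := by
  choose z hz using fun (n : ℕ) (s : List Bool) =>
    exists_small μ (fun i => s.getD i false) (2 * n) n
  refine ⟨z, fun n => ?_⟩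
  have h := det_le (μ := μ.restrict (V z n)) (ν := ((1 / 2 : ℝ≥0∞) ^ n) • μ) (b := 2 * n)
    (by
      intro x
      rw [Measure.smul_apply, Measure.restrict_apply (isOpen_cyl _ _).measurableSet,
        Set.inter_comm, V_inter, smul_eq_mul]
      obtain ⟨h1, h2⟩ := hz n (code (2 * n) x)
      have e1 : cyl (fun i => if i < 2 * n then x i else z n (code (2 * n) x) i) (3 * n) =
          cyl (z n (code (2 * n) x)) (2 * n + n) := by
        have e : 3 * n = 2 * n + n := by ring
        rw [e]
        ext y
        constructor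
        · intro h i hi
          rw [h i hi]
          by_cases hc : i < 2 * n
          · simp only [hc, if_true]
            rw [h1 i hc]
            exact (code_getD hc).symm
          · simp [hc]
        · intro h i hi
          rw [h i hi]
          by_cases hc : i < 2 * n
          · simp only [hc, if_true]
            rw [h1 i hc]
            exact code_getD hc
          · simp [hc]
      have e2 : cyl (fun i => (code (2 * n) x).getD i false) (2 * n) = cyl x (2 * n) := by
        ext y
        constructor
        · intro h i hi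
          rw [h i hi]
          exact code_getD hi
        · intro h i hi
          rw [h i hi]
          exact (code_getD hi).symm
      rw [e1]
      rw [e2] at h2
      exact h2) (Q := univ) (fun _ _ _ _ => mem_univ _)
  rw [Measure.smul_apply, Measure.restrict_apply MeasurableSet.univ, smul_eq_mul,
    Set.univ_inter] at h
  exact h

/-- the points that lie in infinitely many guessing sets form a null set -/
lemma exists_guess_null (μ : Measure Cs) [IsFiniteMeasure μ] :
    ∃ u : ℕ → List Bool → Cs, μ {y | ∃ᶠ n in atTop, y ∈ V u n} = 0 := by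
  obtain ⟨u, hu⟩ := exists_guess μ
  refine ⟨u, measure_setOfPred_frequently_eq_zero ?_⟩
  have h1 : ∑' n, μ (V u n) ≤ ∑' n, (1 / 2 : ℝ≥0∞) ^ n * μ univ := ENNReal.tsum_le_tsum hu
  rw [ENNReal.tsum_mul_right, ENNReal.tsum_geometric] at h1
  refine ne_top_of_le_ne_top ?_ h1
  apply ENNReal.mul_ne_top
  · simp [ENNReal.one_sub_inv_two]
  · exact measure_ne_top _ _

end Pool.Agent.H341Q.PN
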