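import Mathlib
import Pool.Agent.H341Q.PNDefs

/-!
# One stage of the construction

Closed sets of positive measure that are well approximated by clopen sets (`Good`), and the point
that meets countably many tasks at once.
-/

open MeasureTheory Filter Topology Set
open scoped ENNReal

namespace Pool.Agent.H341Q.PN

/-- the smallest set containing `K` that depends on the first `b` coordinates only -/
def hull (b : ℕ) (K : Set Cs) : Set Cs := {x | ∃ y ∈ K, ∀ i < b, x i = y i}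

lemma det_hull (b : ℕ) (K : Set Cs) : Det b (hull b K) := by
  rintro x ⟨y, hy, h⟩ z hz
  exact ⟨y, hy, fun i hi => (hz i hi).trans (h i hi)⟩

lemma subset_hull (b : ℕ) (K : Set Cs) : K ⊆ hull b K := fun x hx => ⟨x, hx, fun _ _ => rfl⟩

lemma hull_mono (b : ℕ) {K L : Set Cs} (h : K ⊆ L) : hull b K ⊆ hull b L := by
  rintro x ⟨y, hy, h'⟩
  exact ⟨y, h hy, h'⟩

/-- closed sets that are quickly approximated by clopen sets -/
structure Good (K : Set Cs) : Prop where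
  closed : IsClosed K
  ex : ∃ c : ℕ, ∀ b, lam (hull b K \ K) ≤ c * (1 / 2) ^ b

lemma Good.inter {K L : Set Cs} (hK : Good K) (hL : Good L) : Good (K ∩ L) := by
  obtain ⟨c, hc⟩ := hK.ex
  obtain ⟨d, hd⟩ := hL.ex
  refine ⟨hK.closed.inter hL.closed, c + d, fun b => ?_⟩
  have hsub : hull b (K ∩ L) \ (K ∩ L) ⊆ (hull b K \ K) ∪ (hull b L \ L) := by
    rintro x ⟨h1, h2⟩
    by_cases hxK : x ∈ K
    · right
      exact ⟨hull_mono b inter_subset_right h1, fun hxL => h2 ⟨hxK, hxL⟩⟩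
    · left
      exact ⟨hull_mono b inter_subset_left h1, hxK⟩
  calc lam (hull b (K ∩ L) \ (K ∩ L)) ≤ lam ((hull b K \ K) ∪ (hull b L \ L)) := measure_mono hsub
    _ ≤ lam (hull b K \ K) + lam (hull b L \ L) := measure_union_le _ _
    _ ≤ c * (1 / 2) ^ b + d * (1 / 2) ^ b := add_le_add (hc b) (hd b)
    _ = ((c + d : ℕ) : ℝ≥0∞) * (1 / 2) ^ b := by push_cast; ring

lemma good_of_det {N : ℕ} {Q : Set Cs} (hQ : Det N Q) : Good Q := by
  refine ⟨hQ.isClosed, 2 ^ N, fun b => ?_⟩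
  by_cases hb : N ≤ b
  · have : hull b Q \ Q = ∅ := by
      rw [Set.sdiff_eq_empty]
      rintro x ⟨y, hy, h⟩
      exact hQ y hy x (fun i hi => h i (by omega))
    rw [this]
    simp
  · refine prob_le_one.trans ?_
    push_cast
    have h1 : (1 / 2 : ℝ≥0∞) ^ N ≤ (1 / 2) ^ b := by
      apply pow_le_pow_of_le_one zero_le
      · rw [one_div]; exact ENNReal.inv_le_one.mpr (by norm_num)
      · omega
    calc (1 : ℝ≥0∞) = 2 ^ N * (1 / 2) ^ N := by
          rw [← mul_pow, one_div, ENNReal.mul_inv_cancel (by norm_num) (by norm_num), one_pow]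
      _ ≤ 2 ^ N * (1 / 2) ^ b := by gcongr

/-- the closed set obtained by removing small neighbourhoods of the points `d i` -/
def Fk (d : ℕ → Cs) (k : ℕ) : Set Cs := (⋃ i, cyl (d i) (k + i + 1))ᶜ

lemma isClosed_Fk (d : ℕ → Cs) (k : ℕ) : IsClosed (Fk d k) :=
  (isOpen_iUnion (fun _ => isOpen_cyl _ _)).isClosed_compl

lemma notMem_Fk (d : ℕ → Cs) (k i : ℕ) : d i ∉ Fk d k := by
  intro h
  exact h (mem_iUnion.mpr ⟨i, self_mem_cyl _ _⟩)

lemma lam_tail (d : ℕ → Cs) (k b i₀ : ℕ) (h : b ≤ k + i₀) :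
    lam (⋃ i, cyl (d (i₀ + i)) (k + (i₀ + i) + 1)) ≤ (1 / 2) ^ b := by
  calc lam (⋃ i, cyl (d (i₀ + i)) (k + (i₀ + i) + 1))
      ≤ ∑' i, lam (cyl (d (i₀ + i)) (k + (i₀ + i) + 1)) := measure_iUnion_le _
    _ ≤ ∑' i, (1 / 2 : ℝ≥0∞) ^ (b + 1) * (1 / 2) ^ i := by
        apply ENNReal.tsum_le_tsum
        intro i
        rw [lam_cyl, ← pow_add]
        apply pow_le_pow_of_le_one zero_le
        · rw [one_div]; exact ENNReal.inv_le_one.mpr (by norm_num)
        · omega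
    _ = (1 / 2) ^ b := by
        rw [ENNReal.tsum_mul_left, ENNReal.tsum_geometric, pow_succ, one_div,
          ENNReal.one_sub_inv_two, inv_inv, mul_assoc,
          ENNReal.inv_mul_cancel (by norm_num) (by norm_num), mul_one]

lemma lam_Fk_compl (d : ℕ → Cs) (k : ℕ) : lam (Fk d k)ᶜ ≤ (1 / 2) ^ k := by
  have h := lam_tail d k k 0 (by omega)
  simp only [zero_add] at h
  rw [Fk, compl_compl]
  exact h

lemma good_Fk (d : ℕ → Cs) (k : ℕ) : Good (Fk d k) := by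
  refine ⟨isClosed_Fk d k, 1, fun b => ?_⟩
  rw [Nat.cast_one, one_mul]
  refine le_trans (measure_mono ?_) (lam_tail d k b (b - k) (by omega))
  rintro x ⟨⟨y, hy, h⟩, hx⟩
  rw [Fk, notMem_compl_iff, mem_iUnion] at hx
  obtain ⟨i, hi⟩ := hx
  have hbi : b < k + i + 1 := by
    by_contra hcon
    apply hy
    rw [mem_iUnion]
    refine ⟨i, fun j hj => ?_⟩
    rw [← h j (by omega)]
    exact hi j hj
  rw [mem_iUnion]
  refine ⟨i - (b - k), ?_⟩
  have e : b - k + (i - (b - k)) = i := by omega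
  rw [e]
  exact hi

/-- a task: a closed set to avoid, a sequence, and a guessing function -/
structure Task where
  E : Set Cs
  closed : IsClosed E
  null : lam E = 0
  d : ℕ → Cs
  u : ℕ → List Bool → Cs

/-- positive good sets -/
def Pos (K : Set Cs) : Prop := Good K ∧ lam K ≠ 0

lemma pos_univ : Pos univ := by
  refine ⟨good_of_det (N := 0) (fun _ _ _ _ => mem_univ _), ?_⟩
  rw [measure_univ]
  exact one_ne_zero

lemma Pos.avoid {K : Set Cs} (hK : Pos K) {E : Set Cs} (hE : IsClosed E) (h0 : lam E = 0) :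
    ∃ K' ⊆ K, Pos K' ∧ Disjoint K' E := by
  have hex : ∃ n, lam (K ∩ (hull n E)ᶜ) ≠ 0 := by
    by_contra hcon
    push Not at hcon
    apply hK.2
    have hsub : K ⊆ E ∪ ⋃ n, (K ∩ (hull n E)ᶜ) := by
      intro x hx
      by_cases hxE : x ∈ E
      · exact Or.inl hxE
      · right
        obtain ⟨n, hn⟩ := exists_cyl (hE.isOpen_compl.mem_nhds hxE)
        rw [mem_iUnion]
        refine ⟨n, hx, ?_⟩
        rintro ⟨y, hy, h⟩
        exact hn (fun i hi => (h i hi).symm) hy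
    refine measure_mono_null hsub (measure_union_null h0 (measure_iUnion_null hcon))
  obtain ⟨n, hn⟩ := hex
  refine ⟨K ∩ (hull n E)ᶜ, inter_subset_left,
    ⟨hK.1.inter (good_of_det (det_hull n E).compl), hn⟩, ?_⟩
  rw [Set.disjoint_left]
  rintro x ⟨-, hx⟩ hxE
  exact hx (subset_hull n E hxE)

lemma tendsto_half (c : ℝ≥0∞) (hc : c ≠ ⊤) :
    Tendsto (fun n : ℕ => c * (1 / 2 : ℝ≥0∞) ^ n) atTop (𝓝 0) := by
  have h : Tendsto (fun n : ℕ => (1 / 2 : ℝ≥0∞) ^ n) atTop (𝓝 0) := by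
    apply ENNReal.tendsto_pow_atTop_nhds_zero_of_lt_one
    rw [one_div]
    exact ENNReal.inv_lt_one.mpr (by norm_num)
  have := ENNReal.Tendsto.const_mul h (Or.inr hc)
  simpa using this

lemma Pos.Fk {K : Set Cs} (hK : Pos K) (d : ℕ → Cs) :
    ∃ K' ⊆ K, Pos K' ∧ ∃ k, K' ⊆ Fk d k := by
  have hev := (tendsto_half 1 (by simp)).eventually_lt_const (pos_iff_ne_zero.mpr hK.2)
  obtain ⟨k, hk⟩ := hev.exists
  rw [one_mul] at hk
  refine ⟨K ∩ PN.Fk d k, inter_subset_left, ⟨hK.1.inter (good_Fk d k), ?_⟩, k, inter_subset_right⟩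
  intro h0
  have : lam K ≤ lam (K ∩ PN.Fk d k) + lam (PN.Fk d k)ᶜ := by
    refine le_trans (measure_mono ?_) (measure_union_le _ _)
    intro x hx
    by_cases hxF : x ∈ PN.Fk d k
    · exact Or.inl ⟨hx, hxF⟩
    · exact Or.inr hxF
  rw [h0, zero_add] at this
  exact absurd (this.trans (lam_Fk_compl d k)) (not_le.mpr hk)

lemma Pos.V {K : Set Cs} (hK : Pos K) (u : ℕ → List Bool → Cs) (N : ℕ) :
    ∃ K' ⊆ K, Pos K' ∧ ∃ n ≥ N, K' ⊆ V u n := by
  obtain ⟨c, hc⟩ := hK.1.ex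
  have hev := (tendsto_half c (by simp)).eventually_lt_const (pos_iff_ne_zero.mpr hK.2)
  obtain ⟨n, hn, hnN⟩ := (hev.and (eventually_ge_atTop N)).exists
  refine ⟨K ∩ PN.V u n, inter_subset_left, ⟨hK.1.inter (good_of_det (det_V u n)), ?_⟩, n, hnN,
    inter_subset_right⟩
  intro h0
  have h1 : (1 / 2 : ℝ≥0∞) ^ n * lam K ≤ (1 / 2) ^ n * (c * (1 / 2) ^ n) := by
    calc (1 / 2 : ℝ≥0∞) ^ n * lam K ≤ (1 / 2 : ℝ≥0∞) ^ n * lam (hull (2 * n) K) := by
          gcongr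
          exact subset_hull _ _
      _ ≤ lam (hull (2 * n) K ∩ PN.V u n) := lam_V_inter u n (det_hull _ _)
      _ ≤ lam (K ∩ PN.V u n) + lam (hull (2 * n) K \ K) := by
          refine le_trans (measure_mono ?_) (measure_union_le _ _)
          rintro x ⟨hx, hxV⟩
          by_cases hxK : x ∈ K
          · exact Or.inl ⟨hxK, hxV⟩
          · exact Or.inr ⟨hx, hxK⟩
      _ ≤ c * (1 / 2) ^ (2 * n) := by rw [h0, zero_add]; exact hc _
      _ = (1 / 2) ^ n * (c * (1 / 2) ^ n) := by rw [two_mul, pow_add]; ring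
  have h2 : lam K ≤ c * (1 / 2) ^ n := by
    have hne : (1 / 2 : ℝ≥0∞) ^ n ≠ 0 := by simp
    have hnt : (1 / 2 : ℝ≥0∞) ^ n ≠ ⊤ := by
      apply ENNReal.pow_ne_top
      simp
    exact (ENNReal.mul_le_mul_iff_right hne hnt).mp h1
  exact absurd h2 (not_le.mpr hn)

/-- one step for one task -/
lemma Pos.step {K : Set Cs} (hK : Pos K) (t : Task) (N : ℕ) :
    ∃ K' ⊆ K, Pos K' ∧ Disjoint K' t.E ∧ (∃ k, K' ⊆ PN.Fk t.d k) ∧ ∃ n ≥ N, K' ⊆ PN.V t.u n := by
  obtain ⟨K₁, h1, hK₁, hE⟩ := hK.avoid t.closed t.null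
  obtain ⟨K₂, h2, hK₂, k, hk⟩ := hK₁.Fk t.d
  obtain ⟨K₃, h3, hK₃, n, hn, hV⟩ := hK₂.V t.u N
  exact ⟨K₃, h3.trans (h2.trans h1), hK₃, hE.mono_left (h3.trans h2), ⟨k, h3.trans hk⟩, n, hn, hV⟩

/-- a point meets a task -/
def Meets (a : Cs) (t : Task) : Prop :=
  a ∉ t.E ∧ (∃ k, a ∈ Fk t.d k) ∧ ∃ᶠ n in atTop, a ∈ V t.u n

/-- one point meets countably many tasks -/
lemma exists_meets (t : ℕ → Task) : ∃ a : Cs, ∀ j, Meets a (t j) := by
  choose next hsub hpos hdis hF hV using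
    fun (K : {K : Set Cs // Pos K}) (m : ℕ) => K.2.step (t (Nat.unpair m).1) m
  let K : ℕ → {K : Set Cs // Pos K} := fun m =>
    Nat.rec ⟨univ, pos_univ⟩ (fun m K => ⟨next K m, hpos K m⟩) m
  have hKs : ∀ m, (K (m + 1)).1 = next (K m) m := fun _ => rfl
  have hne : (⋂ m, (K m).1).Nonempty := by
    apply IsCompact.nonempty_iInter_of_sequence_nonempty_isCompact_isClosed
    · intro m
      rw [hKs]
      exact hsub _ _
    · intro m
      by_contra hcon
      rw [not_nonempty_iff_eq_empty] at hcon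
      apply (K m).2.2
      rw [hcon, measure_empty]
    · exact (K 0).2.1.closed.isCompact
    · intro m
      exact (K m).2.1.closed
  obtain ⟨a, ha⟩ := hne
  rw [mem_iInter] at ha
  refine ⟨a, fun j => ?_⟩
  have hm : ∀ r, a ∈ next (K (Nat.pair j r)) (Nat.pair j r) := fun r => ha (Nat.pair j r + 1)
  refine ⟨?_, ?_, ?_⟩
  · have h1 := hdis (K (Nat.pair j 0)) (Nat.pair j 0)
    rw [Nat.unpair_pair] at h1
    exact Set.disjoint_left.mp h1 (hm 0)
  · obtain ⟨k, hk⟩ := hF (K (Nat.pair j 0)) (Nat.pair j 0)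
    rw [Nat.unpair_pair] at hk
    exact ⟨k, hk (hm 0)⟩
  · rw [frequently_atTop]
    intro r
    obtain ⟨n, hn, hV'⟩ := hV (K (Nat.pair j r)) (Nat.pair j r)
    rw [Nat.unpair_pair] at hV'
    exact ⟨n, le_trans (Nat.right_le_pair j r) hn, hV' (hm r)⟩

end Pool.Agent.H341Q.PN
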