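import Mathlib
import Pool.Agent.H341Q.PNStage

/-!
# The set, and its copies in perfect Polish spaces
-/

open MeasureTheory Filter Topology Set
open scoped ENNReal

namespace Pool.Agent.H341Q.PN

open Cardinal in
lemma mk_task : #Task ≤ 𝔠 := by
  have h1 : #{t : Set Cs | MeasurableSet t} ≤ 𝔠 := by
    have h2 := MeasurableSpace.cardinal_measurableSet_le_continuum
      (s := MeasurableSpace.countableGeneratingSet Cs)
      ((MeasurableSpace.countable_countableGeneratingSet (α := Cs)).le_aleph0.trans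
        aleph0_le_continuum)
    rw [MeasurableSpace.generateFrom_countableGeneratingSet] at h2
    exact h2
  have h2 : #(ℕ → Cs) = 𝔠 := by simp
  have h3 : #(ℕ → List Bool → Cs) = 𝔠 := by simp
  have h4 : #Task ≤ #({t : Set Cs | MeasurableSet t} × (ℕ → Cs) × (ℕ → List Bool → Cs)) := by
    apply Cardinal.mk_le_of_injective
      (f := fun t : Task => ((⟨t.E, t.closed.measurableSet⟩, t.d, t.u) :
        {t : Set Cs | MeasurableSet t} × (ℕ → Cs) × (ℕ → List Bool → Cs)))
    rintro ⟨E, hE, h0, d, u⟩ ⟨E', hE', h0', d', u'⟩ h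
    simp only [Prod.mk.injEq, Subtype.mk.injEq] at h
    obtain ⟨rfl, rfl, rfl⟩ := h
    rfl
  refine h4.trans ?_
  rw [mk_prod, mk_prod, h2, h3]
  simp only [lift_id, continuum_mul_self]
  exact (mul_le_mul' h1 le_rfl).trans (by simp)

/-- the set -/
lemma exists_set (CH : Cardinal.continuum.{0} = Cardinal.aleph 1) :
    ∃ A : Set Cs, ∃ (ι : Type) (a : ι → Cs), A = range a ∧
      (∀ t : Task, {i | ¬ Meets (a i) t}.Countable) ∧ ¬ (univ : Set ι).Countable := by
  classical
  let ι : Type := (Cardinal.aleph 1).ord.ToType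
  have hι : Cardinal.mk ι = Cardinal.aleph 1 := Cardinal.mk_ord_toType _
  have hIio : ∀ i : ι, (Set.Iio i).Countable := by
    intro i
    have h1 : Cardinal.mk (Set.Iio i) < Cardinal.mk ι := Cardinal.mk_Iio_lt i (by simp [ι])
    rw [hι] at h1
    exact Cardinal.le_aleph0_iff_set_countable.mp (Cardinal.lt_aleph_one_iff.mp h1)
  have hIic : ∀ i : ι, (Set.Iic i).Countable := by
    intro i
    have : Set.Iic i = insert i (Set.Iio i) := by
      ext j; simp [le_iff_eq_or_lt]
    rw [this]
    exact (hIio i).insert i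
  have hne : Nonempty Task := ⟨⟨∅, isClosed_empty, measure_empty, fun _ _ => false,
    fun _ _ _ => false⟩⟩
  have hle : Cardinal.mk Task ≤ Cardinal.mk ι := by
    rw [hι, ← CH]
    exact mk_task
  obtain ⟨g⟩ := Cardinal.le_def _ _ |>.mp hle
  let f : ι → Task := Function.invFun g
  have hf : Function.Surjective f := Function.invFun_surjective g.injective
  have hex : ∀ i : ι, ∃ x : Cs, ∀ j ≤ i, Meets x (f j) := by
    intro i
    obtain ⟨e, he⟩ := (hIic i).exists_eq_range ⟨i, Set.mem_Iic.mpr le_rfl⟩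
    obtain ⟨x, hx⟩ := exists_meets (fun n => f (e n))
    refine ⟨x, fun j hj => ?_⟩
    have : j ∈ range e := by rw [← he]; exact hj
    obtain ⟨n, rfl⟩ := this
    exact hx n
  choose a ha using hex
  refine ⟨range a, ι, a, rfl, ?_, ?_⟩
  · intro t
    obtain ⟨j, rfl⟩ := hf t
    refine (hIio j).mono ?_
    intro i hi
    by_contra hcon
    exact hi (ha i j (not_lt.mp hcon))
  · intro hc
    have h1 := Cardinal.le_aleph0_iff_set_countable.mpr hc
    rw [Cardinal.mk_univ, hι] at h1
    exact absurd h1 (not_le.mpr Cardinal.aleph0_lt_aleph_one)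

/-- the three properties of the set in the Cantor space -/
lemma exists_set' (CH : Cardinal.continuum.{0} = Cardinal.aleph 1) :
    ∃ A : Set Cs,
      (∀ D : Set Cs, D.Countable → ∃ F : ℕ → Set Cs, (∀ k, IsClosed (F k)) ∧
        (∀ k, Disjoint (F k) D) ∧ (A \ ⋃ k, F k).Countable) ∧
      (∀ μ : Measure Cs, IsFiniteMeasure μ → (∀ x, μ {x} = 0) → μ A = 0) ∧
      (∀ E : ℕ → Set Cs, (∀ n, IsClosed (E n)) → (∀ n, lam (E n) = 0) → ¬ A ⊆ ⋃ n, E n) := by
  obtain ⟨A, ι, a, rfl, ha, hun⟩ := exists_set CH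
  refine ⟨range a, ?_, ?_, ?_⟩
  · intro D hD
    obtain ⟨d, hd⟩ : ∃ d : ℕ → Cs, D ⊆ range d := by
      rcases D.eq_empty_or_nonempty with rfl | hne
      · exact ⟨fun _ _ => false, empty_subset _⟩
      · obtain ⟨d, hd⟩ := hD.exists_eq_range hne
        exact ⟨d, hd.subset⟩
    refine ⟨Fk d, isClosed_Fk d, ?_, ?_⟩
    · intro k
      rw [Set.disjoint_left]
      intro x hx hxD
      obtain ⟨i, rfl⟩ := hd hxD
      exact notMem_Fk d k i hx
    · have h := ha ⟨∅, isClosed_empty, measure_empty, d, fun _ _ _ => false⟩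
      refine (h.image a).mono ?_
      rintro _ ⟨⟨i, rfl⟩, hi⟩
      refine ⟨i, ?_, rfl⟩
      intro hm
      obtain ⟨k, hk⟩ := hm.2.1
      exact hi (mem_iUnion.mpr ⟨k, hk⟩)
  · intro μ hμ hna
    obtain ⟨u, hu⟩ := exists_guess_null μ
    have h := ha ⟨∅, isClosed_empty, measure_empty, fun _ _ => false, u⟩
    have hna' : NullSingletonClass μ := ⟨hna⟩
    refine measure_mono_null ?_ (measure_union_null hu ((h.image a).measure_zero μ))
    rintro _ ⟨i, rfl⟩
    by_cases hm : Meets (a i) ⟨∅, isClosed_empty, measure_empty, fun _ _ => false, u⟩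
    · exact Or.inl hm.2.2
    · exact Or.inr ⟨i, hm, rfl⟩
  · intro E hE h0 hsub
    apply hun
    have h : ∀ n, {i | ¬ Meets (a i)
        ⟨E n, hE n, h0 n, fun _ _ => false, fun _ _ _ => false⟩}.Countable := fun n => ha _
    refine (countable_iUnion h).mono ?_
    intro i _
    obtain ⟨n, hn⟩ := mem_iUnion.mp (hsub ⟨i, rfl⟩)
    exact mem_iUnion.mpr ⟨n, fun hm => hm.1 hn⟩

lemma lam_sing (x : Cs) : lam {x} = 0 := by
  have h : ∀ n : ℕ, lam {x} ≤ 1 * (1 / 2) ^ n := by
    intro n
    rw [one_mul, ← lam_cyl x n]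
    apply measure_mono
    rintro y rfl
    exact self_mem_cyl _ _
  exact le_antisymm (ge_of_tendsto' (tendsto_half 1 (by simp)) h) zero_le

/-! ### Perfect Polish spaces -/

section general

variable {X : Type*} [TopologicalSpace X]

/-- a nonempty perfect Polish space contains a closed copy of the Cantor space -/
lemma exists_copy [PolishSpace X] [PerfectSpace X] [Nonempty X] :
    ∃ φ : Cs → X, IsClosedEmbedding φ := by
  let _ := TopologicalSpace.upgradeIsCompletelyMetrizable X
  obtain ⟨f, -, hc, hi⟩ := Perfect.exists_nat_bool_injection (C := (univ : Set X))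
    ⟨isClosed_univ, PerfectSpace.univ_preperfect⟩ univ_nonempty
  exact ⟨f, hc.isClosedEmbedding hi⟩

lemma isMeagre_of_countable [T1Space X] {P : Set X} (hP : Perfect P) {R : Set X}
    (hR : R.Countable) : IsMeagre ((Subtype.val : P → X) ⁻¹' R) := by
  have h1 : ((Subtype.val : P → X) ⁻¹' R).Countable :=
    hR.preimage Subtype.val_injective
  have e : (Subtype.val : P → X) ⁻¹' R = ⋃ x ∈ (Subtype.val : P → X) ⁻¹' R, {x} :=
    (Set.biUnion_of_singleton _).symm
  rw [e]
  refine isMeagre_biUnion h1 ?_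
  intro x _
  apply IsNowhereDense.isMeagre
  rw [isClosed_singleton.isNowhereDense_iff]
  by_contra hcon
  obtain ⟨y, hy⟩ := nonempty_iff_ne_empty.mpr hcon
  have hyx : y ∈ ({x} : Set P) := interior_subset hy
  rw [mem_singleton_iff] at hyx
  subst hyx
  have hopen : IsOpen ({y} : Set P) := by
    rw [← subset_interior_iff_isOpen]
    rintro z rfl
    exact hy
  rw [isOpen_induced_iff] at hopen
  obtain ⟨U, hU, hUy⟩ := hopen
  have hyU : (y : X) ∈ U := by
    have : y ∈ (Subtype.val : P → X) ⁻¹' U := by rw [hUy]; rfl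
    exact this
  obtain ⟨z, ⟨hzU, hzP⟩, hne⟩ := preperfect_iff_nhds.mp hP.acc y y.2 U (hU.mem_nhds hyU)
  apply hne
  have : (⟨z, hzP⟩ : P) ∈ (Subtype.val : P → X) ⁻¹' U := hzU
  rw [hUy] at this
  exact congrArg Subtype.val this

/-- Under the continuum hypothesis, every nonempty perfect Polish space contains a countably
perfectly meager and universally null set that is not countably perfectly null. -/
theorem exists_general [PolishSpace X] [PerfectSpace X] [Nonempty X] [MeasurableSpace X]
    [BorelSpace X] (CH : Cardinal.continuum.{0} = Cardinal.aleph 1) :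
    ∃ A : Set X, CountablyPerfectlyMeager A ∧ UniversallyNull A ∧ ¬ CountablyPerfectlyNull A := by
  obtain ⟨A, hM, hU, hN⟩ := exists_set' CH
  obtain ⟨φ, hφ⟩ := exists_copy (X := X)
  have hme : MeasurableEmbedding φ := hφ.measurableEmbedding
  refine ⟨φ '' A, ?_, ?_, ?_⟩
  · intro P hP
    have hD : ∀ n, ∃ D : Set (P n), D.Countable ∧ Dense D := fun n =>
      TopologicalSpace.exists_countable_dense (P n)
    choose D hDc hDd using hD
    have hDc' : (φ ⁻¹' (⋃ n, Subtype.val '' (D n))).Countable :=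
      (countable_iUnion (fun n => (hDc n).image _)).preimage hφ.injective
    obtain ⟨F, hF, hFD, hR⟩ := hM _ hDc'
    refine ⟨(⋃ k, φ '' (F k)) ∪ φ '' (A \ ⋃ k, F k), ?_, ?_, ?_⟩
    · obtain ⟨r, hr⟩ : ∃ r : ℕ → Set X, (∀ n, IsClosed (r n)) ∧
          φ '' (A \ ⋃ k, F k) = ⋃ n, r n := by
        rcases (φ '' (A \ ⋃ k, F k)).eq_empty_or_nonempty with he | hne
        · exact ⟨fun _ => ∅, fun _ => isClosed_empty, by rw [he]; simp⟩
        · obtain ⟨e, he⟩ := (hR.image φ).exists_eq_range hne
          refine ⟨fun n => {e n}, fun _ => isClosed_singleton, ?_⟩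
          rw [he]
          ext x
          simp [eq_comm]
      refine ⟨fun n => φ '' (F n) ∪ r n, fun n =>
        (hφ.isClosedMap _ (hF n)).union (hr.1 n), ?_⟩
      rw [hr.2, iUnion_union_distrib]
    · rintro _ ⟨x, hx, rfl⟩
      by_cases hxF : x ∈ ⋃ k, F k
      · left
        obtain ⟨k, hk⟩ := mem_iUnion.mp hxF
        exact mem_iUnion.mpr ⟨k, x, hk, rfl⟩
      · right
        exact ⟨x, ⟨hx, hxF⟩, rfl⟩
    · intro n
      rw [preimage_union, preimage_iUnion]
      refine IsMeagre.union (isMeagre_iUnion fun k => ?_)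
        (isMeagre_of_countable (hP n) (hR.image φ))
      apply IsNowhereDense.isMeagre
      have hcl : IsClosed ((Subtype.val : P n → X) ⁻¹' (φ '' (F k))) :=
        (hφ.isClosedMap _ (hF k)).preimage continuous_subtype_val
      rw [hcl.isNowhereDense_iff]
      by_contra hne
      obtain ⟨z, hz, hzD⟩ := (hDd n).inter_open_nonempty _ isOpen_interior
        (nonempty_iff_ne_empty.mpr hne)
      have hz' : z ∈ (Subtype.val : P n → X) ⁻¹' (φ '' (F k)) := interior_subset hz
      obtain ⟨x, hx, hxz⟩ := hz'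
      refine Set.disjoint_left.mp (hFD k) hx ?_
      rw [mem_preimage, hxz, mem_iUnion]
      exact ⟨n, z, hzD, rfl⟩
  · intro μ hμ hna
    have h := hU (μ.comap φ) (by
        constructor
        rw [hme.comap_apply]
        exact measure_lt_top _ _) (by
        intro x
        rw [hme.comap_apply, image_singleton]
        exact hna _)
    rw [hme.comap_apply] at h
    exact h
  · intro hcon
    have hfin : IsFiniteMeasure (lam.map φ) := by infer_instance
    obtain ⟨F, ⟨C, hC, rfl⟩, hAF, h0⟩ := hcon (lam.map φ) hfin (by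
      intro x
      rw [hme.map_apply]
      have hs : (φ ⁻¹' {x}).Subsingleton := subsingleton_singleton.preimage hφ.injective
      rcases hs.eq_empty_or_singleton with h | ⟨y, h⟩
      · rw [h, measure_empty]
      · rw [h]
        exact lam_sing y)
    refine hN (fun n => φ ⁻¹' (C n)) (fun n => (hC n).preimage hφ.continuous) ?_ ?_
    · intro n
      rw [← hme.map_apply]
      exact measure_mono_null (subset_iUnion C n) h0
    · intro x hx
      obtain ⟨n, hn⟩ := mem_iUnion.mp (hAF ⟨x, hx, rfl⟩)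
      exact mem_iUnion.mpr ⟨n, hn⟩

end general

end Pool.Agent.H341Q.PN
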