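import Mathlib
import Pool.Agent.H341Q.Cond

/-! The club shooting poset is strongly distributive. -/

set_option autoImplicit false
set_option linter.all false

namespace Pool.Agent.H341Q.SD

open Cardinal Order Set Pool.Agent.H341Q

universe u

variable {W : Type u} [LinearOrder W] [WellFoundedLT W] [NoMaxOrder W] [Nonempty W]

/-- a bound for all conditions below a point -/
lemma exists_common_bound {μ : Cardinal.{u}} {S : Set W} {ρ : Cardinal.{u}} (hcof : μ < cof W)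
    (hcount : ∀ x : W, #{X : Cond S ρ // X.set ⊆ Iic x} ≤ μ) (b : Cond S ρ → W) (x : W) :
    ∃ g, ∀ X : Cond S ρ, X.set ⊆ Iic x → b X < g := by
  obtain ⟨g, hg⟩ := exists_bound
    (s := range (fun X : {X : Cond S ρ // X.set ⊆ Iic x} => b X.1))
    ((mk_range_le.trans (hcount x)).trans_lt hcof)
  exact ⟨g, fun X hX => hg _ ⟨⟨X, hX⟩, rfl⟩⟩

theorem strong {μ : Cardinal.{u}} {S : Set W} {ρ : Cardinal.{u}} (hρ : ρ.IsRegular)
    (hμ : ℵ₀ ≤ μ) (hρμ : ρ ≤ μ) (hcof : μ < cof W) (hseg : ∀ x : W, #(Iic x) < cof W)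
    (hcount : ∀ x : W, #{X : Cond S ρ // X.set ⊆ Iic x} ≤ μ)
    (hfat : ∀ E : Set W, IsClub E → ∃ h : Ordinal.{u} → W,
      (∀ α β, α < β → β < ρ.ord → h α < h β) ∧
      (∀ α < ρ.ord, IsSuccLimit α → ∀ y < h α, ∃ β < α, y < h β) ∧
      (∀ α < ρ.ord, h α ∈ E) ∧ ∀ α < ρ.ord, h α ∉ S) :
    StronglyDistributive (Cond S ρ) ρ := by
  classical
  intro D hD p
  have hc0 : ℵ₀ < cof W := hμ.trans_lt hcof
  let e : Cond S ρ → Ordinal.{u} → Cond S ρ := fun X α =>
    if hα : α < ρ.ord then Classical.choose ((hD α hα).2 X) else X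
  have he1 : ∀ X, ∀ α < ρ.ord, e X α ≤ X := by
    intro X α hα
    simp only [e, dif_pos hα]
    exact (Classical.choose_spec ((hD α hα).2 X)).1
  have he2 : ∀ X, ∀ α < ρ.ord, e X α ∈ D α := by
    intro X α hα
    simp only [e, dif_pos hα]
    exact (Classical.choose_spec ((hD α hα).2 X)).2
  -- bound for all extensions of one condition
  have hb : ∀ X : Cond S ρ, ∃ b : W, ∀ α < ρ.ord, ∀ z ∈ (e X α).set, z < b := by
    intro X
    obtain ⟨b, hb⟩ := exists_bound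
      (s := ⋃ i : ρ.ord.ToType, (e X (Ordinal.ToType.toOrd i).1).set) (by
        refine (mk_iUnion_le _).trans_lt ?_
        refine lt_of_le_of_lt ?_ hcof
        rw [mk_ord_toType]
        refine (mul_le_mul' hρμ (ciSup_le' fun i => ?_)).trans (mul_eq_self hμ).le
        exact (e X _).small.le.trans hρμ)
    refine ⟨b, fun α hα z hz => hb z ?_⟩
    rw [mem_iUnion]
    refine ⟨Ordinal.ToType.mk ⟨α, hα⟩, ?_⟩
    simpa using hz
  choose b hb using hb
  choose g hg using exists_common_bound hcof hcount b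
  obtain ⟨x₀, hx₀⟩ := exists_bound (s := p.set) (p.small.trans_le (hρμ.trans hcof.le))
  have hE : IsClub ({x | ∀ y < x, g y < x} ∩ Ioi x₀) :=
    (isClub_closure hc0 hseg g).inter hc0.ne' (isClub_Ioi x₀)
  obtain ⟨h, h1, h2, h3, h4⟩ := hfat _ hE
  have h5 : ∀ α < ρ.ord, ∀ z ∈ p.set, z < h α := fun α hα z hz =>
    (hx₀ z hz).trans (h3 α hα).2
  have h6 : ∀ α β, α < β → β < ρ.ord → ∀ X : Cond S ρ, X.set ⊆ Iic (h α) →
      ∀ z ∈ (e X α).set, z < h β := by
    intro α β hαβ hβ X hX z hz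
    have h7 := (h3 β hβ).1 (h α) (h1 α β hαβ hβ)
    exact ((hb X α (hαβ.trans hβ) z hz).trans (hg (h α) X hX)).trans h7
  have hinv := inv_all hρ p e he1 h h1 h2 h4 h5 h6
  have hR : ∀ α (hα : α < ρ.ord), R p e h α =
      e ⟨Q p e h α, (hinv α hα).good.1, (hinv α hα).good.2.1, (hinv α hα).good.2.2⟩ α :=
    fun α hα => R_eq p e h α (hinv α hα).good
  have hRle : ∀ α (hα : α < ρ.ord), R p e h α ≤
      ⟨Q p e h α, (hinv α hα).good.1, (hinv α hα).good.2.1, (hinv α hα).good.2.2⟩ := by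
    intro α hα
    rw [hR α hα]
    exact he1 _ α hα
  refine ⟨R p e h, ?_, ?_, ?_⟩
  · have hpos : (0 : Ordinal.{u}) < ρ.ord := hρ.ord_pos
    refine (hRle 0 hpos).trans ⟨fun z hz => mem_Q.2 (Or.inl hz), ?_⟩
    intro x hx y hy hxy
    exact (hinv 0 hpos).segp y hy x hx hxy
  · intro α hα
    rw [hR α hα]
    exact he2 _ α hα
  · intro α β hαβ hβ
    refine (hRle β hβ).trans ⟨fun z hz => mem_Q.2 (Or.inr (Or.inr ⟨α, hαβ, hz⟩)), ?_⟩
    intro x hx y hy hxy
    exact (hinv β hβ).seg α hαβ y hy x hx hxy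

/-- counting conditions -/
lemma count {μ : Cardinal.{u}} {S : Set W} {ρ : Cardinal.{u}} (hρ : ℵ₀ ≤ ρ)
    (hμ : μ = 2 ^ ρ) (hseg : ∀ x : W, #(Iic x) ≤ μ) (x : W) :
    #{X : Cond S ρ // X.set ⊆ Iic x} ≤ μ := by
  have h1 : #{X : Cond S ρ // X.set ⊆ Iic x} ≤ #{t : Set W // t ⊆ Iic x ∧ #t ≤ ρ} := by
    refine Cardinal.mk_le_of_injective
      (f := fun X => ⟨X.1.set, X.2, X.1.small.le⟩) ?_
    intro X Y hXY
    have h2 : X.1.set = Y.1.set := congrArg Subtype.val hXY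
    exact Subtype.ext (Cond.ext h2)
  refine h1.trans ((mk_bounded_subset_le _ _).trans ?_)
  have h0 : ℵ₀ ≤ μ := by
    rw [hμ]
    exact hρ.trans (cantor ρ).le
  have h2 : max #(Iic x) ℵ₀ ≤ μ := max_le (hseg x) h0
  refine (power_le_power_right h2).trans ?_
  rw [hμ, ← power_mul, mul_eq_self hρ]

end Pool.Agent.H341Q.SD
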