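import Mathlib
import Pool.Agent.H341Q.Strong
import Pool.Agent.H341Q.Game

/-! Main theorem on strong distributivity and strategic closure. -/

set_option autoImplicit false
set_option linter.all false

namespace Pool.Agent.H341Q.SD

open Cardinal Order Set Pool.Agent.H341Q

universe u

lemma StronglyDistributive.mono {P : Type u} [PartialOrder P] {κ ρ : Cardinal.{u}} (h : κ ≤ ρ)
    (hP : StronglyDistributive P ρ) : StronglyDistributive P κ := by
  classical
  intro D hD p
  obtain ⟨s, h1, h2, h3⟩ := hP (fun α => if α < κ.ord then D α else univ) (by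
    intro α _
    by_cases hα : α < κ.ord
    · simp only [hα, if_true]
      exact hD α hα
    · simp only [hα, if_false]
      exact ⟨fun _ _ _ _ => mem_univ _, fun p => ⟨p, le_rfl, mem_univ _⟩⟩) p
  have hle : κ.ord ≤ ρ.ord := ord_le_ord.2 h
  refine ⟨s, h1, ?_, fun α β hαβ hβ => h3 α β hαβ (hβ.trans_le hle)⟩
  intro α hα
  have := h2 α (hα.trans_le hle)
  simpa [hα] using this

lemma ComWins.mono {P : Type u} [PartialOrder P] [OrderTop P] {δ δ' : Ordinal.{u}} (h : δ ≤ δ')
    (hP : ComWins P δ') : ComWins P δ := by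
  obtain ⟨σ, hσ⟩ := hP
  exact ⟨σ, fun s α hα => hσ s α (hα.trans_le h)⟩

theorem main (κ : Cardinal.{u}) (hκ : ℵ₀ < κ) :
    ∃ (P : Type u) (_ : PartialOrder P) (_ : OrderTop P),
      StronglyDistributive P κ ∧ ¬ ComWins P κ.ord ∧ ¬ ComWins P (Ordinal.omega0 + 1) := by
  classical
  set ρ : Cardinal.{u} := succ κ with hρdef
  set μ : Cardinal.{u} := 2 ^ ρ with hμdef
  have hρ : ρ.IsRegular := isRegular_succ hκ.le
  have hρ0 : ℵ₀ ≤ ρ := hρ.aleph0_le
  have hρμ : ρ < μ := cantor ρ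
  have hμ : ℵ₀ ≤ μ := hρ0.trans hρμ.le
  have hreg : (succ μ).IsRegular := isRegular_succ hμ
  have hcofeq : cof (succ μ).ord.ToType = succ μ := by
    rw [Ordinal.cof_toType, hreg.cof_ord]
  have hcof : μ < cof (succ μ).ord.ToType := by
    rw [hcofeq]; exact lt_succ μ
  have hW : #(succ μ).ord.ToType = succ μ := mk_ord_toType _
  have hne : Nonempty (succ μ).ord.ToType := by
    rw [Ordinal.nonempty_toType_iff]
    exact hreg.ord_pos.ne'
  have hnm : NoMaxOrder (succ μ).ord.ToType := by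
    rw [← noTopOrder_iff_noMaxOrder, ← one_lt_cof_iff]
    exact one_lt_aleph0.trans_le (hμ.trans hcof.le)
  have hIio : ∀ x : (succ μ).ord.ToType, #(Iio x) ≤ μ := fun x =>
    lt_succ_iff.1 (mk_Iio_toType_ord_lt x)
  have hIic : ∀ x : (succ μ).ord.ToType, #(Iic x) ≤ μ := by
    intro x
    have : (Iic x : Set (succ μ).ord.ToType) = insert x (Iio x) := by
      ext y
      simp [le_iff_eq_or_lt]
    rw [this]
    refine mk_insert_le.trans ?_
    exact add_le_of_le hμ (hIio x) (one_lt_aleph0.le.trans hμ)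
  obtain ⟨ι, S, hι, hdisj, hlim, hstat⟩ := ulam (W := (succ μ).ord.ToType) (ν := succ ρ) hμ hW hcof
    hIio (succ_le_of_lt hρμ)
  obtain ⟨i, hi⟩ := fat hμ (ι := ι) (ρ := ρ) (by rw [hι]; exact lt_succ ρ)
    (by rw [hι]; exact succ_le_of_lt hρμ) S hdisj
  have hcount : ∀ x : (succ μ).ord.ToType, #{X : Cond (S i) ρ // X.set ⊆ Iic x} ≤ μ :=
    count hρ0 hμdef hIic
  have h1 : StronglyDistributive (Cond (S i) ρ) ρ :=
    strong hρ hμ hρμ.le hcof (fun x => (hIic x).trans_lt hcof) hcount hi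
  have h2 := not_comWins hρ0 hμ hρμ.le hcof (fun x => (hIic x).trans_lt hcof) hcount
    (hlim i) (hstat i)
  have h3 : Ordinal.omega0 < κ.ord := by
    rw [← ord_aleph0]
    exact ord_lt_ord.2 hκ
  letI := topI (S := S i) (ρ := ρ) (aleph0_pos.trans_le hρ0)
  exact ⟨Cond (S i) ρ, inferInstance, topI (aleph0_pos.trans_le hρ0), h1.mono (le_succ κ),
    fun h => h2 (ComWins.mono (Order.add_one_le_iff.2 h3) h), h2⟩

end Pool.Agent.H341Q.SD
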