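import Pool.Agent.H341Q.TUDefs

open Set

namespace Pool.Agent.H341Q.TU

/-- The sequence of points chosen along a function. -/
def qs (m : ℕ → ℕ) : ℕ → ℕ
  | 0 => 0
  | i + 1 => max (qs m i + 1) (m (qs m i))

theorem qs_strictMono (m : ℕ → ℕ) : StrictMono (qs m) := by
  apply strictMono_nat_of_lt_succ
  intro i
  simp only [qs]
  exact lt_of_lt_of_le (Nat.lt_succ_self _) (le_max_left _ _)

theorem exists_block (m : ℕ → ℕ) (x : ℕ) : ∃ i, qs m i ≤ x ∧ x < qs m (i + 1) := by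
  have h : ∀ n, x < qs m n → ∃ i, qs m i ≤ x ∧ x < qs m (i + 1) := by
    intro n
    induction n with
    | zero => intro h; simp [qs] at h
    | succ n ih =>
      intro h
      by_cases h' : x < qs m n
      · exact ih h'
      · exact ⟨n, not_lt.1 h', h⟩
  exact h (x + 1) (lt_of_lt_of_le (Nat.lt_succ_self x) ((qs_strictMono m).le_apply))

/-- For a p-point `V` and sets `X k ∈ V` there is `X ∈ V` such that for infinitely many `k` the
part of `X` above `k` is contained in `X k`. -/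
theorem exists_gap {V : Ultrafilter ℕ} (hV : IsPPt V) (Xs : ℕ → Set ℕ)
    (hX : ∀ k, Xs k ∈ V) : ∃ X ∈ V, ∃ K : Set ℕ, (∀ m, ∃ k ∈ K, m ≤ k) ∧
      ∀ k ∈ K, ∀ x ∈ X, k ≤ x → x ∈ Xs k := by
  obtain ⟨P, hP, hfin⟩ := hV (Set.range Xs) (Set.countable_range Xs) (by
    rintro A ⟨k, rfl⟩; exact hX k)
  have hm : ∀ k, ∃ m, ∀ x ∈ P, m ≤ x → x ∈ Xs k := by
    intro k
    have := hfin (Xs k) ⟨k, rfl⟩
    obtain ⟨b, hb⟩ := this.bddAbove
    refine ⟨b + 1, fun x hx hbx => ?_⟩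
    by_contra hx'
    have := hb ⟨hx, hx'⟩
    omega
  choose m hm using hm
  have key : ∀ p : ℕ → Prop, (∀ i, p i ↔ ¬ p (i + 1)) →
      {x | ∃ i, p i ∧ qs m i ≤ x ∧ x < qs m (i + 1)} ∈ V →
      ∃ X ∈ V, ∃ K : Set ℕ, (∀ m, ∃ k ∈ K, m ≤ k) ∧
      ∀ k ∈ K, ∀ x ∈ X, k ≤ x → x ∈ Xs k := by
    intro p hp hE
    refine ⟨_, Filter.inter_mem hP hE, {k | ∃ i, ¬ p i ∧ k = qs m i}, ?_, ?_⟩
    · intro n
      by_cases h : p n
      · exact ⟨qs m (n + 1), ⟨n + 1, (hp n).1 h, rfl⟩,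
          le_trans (Nat.le_succ n) (qs_strictMono m).le_apply⟩
      · exact ⟨qs m n, ⟨n, h, rfl⟩, (qs_strictMono m).le_apply⟩
    · rintro k ⟨i, hi, rfl⟩ x ⟨hxP, j, hj, hjx, hxj⟩ hix
      have h1 : i < j + 1 := (qs_strictMono m).lt_iff_lt.1 (lt_of_le_of_lt hix hxj)
      have h2 : i ≠ j := by rintro rfl; exact hi hj
      have h3 : i + 1 ≤ j := by omega
      have h4 : qs m (i + 1) ≤ x := le_trans ((qs_strictMono m).monotone h3) hjx
      exact hm _ x hxP (le_trans (le_max_right _ _) h4)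
  by_cases hE : {x | ∃ i, Even i ∧ qs m i ≤ x ∧ x < qs m (i + 1)} ∈ V
  · refine key (fun i => Even i) (fun i => ?_) hE
    rw [Nat.even_add_one, not_not]
  · refine key (fun i => ¬ Even i) (fun i => ?_) ?_
    · rw [Nat.even_add_one, not_not]
    · rw [← Ultrafilter.compl_mem_iff_notMem] at hE
      refine Filter.mem_of_superset hE ?_
      intro x hx
      obtain ⟨i, hi, hi'⟩ := exists_block m x
      refine ⟨i, fun he => hx ⟨i, he, hi, hi'⟩, hi, hi'⟩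

open Classical in
/-- The part of `Y` below `k`. -/
noncomputable def tr (Y : Set ℕ) (k : ℕ) : Finset ℕ := (Finset.range k).filter (· ∈ Y)

theorem mem_tr {Y : Set ℕ} {k j : ℕ} : j ∈ tr Y k ↔ j < k ∧ j ∈ Y := by
  simp [tr]

/-- The family of sets coded by `V` and the relation `R`. -/
def Coded (V : Ultrafilter ℕ) (R : Set (ℕ × Finset ℕ × ℕ)) : Set (Set ℕ) :=
  {B | ∃ Y ∈ V, ∀ k n, (k, tr Y k, n) ∈ R → n ∈ B}

/-- Every ultrafilter Tukey below a p-point `V` is coded by a relation. -/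
theorem coded_of_tukLE {V W : Ultrafilter ℕ} (hV : IsPPt V)
    (h : TukLE (InclOrd W) (InclOrd V)) : ∃ R, ∀ B, B ∈ W ↔ B ∈ Coded V R := by
  classical
  obtain ⟨f, hf⟩ := h
  set g : Set ℕ → Set ℕ := fun Y => {n | ∀ B, ∀ hB : B ∈ W, Y ⊆ (f ⟨B, hB⟩).1 → n ∈ B} with hg
  have g1 : ∀ Y ∈ V, g Y ∈ W := by
    intro Y hY
    have h1 := hf {B | Y ⊆ (f B).1}
    by_contra hcon
    refine h1 ?_ ⟨⟨Y, hY⟩, fun a ha => ha⟩
    rintro ⟨⟨C, hC⟩, hC'⟩
    apply hcon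
    refine Filter.mem_of_superset hC ?_
    intro n hn B hB hYB
    exact hC' ⟨B, hB⟩ hYB hn
  have g2 : ∀ Y Y' : Set ℕ, Y' ⊆ Y → g Y' ⊆ g Y := by
    intro Y Y' hYY n hn B hB hYB
    exact hn B hB (hYY.trans hYB)
  have g3 : ∀ B ∈ W, ∃ Y ∈ V, g Y ⊆ B := by
    intro B hB
    exact ⟨(f ⟨B, hB⟩).1, (f ⟨B, hB⟩).2, fun n hn => hn B hB (le_refl _)⟩
  -- the decision predicate
  set D : ℕ → Set ℕ → ℕ → Prop := fun k s n => ∀ Z ∈ V, n ∈ g (s ∪ {x | x ∈ Z ∧ k ≤ x}) with hD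
  have hZ : ∀ k (s : Finset ℕ) n, ∃ Z ∈ V, ¬ D k s n → n ∉ g (↑s ∪ {x | x ∈ Z ∧ k ≤ x}) := by
    intro k s n
    by_cases hd : D k s n
    · exact ⟨univ, Filter.univ_mem, fun h => absurd hd h⟩
    · have hd' := hd
      simp only [hD] at hd'
      push Not at hd'
      obtain ⟨Z, hZ, hn⟩ := hd'
      exact ⟨Z, hZ, fun _ => hn⟩
  choose Z hZV hZ using hZ
  set Xs : ℕ → Set ℕ := fun k => ⋂ s ∈ (Finset.range k).powerset, ⋂ n ∈ Finset.range (k + 1), Z k s n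
    with hXs
  have hXV : ∀ k, Xs k ∈ V := by
    intro k
    simp only [hXs]
    refine (Filter.biInter_finset_mem _).2 fun s _ => ?_
    exact (Filter.biInter_finset_mem _).2 fun n _ => hZV k s n
  obtain ⟨X, hX, K, hK, hXK⟩ := exists_gap hV Xs hXV
  refine ⟨{p | p.1 ∈ K ∧ p.2.2 ≤ p.1 ∧ D p.1 (↑p.2.1 ∩ X) p.2.2}, fun B => ⟨?_, ?_⟩⟩
  · intro hB
    obtain ⟨Y, hY, hYB⟩ := g3 B hB
    refine ⟨Y, hY, ?_⟩
    rintro k n ⟨_, _, hd⟩
    apply hYB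
    have h1 := hd (Y ∩ X) (Filter.inter_mem hY hX)
    refine g2 _ _ ?_ h1
    rintro x (⟨hx, _⟩ | ⟨⟨hx, _⟩, _⟩)
    · exact (mem_tr.1 (Finset.mem_coe.1 hx)).2
    · exact hx
  · rintro ⟨Y, hY, hYB⟩
    refine Filter.mem_of_superset (g1 _ (Filter.inter_mem hY hX)) ?_
    intro n hn
    obtain ⟨k, hkK, hnk⟩ := hK n
    apply hYB k n
    refine ⟨hkK, hnk, ?_⟩
    have hset : (↑(tr Y k) ∩ X : Set ℕ) = ↑(tr (Y ∩ X) k) := by
      ext x
      simp only [mem_inter_iff, Finset.mem_coe, mem_tr]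
      tauto
    show D k (↑(tr Y k) ∩ X) n
    rw [hset]
    by_contra hd
    apply hZ k _ n hd
    refine g2 _ _ ?_ hn
    rintro x ⟨hxY, hxX⟩
    by_cases hxk : x < k
    · left
      exact Finset.mem_coe.2 (mem_tr.2 ⟨hxk, hxY, hxX⟩)
    · right
      refine ⟨?_, not_lt.1 hxk⟩
      have h1 := hXK k hkK x hxX (not_lt.1 hxk)
      simp only [hXs, mem_iInter] at h1
      refine h1 (tr (Y ∩ X) k) ?_ n (Finset.mem_range.2 (Nat.lt_succ_of_le hnk))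
      rw [Finset.mem_powerset]
      intro y hy
      exact Finset.mem_range.2 (mem_tr.1 hy).1

end Pool.Agent.H341Q.TU
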