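import Mathlib

open Set

namespace Pool.Agent.H341Q.TU

/-- Tukey reducibility `(P, r) ≤_T (Q, s)`, where `r a b` means that `b` is above `a`: some map
`f : P → Q` sends every unbounded subset of `P` to an unbounded subset of `Q`. -/
def TukLE {P Q : Type*} (r : P → P → Prop) (s : Q → Q → Prop) : Prop :=
  ∃ f : P → Q, ∀ A : Set P, (¬ ∃ b, ∀ a ∈ A, r a b) → ¬ ∃ c, ∀ a ∈ A, s (f a) c

/-- The order `(U, ⊇)`: `B` is above `A` when `A ⊇ B`. -/
def InclOrd (U : Ultrafilter ℕ) (A B : {A : Set ℕ // A ∈ U}) : Prop := B.1 ⊆ A.1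

/-- The order `(U, ⊇*)`: `B` is above `A` when `B \ A` is finite. -/
def AlmOrd (U : Ultrafilter ℕ) (A B : {A : Set ℕ // A ∈ U}) : Prop := (B.1 \ A.1).Finite

/-- Nonprincipal ultrafilters on `ℕ`. -/
def NonPrin (U : Ultrafilter ℕ) : Prop := ∀ n : ℕ, ({n} : Set ℕ) ∉ U

/-- `U` is a p-point: every countable subfamily of `U` has a pseudo-intersection in `U`. -/
def IsPPt (U : Ultrafilter ℕ) : Prop :=
  ∀ S : Set (Set ℕ), S.Countable → (∀ A ∈ S, A ∈ U) → ∃ B ∈ U, ∀ A ∈ S, (B \ A).Finite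

/-- The Fubini product `V · W`, as an ultrafilter on `ℕ` through the pairing function: `A` is in
it when for `V`-many `i` the column `{j | ⟨i, j⟩ ∈ A}` is in `W`. -/
def fub (V W : Ultrafilter ℕ) : Ultrafilter ℕ := V.bind fun i => W.map (Nat.pair i)

/-- `𝔭 = 𝔠`: every family of fewer than continuum many subsets of `ℕ`, all of whose finite
subfamilies have infinite intersection, has an infinite pseudo-intersection. -/
def PEqC : Prop :=
  ∀ S : Set (Set ℕ), Cardinal.mk S < Cardinal.continuum →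
    (∀ F : Set (Set ℕ), F ⊆ S → F.Finite → (⋂₀ F).Infinite) →
    ∃ P : Set ℕ, P.Infinite ∧ ∀ A ∈ S, (P \ A).Finite

theorem finite_notMem {U : Ultrafilter ℕ} (h : NonPrin U) {A : Set ℕ} (hA : A.Finite) :
    A ∉ U := by
  induction A, hA using Set.Finite.induction_on with
  | empty => exact U.empty_notMem
  | insert _ _ ih =>
    intro hU
    rw [Set.insert_eq, Ultrafilter.union_mem_iff] at hU
    rcases hU with hU | hU
    · exact h _ hU
    · exact ih hU

theorem infinite_of_mem {U : Ultrafilter ℕ} (h : NonPrin U) {A : Set ℕ} (hA : A ∈ U) :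
    A.Infinite := fun hf => finite_notMem h hf hA

theorem ici_mem {U : Ultrafilter ℕ} (h : NonPrin U) (k : ℕ) : {x : ℕ | k ≤ x} ∈ U := by
  have h1 : ({x : ℕ | k ≤ x})ᶜ ∉ U := by
    apply finite_notMem h
    apply (Set.finite_lt_nat k).subset
    intro x hx
    simpa using hx
  exact Ultrafilter.compl_notMem_iff.1 h1

theorem mem_fub {V W : Ultrafilter ℕ} {A : Set ℕ} :
    A ∈ fub V W ↔ {i | {j | Nat.pair i j ∈ A} ∈ W} ∈ V := by
  unfold fub
  rfl

end Pool.Agent.H341Q.TU
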