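import Pool.Agent.H341Q.TUDefs

open Set

namespace Pool.Agent.H341Q.TU

theorem fub_nonPrin {V W : Ultrafilter ℕ} (hW : NonPrin W) : NonPrin (fub V W) := by
  intro n hn
  rw [mem_fub] at hn
  obtain ⟨i, hi⟩ := V.nonempty_of_mem hn
  refine finite_notMem hW (A := {j | Nat.pair i j ∈ ({n} : Set ℕ)}) ?_ hi
  refine (Set.finite_singleton n.unpair.2).subset ?_
  intro j hj
  have h1 : Nat.pair i j = n := hj
  show j = n.unpair.2
  rw [← h1, Nat.unpair_pair]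

theorem fub_not_isPPt {V W : Ultrafilter ℕ} (hV : NonPrin V) (hW : NonPrin W) :
    ¬ IsPPt (fub V W) := by
  intro h
  obtain ⟨B, hB, hfin⟩ := h (Set.range fun m : ℕ => {x : ℕ | m ≤ x.unpair.1})
    (Set.countable_range _) (by
      rintro _ ⟨m, rfl⟩
      rw [mem_fub]
      refine Filter.mem_of_superset (ici_mem hV m) ?_
      intro i hi
      refine Filter.mem_of_superset Filter.univ_mem ?_
      intro j _
      show m ≤ (Nat.pair i j).unpair.1
      rw [Nat.unpair_pair]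
      exact hi)
  rw [mem_fub] at hB
  obtain ⟨i, hi⟩ := V.nonempty_of_mem hB
  have h1 : {j | Nat.pair i j ∈ B}.Infinite := infinite_of_mem hW hi
  have h2 := hfin _ ⟨i + 1, rfl⟩
  apply h1
  refine Set.Finite.of_finite_image (f := fun j => Nat.pair i j) (h2.subset ?_) ?_
  · rintro _ ⟨j, hj, rfl⟩
    refine ⟨hj, ?_⟩
    intro h3
    have h4 : i + 1 ≤ (Nat.pair i j).unpair.1 := h3
    rw [Nat.unpair_pair] at h4
    simp at h4
  · intro a _ b _ hab
    exact (Nat.pair_eq_pair.1 hab).2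

theorem almOrd_le_inclOrd (U : Ultrafilter ℕ) : TukLE (AlmOrd U) (InclOrd U) := by
  refine ⟨id, fun A hA ⟨c, hc⟩ => hA ⟨c, fun a ha => ?_⟩⟩
  have h1 : c.1 ⊆ a.1 := hc a ha
  show (c.1 \ a.1).Finite
  rw [Set.sdiff_eq_empty.2 h1]
  exact Set.finite_empty

/-- A countable family in `(V · W, ⊇*)`, with `W` a p-point, is bounded as soon as its
projections have a common lower bound in `V`. -/
theorem bounded_of_proj {V W : Ultrafilter ℕ} (hW : IsPPt W) (A : ℕ → Set ℕ)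
    {Y : Set ℕ} (hY : Y ∈ V) (hYA : ∀ n, Y ⊆ {i | {j | Nat.pair i j ∈ A n} ∈ W}) :
    ∃ C ∈ fub V W, ∀ n, (C \ A n).Finite := by
  have h1 : ∀ i, ∃ B : Set ℕ, i ∈ Y → B ∈ W ∧ (∀ n, (B \ {j | Nat.pair i j ∈ A n}).Finite) ∧
      ∀ n ≤ i, B ⊆ {j | Nat.pair i j ∈ A n} := by
    intro i
    by_cases hi : i ∈ Y
    · obtain ⟨B, hB, hBf⟩ := hW (Set.range fun n => {j | Nat.pair i j ∈ A n})
        (Set.countable_range _) (by rintro _ ⟨n, rfl⟩; exact hYA n hi)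
      refine ⟨B ∩ ⋂ n ∈ Finset.range (i + 1), {j | Nat.pair i j ∈ A n}, fun _ => ⟨?_, ?_, ?_⟩⟩
      · exact Filter.inter_mem hB ((Filter.biInter_finset_mem _).2 fun n _ => hYA n hi)
      · intro n
        exact (hBf _ ⟨n, rfl⟩).subset (Set.sdiff_subset_sdiff_left inter_subset_left)
      · intro n hn x hx
        have h2 := hx.2
        simp only [mem_iInter] at h2
        exact h2 n (Finset.mem_range.2 (Nat.lt_succ_of_le hn))
    · exact ⟨∅, fun h => absurd h hi⟩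
  choose B hB using h1
  refine ⟨{x | x.unpair.1 ∈ Y ∧ x.unpair.2 ∈ B x.unpair.1}, ?_, ?_⟩
  · rw [mem_fub]
    refine Filter.mem_of_superset hY ?_
    intro i hi
    refine Filter.mem_of_superset (hB i hi).1 ?_
    intro j hj
    show (Nat.pair i j).unpair.1 ∈ Y ∧ (Nat.pair i j).unpair.2 ∈ B (Nat.pair i j).unpair.1
    rw [Nat.unpair_pair]
    exact ⟨hi, hj⟩
  · intro n
    have h2 : (⋃ i ∈ {i | i < n ∧ i ∈ Y},
        (fun j => Nat.pair i j) '' (B i \ {j | Nat.pair i j ∈ A n})).Finite := by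
      refine Set.Finite.biUnion ((Set.finite_lt_nat n).subset fun i hi => hi.1) ?_
      intro i hi
      exact ((hB i hi.2).2.1 n).image _
    refine h2.subset ?_
    rintro x ⟨⟨hx1, hx2⟩, hx3⟩
    have hx : Nat.pair x.unpair.1 x.unpair.2 = x := Nat.pair_unpair x
    simp only [mem_iUnion]
    refine ⟨x.unpair.1, ⟨?_, hx1⟩, x.unpair.2, ⟨hx2, ?_⟩, hx⟩
    · by_contra hlt
      apply hx3
      have h3 := (hB _ hx1).2.2 n (not_lt.1 hlt) hx2
      have h4 : Nat.pair x.unpair.1 x.unpair.2 ∈ A n := h3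
      rwa [hx] at h4
    · intro h4
      apply hx3
      have h5 : Nat.pair x.unpair.1 x.unpair.2 ∈ A n := h4
      rwa [hx] at h5

/-- The main reduction: if `(V · W, ⊇)` is Tukey below `(V · W, ⊇*)`, with `W` a p-point, then
`(W, ⊇)` is Tukey below `(V, ⊇)`. -/
theorem tukLE_of_fub {V W : Ultrafilter ℕ} (hW : IsPPt W)
    (h : TukLE (InclOrd (fub V W)) (AlmOrd (fub V W))) : TukLE (InclOrd W) (InclOrd V) := by
  obtain ⟨f, hf⟩ := h
  -- `W` embeds into `V · W`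
  have hemb : ∀ B ∈ W, {x : ℕ | x.unpair.2 ∈ B} ∈ fub V W := by
    intro B hB
    rw [mem_fub]
    refine Filter.mem_of_superset Filter.univ_mem ?_
    intro i _
    refine Filter.mem_of_superset hB ?_
    intro j hj
    show (Nat.pair i j).unpair.2 ∈ B
    rw [Nat.unpair_pair]
    exact hj
  set φ : {B : Set ℕ // B ∈ W} → {A : Set ℕ // A ∈ fub V W} := fun B =>
    f ⟨{x : ℕ | x.unpair.2 ∈ B.1}, hemb B.1 B.2⟩ with hφ
  refine ⟨fun B => ⟨{i | {j | Nat.pair i j ∈ (φ B).1} ∈ W}, mem_fub.1 (φ B).2⟩, ?_⟩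
  intro S hS
  rintro ⟨⟨Y, hY⟩, hYS⟩
  -- `S` is nonempty
  have hne : S.Nonempty := by
    by_contra hcon
    apply hS
    refine ⟨⟨univ, Filter.univ_mem⟩, fun a ha => absurd ⟨a, ha⟩ hcon⟩
  obtain ⟨B0, hB0⟩ := hne
  -- a countable subfamily with the same intersection
  have hsub : ∀ n : ℕ, ∃ B : {B : Set ℕ // B ∈ W}, B ∈ S ∧ ((∃ B' ∈ S, n ∉ B'.1) → n ∉ B.1) := by
    intro n
    by_cases hn : ∃ B' ∈ S, n ∉ B'.1
    · obtain ⟨B', hB', hn'⟩ := hn
      exact ⟨B', hB', fun _ => hn'⟩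
    · exact ⟨B0, hB0, fun h => absurd h hn⟩
  choose B hBS hBn using hsub
  have hunb : ¬ ∃ b : {A : Set ℕ // A ∈ fub V W}, ∀ a ∈
      (Set.range fun n => (⟨{x : ℕ | x.unpair.2 ∈ (B n).1}, hemb _ (B n).2⟩ :
        {A : Set ℕ // A ∈ fub V W})), InclOrd (fub V W) a b := by
    rintro ⟨⟨C, hC⟩, hC'⟩
    have hC1 := mem_fub.1 hC
    obtain ⟨i, hi⟩ := V.nonempty_of_mem hC1
    apply hS
    refine ⟨⟨{j | Nat.pair i j ∈ C}, hi⟩, ?_⟩
    intro B' hB' j hj
    by_contra hjB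
    have h1 := hBn j ⟨B', hB', hjB⟩
    apply h1
    have h2 : C ⊆ {x : ℕ | x.unpair.2 ∈ (B j).1} := hC' _ ⟨j, rfl⟩
    have h3 := h2 hj
    have h4 : (Nat.pair i j).unpair.2 ∈ (B j).1 := h3
    rw [Nat.unpair_pair] at h4
    exact h4
  apply hf _ hunb
  obtain ⟨C, hC, hCf⟩ := bounded_of_proj (V := V) hW (fun n => (φ (B n)).1) hY
    (fun n => hYS (B n) (hBS n))
  refine ⟨⟨C, hC⟩, ?_⟩
  rintro _ ⟨n, rfl⟩
  exact hCf n

end Pool.Agent.H341Q.TU
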