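import Pool.Agent.H341Q.TUDefs

open Set

namespace Pool.Agent.H341Q.TU

/-- A countable family with infinite finite intersections has an infinite pseudo-intersection. -/
theorem exists_pseudo (S : Set (Set ℕ)) (hS : S.Countable)
    (hinf : ∀ F : Set (Set ℕ), F ⊆ S → F.Finite → (⋂₀ F).Infinite) :
    ∃ P : Set ℕ, P.Infinite ∧ ∀ A ∈ S, (P \ A).Finite := by
  rcases S.eq_empty_or_nonempty with rfl | hne
  · exact ⟨univ, infinite_univ, by simp⟩
  obtain ⟨A, rfl⟩ := hS.exists_eq_range hne
  have hC : ∀ n : ℕ, (⋂₀ (A '' {i | i ≤ n})).Infinite := fun n =>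
    hinf _ (by rintro _ ⟨i, _, rfl⟩; exact ⟨i, rfl⟩) ((Set.finite_le_nat n).image _)
  obtain ⟨φ, hφ, hφ'⟩ := Filter.extraction_forall_of_frequently
    (P := fun n k => k ∈ ⋂₀ (A '' {i | i ≤ n}))
    (fun n => Nat.frequently_atTop_iff_infinite.2 (hC n))
  refine ⟨Set.range φ, Set.infinite_range_of_injective hφ.injective, ?_⟩
  rintro _ ⟨i, rfl⟩
  refine ((Set.finite_lt_nat i).image φ).subset ?_
  rintro _ ⟨⟨n, rfl⟩, hn⟩
  refine ⟨n, ?_, rfl⟩
  by_contra h
  apply hn
  exact (Set.mem_sInter.1 (hφ' n)) (A i) ⟨i, by simpa using h, rfl⟩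

theorem pEqC_of_ch (CH : Cardinal.continuum.{0} = Cardinal.aleph 1) : PEqC := by
  intro S hS hinf
  refine exists_pseudo S ?_ hinf
  rw [CH] at hS
  rw [← Cardinal.le_aleph0_iff_set_countable]
  have h1 : Cardinal.aleph 1 = Order.succ Cardinal.aleph0 := by
    rw [← Cardinal.aleph_zero, Cardinal.succ_aleph, zero_add]
  rw [h1] at hS
  exact Order.lt_succ_iff.1 hS

/-- An infinite set contains an infinite set that avoids `Φ`, or `Φ` has two disjoint members. -/
theorem exists_avoid (P : Set ℕ) (hP : P.Infinite) (Φ : Set (Set ℕ)) :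
    ∃ Q ⊆ P, Q.Infinite ∧ (Q ∉ Φ ∨ ∃ B ∈ Φ, ∃ C ∈ Φ, Disjoint B C) := by
  obtain ⟨φ, hφ, hφ'⟩ : ∃ φ : ℕ → ℕ, StrictMono φ ∧ Set.range φ ⊆ P := by
    obtain ⟨φ, hφ, hφ'⟩ := Filter.extraction_of_frequently_atTop
      (Nat.frequently_atTop_iff_infinite.2 hP)
    exact ⟨φ, hφ, by rintro _ ⟨n, rfl⟩; exact hφ' n⟩
  have hE : (Set.range fun n => φ (2 * n)).Infinite :=
    Set.infinite_range_of_injective (fun a b h => by have := hφ.injective h; omega)
  have hO : (Set.range fun n => φ (2 * n + 1)).Infinite :=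
    Set.infinite_range_of_injective (fun a b h => by have := hφ.injective h; omega)
  by_cases h1 : (Set.range fun n => φ (2 * n)) ∈ Φ
  · by_cases h2 : (Set.range fun n => φ (2 * n + 1)) ∈ Φ
    · refine ⟨P, le_refl _, hP, Or.inr ⟨_, h1, _, h2, ?_⟩⟩
      rw [Set.disjoint_left]
      rintro _ ⟨a, rfl⟩ ⟨b, hb⟩
      have := hφ.injective hb
      omega
    · refine ⟨_, ?_, hO, Or.inl h2⟩
      rintro _ ⟨n, rfl⟩
      exact hφ' ⟨_, rfl⟩
  · refine ⟨_, ?_, hE, Or.inl h1⟩
    rintro _ ⟨n, rfl⟩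
    exact hφ' ⟨_, rfl⟩

/-- The index type of the recursion. -/
abbrev TT : Type := Cardinal.continuum.{0}.ord.ToType

/-- The requirement at a stage. -/
def Req (Φ : Set ℕ → Set (Set ℕ)) (D : Set ℕ) (S : Set (Set ℕ)) (P : Set ℕ) : Prop :=
  P.Infinite ∧ (∀ A ∈ S, (P \ A).Finite) ∧ (P ⊆ D ∨ P ⊆ Dᶜ) ∧
    (P ∉ Φ D ∨ ∃ B ∈ Φ D, ∃ C ∈ Φ D, Disjoint B C)

theorem exists_req (Φ : Set ℕ → Set (Set ℕ)) (D : Set ℕ) (S : Set (Set ℕ))
    (h : ∃ P : Set ℕ, P.Infinite ∧ ∀ A ∈ S, (P \ A).Finite) : ∃ P, Req Φ D S P := by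
  obtain ⟨P, hP, hPS⟩ := h
  obtain ⟨P', hP'P, hP', hP'D⟩ : ∃ P' ⊆ P, P'.Infinite ∧ (P' ⊆ D ∨ P' ⊆ Dᶜ) := by
    by_cases h1 : (P ∩ D).Infinite
    · exact ⟨P ∩ D, inter_subset_left, h1, Or.inl inter_subset_right⟩
    · refine ⟨P ∩ Dᶜ, inter_subset_left, ?_, Or.inr inter_subset_right⟩
      intro h2
      apply hP
      rw [← Set.inter_union_compl P D]
      exact (Set.not_infinite.1 h1).union h2
  obtain ⟨Q, hQP, hQ, hQ'⟩ := exists_avoid P' hP' (Φ D)
  refine ⟨Q, hQ, fun A hA => (hPS A hA).subset ?_, ?_, hQ'⟩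
  · exact Set.sdiff_subset_sdiff_left (hQP.trans hP'P)
  · rcases hP'D with h | h
    · exact Or.inl (hQP.trans h)
    · exact Or.inr (hQP.trans h)

open Classical in
/-- The choice made at a stage. -/
noncomputable def pick (Φ : Set ℕ → Set (Set ℕ)) (D : Set ℕ) (S : Set (Set ℕ)) : Set ℕ :=
  if h : ∃ P, Req Φ D S P then h.choose else ∅

theorem pick_spec {Φ : Set ℕ → Set (Set ℕ)} {D : Set ℕ} {S : Set (Set ℕ)}
    (h : ∃ P, Req Φ D S P) : Req Φ D S (pick Φ D S) := by
  unfold pick
  rw [dif_pos h]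
  exact h.choose_spec

/-- The tower, by recursion. -/
noncomputable def tower (Φ : Set ℕ → Set (Set ℕ)) (e : TT → Set ℕ) : TT → Set ℕ :=
  WellFounded.fix (r := (· < ·)) wellFounded_lt fun a ih =>
    pick Φ (e a) {X | ∃ b, ∃ hb : b < a, X = ih b hb}

theorem tower_req (hp : PEqC) (Φ : Set ℕ → Set (Set ℕ)) (e : TT → Set ℕ) (a : TT) :
    Req Φ (e a) {X | ∃ b, b < a ∧ X = tower Φ e b} (tower Φ e a) := by
  induction a using WellFoundedLT.induction with
  | ind a ih =>
    set S : Set (Set ℕ) := {X | ∃ b, b < a ∧ X = tower Φ e b} with hSdef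
    have hex : ∃ P, Req Φ (e a) S P := by
      apply exists_req
      apply hp
      · have h1 : S = (tower Φ e) '' (Set.Iio a) := by
          ext X
          constructor
          · rintro ⟨b, hb, rfl⟩; exact ⟨b, hb, rfl⟩
          · rintro ⟨b, hb, rfl⟩; exact ⟨b, hb, rfl⟩
        rw [h1]
        refine lt_of_le_of_lt Cardinal.mk_image_le ?_
        have := Cardinal.mk_Iio_lt a (by simp)
        simpa using this
      · intro F hFS hF
        -- the finite family has a least element
        have key : ∀ F : Set (Set ℕ), F.Finite → F ⊆ S →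
            F = ∅ ∨ ∃ b, b < a ∧ (tower Φ e b \ ⋂₀ F).Finite := by
          intro F hF
          induction F, hF using Set.Finite.induction_on with
          | empty => intro _; exact Or.inl rfl
          | @insert X F _ _ ihF =>
            intro hsub
            right
            obtain ⟨c, hca, rfl⟩ := hsub (Set.mem_insert _ _)
            rcases ihF ((Set.subset_insert _ _).trans hsub) with rfl | ⟨b, hb, hbF⟩
            · exact ⟨c, hca, by simp⟩
            · rcases lt_trichotomy b c with hbc | rfl | hcb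
              · refine ⟨c, hca, ?_⟩
                have h1 := (ih c hca).2.1 _ ⟨b, hbc, rfl⟩
                rw [Set.sInter_insert]
                refine (h1.union hbF).subset ?_
                rintro x ⟨hx, hx'⟩
                by_cases hxb : x ∈ tower Φ e b
                · right
                  exact ⟨hxb, fun hxF => hx' ⟨hx, hxF⟩⟩
                · left
                  exact ⟨hx, hxb⟩
              · refine ⟨b, hb, ?_⟩
                rw [Set.sInter_insert]
                refine hbF.subset ?_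
                rintro x ⟨hx, hx'⟩
                exact ⟨hx, fun hxF => hx' ⟨hx, hxF⟩⟩
              · refine ⟨b, hb, ?_⟩
                have h1 := (ih b hb).2.1 _ ⟨c, hcb, rfl⟩
                rw [Set.sInter_insert]
                refine (h1.union hbF).subset ?_
                rintro x ⟨hx, hx'⟩
                by_cases hxc : x ∈ tower Φ e c
                · right
                  exact ⟨hx, fun hxF => hx' ⟨hxc, hxF⟩⟩
                · left
                  exact ⟨hx, hxc⟩
        rcases key F hF hFS with rfl | ⟨b, hb, hbF⟩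
        · simp [Set.infinite_univ]
        · intro hfin
          apply (ih b hb).1
          refine (hfin.union hbF).subset ?_
          intro x hx
          by_cases h : x ∈ ⋂₀ F
          · exact Or.inl h
          · exact Or.inr ⟨hx, h⟩
    have heq : tower Φ e a = pick Φ (e a) S := by
      have h0 : ({X | ∃ b, ∃ _ : b < a, X = tower Φ e b} : Set (Set ℕ)) = S := by
        ext X
        simp [hSdef]
      rw [← h0]
      unfold tower
      rw [WellFounded.fix_eq]
    rw [heq]
    exact pick_spec hex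

/-- Under `𝔭 = 𝔠`, for every family of continuum many sets of subsets of `ℕ` there is a
nonprincipal p-point different from all of them. -/
theorem exists_ppoint (hp : PEqC) (Φ : Set ℕ → Set (Set ℕ)) :
    ∃ W : Ultrafilter ℕ, NonPrin W ∧ IsPPt W ∧ ∀ D, ¬ ∀ B, B ∈ W ↔ B ∈ Φ D := by
  obtain ⟨e⟩ : Nonempty (TT ≃ Set ℕ) := by
    rw [← Cardinal.eq]
    simp
  set A := tower Φ e with hA
  have hreq := tower_req hp Φ e
  have hAinf : ∀ a, (A a).Infinite := fun a => (hreq a).1
  have hAle : ∀ a b, b ≤ a → (A a \ A b).Finite := by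
    intro a b hba
    rcases hba.lt_or_eq with h | rfl
    · exact (hreq a).2.1 _ ⟨b, h, rfl⟩
    · simp
  have htrans : ∀ X Y Z : Set ℕ, (X \ Y).Finite → (Y \ Z).Finite → (X \ Z).Finite := by
    intro X Y Z h1 h2
    refine (h1.union h2).subset ?_
    rintro x ⟨hx, hx'⟩
    by_cases h : x ∈ Y
    · exact Or.inr ⟨h, hx'⟩
    · exact Or.inl ⟨hx, h⟩
  let F : Filter ℕ :=
    { sets := {B | ∃ a, (A a \ B).Finite}
      univ_sets := ⟨e.symm ∅, by simp⟩
      sets_of_superset := by
        rintro X Y ⟨a, ha⟩ hXY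
        exact ⟨a, ha.subset (Set.sdiff_subset_sdiff_right hXY)⟩
      inter_sets := by
        rintro X Y ⟨a, ha⟩ ⟨b, hb⟩
        refine ⟨max a b, ?_⟩
        rw [Set.sdiff_inter]
        exact (htrans _ _ _ (hAle _ _ (le_max_left a b)) ha).union
          (htrans _ _ _ (hAle _ _ (le_max_right a b)) hb) }
  have hF : ∀ B, B ∈ F ↔ ∃ a, (A a \ B).Finite := fun B => Iff.rfl
  have hult : ∀ s, sᶜ ∉ F ↔ s ∈ F := by
    intro s
    constructor
    · intro h
      obtain ⟨a, ha⟩ := e.surjective s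
      rcases (hreq a).2.2.1 with h1 | h1
      · refine (hF s).2 ⟨a, ?_⟩
        rw [ha] at h1
        rw [Set.sdiff_eq_empty.2 h1]
        exact Set.finite_empty
      · exfalso
        apply h
        refine (hF _).2 ⟨a, ?_⟩
        rw [ha] at h1
        rw [Set.sdiff_eq_empty.2 h1]
        exact Set.finite_empty
    · intro h1 h2
      have h3 := F.inter_sets h1 h2
      rw [Set.inter_compl_self] at h3
      obtain ⟨a, ha⟩ := h3
      rw [Set.sdiff_empty] at ha
      exact hAinf a ha
  refine ⟨Ultrafilter.ofComplNotMemIff F hult, ?_, ?_, ?_⟩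
  · intro n hn
    obtain ⟨a, ha⟩ := (hF _).1 hn
    apply hAinf a
    refine (ha.union (Set.finite_singleton n)).subset ?_
    intro x hx
    by_cases h : x ∈ ({n} : Set ℕ)
    · exact Or.inr h
    · exact Or.inl ⟨hx, h⟩
  · intro S hS hSW
    have h1 : ∀ X : S, ∃ a, (A a \ X.1).Finite := fun X => (hF _).1 (hSW X.1 X.2)
    choose a ha using h1
    have hb : ∃ c : TT, ∀ X : S, a X ≤ c := by
      by_contra hcon
      push Not at hcon
      have hcof : IsCofinal (Set.range a) := by
        intro c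
        obtain ⟨X, hX⟩ := hcon c
        exact ⟨a X, ⟨X, rfl⟩, hX.le⟩
      have h2 : Order.cof TT ≤ Cardinal.aleph0 := by
        refine (Order.cof_le hcof).trans ?_
        rw [Cardinal.le_aleph0_iff_set_countable]
        have : Countable S := hS.to_subtype
        exact Set.countable_range a
      rw [Ordinal.cof_toType] at h2
      have h3 : Cardinal.aleph0 < (Cardinal.continuum.{0}).ord.cof := by
        rw [← Cardinal.two_power_aleph0]
        exact Cardinal.lt_cof_ord_power le_rfl (by norm_num)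
      exact absurd h2 (not_le.2 h3)
    obtain ⟨c, hc⟩ := hb
    refine ⟨A c, (hF _).2 ⟨c, by simp⟩, fun X hX => ?_⟩
    exact htrans _ _ _ (hAle c _ (hc ⟨X, hX⟩)) (ha ⟨X, hX⟩)
  · intro D hD
    obtain ⟨a, ha⟩ := e.surjective D
    have h1 := (hreq a).2.2.2
    rw [ha] at h1
    rcases h1 with h1 | ⟨B, hB, C, hC, hBC⟩
    · apply h1
      rw [← hD]
      exact (hF _).2 ⟨a, by simp [hA]⟩
    · rw [← hD] at hB hC
      have h3 := F.inter_sets hB hC
      rw [Set.disjoint_iff_inter_eq_empty.1 hBC] at h3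
      obtain ⟨a, ha⟩ := h3
      rw [Set.sdiff_empty] at ha
      exact hAinf a ha

end Pool.Agent.H341Q.TU
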