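import Mathlib

set_option autoImplicit false

/-! Almost disjoint families of vector subspaces coded by block sequences. -/

namespace Pool.Agent.H341Q.VMad

variable {F : Type} [Field F]

/-- The number of `h`-segments of a vector: the number of elements `i` of its support such that
the next element of the support, if any, is larger than `h i`. -/
def segs (h : ℕ → ℕ) (v : ℕ →₀ F) : ℕ :=
  (v.support.filter fun i => ∀ j ∈ v.support, i < j → h i < j).card

/-- The list of the first `n + 1` terms of a sequence. -/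
def pre (y : ℕ → (ℕ →₀ F)) (n : ℕ) : List (ℕ →₀ F) := (List.range (n + 1)).map y

/-- The code of a list of vectors. -/
def cd (h : ℕ → ℕ) (f : List (ℕ →₀ F) → ℕ) (l : List (ℕ →₀ F)) : ℕ :=
  Nat.pair (f l) ((l.map (segs h)).sum)

/-- Coded block sequences. -/
structure Coded (h : ℕ → ℕ) (f : List (ℕ →₀ F) → ℕ) (y : ℕ → (ℕ →₀ F)) : Prop where
  ne : y 0 ≠ 0
  blk : ∀ n, ∀ i ∈ (y n).support, ∀ j ∈ (y (n + 1)).support, i < j
  lo : ∀ n, 4 ^ cd h f (pre y n) ≤ segs h (y (n + 1))
  hi : ∀ n, segs h (y (n + 1)) < 2 * 4 ^ cd h f (pre y n)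

theorem segs_zero (h : ℕ → ℕ) : segs h (0 : ℕ →₀ F) = 0 := by
  simp [segs]

theorem segs_pos (h : ℕ → ℕ) {v : ℕ →₀ F} (hv : v ≠ 0) : 1 ≤ segs h v := by
  have hne : v.support.Nonempty := Finsupp.support_nonempty_iff.2 hv
  unfold segs
  rw [Nat.one_le_iff_ne_zero, ← Nat.pos_iff_ne_zero, Finset.card_pos]
  refine ⟨v.support.max' hne, ?_⟩
  rw [Finset.mem_filter]
  refine ⟨Finset.max'_mem _ _, fun j hj hlt => ?_⟩
  exact absurd (Finset.le_max' _ j hj) (not_le.2 hlt)

theorem Coded.ne_zero {h : ℕ → ℕ} {f : List (ℕ →₀ F) → ℕ} {y : ℕ → (ℕ →₀ F)}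
    (hy : Coded h f y) (n : ℕ) : y n ≠ 0 := by
  cases n with
  | zero => exact hy.ne
  | succ n =>
    intro h0
    have := hy.lo n
    rw [h0, segs_zero] at this
    have h4 : 0 < 4 ^ cd h f (pre y n) := by positivity
    omega

theorem Coded.lt {h : ℕ → ℕ} {f : List (ℕ →₀ F) → ℕ} {y : ℕ → (ℕ →₀ F)}
    (hy : Coded h f y) {m n : ℕ} (hmn : m < n) : ∀ i ∈ (y m).support, ∀ j ∈ (y n).support, i < j := by
  induction n with
  | zero => omega
  | succ n ih =>
    intro i hi j hj
    rcases Nat.lt_or_ge m n with h1 | h1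
    · obtain ⟨k, hk⟩ := Finsupp.support_nonempty_iff.2 (hy.ne_zero n)
      exact lt_trans (ih h1 i hi k hk) (hy.blk n k hk j hj)
    · have : m = n := by omega
      subst this
      exact hy.blk m i hi j hj

theorem Coded.ge {h : ℕ → ℕ} {f : List (ℕ →₀ F) → ℕ} {y : ℕ → (ℕ →₀ F)}
    (hy : Coded h f y) (n : ℕ) : ∀ j ∈ (y n).support, n ≤ j := by
  induction n with
  | zero => intro j _; exact Nat.zero_le j
  | succ n ih =>
    intro j hj
    obtain ⟨k, hk⟩ := Finsupp.support_nonempty_iff.2 (hy.ne_zero n)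
    have := ih k hk
    have := hy.blk n k hk j hj
    omega

theorem Coded.disj {h : ℕ → ℕ} {f : List (ℕ →₀ F) → ℕ} {y : ℕ → (ℕ →₀ F)}
    (hy : Coded h f y) {m n : ℕ} (hmn : m ≠ n) : Disjoint (y m).support (y n).support := by
  rw [Finset.disjoint_left]
  intro i hi hj
  rcases Nat.lt_or_gt_of_ne hmn with h1 | h1
  · exact lt_irrefl _ (hy.lt h1 i hi i hj)
  · exact lt_irrefl _ (hy.lt h1 i hj i hi)

theorem Coded.support_sum {h : ℕ → ℕ} {f : List (ℕ →₀ F) → ℕ} {y : ℕ → (ℕ →₀ F)}
    (hy : Coded h f y) (c : ℕ →₀ F) :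
    (c.sum fun i a => a • y i).support = c.support.biUnion fun i => (y i).support := by
  classical
  have h1 : (c.sum fun i a => a • y i) = ∑ i ∈ c.support, (c i • y i) := rfl
  rw [h1, Finsupp.support_sum_eq_biUnion]
  · ext j
    simp only [Finset.mem_biUnion]
    constructor
    · rintro ⟨i, hi, hj⟩
      exact ⟨i, hi, Finsupp.support_smul hj⟩
    · rintro ⟨i, hi, hj⟩
      refine ⟨i, hi, ?_⟩
      rw [Finsupp.mem_support_iff] at hi hj ⊢
      simpa [Finsupp.smul_apply] using ⟨hi, hj⟩
  · intro i j hij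
    exact Finset.disjoint_of_subset_left Finsupp.support_smul
      (Finset.disjoint_of_subset_right Finsupp.support_smul (hy.disj hij))

/-- Bounds for the number of segments of a vector of the span. -/
theorem Coded.log_segs {h : ℕ → ℕ} {f : List (ℕ →₀ F) → ℕ} {y : ℕ → (ℕ →₀ F)}
    (hy : Coded h f y) (c : ℕ →₀ F) (n : ℕ) (hn : n + 1 ∈ c.support)
    (hmax : ∀ i ∈ c.support, i ≤ n + 1) :
    Nat.log 4 (segs h (c.sum fun i a => a • y i)) = cd h f (pre y n) := by
  classical
  set v := c.sum fun i a => a • y i with hv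
  have hs : v.support = c.support.biUnion fun i => (y i).support := hy.support_sum c
  set K := cd h f (pre y n) with hK
  have hlow : segs h (y (n + 1)) ≤ segs h v := by
    unfold segs
    apply Finset.card_le_card
    intro i hi
    rw [Finset.mem_filter] at hi ⊢
    rw [hs]
    refine ⟨Finset.mem_biUnion.2 ⟨n + 1, hn, hi.1⟩, fun j hj hlt => ?_⟩
    obtain ⟨k, hk, hjk⟩ := Finset.mem_biUnion.1 hj
    rcases Nat.lt_or_ge k (n + 1) with h1 | h1
    · exact absurd (hy.lt h1 j hjk i hi.1) (not_lt.2 hlt.le)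
    · have : k = n + 1 := le_antisymm (hmax k hk) h1
      subst this
      exact hi.2 j hjk hlt
  have hup : segs h v ≤ ∑ i ∈ Finset.range (n + 2), segs h (y i) := by
    have h1 : (v.support.filter fun i => ∀ j ∈ v.support, i < j → h i < j) ⊆
        (Finset.range (n + 2)).biUnion fun k =>
          ((y k).support.filter fun i => ∀ j ∈ (y k).support, i < j → h i < j) := by
      intro i hi
      rw [Finset.mem_filter] at hi
      have hi1 := hi.1
      rw [hs] at hi1
      obtain ⟨k, hk, hik⟩ := Finset.mem_biUnion.1 hi1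
      refine Finset.mem_biUnion.2 ⟨k, Finset.mem_range.2 ?_, Finset.mem_filter.2 ⟨hik, ?_⟩⟩
      · have := hmax k hk; omega
      · intro j hj hlt
        refine hi.2 j ?_ hlt
        rw [hs]
        exact Finset.mem_biUnion.2 ⟨k, hk, hj⟩
    calc segs h v ≤ _ := Finset.card_le_card h1
      _ ≤ _ := Finset.card_biUnion_le
  have hsum : ∑ i ∈ Finset.range (n + 1), segs h (y i) ≤ K := by
    have h1 : ((pre y n).map (segs h)).sum = ∑ i ∈ Finset.range (n + 1), segs h (y i) := by
      unfold pre
      rw [List.map_map]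
      rfl
    rw [← h1]
    exact Nat.right_le_pair _ _
  have hK4 : K < 4 ^ K := Nat.lt_pow_self (by norm_num)
  have hlo := hy.lo n
  have hhi := hy.hi n
  rw [← hK] at hlo hhi
  rw [Finset.sum_range_succ] at hup
  have hlast : y (n + 1) = y (n + 1) := rfl
  have h3 : segs h v < 4 ^ (K + 1) := by
    rw [pow_succ]
    omega
  exact Nat.log_eq_of_pow_le_of_lt_pow (by omega) h3

theorem mem_span_iff {y : ℕ → (ℕ →₀ F)} {v : ℕ →₀ F} :
    v ∈ Submodule.span F (Set.range y) ↔ ∃ c : ℕ →₀ F, (c.sum fun i a => a • y i) = v :=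
  Finsupp.mem_span_range_iff_exists_finsupp

theorem Coded.indep {h : ℕ → ℕ} {f : List (ℕ →₀ F) → ℕ} {y : ℕ → (ℕ →₀ F)}
    (hy : Coded h f y) : LinearIndependent F y := by
  rw [linearIndependent_iff]
  intro l hl
  rw [Finsupp.linearCombination_apply] at hl
  by_contra hne
  obtain ⟨i, hi⟩ := Finsupp.support_nonempty_iff.2 hne
  obtain ⟨j, hj⟩ := Finsupp.support_nonempty_iff.2 (hy.ne_zero i)
  have hs := hy.support_sum l
  rw [hl] at hs
  have : j ∈ l.support.biUnion fun i => (y i).support := Finset.mem_biUnion.2 ⟨i, hi, hj⟩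
  rw [← hs] at this
  simp at this

theorem Coded.not_finite {h : ℕ → ℕ} {f : List (ℕ →₀ F) → ℕ} {y : ℕ → (ℕ →₀ F)}
    (hy : Coded h f y) : ¬ FiniteDimensional F (Submodule.span F (Set.range y)) := by
  intro hfd
  have h1 := linearIndependent_span hy.indep
  have h2 : Finite ℕ := h1.finite
  exact _root_.not_finite ℕ

/-- Two different coded sequences have almost disjoint spans. -/
theorem Coded.ad {h : ℕ → ℕ} {f : List (ℕ →₀ F) → ℕ} (hf : Function.Injective f)
    {y z : ℕ → (ℕ →₀ F)} (hy : Coded h f y) (hz : Coded h f z) (hne : y ≠ z) :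
    FiniteDimensional F
      ↥(Submodule.span F (Set.range y) ⊓ Submodule.span F (Set.range z)) := by
  classical
  obtain ⟨i0, hi0⟩ : ∃ i, y i ≠ z i := Function.ne_iff.1 hne
  set S : Set (ℕ →₀ F) := {z 0} ∪ y '' (Set.Iic i0) with hS
  have hSfin : S.Finite := (Set.finite_singleton _).union ((Set.finite_Iic i0).image y)
  have hle : Submodule.span F (Set.range y) ⊓ Submodule.span F (Set.range z) ≤
      Submodule.span F S := by
    rintro v ⟨hvy, hvz⟩
    obtain ⟨c, hc⟩ := mem_span_iff.1 hvy
    obtain ⟨d, hd⟩ := mem_span_iff.1 hvz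
    by_cases hv0 : v = 0
    · rw [hv0]; exact Submodule.zero_mem _
    have hc0 : c.support.Nonempty := by
      rw [Finsupp.support_nonempty_iff]
      rintro rfl
      apply hv0
      rw [← hc]; simp
    have hd0 : d.support.Nonempty := by
      rw [Finsupp.support_nonempty_iff]
      rintro rfl
      apply hv0
      rw [← hd]; simp
    set a := c.support.max' hc0 with ha
    set b := d.support.max' hd0 with hb
    have hamax : ∀ i ∈ c.support, i ≤ a := fun i hi => Finset.le_max' _ i hi
    have hbmax : ∀ i ∈ d.support, i ≤ b := fun i hi => Finset.le_max' _ i hi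
    have hamem : a ∈ c.support := Finset.max'_mem _ _
    have hbmem : b ∈ d.support := Finset.max'_mem _ _
    by_cases hai : a ≤ i0
    · rw [← hc]
      refine Submodule.sum_mem _ fun i hi => Submodule.smul_mem _ _ (Submodule.subset_span ?_)
      exact Or.inr ⟨i, (hamax i hi).trans hai, rfl⟩
    · by_cases hb0 : b = 0
      · rw [← hd]
        refine Submodule.sum_mem _ fun i hi => Submodule.smul_mem _ _ (Submodule.subset_span ?_)
        have : i = 0 := by have := hbmax i hi; omega
        subst this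
        exact Or.inl rfl
      · exfalso
        obtain ⟨n, hn⟩ : ∃ n, a = n + 1 := ⟨a - 1, by omega⟩
        obtain ⟨m, hm⟩ : ∃ m, b = m + 1 := ⟨b - 1, by omega⟩
        have e1 := hy.log_segs c n (hn ▸ hamem) (fun i hi => hn ▸ hamax i hi)
        have e2 := hz.log_segs d m (hm ▸ hbmem) (fun i hi => hm ▸ hbmax i hi)
        rw [hc] at e1
        rw [hd] at e2
        rw [e1] at e2
        unfold cd at e2
        have e3 := hf (Nat.pair_eq_pair.1 e2).1
        have hlen : n = m := by
          have := congrArg List.length e3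
          simpa [pre] using this
        subst hlen
        have hi : i0 ∈ List.range (n + 1) := List.mem_range.2 (by omega)
        unfold pre at e3
        exact hi0 (List.map_inj_left.1 e3 i0 hi)
  have : FiniteDimensional F (Submodule.span F S) := FiniteDimensional.span_of_finite F hSfin
  exact Submodule.finiteDimensional_of_le hle

end Pool.Agent.H341Q.VMad
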