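import Pool.Agent.H341Q.VMadA

set_option autoImplicit false

/-! The family of spans of coded sequences is analytic and catches many subspaces. -/

namespace Pool.Agent.H341Q.VMad

variable {F : Type} [Field F]

section topology

variable [Countable F]

theorem isOpen_dep [TopologicalSpace (ℕ →₀ F)] [DiscreteTopology (ℕ →₀ F)] (n : ℕ)
    (Q : (ℕ → (ℕ →₀ F)) → Prop) (hQ : ∀ y z, (∀ i < n, y i = z i) → Q y → Q z) :
    IsOpen {y | Q y} := by
  rw [isOpen_iff_forall_mem_open]
  intro y hy
  refine ⟨⋂ i ∈ Finset.range n, (fun z : ℕ → (ℕ →₀ F) => z i) ⁻¹' {y i}, ?_, ?_, ?_⟩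
  · intro z hz
    rw [Set.mem_iInter₂] at hz
    exact hQ y z (fun i hi => (hz i (Finset.mem_range.2 hi)).symm) hy
  · exact isOpen_biInter_finset fun i _ =>
      (isOpen_discrete _).preimage (continuous_apply i)
  · rw [Set.mem_iInter₂]
    intro i _
    rfl

theorem isClosed_dep [TopologicalSpace (ℕ →₀ F)] [DiscreteTopology (ℕ →₀ F)] (n : ℕ)
    (Q : (ℕ → (ℕ →₀ F)) → Prop) (hQ : ∀ y z, (∀ i < n, y i = z i) → Q y → Q z) :
    IsClosed {y | Q y} := by
  rw [← isOpen_compl_iff]
  exact isOpen_dep n (fun y => ¬ Q y) fun y z hyz hy hz =>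
    hy (hQ z y (fun i hi => (hyz i hi).symm) hz)

theorem pre_congr {y z : ℕ → (ℕ →₀ F)} {n : ℕ} (h : ∀ i < n + 1, y i = z i) :
    pre y n = pre z n := by
  unfold pre
  exact List.map_congr_left fun i hi => h i (List.mem_range.1 hi)

theorem isClosed_coded [TopologicalSpace (ℕ →₀ F)] [DiscreteTopology (ℕ →₀ F)]
    (h : ℕ → ℕ) (f : List (ℕ →₀ F) → ℕ) : IsClosed {y | Coded h f y} := by
  have h1 : {y | Coded h f y} = {y | y 0 ≠ 0} ∩ (⋂ n, {y : ℕ → (ℕ →₀ F) |
      (∀ i ∈ (y n).support, ∀ j ∈ (y (n + 1)).support, i < j) ∧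
      4 ^ cd h f (pre y n) ≤ segs h (y (n + 1)) ∧
      segs h (y (n + 1)) < 2 * 4 ^ cd h f (pre y n)}) := by
    ext y
    constructor
    · intro hy
      exact ⟨hy.ne, Set.mem_iInter.2 fun n => ⟨hy.blk n, hy.lo n, hy.hi n⟩⟩
    · rintro ⟨h1, h2⟩
      rw [Set.mem_iInter] at h2
      exact ⟨h1, fun n => (h2 n).1, fun n => (h2 n).2.1, fun n => (h2 n).2.2⟩
  rw [h1]
  refine IsClosed.inter (isClosed_dep 1 _ fun y z hyz hy => ?_)
    (isClosed_iInter fun n => isClosed_dep (n + 2) _ fun y z hyz hy => ?_)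
  · rw [← hyz 0 (by norm_num)]
    exact hy
  · have e1 : pre y n = pre z n := pre_congr fun i hi => hyz i (by omega)
    rw [← hyz n (by omega), ← hyz (n + 1) (by omega), ← e1]
    exact hy

/-- The set of characteristic functions of a family of subspaces. -/
def chars (𝒜 : Set (Submodule F (ℕ →₀ F))) : Set ((ℕ →₀ F) → Bool) :=
  {χ | ∃ A ∈ 𝒜, ∀ v, χ v = true ↔ v ∈ A}

/-- The family of spans of coded sequences. -/
def Fam (h : ℕ → ℕ) (f : List (ℕ →₀ F) → ℕ) : Set (Submodule F (ℕ →₀ F)) :=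
  {A | ∃ y, Coded h f y ∧ A = Submodule.span F (Set.range y)}

theorem Coded.mem_iff {h : ℕ → ℕ} {f : List (ℕ →₀ F) → ℕ} {y : ℕ → (ℕ →₀ F)}
    (hy : Coded h f y) (v : ℕ →₀ F) : v ∈ Submodule.span F (Set.range y) ↔
      v ∈ Submodule.span F (y '' {i | i ≤ v.support.sup id}) := by
  classical
  constructor
  · intro hv
    obtain ⟨c, hc⟩ := mem_span_iff.1 hv
    have hs := hy.support_sum c
    rw [hc] at hs
    rw [← hc]
    refine Submodule.sum_mem _ fun i hi => Submodule.smul_mem _ _ (Submodule.subset_span ?_)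
    refine ⟨i, ?_, rfl⟩
    obtain ⟨j, hj⟩ := Finsupp.support_nonempty_iff.2 (hy.ne_zero i)
    have h1 : j ∈ v.support := by
      rw [hs]
      exact Finset.mem_biUnion.2 ⟨i, hi, hj⟩
    have h2 : j ≤ v.support.sup id := Finset.le_sup (f := id) h1
    have h3 := hy.ge i j hj
    have h4 : i ≤ v.support.sup id := h3.trans h2
    rw [hc]
    exact h4
  · intro hv
    exact Submodule.span_mono (Set.image_subset_range _ _) hv

theorem analytic (h : ℕ → ℕ) (f : List (ℕ →₀ F) → ℕ) :
    MeasureTheory.AnalyticSet (chars (Fam (F := F) h f)) := by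
  classical
  letI : TopologicalSpace (ℕ →₀ F) := ⊥
  haveI : DiscreteTopology (ℕ →₀ F) := ⟨rfl⟩
  let g : (ℕ → (ℕ →₀ F)) → ((ℕ →₀ F) → Bool) := fun y v =>
    decide (v ∈ Submodule.span F (y '' {i | i ≤ v.support.sup id}))
  have hg : Continuous g := by
    refine continuous_pi fun v => ?_
    rw [continuous_def]
    intro s _
    refine isOpen_dep (v.support.sup id + 1) (fun y => g y v ∈ s) fun y z hyz hy => ?_
    have e1 : y '' {i | i ≤ v.support.sup id} = z '' {i | i ≤ v.support.sup id} :=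
      Set.image_congr fun i hi => hyz i (Nat.lt_succ_of_le hi)
    have e2 : g y v = g z v := by
      show decide _ = decide _
      rw [e1]
    rw [← e2]
    exact hy
  have h1 : chars (Fam (F := F) h f) = g '' {y | Coded h f y} := by
    ext χ
    constructor
    · rintro ⟨A, ⟨y, hy, rfl⟩, hA⟩
      refine ⟨y, hy, ?_⟩
      funext v
      rw [Bool.eq_iff_iff, hA v, hy.mem_iff v]
      exact decide_eq_true_iff
    · rintro ⟨y, hy, rfl⟩
      refine ⟨_, ⟨y, hy, rfl⟩, fun v => ?_⟩
      rw [hy.mem_iff v]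
      exact decide_eq_true_iff
  rw [h1]
  have : PolishSpace (ℕ →₀ F) := {}
  exact (isClosed_coded h f).analyticSet.image_of_continuous hg

end topology

theorem segs_add (h : ℕ → ℕ) {u w : ℕ →₀ F}
    (huw : ∀ i ∈ u.support, ∀ j ∈ w.support, i < j ∧ h i < j) :
    segs h (u + w) = segs h u + segs h w := by
  classical
  have hd : Disjoint u.support w.support := by
    rw [Finset.disjoint_left]
    intro i hi hj
    exact lt_irrefl _ (huw i hi i hj).1
  have hs : (u + w).support = u.support ∪ w.support := Finsupp.support_add_eq hd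
  unfold segs
  have h1 : ((u + w).support.filter fun i => ∀ j ∈ (u + w).support, i < j → h i < j) =
      (u.support.filter fun i => ∀ j ∈ u.support, i < j → h i < j) ∪
      (w.support.filter fun i => ∀ j ∈ w.support, i < j → h i < j) := by
    ext i
    rw [Finset.mem_union, Finset.mem_filter, Finset.mem_filter, Finset.mem_filter, hs,
      Finset.mem_union]
    constructor
    · rintro ⟨h1 | h1, h2⟩
      · exact Or.inl ⟨h1, fun j hj => h2 j (Finset.mem_union_left _ hj)⟩
      · exact Or.inr ⟨h1, fun j hj => h2 j (Finset.mem_union_right _ hj)⟩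
    · rintro (⟨h1, h2⟩ | ⟨h1, h2⟩)
      · refine ⟨Or.inl h1, fun j hj hlt => ?_⟩
        rcases Finset.mem_union.1 hj with h3 | h3
        · exact h2 j h3 hlt
        · exact (huw i h1 j h3).2
      · refine ⟨Or.inr h1, fun j hj hlt => ?_⟩
        rcases Finset.mem_union.1 hj with h3 | h3
        · exact absurd (huw j h3 i h1).1 (not_lt.2 hlt.le)
        · exact h2 j h3 hlt
  rw [h1, Finset.card_union_of_disjoint]
  exact Finset.disjoint_of_subset_left (Finset.filter_subset _ _)
    (Finset.disjoint_of_subset_right (Finset.filter_subset _ _) hd)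

/-- `X` contains vectors with at most `k` segments arbitrarily far out. -/
def Tame (h : ℕ → ℕ) (k : ℕ) (X : Submodule F (ℕ →₀ F)) : Prop :=
  ∀ m, ∃ v ∈ X, v ≠ 0 ∧ (∀ i ∈ v.support, m ≤ i) ∧ segs h v ≤ k

theorem Tame.exists_segs {h : ℕ → ℕ} {k : ℕ} {X : Submodule F (ℕ →₀ F)} (hX : Tame h k X)
    (m T : ℕ) : ∃ v ∈ X, (∀ i ∈ v.support, m ≤ i) ∧ T ≤ segs h v ∧ segs h v < T + k := by
  classical
  have hk : 1 ≤ k := by
    obtain ⟨v, _, hv, _, hvk⟩ := hX 0
    exact (segs_pos h hv).trans hvk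
  induction T with
  | zero =>
    refine ⟨0, X.zero_mem, by simp, Nat.zero_le _, ?_⟩
    rw [segs_zero]
    omega
  | succ T ih =>
    obtain ⟨v, hvX, hvm, h1, h2⟩ := ih
    by_cases h3 : T + 1 ≤ segs h v
    · exact ⟨v, hvX, hvm, h3, by omega⟩
    · obtain ⟨u, huX, hu0, hum, huk⟩ := hX (m + (v.support.sup fun i => i + h i) + 1)
      have hsep : ∀ i ∈ v.support, ∀ j ∈ u.support, i < j ∧ h i < j := by
        intro i hi j hj
        have e1 := hum j hj
        have e2 : i + h i ≤ v.support.sup fun i => i + h i :=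
          Finset.le_sup (f := fun i => i + h i) hi
        constructor <;> omega
      have e3 := segs_add h hsep
      have e4 := segs_pos h hu0
      refine ⟨v + u, X.add_mem hvX huX, ?_, by omega, by omega⟩
      intro i hi
      rcases Finset.mem_union.1 (Finsupp.support_add hi) with h4 | h4
      · exact hvm i h4
      · have := hum i h4
        omega

/-- Tame subspaces contain members of the family. -/
theorem Tame.catch {h : ℕ → ℕ} {k : ℕ} {X : Submodule F (ℕ →₀ F)} (hX : Tame h k X)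
    (f : List (ℕ →₀ F) → ℕ) : ∃ A ∈ Fam h f, A ≤ X := by
  classical
  have hk : 1 ≤ k := by
    obtain ⟨v, _, hv, _, hvk⟩ := hX 0
    exact (segs_pos h hv).trans hvk
  have step : ∀ l : List (ℕ →₀ F), ∃ v ∈ X, (∀ u ∈ l, ∀ i ∈ u.support, ∀ j ∈ v.support, i < j) ∧
      (k ≤ cd h f l → 4 ^ cd h f l ≤ segs h v ∧ segs h v < 2 * 4 ^ cd h f l) := by
    intro l
    obtain ⟨v, hv, h1, h2, h3⟩ := hX.exists_segs
      ((l.map fun u => u.support.sup id).sum + 1) (4 ^ cd h f l)
    refine ⟨v, hv, fun u hu i hi j hj => ?_, fun hkl => ⟨h2, ?_⟩⟩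
    · have e1 : i ≤ u.support.sup id := Finset.le_sup (f := id) hi
      have e2 : u.support.sup id ≤ (l.map fun u => u.support.sup id).sum :=
        List.single_le_sum (fun x _ => Nat.zero_le x) _ (List.mem_map.2 ⟨u, hu, rfl⟩)
      have e3 := h1 j hj
      omega
    · have e1 : cd h f l < 4 ^ cd h f l := Nat.lt_pow_self (by norm_num)
      omega
  choose nx hnX hnb hns using step
  obtain ⟨v0, hv0X, -, hv0k, -⟩ := hX.exists_segs 0 k
  let H : ℕ → List (ℕ →₀ F) := fun n => Nat.rec [v0] (fun _ l => l ++ [nx l]) n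
  let y : ℕ → (ℕ →₀ F) := fun n => Nat.casesOn n v0 (fun n => nx (H n))
  have hH : ∀ n, H n = pre y n := by
    intro n
    induction n with
    | zero => rfl
    | succ n ih =>
      have e1 : H (n + 1) = H n ++ [nx (H n)] := rfl
      have e2 : pre y (n + 1) = pre y n ++ [y (n + 1)] := by
        unfold pre
        rw [List.range_succ, List.map_append]
        rfl
      rw [e1, e2, ih]
      have e3 : y (n + 1) = nx (H n) := rfl
      rw [e3, ih]
  have hy : ∀ n, y (n + 1) = nx (pre y n) := fun n => by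
    have e3 : y (n + 1) = nx (H n) := rfl
    rw [e3, hH]
  have hmem : ∀ n i, i ≤ n → y i ∈ pre y n := fun n i hi =>
    List.mem_map.2 ⟨i, List.mem_range.2 (Nat.lt_succ_of_le hi), rfl⟩
  have hcd : ∀ n, k ≤ cd h f (pre y n) := by
    intro n
    have e1 : segs h (y 0) ≤ ((pre y n).map (segs h)).sum :=
      List.single_le_sum (fun x _ => Nat.zero_le x) _
        (List.mem_map.2 ⟨y 0, hmem n 0 (Nat.zero_le n), rfl⟩)
    have e2 : ((pre y n).map (segs h)).sum ≤ cd h f (pre y n) := Nat.right_le_pair _ _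
    have e3 : y 0 = v0 := rfl
    rw [e3] at e1
    omega
  have hcoded : Coded h f y := by
    refine ⟨?_, ?_, ?_, ?_⟩
    · have e3 : y 0 = v0 := rfl
      rw [e3]
      rintro rfl
      rw [segs_zero] at hv0k
      omega
    · intro n i hi j hj
      rw [hy n] at hj
      exact hnb (pre y n) (y n) (hmem n n le_rfl) i hi j hj
    · intro n
      rw [hy n]
      exact (hns (pre y n) (hcd n)).1
    · intro n
      rw [hy n]
      exact (hns (pre y n) (hcd n)).2
  refine ⟨_, ⟨y, hcoded, rfl⟩, ?_⟩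
  rw [Submodule.span_le]
  rintro _ ⟨n, rfl⟩
  cases n with
  | zero => exact hv0X
  | succ n =>
    rw [hy n]
    exact hnX _

end Pool.Agent.H341Q.VMad
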