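import Pool.Agent.H341Q.VMadB

set_option autoImplicit false

/-! The family is Borel; countably many given subspaces can be tamed simultaneously. -/

open MeasureTheory

namespace Pool.Agent.H341Q.VMad

variable {F : Type} [Field F]

theorem Coded.span_inj {h : ℕ → ℕ} {f : List (ℕ →₀ F) → ℕ} (hf : Function.Injective f)
    {y z : ℕ → (ℕ →₀ F)} (hy : Coded h f y) (hz : Coded h f z)
    (he : Submodule.span F (Set.range y) = Submodule.span F (Set.range z)) : y = z := by
  by_contra hne
  have h1 := hy.ad hf hz hne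
  rw [← he, inf_idem] at h1
  exact hy.not_finite h1

theorem borel_fam [Countable F] (h : ℕ → ℕ) (f : List (ℕ →₀ F) → ℕ) (hf : Function.Injective f) :
    MeasurableSet[borel ((ℕ →₀ F) → Bool)] (chars (Fam (F := F) h f)) := by
  classical
  letI : TopologicalSpace (ℕ →₀ F) := ⊥
  have : DiscreteTopology (ℕ →₀ F) := ⟨rfl⟩
  let g : (ℕ → (ℕ →₀ F)) → ((ℕ →₀ F) → Bool) := fun y v =>
    decide (v ∈ Submodule.span F (y '' {i | i ≤ v.support.sup id}))
  have hg : Continuous g := by
    refine continuous_pi fun v => ?_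
    rw [continuous_def]
    intro s _
    refine isOpen_dep (v.support.sup id + 1) (fun y => g y v ∈ s) fun y z hyz hy => ?_
    have e1 : y '' {i | i ≤ v.support.sup id} = z '' {i | i ≤ v.support.sup id} :=
      Set.image_congr fun i hi => hyz i (Nat.lt_succ_of_le hi)
    have e2 : g y v = g z v := by
      show decide _ = decide _
      rw [e1]
    rw [← e2]
    exact hy
  have hgc : ∀ y, Coded h f y → ∀ v, g y v = true ↔ v ∈ Submodule.span F (Set.range y) := by
    intro y hy v
    rw [hy.mem_iff v]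
    exact decide_eq_true_iff
  have h1 : chars (Fam (F := F) h f) = g '' {y | Coded h f y} := by
    ext χ
    constructor
    · rintro ⟨A, ⟨y, hy, rfl⟩, hA⟩
      refine ⟨y, hy, ?_⟩
      funext v
      rw [Bool.eq_iff_iff, hA v, hgc y hy v]
    · rintro ⟨y, hy, rfl⟩
      exact ⟨_, ⟨y, hy, rfl⟩, fun v => hgc y hy v⟩
  have hinj : Set.InjOn g {y | Coded h f y} := by
    intro y hy z hz hyz
    refine hy.span_inj hf hz ?_
    ext v
    rw [← hgc y hy v, ← hgc z hz v, hyz]
  rw [h1]
  have : PolishSpace (ℕ →₀ F) := {}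
  letI : MeasurableSpace ((ℕ →₀ F) → Bool) := borel _
  have : BorelSpace ((ℕ →₀ F) → Bool) := ⟨rfl⟩
  exact (isClosed_coded h f).measurableSet_image_of_continuousOn_injOn hg.continuousOn hinj

/-- An infinite-dimensional subspace contains nonzero vectors arbitrarily far out. -/
theorem exists_far {X : Submodule F (ℕ →₀ F)} (hX : ¬ FiniteDimensional F X) (m : ℕ) :
    ∃ v ∈ X, v ≠ 0 ∧ ∀ i ∈ v.support, m ≤ i := by
  classical
  by_contra hno
  push Not at hno
  apply hX
  let p : X →ₗ[F] (Fin m → F) :=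
    { toFun := fun v i => (v : ℕ →₀ F) i
      map_add' := fun u v => by funext i; simp
      map_smul' := fun a v => by funext i; simp }
  have hp : Function.Injective p := by
    rw [injective_iff_map_eq_zero]
    intro v hv
    by_contra hv0
    obtain ⟨i, hi, hlt⟩ := hno v v.2 (fun h0 => hv0 (Subtype.ext h0))
    have h1 : p v ⟨i, hlt⟩ = 0 := by rw [hv]; rfl
    rw [Finsupp.mem_support_iff] at hi
    exact hi h1
  exact FiniteDimensional.of_injective p hp

/-- Countably many infinite-dimensional subspaces are tame for a common `h`. -/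
theorem exists_tame (X : ℕ → Submodule F (ℕ →₀ F)) (hX : ∀ n, ¬ FiniteDimensional F (X n)) :
    ∃ h : ℕ → ℕ, ∀ n, Tame h 1 (X n) := by
  classical
  choose w hwX hw0 hwm using fun n m => exists_far (hX n) m
  let h : ℕ → ℕ := fun i =>
    (Finset.range (i + 1) ×ˢ Finset.range (i + 1)).sup fun p => (w p.1 p.2).support.sup id
  have hle : ∀ n m i, n ≤ i → m ≤ i → (w n m).support.sup id ≤ h i := by
    intro n m i hn hm
    have h1 : (n, m) ∈ Finset.range (i + 1) ×ˢ Finset.range (i + 1) :=
      Finset.mem_product.2 ⟨Finset.mem_range.2 (Nat.lt_succ_of_le hn),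
        Finset.mem_range.2 (Nat.lt_succ_of_le hm)⟩
    exact Finset.le_sup (f := fun p : ℕ × ℕ => (w p.1 p.2).support.sup id) h1
  refine ⟨h, fun n m => ⟨w n (max m n), hwX _ _, hw0 _ _, fun i hi => ?_, ?_⟩⟩
  · exact (le_max_left m n).trans (hwm _ _ i hi)
  · unfold segs
    rw [Finset.card_le_one]
    have key : ∀ a ∈ (w n (max m n)).support.filter
        (fun i => ∀ j ∈ (w n (max m n)).support, i < j → h i < j),
        ∀ b ∈ (w n (max m n)).support, b ≤ a := by
      intro a ha b hb
      rw [Finset.mem_filter] at ha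
      by_contra hlt
      have h1 := ha.2 b hb (not_le.1 hlt)
      have h2 := hwm n (max m n) a ha.1
      have h3 := hle n (max m n) a ((le_max_right m n).trans h2) h2
      have h4 : b ≤ (w n (max m n)).support.sup id := Finset.le_sup (f := id) hb
      omega
    intro a ha b hb
    exact le_antisymm (key b hb a (Finset.mem_filter.1 ha).1) (key a ha b (Finset.mem_filter.1 hb).1)

/-- The coordinate subspaces of infinite sets are tame for every `h`. -/
theorem tame_coord (h : ℕ → ℕ) {P : Set ℕ} (hP : P.Infinite) :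
    Tame h 1 (Finsupp.supported F F P) := by
  classical
  intro m
  obtain ⟨i, hi, hmi⟩ := hP.exists_gt m
  refine ⟨Finsupp.single i 1, Finsupp.single_mem_supported F 1 hi, ?_, ?_, ?_⟩
  · simp
  · intro j hj
    have := Finsupp.support_single_subset hj
    rw [Finset.mem_singleton] at this
    omega
  · unfold segs
    refine (Finset.card_filter_le _ _).trans ?_
    exact (Finset.card_le_card Finsupp.support_single_subset).trans (by simp)

theorem tame_bounded (h : ℕ → ℕ) (k : ℕ) {X : Submodule F (ℕ →₀ F)}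
    (hX : ∀ m, ∃ v ∈ X, v ≠ 0 ∧ (∀ i ∈ v.support, m ≤ i) ∧ v.support.card ≤ k) :
    Tame h k X := by
  intro m
  obtain ⟨v, h1, h2, h3, h4⟩ := hX m
  exact ⟨v, h1, h2, h3, (Finset.card_filter_le _ _).trans h4⟩

theorem fam_infinite (h : ℕ → ℕ) (f : List (ℕ →₀ F) → ℕ) : (Fam (F := F) h f).Infinite := by
  classical
  let P : ℕ → Set ℕ := fun k => Set.range fun j => Nat.pair k j
  have hP : ∀ k, (P k).Infinite := fun k =>
    Set.infinite_range_of_injective fun a b hab => (Nat.pair_eq_pair.1 hab).2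
  choose A hA hAX using fun k => (tame_coord (F := F) h (hP k)).catch f
  have hinj : Function.Injective A := by
    intro k l hkl
    by_contra hne
    have h1 : A k ≤ Finsupp.supported F F (P k) ⊓ Finsupp.supported F F (P l) :=
      le_inf (hAX k) (hkl ▸ hAX l)
    have h2 : Disjoint (P k) (P l) := by
      rw [Set.disjoint_left]
      rintro _ ⟨a, rfl⟩ ⟨b, hb⟩
      exact hne (Nat.pair_eq_pair.1 hb).1.symm
    have h3 : Disjoint (Finsupp.supported F F (P k)) (Finsupp.supported F F (P l)) :=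
      Finsupp.disjoint_supported_supported h2
    have h4 : A k = ⊥ := by
      rw [eq_bot_iff]
      exact h1.trans h3.le_bot
    obtain ⟨y, hy, he⟩ := hA k
    apply hy.not_finite
    rw [← he, h4]
    infer_instance
  exact (Set.infinite_range_of_injective hinj).mono (by rintro _ ⟨k, rfl⟩; exact hA k)

theorem Tame.mono {h h' : ℕ → ℕ} {k : ℕ} {X : Submodule F (ℕ →₀ F)} (hX : Tame h k X)
    (hh : ∀ᶠ i in Filter.atTop, h i ≤ h' i) : Tame h' k X := by
  intro m
  obtain ⟨m0, hm0⟩ := Filter.eventually_atTop.1 hh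
  obtain ⟨v, h1, h2, h3, h4⟩ := hX (max m m0)
  refine ⟨v, h1, h2, fun i hi => (le_max_left m m0).trans (h3 i hi), le_trans ?_ h4⟩
  unfold segs
  apply Finset.card_le_card
  intro i hi
  rw [Finset.mem_filter] at hi ⊢
  refine ⟨hi.1, fun j hj hlt => ?_⟩
  have e1 := hi.2 j hj hlt
  have e2 := hm0 i ((le_max_right m m0).trans (h3 i hi.1))
  omega

theorem main [Countable F] (h : ℕ → ℕ) :
    ∃ 𝒜 : Set (Submodule F (ℕ →₀ F)),
      MeasurableSet[borel ((ℕ →₀ F) → Bool)] {χ | ∃ A ∈ 𝒜, ∀ v, χ v = true ↔ v ∈ A} ∧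
      𝒜.Infinite ∧
      (∀ A ∈ 𝒜, ¬ FiniteDimensional F A) ∧
      (∀ A ∈ 𝒜, ∀ B ∈ 𝒜, A ≠ B → FiniteDimensional F ↥(A ⊓ B)) ∧
      (∀ (k : ℕ) (X : Submodule F (ℕ →₀ F)), Tame h k X → ∃ A ∈ 𝒜, A ≤ X) := by
  obtain ⟨f, hf⟩ := exists_injective_nat (List (ℕ →₀ F))
  refine ⟨Fam h f, borel_fam h f hf, fam_infinite h f, ?_, ?_, fun k X hX => hX.catch f⟩
  · rintro A ⟨y, hy, rfl⟩
    exact hy.not_finite
  · rintro A ⟨y, hy, rfl⟩ B ⟨z, hz, rfl⟩ hne
    exact hy.ad hf hz fun hyz => hne (by rw [hyz])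

end Pool.Agent.H341Q.VMad
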